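import Pool.Agent.Lib.MP_32fd1f_co.Defs

set_option autoImplicit false

namespace Pool.Agent.CDC36

open Finset

variable {V : Type} [Fintype V] [DecidableEq V]


theorem mem_supp {E : Finset (Sym2 V)} {v : V} : v ∈ supp E ↔ ∃ e ∈ E, v ∈ e := by
  simp [supp]

theorem mem_supp_iff_deg {E : Finset (Sym2 V)} {v : V} : v ∈ supp E ↔ deg E v ≠ 0 := by
  rw [mem_supp, deg, card_ne_zero]
  constructor
  · rintro ⟨e, he, hv⟩
    exact ⟨e, mem_filter.2 ⟨he, hv⟩⟩
  · rintro ⟨e, he⟩
    exact ⟨e, (mem_filter.1 he).1, (mem_filter.1 he).2⟩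

theorem mk_mem_cut {E : Finset (Sym2 V)} {κ : V → Bool} {a b : V} :
    s(a, b) ∈ cut E κ ↔ s(a, b) ∈ E ∧ κ a ≠ κ b := by
  simp [cut]

theorem cut_eq_empty {E : Finset (Sym2 V)} {κ : V → Bool} :
    cut E κ = ∅ ↔ ∀ a b, s(a, b) ∈ E → κ a = κ b := by
  constructor
  · intro h a b hab
    by_contra hne
    have : s(a, b) ∈ cut E κ := mk_mem_cut.2 ⟨hab, hne⟩
    rw [h] at this
    exact notMem_empty _ this
  · intro h
    refine eq_empty_of_forall_notMem fun e => ?_
    induction e using Sym2.ind with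
    | _ a b => exact fun he => (mk_mem_cut.1 he).2 (h a b (mk_mem_cut.1 he).1)

theorem deg_mono {X Y : Finset (Sym2 V)} (h : X ⊆ Y) (v : V) : deg X v ≤ deg Y v := by
  exact card_le_card (filter_subset_filter _ h)

theorem deg_union {X Y : Finset (Sym2 V)} (h : Disjoint X Y) (v : V) :
    deg (X ∪ Y) v = deg X v + deg Y v := by
  unfold deg
  rw [filter_union, card_union_of_disjoint (disjoint_filter_filter h)]

theorem deg_sdiff {X Y : Finset (Sym2 V)} (h : Y ⊆ X) (v : V) :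
    deg (X \ Y) v + deg Y v = deg X v := by
  rw [← deg_union sdiff_disjoint, sdiff_union_of_subset h]

theorem even_deg_symmDiff (X Y : Finset (Sym2 V)) (v : V) :
    Even (deg (symmDiff X Y) v + deg X v + deg Y v) := by
  have h1 : deg (symmDiff X Y) v = deg (X \ Y) v + deg (Y \ X) v := by
    rw [← deg_union disjoint_sdiff_sdiff]
    rfl
  have h2 := deg_sdiff (inter_subset_left : X ∩ Y ⊆ X) v
  have h3 := deg_sdiff (inter_subset_right : X ∩ Y ⊆ Y) v
  rw [sdiff_inter_self_left] at h2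
  rw [sdiff_inter_self_right] at h3
  exact ⟨deg (X \ Y) v + deg (Y \ X) v + deg (X ∩ Y) v, by omega⟩

theorem Link.mono {X Y : Finset (Sym2 V)} (h : X ⊆ Y) {a b : V} (hl : Link X a b) :
    Link Y a b := by
  intro κ hκ
  exact hl κ (cut_eq_empty.2 fun p q hpq => cut_eq_empty.1 hκ p q (h hpq))

theorem Link.refl (X : Finset (Sym2 V)) (a : V) : Link X a a := by
  exact fun _ _ => rfl

theorem Link.symm {X : Finset (Sym2 V)} {a b : V} (h : Link X a b) : Link X b a := by
  exact fun κ hκ => (h κ hκ).symm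

theorem Link.trans {X : Finset (Sym2 V)} {a b c : V} (h : Link X a b) (h' : Link X b c) :
    Link X a c := by
  exact fun κ hκ => (h κ hκ).trans (h' κ hκ)

theorem Link.edge {X : Finset (Sym2 V)} {a b : V} (h : s(a, b) ∈ X) : Link X a b := by
  exact fun κ hκ => cut_eq_empty.1 hκ a b h

theorem EC.mono {k l : ℕ} {E : Finset (Sym2 V)} (h : EC k E) (hl : l ≤ k) : EC l E := by
  exact fun κ h1 h2 => hl.trans (h κ h1 h2)

theorem EC.conn {k : ℕ} {E : Finset (Sym2 V)} (h : EC k E) (hk : 1 ≤ k) : Conn E := by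
  intro a ha b hb κ hκ
  by_contra hne
  have key : ∀ x ∈ supp E, ∀ y ∈ supp E, κ x = true → κ y = false → False := by
    intro x hx y hy h1 h2
    have := h κ ⟨x, hx, h1⟩ ⟨y, hy, h2⟩
    rw [hκ, card_empty] at this
    omega
  cases h1 : κ a <;> cases h2 : κ b
  · exact hne (h1.trans h2.symm)
  · exact key b hb a ha h2 h1
  · exact key a ha b hb h1 h2
  · exact hne (h1.trans h2.symm)

theorem Circ.isEven {C : Finset (Sym2 V)} (h : Circ C) : IsEven C := by
  intro v
  rcases h.2.2.1 v with h0 | h0 <;> rw [h0] <;> decide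

theorem FCDC.subset {E : Finset (Sym2 V)} {F : Finset (Finset (Sym2 V))} (h : FCDC E F)
    {C : Finset (Sym2 V)} (hC : C ∈ F) : C ⊆ E := by
  intro e he
  by_contra hne
  have h1 := h.2 e
  rw [if_neg hne, card_eq_zero] at h1
  have : C ∈ F.filter (fun C => e ∈ C) := mem_filter.2 ⟨hC, he⟩
  rw [h1] at this
  exact notMem_empty _ this

theorem FCDC.mcdc {E : Finset (Sym2 V)} {F : Finset (Finset (Sym2 V))} (h : FCDC E F) :
    MCDC E F.val := by
  refine ⟨fun C hC => h.1 C hC, fun e => ?_⟩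
  rw [← h.2 e, Multiset.countP_eq_card_filter]
  rfl

/-- the second face at an edge of `C` -/
theorem FCDC.other {E : Finset (Sym2 V)} {F : Finset (Finset (Sym2 V))} (h : FCDC E F)
    {C : Finset (Sym2 V)} (hC : C ∈ F) {e : Sym2 V} (he : e ∈ C) :
    ∃ A ∈ F, A ≠ C ∧ e ∈ A ∧ ∀ B ∈ F, e ∈ B → B = C ∨ B = A := by
  have h1 := h.2 e
  rw [if_pos (h.subset hC he), card_eq_two] at h1
  obtain ⟨x, y, hxy, hs⟩ := h1
  have hm : ∀ B, B ∈ F ∧ e ∈ B ↔ B = x ∨ B = y := fun B => by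
    rw [← mem_filter (p := fun C => e ∈ C), hs]
    simp
  rcases (hm C).1 ⟨hC, he⟩ with rfl | rfl
  · exact ⟨y, ((hm y).2 (Or.inr rfl)).1, hxy.symm, ((hm y).2 (Or.inr rfl)).2,
      fun B hB heB => (hm B).1 ⟨hB, heB⟩⟩
  · exact ⟨x, ((hm x).2 (Or.inl rfl)).1, hxy, ((hm x).2 (Or.inl rfl)).2,
      fun B hB heB => ((hm B).1 ⟨hB, heB⟩).symm⟩

theorem nbr3 {E : Finset (Sym2 V)} (hE : Cubic E) {u a : V} (h : s(u, a) ∈ E) :
    ∃ b c, a ≠ b ∧ a ≠ c ∧ b ≠ c ∧ u ≠ a ∧ u ≠ b ∧ u ≠ c ∧ s(u, b) ∈ E ∧ s(u, c) ∈ E ∧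
      ∀ e ∈ E, u ∈ e → e = s(u, a) ∨ e = s(u, b) ∨ e = s(u, c) := by
  have hu : deg E u = 3 := by
    rcases hE.2 u with h0 | h0
    · exact absurd h0 (mem_supp_iff_deg.1 (mem_supp.2 ⟨_, h, Sym2.mem_mk_left _ _⟩))
    · exact h0
  have hm : s(u, a) ∈ E.filter (fun e => u ∈ e) := mem_filter.2 ⟨h, Sym2.mem_mk_left _ _⟩
  have h2 : ((E.filter (fun e => u ∈ e)).erase s(u, a)).card = 2 := by
    rw [card_erase_of_mem hm]
    unfold deg at hu
    omega
  obtain ⟨x, y, hxy, hs⟩ := card_eq_two.1 h2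
  have hx : x ∈ (E.filter (fun e => u ∈ e)).erase s(u, a) := by rw [hs]; simp
  have hy : y ∈ (E.filter (fun e => u ∈ e)).erase s(u, a) := by rw [hs]; simp
  simp only [mem_erase, mem_filter] at hx hy
  obtain ⟨b, rfl⟩ := Sym2.mem_iff_exists.1 hx.2.2
  obtain ⟨c, rfl⟩ := Sym2.mem_iff_exists.1 hy.2.2
  have nl : ∀ z, s(u, z) ∈ E → u ≠ z := fun z hz huz => hE.1 _ hz (Sym2.mk_isDiag_iff.2 huz)
  refine ⟨b, c, fun e => hx.1 (by rw [e]), fun e => hy.1 (by rw [e]), fun e => hxy (by rw [e]),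
    nl a h, nl b hx.2.1, nl c hy.2.1, hx.2.1, hy.2.1, fun e he hue => ?_⟩
  by_cases hea : e = s(u, a)
  · exact Or.inl hea
  · have : e ∈ (E.filter (fun e => u ∈ e)).erase s(u, a) :=
      mem_erase.2 ⟨hea, mem_filter.2 ⟨he, hue⟩⟩
    rw [hs] at this
    exact Or.inr (by simpa using this)

/-- three distinct neighbours are all the neighbours -/
theorem nbr_sat {E : Finset (Sym2 V)} (hE : Cubic E) {u a b c : V} (ha : s(u, a) ∈ E)
    (hb : s(u, b) ∈ E) (hc : s(u, c) ∈ E) (hab : a ≠ b) (hac : a ≠ c) (hbc : b ≠ c) :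
    ∀ e ∈ E, u ∈ e → e = s(u, a) ∨ e = s(u, b) ∨ e = s(u, c) := by
  have hu : deg E u = 3 := by
    rcases hE.2 u with h0 | h0
    · exact absurd h0 (mem_supp_iff_deg.1 (mem_supp.2 ⟨_, ha, Sym2.mem_mk_left _ _⟩))
    · exact h0
  have hsub : ({s(u, a), s(u, b), s(u, c)} : Finset (Sym2 V)) ⊆ E.filter (fun e => u ∈ e) := by
    intro e he
    simp only [mem_insert, mem_singleton] at he
    rcases he with rfl | rfl | rfl
    · exact mem_filter.2 ⟨ha, Sym2.mem_mk_left _ _⟩
    · exact mem_filter.2 ⟨hb, Sym2.mem_mk_left _ _⟩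
    · exact mem_filter.2 ⟨hc, Sym2.mem_mk_left _ _⟩
  have hcard : ({s(u, a), s(u, b), s(u, c)} : Finset (Sym2 V)).card = 3 :=
    card_eq_three.2 ⟨_, _, _, fun e => hab (Sym2.congr_right.1 e),
      fun e => hac (Sym2.congr_right.1 e), fun e => hbc (Sym2.congr_right.1 e), rfl⟩
  have heq := eq_of_subset_of_card_le hsub (by rw [hcard]; exact hu.le)
  intro e he hue
  have : e ∈ E.filter (fun e => u ∈ e) := mem_filter.2 ⟨he, hue⟩
  rw [← heq] at this
  simpa using this

theorem Basicx.sum_deg (X : Finset (Sym2 V)) (S : Finset V) :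
    ∑ v ∈ S, deg X v = ∑ e ∈ X, (S.filter (fun v => v ∈ e)).card := by
  unfold deg
  simp only [card_filter]
  exact sum_comm

theorem Basicx.card_edge (S : Finset V) {a b : V} (hab : a ≠ b) :
    (S.filter (fun v => v ∈ s(a, b))).card = (if a ∈ S then 1 else 0) + if b ∈ S then 1 else 0 := by
  have : S.filter (fun v => v ∈ s(a, b)) = S.filter (fun v => v = a) ∪ S.filter (fun v => v = b) := by
    ext v
    simp only [mem_filter, Sym2.mem_iff, mem_union]
    tauto
  rw [this, card_union_of_disjoint, filter_eq', filter_eq']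
  · split_ifs <;> simp
  · rw [disjoint_filter]
    exact fun v _ h1 h2 => hab (h1.symm.trans h2)

theorem par {X : Finset (Sym2 V)} (hX : NoLoop X) (κ : V → Bool) :
    Even ((cut X κ).card + ∑ v ∈ univ.filter (fun v => κ v = true), deg X v) := by
  rw [Basicx.sum_deg, cut, card_filter, ← sum_add_distrib]
  refine even_sum _ fun e he => ?_
  have hd := hX e he
  induction e using Sym2.ind with
  | _ a b =>
    have hab : a ≠ b := fun h => hd (Sym2.mk_isDiag_iff.2 h)
    rw [Basicx.card_edge _ hab]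
    cases h1 : κ a <;> cases h2 : κ b <;> simp [h1, h2]

theorem evencut {X : Finset (Sym2 V)} (hX : NoLoop X) (he : IsEven X) (κ : V → Bool) :
    Even (cut X κ).card := by
  have h1 := par hX κ
  have h2 : Even (∑ v ∈ univ.filter (fun v => κ v = true), deg X v) :=
    even_sum _ fun v _ => he v
  exact (Nat.even_add.1 h1).2 h2

theorem hs {X : Finset (Sym2 V)} (hX : NoLoop X) {a b : V} (h : Ends X a b) : Link X a b := by
  intro κ hκ
  have key : ∀ (κ : V → Bool) (x y : V), cut X κ = ∅ → (∀ z, Odd (deg X z) ↔ Xor' (z = x) (z = y)) →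
      κ x = true → κ y = false → False := by
    intro κ x y hκ hz h1 h2
    have hp := par hX κ
    rw [hκ, card_empty, zero_add] at hp
    have hxy : x ≠ y := fun e => by rw [e, h2] at h1; exact Bool.false_ne_true h1
    have hx : x ∈ univ.filter (fun v => κ v = true) := mem_filter.2 ⟨mem_univ _, h1⟩
    rw [← add_sum_erase _ _ hx] at hp
    have ho : Odd (deg X x) := (hz x).2 (Or.inl ⟨rfl, hxy⟩)
    have he : Even (∑ v ∈ (univ.filter (fun v => κ v = true)).erase x, deg X v) := by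
      refine even_sum _ fun v hv => Nat.not_odd_iff_even.1 fun hodd => ?_
      obtain ⟨hvx, hv⟩ := mem_erase.1 hv
      rcases (hz v).1 hodd with h3 | h3
      · exact hvx h3.1
      · have h4 := (mem_filter.1 hv).2
        rw [h3.1, h2] at h4
        exact Bool.false_ne_true h4
    exact Nat.not_even_iff_odd.2 ho ((Nat.even_add.1 hp).2 he)
  cases h1 : κ a <;> cases h2 : κ b
  · rfl
  · exact (key κ b a hκ (fun z => (h z).trans Or.comm) h2 h1).elim
  · exact (key κ a b hκ h h1 h2).elim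
  · rfl

theorem cubic_card {E : Finset (Sym2 V)} (hE : Cubic E) : 2 * E.card = 3 * (supp E).card := by
  have h1 : ∑ v ∈ supp E, deg E v = 3 * (supp E).card := by
    rw [mul_comm, ← smul_eq_mul, ← sum_const]
    exact sum_congr rfl fun v hv => (hE.2 v).resolve_left (mem_supp_iff_deg.1 hv)
  rw [← h1, Basicx.sum_deg, mul_comm, ← smul_eq_mul, ← sum_const]
  refine sum_congr rfl fun e he => ?_
  have hd := hE.1 e he
  induction e using Sym2.ind with
  | _ a b =>
    have hab : a ≠ b := fun h => hd (Sym2.mk_isDiag_iff.2 h)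
    rw [Basicx.card_edge _ hab, if_pos (mem_supp.2 ⟨_, he, Sym2.mem_mk_left _ _⟩),
      if_pos (mem_supp.2 ⟨_, he, Sym2.mem_mk_right _ _⟩)]

end Pool.Agent.CDC36
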