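import Pool.Agent.Lib.MP_32fd1f_co.Basic

set_option autoImplicit false

namespace Pool.Agent.CDC36

open Finset

variable {V : Type} [Fintype V] [DecidableEq V]

omit [Fintype V] [DecidableEq V] in
private theorem bridge_const (G : SimpleGraph V) (κ : V → Bool) (W : Set V)
    (hW : (G.induce W).Connected)
    (hT : ∀ x y, G.Adj x y → κ x = true → κ y = false → x ∉ W) {c b : V} (hc : c ∈ W)
    (hb : b ∈ W) : κ c = κ b := by
  have key : ∀ (x y : W) (_ : (G.induce W).Walk x y), κ x.1 = κ y.1 := by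
    intro x y p
    induction p with
    | nil => rfl
    | @cons x z y hxz _ ih =>
      have hadj : G.Adj x.1 z.1 := hxz
      rw [← ih]
      cases hx : κ x.1 <;> cases hz : κ z.1
      · rfl
      · exact absurd z.2 (hT _ _ hadj.symm hz hx)
      · exact absurd x.2 (hT _ _ hadj hx hz)
      · rfl
  obtain ⟨p⟩ := hW.preconnected ⟨c, hc⟩ ⟨b, hb⟩
  exact key _ _ p

/-- With at most two cut edges there is a set `T` of true points, not larger than the cut,
holding the true end of every cut edge, and two distinct true points `c ∉ T` and `d`. -/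
private theorem bridge_side (G : SimpleGraph V) [DecidableRel G.Adj] (h : ∀ v, G.degree v = 3)
    (κ : V → Bool) {a : V} (ha : κ a = true) (hk : (cut G.edgeFinset κ).card ≤ 2) :
    ∃ T : Finset V, T.card ≤ (cut G.edgeFinset κ).card ∧ (∀ x ∈ T, κ x = true) ∧
      (∀ x y, G.Adj x y → κ x = true → κ y = false → x ∈ T) ∧
      ∃ c d, κ c = true ∧ κ d = true ∧ c ∉ T ∧ c ≠ d := by
  classical
  set P : Finset (V × V) :=
    univ.filter (fun p => G.Adj p.1 p.2 ∧ κ p.1 = true ∧ κ p.2 = false) with hP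
  have hmem : ∀ p : V × V, p ∈ P ↔ G.Adj p.1 p.2 ∧ κ p.1 = true ∧ κ p.2 = false := by
    intro p; simp [hP]
  have hPc : P.card ≤ (cut G.edgeFinset κ).card := by
    apply Finset.card_le_card_of_injOn (fun p : V × V => s(p.1, p.2))
    · intro p hp
      obtain ⟨h1, h2, h3⟩ := (hmem p).1 (Finset.mem_coe.1 hp)
      refine Finset.mem_coe.2 (mk_mem_cut.2 ⟨?_, ?_⟩)
      · exact SimpleGraph.mem_edgeFinset.2 h1
      · rw [h2, h3]; decide
    · intro p hp q hq hpq
      obtain ⟨_, h2, h3⟩ := (hmem p).1 (Finset.mem_coe.1 hp)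
      obtain ⟨_, h5, h6⟩ := (hmem q).1 (Finset.mem_coe.1 hq)
      rcases Sym2.eq_iff.1 hpq with ⟨e1, e2⟩ | ⟨e1, _⟩
      · exact Prod.ext e1 e2
      · rw [e1, h6] at h2; exact absurd h2 (by decide)
  have hT : ∀ x y, G.Adj x y → κ x = true → κ y = false → x ∈ P.image Prod.fst := by
    intro x y h1 h2 h3
    exact Finset.mem_image.2 ⟨(x, y), (hmem _).2 ⟨h1, h2, h3⟩, rfl⟩
  refine ⟨P.image Prod.fst, Finset.card_image_le.trans hPc, ?_, hT, ?_⟩
  · intro x hx
    obtain ⟨p, hp, rfl⟩ := Finset.mem_image.1 hx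
    exact ((hmem p).1 hp).2.1
  have hc : ∃ c, κ c = true ∧ c ∉ P.image Prod.fst := by
    by_contra hcon
    have hall : ∀ c, ∃ y, κ c = true → (c, y) ∈ P := by
      intro c
      by_cases hc : κ c = true
      · have : c ∈ P.image Prod.fst := by
          by_contra hn
          exact hcon ⟨c, hc, hn⟩
        obtain ⟨p, hp, rfl⟩ := Finset.mem_image.1 this
        exact ⟨p.2, fun _ => hp⟩
      · exact ⟨c, fun h' => absurd h' hc⟩
    choose g hg using hall
    have h3 : (G.neighborFinset a).card ≤ P.card := by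
      apply Finset.card_le_card_of_injOn (fun y => if κ y = true then (y, g y) else (a, y))
      · intro y hy
        have hadj : G.Adj a y := by simpa using hy
        by_cases hy' : κ y = true
        · simp only [hy', if_true]
          exact Finset.mem_coe.2 (hg y hy')
        · simp only [hy']
          exact Finset.mem_coe.2 ((hmem _).2 ⟨hadj, ha, by simpa using hy'⟩)
      · intro y hy z hz hyz
        have hay : G.Adj a y := by simpa using hy
        have haz : G.Adj a z := by simpa using hz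
        by_cases hy' : κ y = true <;> by_cases hz' : κ z = true
        · simp only [hy', hz', if_true] at hyz
          exact (Prod.ext_iff.1 hyz).1
        · simp only [hy', hz', if_true] at hyz
          exact absurd (Prod.ext_iff.1 hyz).1.symm hay.ne
        · simp only [hy', hz', if_true] at hyz
          exact absurd (Prod.ext_iff.1 hyz).1 haz.ne
        · simp only [hy', hz'] at hyz
          exact (Prod.ext_iff.1 hyz).2
    rw [SimpleGraph.card_neighborFinset_eq_degree, h a] at h3
    omega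
  obtain ⟨c, hc1, hc2⟩ := hc
  have hne : (G.neighborFinset c).Nonempty := by
    rw [← Finset.card_pos, SimpleGraph.card_neighborFinset_eq_degree, h c]; decide
  obtain ⟨d, hd⟩ := hne
  have hadj : G.Adj c d := by simpa using hd
  refine ⟨c, d, hc1, ?_, hc2, hadj.ne⟩
  cases hd' : κ d
  · exact absurd (hT c d hadj hc1 hd') hc2
  · rfl

theorem bridge0 (G : SimpleGraph V) [DecidableRel G.Adj] (h : ∀ v, G.degree v = 3) :
    Cubic G.edgeFinset ∧ supp G.edgeFinset = univ := by
  have hd : ∀ v, deg G.edgeFinset v = 3 := by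
    intro v
    rw [← h v, ← G.card_incidenceFinset_eq_degree v, G.incidenceFinset_eq_filter v]
    rfl
  refine ⟨⟨fun e he => ?_, fun v => Or.inr (hd v)⟩, ?_⟩
  · exact G.not_isDiag_of_mem_edgeSet (SimpleGraph.mem_edgeFinset.1 he)
  · refine Finset.eq_univ_iff_forall.2 fun v => mem_supp_iff_deg.2 ?_
    rw [hd v]; decide

theorem bridge2 (G : SimpleGraph V) [DecidableRel G.Adj] (h : ∀ v, G.degree v = 3)
    (h2 : ∀ v : V, (G.induce {w : V | w ≠ v}).Connected) : EC 2 G.edgeFinset := by
  rintro κ ⟨a, _, ha⟩ ⟨b, _, hb⟩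
  by_contra hlt
  obtain ⟨T, hTc, hTt, hT, c, d, hc, hd, hcT, hcd⟩ := bridge_side G h κ ha (by omega)
  have hu : ∃ u, κ u = true ∧ c ≠ u ∧ ∀ x ∈ T, x = u := by
    rcases T.eq_empty_or_nonempty with rfl | ⟨t, ht⟩
    · exact ⟨d, hd, hcd, fun x hx => absurd hx (Finset.notMem_empty x)⟩
    · refine ⟨t, hTt t ht, fun e => hcT (e ▸ ht), fun x hx => ?_⟩
      exact Finset.card_le_one.1 (by omega) x hx t ht
  obtain ⟨u, hu1, hu2, hu3⟩ := hu
  have hbu : b ≠ u := fun e => by rw [e, hu1] at hb; exact absurd hb (by decide)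
  have := bridge_const G κ _ (h2 u)
    (fun x y h1 h2 h3 hx => hx (hu3 x (hT x y h1 h2 h3))) (c := c) (b := b) hu2 hbu
  rw [hc, hb] at this
  exact absurd this (by decide)

theorem bridge3 (G : SimpleGraph V) [DecidableRel G.Adj] (h : ∀ v, G.degree v = 3)
    (h3 : ∀ u v : V, (G.induce {w : V | w ≠ u ∧ w ≠ v}).Connected) : EC 3 G.edgeFinset := by
  rintro κ ⟨a, _, ha⟩ ⟨b, _, hb⟩
  by_contra hlt
  obtain ⟨T, hTc, hTt, hT, c, d, hc, hd, hcT, hcd⟩ := bridge_side G h κ ha (by omega)
  have hu : ∃ u v, κ u = true ∧ κ v = true ∧ c ≠ u ∧ c ≠ v ∧ ∀ x ∈ T, x = u ∨ x = v := by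
    rcases T.eq_empty_or_nonempty with rfl | ⟨t, ht⟩
    · exact ⟨d, d, hd, hd, hcd, hcd, fun x hx => absurd hx (Finset.notMem_empty x)⟩
    · have hct : c ≠ t := fun e => hcT (e ▸ ht)
      rcases (T.erase t).eq_empty_or_nonempty with he | ⟨t', ht'⟩
      · refine ⟨t, t, hTt t ht, hTt t ht, hct, hct, fun x hx => Or.inl ?_⟩
        by_contra hne
        have : x ∈ T.erase t := Finset.mem_erase.2 ⟨hne, hx⟩
        rw [he] at this
        exact absurd this (Finset.notMem_empty x)
      · have ht'' : t' ∈ T := Finset.mem_of_mem_erase ht'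
        refine ⟨t, t', hTt t ht, hTt t' ht'', hct, fun e => hcT (e ▸ ht''), fun x hx => ?_⟩
        by_cases hxt : x = t
        · exact Or.inl hxt
        · right
          have hce := Finset.card_erase_of_mem ht
          exact Finset.card_le_one.1 (by omega) x (Finset.mem_erase.2 ⟨hxt, hx⟩) t' ht'
  obtain ⟨u, v, hu1, hv1, hu2, hv2, hu3⟩ := hu
  have hbu : b ≠ u := fun e => by rw [e, hu1] at hb; exact absurd hb (by decide)
  have hbv : b ≠ v := fun e => by rw [e, hv1] at hb; exact absurd hb (by decide)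
  have := bridge_const G κ _ (h3 u v)
    (fun x y h1 h2 h3 hx => (hu3 x (hT x y h1 h2 h3)).elim hx.1 hx.2) (c := c) (b := b)
    ⟨hu2, hv2⟩ ⟨hbu, hbv⟩
  rw [hc, hb] at this
  exact absurd this (by decide)

end Pool.Agent.CDC36
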