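import Mathlib

namespace Pool.Agent.Lib.MP_32fd1f_co.CDCFlow

open Finset

set_option linter.unusedSectionVars false

variable {V H : Type} [Fintype V] [Fintype H] [DecidableEq V] [DecidableEq H]

lemma sum_vx {M : Type} [AddCommMonoid M] (vx : H → V) (g : H → M) (R : Finset V) :
    ∑ v ∈ R, ∑ h with vx h = v, g h = ∑ h with vx h ∈ R, g h := by
  rw [← Finset.sum_fiberwise_of_maps_to (s := univ.filter fun h => vx h ∈ R) (t := R) (g := vx)
    (fun h hh => (mem_filter.1 hh).2)]
  refine Finset.sum_congr rfl fun v hv => Finset.sum_congr ?_ fun _ _ => rfl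
  ext h
  simp only [mem_filter, mem_univ, true_and]
  exact ⟨fun e => ⟨e ▸ hv, e⟩, fun e => e.2⟩

lemma sum_cut (vx : H → V) (op : H → H) (hop : ∀ h, op (op h) = h) (hne : ∀ h, op h ≠ h)
    (φ : H → ℤ) (ha : ∀ h, φ (op h) = -φ h) (R : Finset V) :
    ∑ v ∈ R, ∑ h with vx h = v, φ h = ∑ h with vx h ∈ R ∧ vx (op h) ∉ R, φ h := by
  rw [sum_vx, ← Finset.sum_filter_add_sum_filter_not _ (fun h => vx (op h) ∈ R),
    Finset.filter_filter, Finset.filter_filter]
  have : ∑ h with vx h ∈ R ∧ vx (op h) ∈ R, φ h = 0 :=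
    Finset.sum_involution (fun h _ => op h) (fun h _ => by rw [ha]; ring) (fun h _ _ => hne h)
      (fun h hh => by
        simp only [mem_filter, mem_univ, true_and, hop] at hh ⊢
        exact hh.symm) (fun h _ => hop h)
  rw [this, zero_add]

lemma sum_ind {M : Type} [AddCommMonoid M] (vx : H → V) (k : H) (a : M) (w : V) :
    ∑ h with vx h = w, (if h = k then a else 0) = if w = vx k then a else 0 := by
  rw [Finset.sum_ite_eq']
  simp [eq_comm]

lemma aug (vx : H → V) (op : H → H) (hop : ∀ h, op (op h) = h) (hne : ∀ h, op h ≠ h)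
    (W : Finset V) (x y : V) (hx : x ∈ W) (k : ℤ) (φ : H → ℤ)
    (ha : ∀ h, φ (op h) = -φ h) (hb : ∀ h, φ h ≤ 1) (hs : ∀ h, vx h ∉ W → φ h = 0)
    (hd : ∀ w, ∑ h with vx h = w, φ h =
      k * ((if w = x then 1 else 0) - (if w = y then 1 else 0)))
    (hc : ∀ R ⊆ W, x ∈ R → y ∉ R →
      k < ((univ.filter fun h => vx h ∈ R ∧ vx (op h) ∈ W ∧ vx (op h) ∉ R).card : ℤ)) :
    ∃ ψ : H → ℤ, (∀ h, ψ (op h) = -ψ h) ∧ (∀ h, ψ h ≤ 1) ∧ (∀ h, vx h ∉ W → ψ h = 0) ∧
      ∀ w, ∑ h with vx h = w, ψ h =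
        (k + 1) * ((if w = x then 1 else 0) - (if w = y then 1 else 0)) := by
  classical
  let good : Finset V → Prop := fun R => R ⊆ W ∧ x ∈ R ∧ ∀ v ∈ R, ∃ ψ : H → ℤ,
    (∀ h, ψ (op h) = -ψ h) ∧ (∀ h, ψ h ≤ 1) ∧
      (∀ h, ¬ (vx h ∈ R ∧ vx (op h) ∈ R) → ψ h = φ h) ∧
      ∀ w, ∑ h with vx h = w, ψ h = k * ((if w = x then 1 else 0) - (if w = y then 1 else 0)) +
        ((if w = x then 1 else 0) - (if w = v then 1 else 0))
  have g0 : good {x} := ⟨by simpa using hx, by simp, fun v hv => by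
    rw [mem_singleton] at hv
    subst hv
    exact ⟨φ, ha, hb, fun _ _ => rfl, fun w => by rw [hd, sub_self, add_zero]⟩⟩
  obtain ⟨R, hR, hmax⟩ := Finset.exists_max_image (univ.filter good) Finset.card
    ⟨{x}, mem_filter.2 ⟨mem_univ _, g0⟩⟩
  obtain ⟨hRW, hxR, hψ⟩ := (mem_filter.1 hR).2
  by_cases hy : y ∈ R
  · obtain ⟨ψ, a1, a2, a3, a4⟩ := hψ y hy
    exact ⟨ψ, a1, a2, fun h hh => by rw [a3 h fun e => hh (hRW e.1), hs h hh],
      fun w => by rw [a4]; ring⟩
  exfalso
  have sat : ∀ h, vx h ∈ R → vx (op h) ∈ W → vx (op h) ∉ R → φ h = 1 := by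
    intro h h1 h2 h3
    by_contra hne1
    have hle : φ h ≤ 0 := by have := hb h; omega
    have : good (insert (vx (op h)) R) := by
      refine ⟨insert_subset h2 hRW, mem_insert_of_mem hxR, fun v hv => ?_⟩
      rcases mem_insert.1 hv with rfl | hv
      · obtain ⟨ψ, a1, a2, a3, a4⟩ := hψ _ h1
        have e1 : ψ h = φ h := a3 h fun e => h3 e.2
        refine ⟨fun l => ψ l + (if l = h then 1 else 0) - (if l = op h then 1 else 0),
          fun l => ?_, fun l => ?_, fun l hl => ?_, fun w => ?_⟩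
        · have i1 : op l = h ↔ l = op h := ⟨fun e => by rw [← e, hop], fun e => by rw [e, hop]⟩
          have i2 : op l = op h ↔ l = h :=
            ⟨fun e => by rw [← hop l, e, hop], fun e => by rw [e]⟩
          simp only [a1, i1, i2]
          ring
        · have := a2 l
          by_cases e : l = h
          · subst e
            simp only [if_true, if_neg (hne l).symm]
            omega
          · simp only [if_neg e]
            split_ifs <;> omega
        · have n1 : l ≠ h := by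
            rintro rfl
            exact hl ⟨mem_insert_of_mem h1, mem_insert_self _ _⟩
          have n2 : l ≠ op h := by
            rintro rfl
            exact hl ⟨mem_insert_self _ _, by rw [hop]; exact mem_insert_of_mem h1⟩
          simp only [if_neg n1, if_neg n2, add_zero, sub_zero]
          exact a3 l fun e => hl ⟨mem_insert_of_mem e.1, mem_insert_of_mem e.2⟩
        · rw [Finset.sum_sub_distrib, Finset.sum_add_distrib, a4, sum_ind, sum_ind]
          ring
      · obtain ⟨ψ, a1, a2, a3, a4⟩ := hψ v hv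
        exact ⟨ψ, a1, a2, fun l hl =>
          a3 l fun e => hl ⟨mem_insert_of_mem e.1, mem_insert_of_mem e.2⟩, a4⟩
    have := hmax _ (mem_filter.2 ⟨mem_univ _, this⟩)
    rw [card_insert_of_notMem h3] at this
    omega
  have e1 := sum_cut vx op hop hne φ ha R
  have e2 : ∑ v ∈ R, ∑ h with vx h = v, φ h = k := by
    simp only [hd, ← Finset.mul_sum, Finset.sum_sub_distrib, Finset.sum_ite_eq', if_pos hxR,
      if_neg hy]
    ring
  have e3 : ∑ h with vx h ∈ R ∧ vx (op h) ∉ R, φ h =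
      ((univ.filter fun h => vx h ∈ R ∧ vx (op h) ∈ W ∧ vx (op h) ∉ R).card : ℤ) := by
    rw [Finset.card_filter, Finset.sum_filter]
    push_cast
    refine Finset.sum_congr rfl fun h _ => ?_
    by_cases c1 : vx h ∈ R
    · by_cases c2 : vx (op h) ∈ R
      · simp [c2]
      · by_cases c3 : vx (op h) ∈ W
        · simp [c1, c2, c3, sat h c1 c3 c2]
        · have := hs _ c3
          rw [ha] at this
          simp only [c1, c2, c3, not_false_eq_true, and_self, if_true, false_and, and_false,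
            if_false]
          omega
    · simp [c1]
  have := hc R hRW hxR hy
  omega

/-- a connected even subgraph through `x` and `y` -/
lemma closed (vx : H → V) (op : H → H) (hop : ∀ h, op (op h) = h) (hne : ∀ h, op h ≠ h)
    (W : Finset V) (x y : V) (hx : x ∈ W)
    (hc : ∀ R ⊆ W, x ∈ R → y ∉ R →
      2 ≤ (univ.filter fun h => vx h ∈ R ∧ vx (op h) ∈ W ∧ vx (op h) ∉ R).card) :
    ∃ (X : Finset V) (u : H → ZMod 2), X ⊆ W ∧ x ∈ X ∧ y ∈ X ∧ (∀ h, u (op h) = u h) ∧
      (∀ h, u h ≠ 0 → vx h ∈ X) ∧ (∀ w, ∑ h with vx h = w, u h = 0) ∧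
      ∀ v ∈ X, ∃ c : H → ZMod 2, (∀ h, c (op h) = c h) ∧ (∀ h, c h ≠ 0 → u h ≠ 0) ∧
        ∀ w, ∑ h with vx h = w, c h = (if w = x then 1 else 0) + (if w = v then 1 else 0) := by
  classical
  obtain ⟨φ, a1, a2, a3, a4⟩ := aug vx op hop hne W x y hx 0 (fun _ => 0) (by simp) (by simp)
    (by simp) (by simp) (fun R h1 h2 h3 => by have := hc R h1 h2 h3; omega)
  obtain ⟨ψ, b1, b2, b3, b4⟩ := aug vx op hop hne W x y hx (0 + 1) φ a1 a2 a3 a4
    (fun R h1 h2 h3 => by have := hc R h1 h2 h3; omega)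
  let r : V → V → Prop := fun a b => ∃ h, ψ h ≠ 0 ∧ vx h = a ∧ vx (op h) = b
  let X : Finset V := univ.filter fun v => Relation.ReflTransGen r x v
  have mX : ∀ v, v ∈ X ↔ Relation.ReflTransGen r x v := fun v => by simp [X]
  have cl : ∀ h, ψ h ≠ 0 → vx h ∈ X → vx (op h) ∈ X := fun h h1 h2 =>
    (mX _).2 (((mX _).1 h2).tail ⟨h, h1, rfl, rfl⟩)
  have xX : x ∈ X := (mX _).2 Relation.ReflTransGen.refl
  have on : ∀ h, ψ h ≠ 0 → ψ (op h) ≠ 0 := fun h h1 => by rw [b1]; omega
  have cast1 : ∀ h, ψ h ≠ 0 → ((ψ h : ℤ) : ZMod 2) = 1 := fun h h1 => by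
    have h2 := b2 h
    have h3 := b2 (op h)
    rw [b1] at h3
    have : ψ h = 1 ∨ ψ h = -1 := by omega
    rcases this with e | e <;> rw [e] <;> decide
  refine ⟨X, fun h => if ψ h ≠ 0 ∧ vx h ∈ X then 1 else 0, fun v hv => ?_, xX, ?_,
    fun h => ?_, fun h hh => ?_, fun w => ?_, fun v hv => ?_⟩
  · have := (mX v).1 hv
    induction this with
    | refl => exact hx
    | tail _ h2 _ =>
      obtain ⟨h, h1, -, rfl⟩ := h2
      by_contra k
      exact on h h1 (b3 _ k)
  · by_contra hy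
    have e1 := sum_cut vx op hop hne ψ b1 X
    have e2 : ∑ v ∈ X, ∑ h with vx h = v, ψ h = 2 := by
      simp only [b4, ← Finset.mul_sum, Finset.sum_sub_distrib, Finset.sum_ite_eq', if_pos xX,
        if_neg hy]
      ring
    have e3 : ∑ h with vx h ∈ X ∧ vx (op h) ∉ X, ψ h = 0 :=
      Finset.sum_eq_zero fun h hh => by
        by_contra k
        exact (mem_filter.1 hh).2.2 (cl h k (mem_filter.1 hh).2.1)
    omega
  · refine if_congr ⟨fun e => ?_, fun e => ⟨on h e.1, cl h e.1 e.2⟩⟩ rfl rfl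
    have k1 := on _ e.1
    have k2 := cl _ e.1 e.2
    rw [hop] at k1 k2
    exact ⟨k1, k2⟩
  · by_contra k
    exact hh (if_neg fun e => k e.2)
  · by_cases hw : w ∈ X
    · have : ∑ h with vx h = w, (if ψ h ≠ 0 ∧ vx h ∈ X then (1 : ZMod 2) else 0) =
          ((∑ h with vx h = w, ψ h : ℤ) : ZMod 2) := by
        push_cast
        refine Finset.sum_congr rfl fun h hh => ?_
        have e : vx h ∈ X := (mem_filter.1 hh).2 ▸ hw
        by_cases k : ψ h = 0
        · simp [k]
        · rw [if_pos ⟨k, e⟩, cast1 h k]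
      rw [this, b4]
      push_cast
      have : (2 : ZMod 2) = 0 := by decide
      rw [this, zero_mul]
    · exact Finset.sum_eq_zero fun h hh => if_neg fun e => hw ((mem_filter.1 hh).2 ▸ e.2)
  · have := (mX v).1 hv
    clear hv
    induction this with
    | refl =>
      refine ⟨fun _ => 0, fun _ => rfl, fun _ h => absurd rfl h, fun w => ?_⟩
      rw [Finset.sum_const_zero]
      split_ifs <;> decide
    | tail h1 h2 ih =>
      obtain ⟨c, c1, c2, c3⟩ := ih
      obtain ⟨h, k1, rfl, rfl⟩ := h2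
      have hX : vx h ∈ X := (mX _).2 h1
      refine ⟨fun l => c l + (if l = h then 1 else 0) + (if l = op h then 1 else 0),
        fun l => ?_, fun l hl => ?_, fun w => ?_⟩
      · have i1 : op l = h ↔ l = op h := ⟨fun e => by rw [← e, hop], fun e => by rw [e, hop]⟩
        have i2 : op l = op h ↔ l = h :=
          ⟨fun e => by rw [← hop l, e, hop], fun e => by rw [e]⟩
        simp only [c1, i1, i2]
        ring
      · by_cases n1 : l = h
        · rw [n1]
          simp [k1, hX]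
        · by_cases n2 : l = op h
          · rw [n2]
            simp [on h k1, cl h k1 hX]
          · exact c2 l (by simpa [n1, n2] using hl)
      · rw [Finset.sum_add_distrib, Finset.sum_add_distrib, c3, sum_ind, sum_ind]
        split_ifs <;> decide

abbrev A := ZMod 2 × ZMod 2

lemma autA0 : ∀ a b : A, ∃ p q : A, a = 0 ∨ b = 0 ∨ (p.1 * q.2 + p.2 * q.1 ≠ 0 ∧
    a.1 • p + a.2 • q = b) := by
  have : ∀ a b : A, (univ.filter fun r : A × A => a = 0 ∨ b = 0 ∨
      (r.1.1 * r.2.2 + r.1.2 * r.2.1 ≠ 0 ∧ a.1 • r.1 + a.2 • r.2 = b)).card ≠ 0 := by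
    decide +kernel
  intro a b
  obtain ⟨r, hr⟩ := Finset.card_ne_zero.1 (this a b)
  exact ⟨r.1, r.2, (mem_filter.1 hr).2⟩

lemma autA (a b : A) (ha : a ≠ 0) (hb : b ≠ 0) : ∃ p q : A, p.1 * q.2 + p.2 * q.1 ≠ 0 ∧
    a.1 • p + a.2 • q = b := by
  obtain ⟨p, q, h⟩ := autA0 a b
  exact ⟨p, q, (h.resolve_left ha).resolve_left hb⟩

lemma autA' : ∀ p q a : A, p.1 * q.2 + p.2 * q.1 ≠ 0 → a ≠ 0 → a.1 • p + a.2 • q ≠ 0 := by decide

lemma twoA : ∀ d : A, ∃ a b : A, a ≠ 0 ∧ b ≠ 0 ∧ d + a + b = 0 := by decide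

lemma selfA : ∀ d : A, d + d = 0 := by decide

theorem flowW (vx : H → V) (op : H → H) (hop : ∀ h, op (op h) = h) (hne : ∀ h, op h ≠ h)
    (W : Finset V) (hW : ∀ S ⊆ W, S.Nonempty →
      2 ≤ (univ.filter fun h => vx h ∈ S ∧ vx (op h) ∉ S).card) :
    ∃ (p : H → ZMod 2) (q : H → A), (∀ h, p (op h) = p h) ∧ (∀ h, q (op h) = q h) ∧
      (∀ v ∈ W, ∑ h with vx h = v, p h = 0) ∧ (∀ v ∈ W, ∑ h with vx h = v, q h = 0) ∧
      (∀ h, p h ≠ 0 ∨ q h ≠ 0) ∧ ∀ h, vx h ∉ W → p h = 0 := by
  classical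
  induction W using Finset.strongInduction with
  | H W ih =>
  rcases W.eq_empty_or_nonempty with rfl | hWne
  · exact ⟨fun _ => 0, fun _ => (1, 0), fun _ => rfl, fun _ => rfl, by simp, by simp,
      fun _ => Or.inr (by decide : ((1, 0) : A) ≠ 0), fun _ _ => rfl⟩
  by_cases hc : ∃ R ⊆ W, R.Nonempty ∧ R ≠ W ∧
      (univ.filter fun h => vx h ∈ R ∧ vx (op h) ∈ W ∧ vx (op h) ∉ R).card ≤ 1
  · obtain ⟨R, hRW, hRn, hRne, hcard⟩ := hc
    have s1 : R ⊂ W := Finset.ssubset_iff_subset_ne.2 ⟨hRW, hRne⟩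
    have s2 : W \ R ⊂ W := Finset.sdiff_ssubset hRW hRn
    obtain ⟨p1, q1, a1, a2, a3, a4, a5, a6⟩ := ih R s1 fun S hS => hW S (hS.trans hRW)
    obtain ⟨p2, q2, b1, b2, b3, b4, b5, b6⟩ :=
      ih (W \ R) s2 fun S hS => hW S (hS.trans sdiff_subset)
    have z : ∀ h, vx h ∈ R → vx (op h) ∉ R → p1 h = 0 ∧ p2 h = 0 := fun h h1 h2 =>
      ⟨by rw [← a1, a6 _ h2], b6 h (by simp [h1])⟩
    obtain ⟨m, n, hmn, hal⟩ : ∃ m n : A, m.1 * n.2 + m.2 * n.1 ≠ 0 ∧ ∀ h, vx h ∈ R →
        vx (op h) ∈ W → vx (op h) ∉ R → (q2 h).1 • m + (q2 h).2 • n = q1 h := by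
      by_cases he : ∃ h, vx h ∈ R ∧ vx (op h) ∈ W ∧ vx (op h) ∉ R
      · obtain ⟨h, h1, h2, h3⟩ := he
        obtain ⟨m, n, k1, k2⟩ := autA (q2 h) (q1 h)
          ((b5 h).resolve_left (by simp [(z h h1 h3).2]))
          ((a5 h).resolve_left (by simp [(z h h1 h3).1]))
        refine ⟨m, n, k1, fun l l1 l2 l3 => ?_⟩
        have : l = h := Finset.card_le_one.1 hcard l (mem_filter.2 ⟨mem_univ _, l1, l2, l3⟩) h
          (mem_filter.2 ⟨mem_univ _, h1, h2, h3⟩)
        rw [this, k2]
      · exact ⟨(1, 0), (0, 1), by decide, fun h h1 h2 h3 => absurd ⟨h, h1, h2, h3⟩ he⟩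
    have sy : ∀ h, (vx (op h) ∈ R ∨ vx (op (op h)) ∈ R) ↔ (vx h ∈ R ∨ vx (op h) ∈ R) :=
      fun h => by rw [hop, or_comm]
    refine ⟨fun h => if vx h ∈ R ∨ vx (op h) ∈ R then p1 h else p2 h,
      fun h => if vx h ∈ R ∨ vx (op h) ∈ R then q1 h else (q2 h).1 • m + (q2 h).2 • n,
      fun h => if_congr (sy h) (a1 h) (b1 h), fun h => if_congr (sy h) (a2 h) (by rw [b2]),
      fun v hv => ?_, fun v hv => ?_, fun h => ?_, fun h hh => ?_⟩
    · by_cases hvR : v ∈ R
      · rw [← a3 v hvR]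
        exact Finset.sum_congr rfl fun h hh => if_pos (Or.inl ((mem_filter.1 hh).2 ▸ hvR))
      · rw [← b3 v (mem_sdiff.2 ⟨hv, hvR⟩)]
        refine Finset.sum_congr rfl fun h hh => ?_
        have e : vx h = v := (mem_filter.1 hh).2
        beta_reduce
        split_ifs with c
        · have c2 : vx (op h) ∈ R := c.resolve_left (e ▸ hvR)
          have := z (op h) c2 (by rw [hop, e]; exact hvR)
          rw [a1, b1] at this
          rw [this.1, this.2]
        · rfl
    · by_cases hvR : v ∈ R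
      · rw [← a4 v hvR]
        exact Finset.sum_congr rfl fun h hh => if_pos (Or.inl ((mem_filter.1 hh).2 ▸ hvR))
      · have k := b4 v (mem_sdiff.2 ⟨hv, hvR⟩)
        have : ∑ h with vx h = v, ((q2 h).1 • m + (q2 h).2 • n) = 0 := by
          rw [Finset.sum_add_distrib, ← Finset.sum_smul, ← Finset.sum_smul, ← Prod.fst_sum,
            ← Prod.snd_sum, k]
          simp
        rw [← this]
        refine Finset.sum_congr rfl fun h hh => ?_
        have e : vx h = v := (mem_filter.1 hh).2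
        beta_reduce
        split_ifs with c
        · have c2 : vx (op h) ∈ R := c.resolve_left (e ▸ hvR)
          have := hal (op h) c2 (by rw [hop, e]; exact hv) (by rw [hop, e]; exact hvR)
          rw [a2, b2] at this
          exact this.symm
        · rfl
    · beta_reduce
      split_ifs
      · exact a5 h
      · exact (b5 h).imp_right fun k => autA' m n _ hmn k
    · beta_reduce
      split_ifs
      · exact a6 h fun k => hh (hRW k)
      · exact b6 h fun k => hh (mem_sdiff.1 k).1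
  · obtain ⟨e1, he1, e2, he2, hne12⟩ := Finset.one_lt_card.1 (hW W subset_rfl hWne)
    obtain ⟨i1, o1⟩ := (mem_filter.1 he1).2
    obtain ⟨i2, o2⟩ := (mem_filter.1 he2).2
    obtain ⟨X, u, hXW, hx, hy, u1, u2, u3, hch⟩ := closed vx op hop hne W (vx e1) (vx e2) i1
      fun R h1 h2 h3 => by
        by_contra k
        exact hc ⟨R, h1, ⟨_, h2⟩, fun e => h3 (e ▸ i2), by omega⟩
    obtain ⟨p, q, a1, a2, a3, a4, a5, a6⟩ := ih (W \ X) (Finset.sdiff_ssubset hXW ⟨_, hx⟩)
      fun S hS => hW S (hS.trans sdiff_subset)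
    choose! c c1 c2 c3 using hch
    have pz : ∀ h, vx h ∈ X → p h = 0 := fun h hh => a6 h (by simp [hh])
    obtain ⟨a, b, ha, hb, hab⟩ := twoA (∑ v ∈ X, ∑ h with vx h = v, q h + q e1 + q e2)
    let q0 : H → A := fun l => q l + (if l = e1 then q e1 + a else 0) +
      (if l = op e1 then q e1 + a else 0) + (if l = e2 then q e2 + b else 0) +
      (if l = op e2 then q e2 + b else 0)
    have d0 : ∀ w, ∑ h with vx h = w, q0 h = ∑ h with vx h = w, q h +
        (if w = vx e1 then q e1 + a else 0) + (if w = vx (op e1) then q e1 + a else 0) +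
        (if w = vx e2 then q e2 + b else 0) + (if w = vx (op e2) then q e2 + b else 0) :=
      fun w => by simp only [q0, Finset.sum_add_distrib, sum_ind]
    have oX1 : vx (op e1) ∉ X := fun k => o1 (hXW k)
    have oX2 : vx (op e2) ∉ X := fun k => o2 (hXW k)
    have tot : ∑ v ∈ X, ∑ h with vx h = v, q0 h = 0 := by
      simp only [d0, Finset.sum_add_distrib, Finset.sum_ite_eq', if_pos hx, if_pos hy,
        if_neg oX1, if_neg oX2, add_zero]
      rw [← hab]
      abel
    have n12 : e1 ≠ op e2 := fun k => o2 (k ▸ i1)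
    have n21 : e2 ≠ op e1 := fun k => o1 (k ▸ i2)
    have i3 : ∀ l k : H, op l = k ↔ l = op k := fun l k =>
      ⟨fun e => by rw [← e, hop], fun e => by rw [e, hop]⟩
    have q0s : ∀ l, q0 (op l) = q0 l := fun l => by
      simp only [q0, i3, hop, a2]
      abel
    have q0e1 : q0 e1 = a := by
      simp only [q0, if_true, if_neg (hne e1).symm, if_neg hne12, if_neg n12, add_zero]
      rw [← add_assoc, selfA, zero_add]
    have q0e2 : q0 e2 = b := by
      simp only [q0, if_true, if_neg (hne e2).symm, if_neg hne12.symm, if_neg n21, add_zero]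
      rw [← add_assoc, selfA, zero_add]
    let D : V → A := fun v => ∑ h with vx h = v, q0 h
    have gz : ∀ h, u h = 0 → ∑ v ∈ X, c v h • D v = 0 := fun h hh =>
      Finset.sum_eq_zero fun v hv => by
        have : c v h = 0 := by
          by_contra k
          exact c2 v hv h k hh
        rw [this, zero_smul]
    refine ⟨fun h => p h + u h, fun h => q0 h + ∑ v ∈ X, c v h • D v,
      fun h => by beta_reduce; rw [a1, u1], fun h => ?_, fun v hv => ?_, fun w hw => ?_, fun h => ?_,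
      fun h hh => ?_⟩
    · beta_reduce
      rw [q0s]
      congr 1
      exact Finset.sum_congr rfl fun v hv => by rw [c1 v hv]
    · rw [Finset.sum_add_distrib, u3, add_zero]
      by_cases hvX : v ∈ X
      · exact Finset.sum_eq_zero fun h hh => pz h ((mem_filter.1 hh).2 ▸ hvX)
      · exact a3 v (mem_sdiff.2 ⟨hv, hvX⟩)
    · rw [Finset.sum_add_distrib, Finset.sum_comm]
      have : ∑ v ∈ X, ∑ h with vx h = w, c v h • D v =
          (if w = vx e1 then (1 : ZMod 2) else 0) • ∑ v ∈ X, D v + if w ∈ X then D w else 0 := by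
        rw [Finset.smul_sum, ← Finset.sum_ite_eq X w D, ← Finset.sum_add_distrib]
        refine Finset.sum_congr rfl fun v hv => ?_
        rw [← Finset.sum_smul, c3 v hv, add_smul]
        congr 1
        split_ifs <;> simp
      rw [this, tot, smul_zero, zero_add]
      by_cases hwX : w ∈ X
      · rw [if_pos hwX]
        exact selfA _
      · rw [if_neg hwX, add_zero, d0, a4 w (mem_sdiff.2 ⟨hw, hwX⟩),
          if_neg (fun k : w = vx e1 => hwX (k ▸ hx)), if_neg (fun k : w = vx e2 => hwX (k ▸ hy)),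
          if_neg (fun k : w = vx (op e1) => o1 (k ▸ hw)),
          if_neg (fun k : w = vx (op e2) => o2 (k ▸ hw))]
        simp
    · beta_reduce
      by_cases hu : u h = 0
      · rw [gz h hu, hu, add_zero, add_zero]
        by_cases m1 : h = e1
        · exact Or.inr (by rw [m1, q0e1]; exact ha)
        by_cases m2 : h = op e1
        · exact Or.inr (by rw [m2, q0s, q0e1]; exact ha)
        by_cases m3 : h = e2
        · exact Or.inr (by rw [m3, q0e2]; exact hb)
        by_cases m4 : h = op e2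
        · exact Or.inr (by rw [m4, q0s, q0e2]; exact hb)
        simpa [q0, m1, m2, m3, m4] using a5 h
      · exact Or.inl (by rw [pz h (u2 h hu), zero_add]; exact hu)
    · have : u h = 0 := by
        by_contra k
        exact hh (hXW (u2 h k))
      beta_reduce
      rw [this, a6 h fun k => hh (mem_sdiff.1 k).1, add_zero]

/-- Nowhere-zero `Z_2^3` flow on a connected bridgeless graph given by half-edges. -/
theorem flow8 (vx : H → V) (op : H → H) (hop : ∀ h, op (op h) = h) (hne : ∀ h, op h ≠ h)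
    (hW : ∀ S : Finset V, S.Nonempty → S ≠ univ →
      2 ≤ (univ.filter fun h => vx h ∈ S ∧ vx (op h) ∉ S).card) :
    ∃ f : H → ZMod 2 × ZMod 2 × ZMod 2, (∀ h, f h ≠ 0) ∧ (∀ h, f (op h) = f h) ∧
      ∀ v, ∑ h with vx h = v, f h = 0 := by
  classical
  rcases isEmpty_or_nonempty V with hV | ⟨⟨u⟩⟩
  · exact ⟨fun _ => (1, 0, 0), fun _ => (by decide : ((1, 0, 0) : ZMod 2 × ZMod 2 × ZMod 2) ≠ 0),
      fun _ => rfl, fun v => hV.elim v⟩
  obtain ⟨p, q, a1, a2, a3, a4, a5, -⟩ := flowW vx op hop hne (univ.erase u) fun S hS hn =>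
    hW S hn fun e => (mem_erase.1 (hS (e ▸ mem_univ u))).1 rfl
  have s : ∀ h, (p (op h), q (op h)) = (p h, q h) := fun h => by rw [a1, a2]
  have k : ∀ v, v ≠ u → ∑ h with vx h = v, (p h, q h) = 0 := fun v hv => by
    ext1
    · rw [Prod.fst_sum]; exact a3 v (by simp [hv])
    · rw [Prod.snd_sum]; exact a4 v (by simp [hv])
  refine ⟨fun h => (p h, q h), fun h e => ?_, s, fun v => ?_⟩
  · rcases a5 h with k | k
    exacts [k (congrArg Prod.fst e), k (congrArg Prod.snd e)]
  by_cases hv : v = u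
  · subst hv
    have t := sum_vx vx (fun h => (p h, q h)) univ
    rw [← Finset.add_sum_erase _ _ (mem_univ v),
      Finset.sum_eq_zero fun w hw => k w (mem_erase.1 hw).1, add_zero] at t
    rw [t]
    refine Finset.sum_involution (fun h _ => op h) (fun h _ => ?_) (fun h _ _ => hne h)
      (fun h _ => by simp) (fun h _ => hop h)
    rw [s]
    generalize (p h, q h) = z
    revert z
    decide
  · exact k v hv

end Pool.Agent.Lib.MP_32fd1f_co.CDCFlow
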