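import Pool.Agent.Lib.MP_32fd1f_co.Basic

set_option autoImplicit false

namespace Pool.Agent.CDC36

open Finset

variable {V : Type} [Fintype V] [DecidableEq V]

omit [Fintype V] in
private theorem cnt1_mem {F : Finset (Finset (Sym2 V))} {C A : Finset (Sym2 V)} :
    A ∈ nbrs F C ↔ A ∈ F ∧ A ≠ C ∧ (A ∩ C).Nonempty := by
  unfold nbrs
  rw [mem_filter]

private theorem cnt1_card {E : Finset (Sym2 V)} {F : Finset (Finset (Sym2 V))} (hF : FCDC E F)
    {C : Finset (Sym2 V)} (hC : C ∈ F) (P : ℕ → Prop) [DecidablePred P] (X : Finset (Sym2 V))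
    (hX : ∀ e, e ∈ X ↔ e ∈ C ∧ ∀ A ∈ F, A ≠ C → e ∈ A → P (A ∩ C).card) :
    X.card = ∑ A ∈ nbrs F C, if P (A ∩ C).card then (A ∩ C).card else 0 := by
  rw [← sum_filter, ← card_biUnion]
  · congr 1
    ext e
    rw [hX, mem_biUnion]
    constructor
    · rintro ⟨he, h⟩
      obtain ⟨A, hA, hAC, heA, -⟩ := hF.other hC he
      have hm : e ∈ A ∩ C := mem_inter.2 ⟨heA, he⟩
      exact ⟨A, mem_filter.2 ⟨cnt1_mem.2 ⟨hA, hAC, e, hm⟩, h A hA hAC heA⟩, hm⟩
    · rintro ⟨A, hA, hm⟩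
      obtain ⟨hA1, hP⟩ := mem_filter.1 hA
      obtain ⟨hA2, hAC, -⟩ := cnt1_mem.1 hA1
      obtain ⟨heA, he⟩ := mem_inter.1 hm
      refine ⟨he, fun B hB hBC heB => ?_⟩
      obtain ⟨D, -, -, -, hD⟩ := hF.other hC he
      rw [(hD B hB heB).resolve_left hBC, ← (hD A hA2 heA).resolve_left hAC]
      exact hP
  · intro A hA B hB hAB
    obtain ⟨hA2, hAC, -⟩ := cnt1_mem.1 (mem_filter.1 (mem_coe.1 hA)).1
    obtain ⟨hB2, hBC, -⟩ := cnt1_mem.1 (mem_filter.1 (mem_coe.1 hB)).1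
    refine disjoint_left.2 fun e h1 h2 => hAB ?_
    obtain ⟨D, -, -, -, hD⟩ := hF.other hC (mem_inter.1 h1).2
    rw [(hD B hB2 (mem_inter.1 h2).1).resolve_left hBC,
      (hD A hA2 (mem_inter.1 h1).1).resolve_left hAC]

theorem cnt1 {E : Finset (Sym2 V)} {F : Finset (Finset (Sym2 V))} (hF : FCDC E F)
    {C : Finset (Sym2 V)} (hC : C ∈ F) (h1 : F1 F C) :
    6 + (bigs F C).card ≤ 3 * (singles F C).card := by
  have a1 := cnt1_card hF hC (fun _ => True) C (by simp)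
  have a2 := cnt1_card hF hC (fun m => m = 1) (singles F C) fun e => mem_filter
  have a3 := cnt1_card hF hC (fun m => 3 ≤ m) (bigs F C) fun e => mem_filter
  have a4 : ∑ A ∈ nbrs F C, (6 + if 3 ≤ (A ∩ C).card then (A ∩ C).card else 0) ≤
      ∑ A ∈ nbrs F C, (3 * (if True then (A ∩ C).card else 0) +
        3 * if (A ∩ C).card = 1 then (A ∩ C).card else 0) := by
    refine sum_le_sum fun A hA => ?_
    have := card_pos.2 (cnt1_mem.1 hA).2.2
    rw [if_pos trivial]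
    split_ifs <;> omega
  rw [sum_add_distrib, sum_add_distrib, ← mul_sum, ← mul_sum, ← a1, ← a2, ← a3, sum_const,
    smul_eq_mul] at a4
  unfold F1 at h1
  omega

end Pool.Agent.CDC36
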