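import Pool.Agent.Lib.MP_32fd1f_co.Basic

set_option autoImplicit false

namespace Pool.Agent.CDC36

open Finset

variable {V : Type} [Fintype V] [DecidableEq V]

namespace Cnt2x

theorem mem_sa {E R : Finset (Sym2 V)} {e e' : Sym2 V} : (e, e') ∈ sa E R ↔
    (e ∈ R ∧ e' ∈ R) ∧ e ≠ e' ∧
      ∃ u u' x x', e = s(u, u') ∧ e' = s(x, x') ∧ s(u, x) ∈ E ∧ s(u', x') ∈ E := by
  simp only [sa, mem_filter, mem_product]

theorem sa_symm {E R : Finset (Sym2 V)} {e e' : Sym2 V} (h : (e, e') ∈ sa E R) :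
    (e', e) ∈ sa E R := by
  obtain ⟨⟨h1, h2⟩, h3, u, u', x, x', h4, h5, h6, h7⟩ := mem_sa.1 h
  exact mem_sa.2 ⟨⟨h2, h1⟩, h3.symm, x, x', u, u', h5, h4, by rwa [Sym2.eq_swap],
    by rwa [Sym2.eq_swap]⟩

theorem sa_or {E R : Finset (Sym2 V)} {a b : V} {e' : Sym2 V} (h : (s(a, b), e') ∈ sa E R) :
    ∃ x x', e' = s(x, x') ∧ s(a, x) ∈ E ∧ s(b, x') ∈ E := by
  obtain ⟨_, _, u, u', x, x', h4, h5, h6, h7⟩ := mem_sa.1 h
  rcases Sym2.eq_iff.1 h4 with ⟨rfl, rfl⟩ | ⟨rfl, rfl⟩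
  · exact ⟨x, x', h5, h6, h7⟩
  · exact ⟨x', x, by rw [h5, Sym2.eq_swap], h7, h6⟩

omit [Fintype V] [DecidableEq V] in
theorem dis {R : Finset (Sym2 V)} (hm : Matching R) {e e' : Sym2 V} (he : e ∈ R) (he' : e' ∈ R)
    (hne : e ≠ e') {a b : V} (ha : a ∈ e) (hb : b ∈ e') : a ≠ b := by
  rintro rfl
  exact hne (hm e he e' he' a ha hb)

omit [Fintype V] [DecidableEq V] in
theorem dis4 {R : Finset (Sym2 V)} (hm : Matching R) {a b c d : V} (he : s(a, b) ∈ R)
    (he' : s(c, d) ∈ R) (hne : s(a, b) ≠ s(c, d)) : a ≠ c ∧ a ≠ d ∧ b ≠ c ∧ b ≠ d :=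
  ⟨dis hm he he' hne (Sym2.mem_mk_left _ _) (Sym2.mem_mk_left _ _),
    dis hm he he' hne (Sym2.mem_mk_left _ _) (Sym2.mem_mk_right _ _),
    dis hm he he' hne (Sym2.mem_mk_right _ _) (Sym2.mem_mk_left _ _),
    dis hm he he' hne (Sym2.mem_mk_right _ _) (Sym2.mem_mk_right _ _)⟩

omit [Fintype V] in
theorem one {R : Finset (Sym2 V)} (hm : Matching R) (v : V) :
    (R.filter (fun e => v ∈ e)).card ≤ 1 := by
  refine card_le_one.2 fun e he e' he' => ?_
  rw [mem_filter] at he he'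
  exact hm e he.1 e' he'.1 v he.2 he'.2

/-- the partners of `e` -/
def nb (E R : Finset (Sym2 V)) (e : Sym2 V) : Finset (Sym2 V) :=
  R.filter (fun e' => (e, e') ∈ sa E R)

theorem mem_nb {E R : Finset (Sym2 V)} {e e' : Sym2 V} : e' ∈ nb E R e ↔ (e, e') ∈ sa E R := by
  rw [nb, mem_filter]
  exact ⟨fun h => h.2, fun h => ⟨(mem_sa.1 h).1.2, h⟩⟩

theorem nb_le {E R : Finset (Sym2 V)} (hE : Cubic E) (hR : R ⊆ E) (hm : Matching R)
    {e : Sym2 V} (he : e ∈ R) : (nb E R e).card ≤ 2 := by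
  induction e using Sym2.ind with
  | h a b =>
    obtain ⟨c, d, _, _, _, _, _, _, _, _, hall⟩ := nbr3 hE (hR he)
    have hsub : nb E R s(a, b) ⊆ R.filter (fun e => c ∈ e) ∪ R.filter (fun e => d ∈ e) := by
      intro e' he'
      have h1 := mem_nb.1 he'
      obtain ⟨x, x', rfl, h2, _⟩ := sa_or h1
      have h3 := (mem_sa.1 h1).1.2
      have h4 := dis4 hm he h3 (mem_sa.1 h1).2.1
      rcases hall _ h2 (Sym2.mem_mk_left _ _) with h | h | h
      · exact absurd (Sym2.congr_right.1 h).symm h4.2.2.1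
      · rw [Sym2.congr_right.1 h] at h3 ⊢
        exact mem_union_left _ (mem_filter.2 ⟨h3, Sym2.mem_mk_left _ _⟩)
      · rw [Sym2.congr_right.1 h] at h3 ⊢
        exact mem_union_right _ (mem_filter.2 ⟨h3, Sym2.mem_mk_left _ _⟩)
    have h1 := card_le_card hsub
    have h2 := card_union_le (R.filter (fun e => c ∈ e)) (R.filter (fun e => d ∈ e))
    have h3 := one hm c
    have h4 := one hm d
    omega

theorem sa_card (E R : Finset (Sym2 V)) : (sa E R).card = ∑ e ∈ R, (nb E R e).card := by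
  rw [card_eq_sum_card_fiberwise (f := Prod.fst) (s := sa E R) (t := R)
    (fun p hp => (mem_sa.1 (show (p.1, p.2) ∈ sa E R from hp)).1.1)]
  refine sum_congr rfl fun e _ => ?_
  refine card_bij (fun p _ => p.2) ?_ ?_ ?_
  · rintro ⟨p, q⟩ hp
    rw [mem_filter] at hp
    obtain ⟨h1, rfl⟩ := hp
    exact mem_nb.2 h1
  · rintro ⟨p, q⟩ hp ⟨p', q'⟩ hp' h
    rw [mem_filter] at hp hp'
    exact Prod.ext (hp.2.trans hp'.2.symm) h
  · intro e' he'
    exact ⟨(e, e'), mem_filter.2 ⟨mem_nb.1 he', rfl⟩, rfl⟩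

theorem clos3 {E : Finset (Sym2 V)} (hE : Cubic E) {S : Finset V} {a p q r : V}
    (hp : s(a, p) ∈ E) (hq : s(a, q) ∈ E) (hr : s(a, r) ∈ E) (hpq : p ≠ q) (hpr : p ≠ r)
    (hqr : q ≠ r) (h1 : p ∈ S) (h2 : q ∈ S) (h3 : r ∈ S) : ∀ b, s(a, b) ∈ E → b ∈ S := by
  intro b hb
  rcases nbr_sat hE hp hq hr hpq hpr hqr _ hb (Sym2.mem_mk_left _ _) with h | h | h
  · rwa [Sym2.congr_right.1 h]
  · rwa [Sym2.congr_right.1 h]
  · rwa [Sym2.congr_right.1 h]

theorem supp_sub {E : Finset (Sym2 V)} (hc : Conn E) {S : Finset V}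
    (hS : ∀ a ∈ S, ∀ b, s(a, b) ∈ E → b ∈ S) {a : V} (ha : a ∈ S) (ha' : a ∈ supp E) :
    supp E ⊆ S := by
  intro v hv
  have h := hc a ha' v hv (fun z => decide (z ∈ S)) (cut_eq_empty.2 fun p q hpq => by
    rw [decide_eq_decide]
    exact ⟨fun h => hS p h q hpq, fun h => hS q h p (by rwa [Sym2.eq_swap])⟩)
  rw [decide_eq_decide] at h
  exact h.1 ha

omit [Fintype V] [DecidableEq V] in
theorem sw {E : Finset (Sym2 V)} {a b : V} (h : s(a, b) ∈ E) : s(b, a) ∈ E := by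
  rwa [Sym2.eq_swap]

/-- three rungs cannot close up -/
theorem not_tri {E R : Finset (Sym2 V)} (hE : Cubic E) (hc : Conn E) (hn : 6 < (supp E).card)
    (hR : R ⊆ E) (hm : Matching R) {e₁ e₂ e₃ : Sym2 V} (h12 : (e₁, e₂) ∈ sa E R)
    (h13 : (e₁, e₃) ∈ sa E R) (h23 : (e₂, e₃) ∈ sa E R) : False := by
  induction e₁ using Sym2.ind with
  | h u u' =>
    obtain ⟨x, x', rfl, ux, ux'⟩ := sa_or h12
    obtain ⟨y, y', rfl, uy, uy'⟩ := sa_or h13
    obtain ⟨w, w', hw, xw, xw'⟩ := sa_or h23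
    have r1 := (mem_sa.1 h12).1.1
    have r2 := (mem_sa.1 h12).1.2
    have r3 := (mem_sa.1 h13).1.2
    obtain ⟨a1, a2, a3, a4⟩ := dis4 hm r1 r2 (mem_sa.1 h12).2.1
    obtain ⟨b1, b2, b3, b4⟩ := dis4 hm r1 r3 (mem_sa.1 h13).2.1
    obtain ⟨c1, c2, c3, c4⟩ := dis4 hm r2 r3 (mem_sa.1 h23).2.1
    have e1 := hR r1
    have e2 := hR r2
    have e3 := hR r3
    have hS : ∀ a ∈ ({u, u', x, x', y, y'} : Finset V), ∀ b, s(a, b) ∈ E →
        b ∈ ({u, u', x, x', y, y'} : Finset V) := by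
      intro a ha
      simp only [mem_insert, mem_singleton] at ha
      rcases Sym2.eq_iff.1 hw with ⟨rfl, rfl⟩ | ⟨rfl, rfl⟩
      · rcases ha with rfl | rfl | rfl | rfl | rfl | rfl
        · exact clos3 hE e1 ux uy a3 b3 c1 (by simp) (by simp) (by simp)
        · exact clos3 hE (sw e1) ux' uy' a2 b2 c4 (by simp) (by simp) (by simp)
        · exact clos3 hE (sw ux) e2 xw a2 b1 c3 (by simp) (by simp) (by simp)
        · exact clos3 hE (sw ux') (sw e2) xw' a3 b4 c2 (by simp) (by simp) (by simp)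
        · exact clos3 hE (sw uy) (sw xw) e3 a1 b2 c2 (by simp) (by simp) (by simp)
        · exact clos3 hE (sw uy') (sw xw') (sw e3) a4 b3 c3 (by simp) (by simp) (by simp)
      · rcases ha with rfl | rfl | rfl | rfl | rfl | rfl
        · exact clos3 hE e1 ux uy a3 b3 c1 (by simp) (by simp) (by simp)
        · exact clos3 hE (sw e1) ux' uy' a2 b2 c4 (by simp) (by simp) (by simp)
        · exact clos3 hE (sw ux) e2 xw a2 b2 c4 (by simp) (by simp) (by simp)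
        · exact clos3 hE (sw ux') (sw e2) xw' a3 b3 c1 (by simp) (by simp) (by simp)
        · exact clos3 hE (sw uy) (sw xw') e3 a2 b2 c4 (by simp) (by simp) (by simp)
        · exact clos3 hE (sw uy') (sw xw) (sw e3) a3 b3 c1 (by simp) (by simp) (by simp)
    have hsub := supp_sub hc hS (a := u) (by simp) (mem_supp.2 ⟨_, e1, Sym2.mem_mk_left _ _⟩)
    have h6 := (card_le_card hsub).trans card_le_six
    omega

theorem ends_mem {E R : Finset (Sym2 V)} (hE : Cubic E) (hc : Conn E) (hn : 6 < (supp E).card)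
    (hR : R ⊆ E) (hm : Matching R) {L : Finset V} (hL : LadIn E L) {u u' : V} {e₁ : Sym2 V}
    (h2 : (nb E R s(u, u')).card = 2) (h1 : e₁ ∈ nb E R s(u, u')) (h3 : (nb E R e₁).card = 2) :
    u ∈ L ∧ u' ∈ L := by
  obtain ⟨e₂, he₂, hne₂⟩ := exists_mem_ne (s := nb E R s(u, u')) (by omega) e₁
  obtain ⟨e₀, he₀, hne₀⟩ := exists_mem_ne (s := nb E R e₁) (by omega) s(u, u')
  have k1 := mem_nb.1 h1
  have k2 := mem_nb.1 he₂
  have k0 := mem_nb.1 he₀
  have h02 : e₀ ≠ e₂ := by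
    rintro rfl
    exact not_tri hE hc hn hR hm k1 k2 k0
  obtain ⟨x, x', rfl, ux, ux'⟩ := sa_or k1
  obtain ⟨y, y', rfl, uy, uy'⟩ := sa_or k2
  obtain ⟨w, w', rfl, xw, xw'⟩ := sa_or k0
  have ru := (mem_sa.1 k1).1.1
  have rx := (mem_sa.1 k1).1.2
  have ry := (mem_sa.1 k2).1.2
  have rw' := (mem_sa.1 k0).1.2
  obtain ⟨a1, a2, a3, a4⟩ := dis4 hm rw' rx (mem_sa.1 k0).2.1.symm
  obtain ⟨b1, b2, b3, b4⟩ := dis4 hm rw' ru hne₀
  obtain ⟨c1, c2, c3, c4⟩ := dis4 hm rw' ry h02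
  obtain ⟨d1, d2, d3, d4⟩ := dis4 hm rx ru (mem_sa.1 k1).2.1.symm
  obtain ⟨f1, f2, f3, f4⟩ := dis4 hm rx ry hne₂.symm
  obtain ⟨g1, g2, g3, g4⟩ := dis4 hm ru ry (mem_sa.1 k2).2.1
  have nl : ∀ a b : V, s(a, b) ∈ R → a ≠ b := fun a b h hab =>
    hE.1 _ (hR h) (Sym2.mk_isDiag_iff.2 hab)
  have n1 := nl _ _ rw'
  have n2 := nl _ _ rx
  have n3 := nl _ _ ru
  have n4 := nl _ _ ry
  have hlad : Lad E w w' x x' u u' y y' := by
    refine ⟨?_, hR rw', hR rx, hR ru, hR ry, sw xw, sw ux, uy, sw xw', sw ux', uy'⟩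
    simp only [List.nodup_cons, List.mem_cons, List.not_mem_nil, or_false, not_or,
      List.nodup_nil, and_true, not_false_eq_true]
    exact ⟨⟨n1, a1, a2, b1, b2, c1, c2⟩, ⟨a3, a4, b3, b4, c3, c4⟩, ⟨n2, d1, d2, f1, f2⟩,
      ⟨d3, d4, f3, f4⟩, ⟨n3, g1, g2⟩, ⟨g3, g4⟩, n4⟩
  exact ⟨hL _ _ _ _ _ _ _ _ hlad u (by simp), hL _ _ _ _ _ _ _ _ hlad u' (by simp)⟩

end Cnt2x

open Cnt2x in
theorem cnt2 {E : Finset (Sym2 V)} (hE : Cubic E) (hc : Conn E) (hn : 6 < (supp E).card)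
    {R : Finset (Sym2 V)} (hR : R ⊆ E) (hm : Matching R) {L : Finset V} (hL : LadIn E L) :
    3 * (sa E R).card ≤ 4 * R.card + L.card := by
  set R2 := R.filter (fun e => (nb E R e).card = 2) with hR2
  set R1 := R.filter (fun e => ¬ (nb E R e).card = 2) with hR1
  set W := R2.filter (fun e => ∃ e' ∈ nb E R e, (nb E R e').card = 2) with hW
  set U := R2.filter (fun e => ¬ ∃ e' ∈ nb E R e, (nb E R e').card = 2) with hU
  have c1 : R2.card + R1.card = R.card := card_filter_add_card_filter_not _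
  have c2 : W.card + U.card = R2.card := card_filter_add_card_filter_not _
  have d1 : ∀ e ∈ R1, (nb E R e).card ≤ 1 := by
    intro e he
    rw [hR1, mem_filter] at he
    have := nb_le hE hR hm he.1
    have := he.2
    omega
  have c3 : (sa E R).card ≤ 2 * R2.card + R1.card := by
    rw [sa_card, ← sum_filter_add_sum_filter_not R (fun e => (nb E R e).card = 2)]
    have h1 : ∑ e ∈ R2, (nb E R e).card ≤ R2.card • 2 :=
      sum_le_card_nsmul _ _ _ fun e he => (mem_filter.1 he).2.le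
    have h2 : ∑ e ∈ R1, (nb E R e).card ≤ R1.card • 1 := sum_le_card_nsmul _ _ _ d1
    rw [smul_eq_mul] at h1 h2
    rw [← hR2, ← hR1]
    omega
  have c4 : U.card * 2 ≤ R1.card * 1 := by
    refine card_mul_le_card_mul (fun e e' => (e, e') ∈ sa E R) ?_ ?_
    · intro e he
      rw [hU, mem_filter, hR2, mem_filter] at he
      rw [← he.1.2]
      refine card_le_card fun e' he' => ?_
      rw [mem_bipartiteAbove]
      refine ⟨mem_filter.2 ⟨(mem_sa.1 (mem_nb.1 he')).1.2, fun h => he.2 ⟨e', he', h⟩⟩,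
        mem_nb.1 he'⟩
    · intro e' he'
      refine le_trans (card_le_card fun e he => ?_) (d1 e' he')
      rw [mem_bipartiteBelow] at he
      exact mem_nb.2 (sa_symm he.2)
  have c5 : W.card * 2 ≤ L.card * 1 := by
    refine card_mul_le_card_mul (fun e v => v ∈ e) ?_ ?_
    · intro e he
      rw [hW, mem_filter, hR2, mem_filter] at he
      obtain ⟨⟨h1, h2⟩, e₁, h3, h4⟩ := he
      induction e using Sym2.ind with
      | h u u' =>
        obtain ⟨k1, k2⟩ := ends_mem hE hc hn hR hm hL h2 h3 h4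
        have hne : u ≠ u' := fun hab => hE.1 _ (hR h1) (Sym2.mk_isDiag_iff.2 hab)
        rw [← card_pair hne]
        refine card_le_card fun v hv => ?_
        rw [mem_bipartiteAbove]
        rcases mem_insert.1 hv with rfl | hv
        · exact ⟨k1, Sym2.mem_mk_left _ _⟩
        · rw [mem_singleton.1 hv]
          exact ⟨k2, Sym2.mem_mk_right _ _⟩
    · intro v _
      refine le_trans (card_le_card fun e he => ?_) (one hm v)
      rw [mem_bipartiteBelow, hW, mem_filter, hR2, mem_filter] at he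
      exact mem_filter.2 ⟨he.1.1.1, he.2⟩
  omega

end Pool.Agent.CDC36
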