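import Pool.Agent.Lib.MP_32fd1f_co.Loc

set_option autoImplicit false

namespace Pool.Agent.CDC36

open Finset

variable {V : Type} [Fintype V] [DecidableEq V]

theorem cnt3a_match {E : Finset (Sym2 V)} (hE : Cubic E) {F : Finset (Finset (Sym2 V))}
    (hF : FCDC E F) {C C' : Finset (Sym2 V)} (hC : C ∈ F) (hC' : C' ∈ F) (h2 : F2 F C) {u u' x : V}
    (he : s(u, u') ∈ singles F C) (he' : s(u, x) ∈ singles F C') : u' = x := by
  by_contra hne
  have heE : s(u, u') ∈ E := hF.subset hC (mem_filter.1 he).1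
  have heE' : s(u, x) ∈ E := hF.subset hC' (mem_filter.1 he').1
  obtain ⟨A, hA, hA1, hA2, hA3⟩ := h2 u u' he
  have hxA : s(u, x) ∈ A := circ_avoid hE (hF.1 A hA) (hF.subset hA) heE heE' hne hA2 hA1
  obtain ⟨D, ⟨hD, hD1, hD2⟩, -⟩ := loc hE hF heE heE' hne
  have hsw : s(u', u) = s(u, u') := Sym2.eq_swap
  have heS : s(u', u) ∈ E := hsw ▸ heE
  obtain ⟨b, c, hub, huc, hbc, hu'u, -, -, hb, hc, -⟩ := nbr3 hE heS
  have hy : ∃ y, u ≠ y ∧ s(u', y) ∈ E ∧ s(u', y) ∈ D := by
    rcases circ_two hE (hF.1 D hD) (hF.subset hD) heS hb hc hub huc hbc (hsw ▸ hD1) with h | h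
    · exact ⟨b, hub, hb, h.1⟩
    · exact ⟨c, huc, hc, h.1⟩
  obtain ⟨y, huy, hyE, hyD⟩ := hy
  have hyA : s(u', y) ∈ A :=
    circ_avoid hE (hF.1 A hA) (hF.subset hA) heS hyE huy hA3 (hsw ▸ hA1)
  have hAD : A ≠ D := fun h => hA1 (h ▸ hD1)
  have hcard : 1 < (A ∩ D).card := by
    refine one_lt_card.2 ⟨s(u, x), mem_inter.2 ⟨hxA, hD2⟩, s(u', y), mem_inter.2 ⟨hyA, hyD⟩, ?_⟩
    intro h
    rcases Sym2.eq_iff.1 h with h | h
    · exact hu'u h.1.symm
    · exact huy h.1
  obtain ⟨O, -, -, -, hO⟩ := hF.other hC' (mem_filter.1 he').1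
  have hs := (mem_filter.1 he').2
  by_cases h1 : A = C'
  · have := hs D hD (fun h => hAD (h1.trans h.symm)) hD2
    rw [← h1, inter_comm] at this
    omega
  · by_cases h3 : D = C'
    · have := hs A hA h1 hxA
      rw [← h3] at this
      omega
    · exact hAD (((hO A hA hxA).resolve_left h1).trans ((hO D hD hD2).resolve_left h3).symm)

theorem cnt3a {E : Finset (Sym2 V)} (hE : Cubic E) {F : Finset (Finset (Sym2 V))} (hF : FCDC E F)
    {T : Finset (Finset (Sym2 V))} (hT : T ⊆ F) (h2 : ∀ C ∈ T, F2 F C) :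
    T.biUnion (singles F) ⊆ E ∧ Matching (T.biUnion (singles F)) ∧
      ∑ C ∈ T, (singles F C).card ≤ 2 * (T.biUnion (singles F)).card ∧
      2 * (T.biUnion (singles F)).card + (unc E (T.biUnion (singles F))).card = (supp E).card := by
  have hsub : T.biUnion (singles F) ⊆ E := by
    intro e he
    obtain ⟨C, hC, h⟩ := mem_biUnion.1 he
    exact hF.subset (hT hC) (mem_filter.1 h).1
  have hM : Matching (T.biUnion (singles F)) := by
    intro e he e' he' v hv hv'
    obtain ⟨C, hC, h⟩ := mem_biUnion.1 he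
    obtain ⟨C', hC', h'⟩ := mem_biUnion.1 he'
    obtain ⟨a, rfl⟩ := Sym2.mem_iff_exists.1 hv
    obtain ⟨b, rfl⟩ := Sym2.mem_iff_exists.1 hv'
    rw [cnt3a_match hE hF (hT hC) (hT hC') (h2 C hC) h h']
  refine ⟨hsub, hM, ?_, ?_⟩
  · set R := T.biUnion (singles F) with hR
    calc ∑ C ∈ T, (singles F C).card ≤ ∑ C ∈ T, ∑ e ∈ R, (if e ∈ C then 1 else 0) := by
          refine sum_le_sum fun C hC => ?_
          rw [← card_filter]
          exact card_le_card fun e he =>
            mem_filter.2 ⟨mem_biUnion.2 ⟨C, hC, he⟩, (mem_filter.1 he).1⟩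
      _ = ∑ e ∈ R, ∑ C ∈ T, (if e ∈ C then 1 else 0) := sum_comm
      _ ≤ ∑ _e ∈ R, 2 := by
          refine sum_le_sum fun e he => ?_
          rw [← card_filter]
          have h1 := hF.2 e
          rw [if_pos (hsub he)] at h1
          rw [← h1]
          exact card_le_card (filter_subset_filter _ hT)
      _ = 2 * R.card := by rw [sum_const, smul_eq_mul, mul_comm]
  · set R := T.biUnion (singles F) with hR
    have h1 : (supp E).filter (fun v => ¬ ∀ e ∈ R, v ∉ e)
        = R.biUnion (fun e => univ.filter (fun v => v ∈ e)) := by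
      ext v
      simp only [mem_filter, mem_biUnion, mem_univ, true_and, mem_supp]
      constructor
      · rintro ⟨-, h⟩
        by_contra hc
        exact h fun e he hv => hc ⟨e, he, hv⟩
      · rintro ⟨e, he, hv⟩
        exact ⟨⟨e, hsub he, hv⟩, fun h => h e he hv⟩
    have h3 : (R.biUnion (fun e => univ.filter (fun v => v ∈ e))).card = 2 * R.card := by
      rw [card_biUnion]
      · rw [mul_comm, ← smul_eq_mul, ← sum_const]
        refine sum_congr rfl fun e he => ?_
        have hd := hE.1 e (hsub he)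
        induction e using Sym2.ind with
        | h a b =>
          have hab : a ≠ b := fun h => hd (Sym2.mk_isDiag_iff.2 h)
          have : univ.filter (fun v => v ∈ s(a, b)) = {a, b} := by
            ext v
            simp
          rw [this, card_pair hab]
      · intro e he e' he' hne
        refine disjoint_left.2 fun v hv hv' => hne ?_
        exact hM e he e' he' v (mem_filter.1 hv).2 (mem_filter.1 hv').2
    have h4 := card_filter_add_card_filter_not (s := supp E) (fun v => ∀ e ∈ R, v ∉ e)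
    rw [h1, h3] at h4
    unfold unc
    omega

end Pool.Agent.CDC36
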