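import Pool.Agent.Lib.MP_32fd1f_co.Cnt3a

set_option autoImplicit false

namespace Pool.Agent.CDC36

open Finset

variable {V : Type} [Fintype V] [DecidableEq V]

private theorem c3b_next {E : Finset (Sym2 V)} (hE : Cubic E) {A : Finset (Sym2 V)} (hA : Circ A)
    (hAE : A ⊆ E) {u a : V} (h : s(u, a) ∈ A) : ∃ b, a ≠ b ∧ u ≠ b ∧ u ≠ a ∧ s(u, b) ∈ A := by
  obtain ⟨b, c, h1, h2, h3, h4, h5, h6, h7, h8, -⟩ := nbr3 hE (hAE h)
  rcases circ_two hE hA hAE (hAE h) h7 h8 h1 h2 h3 h with ⟨k, -⟩ | ⟨k, -⟩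
  exacts [⟨b, h1, h5, h4, k⟩, ⟨c, h2, h6, h4, k⟩]

private theorem c3b_supp (X : Finset (Sym2 V)) : supp X = X.biUnion Sym2.toFinset := by
  ext v
  simp [mem_supp]

private theorem c3b_le (X : Finset (Sym2 V)) : (supp X).card ≤ 2 * X.card := by
  rw [c3b_supp, mul_comm]
  refine card_biUnion_le_card_mul _ _ _ fun e _ => ?_
  rw [Sym2.card_toFinset]
  split_ifs <;> omega

private theorem c3b_eq {X : Finset (Sym2 V)} (h : NoLoop X) (m : Matching X) :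
    (supp X).card = 2 * X.card := by
  rw [c3b_supp, card_biUnion, mul_comm, ← smul_eq_mul, ← sum_const]
  · exact sum_congr rfl fun e he => Sym2.card_toFinset_of_not_isDiag e (h e he)
  · intro e he e' he' ne
    exact disjoint_left.2 fun v a b =>
      ne (m e he e' he' v (Sym2.mem_toFinset.1 a) (Sym2.mem_toFinset.1 b))

private theorem c3b_k4 {E : Finset (Sym2 V)} (hE : Cubic E) (hc : Conn E) {a b c d : V}
    (ab : s(a, b) ∈ E) (ac : s(a, c) ∈ E) (ad : s(a, d) ∈ E) (bc : s(b, c) ∈ E)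
    (bd : s(b, d) ∈ E) (cd : s(c, d) ∈ E) : (supp E).card ≤ 4 := by
  have ne : ∀ {x y : V}, s(x, y) ∈ E → x ≠ y := fun h e => hE.1 _ h (Sym2.mk_isDiag_iff.2 e)
  have sw : ∀ {x y : V}, s(x, y) ∈ E → s(y, x) ∈ E := fun h => Sym2.eq_swap ▸ h
  have key : ∀ {x p q r y : V}, s(x, p) ∈ E → s(x, q) ∈ E → s(x, r) ∈ E → p ≠ q → p ≠ r → q ≠ r →
      s(x, y) ∈ E → y = p ∨ y = q ∨ y = r := fun h1 h2 h3 n1 n2 n3 h => by
    simpa only [Sym2.congr_right] using nbr_sat hE h1 h2 h3 n1 n2 n3 _ h (Sym2.mem_mk_left _ _)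
  have cl : ∀ x y, s(x, y) ∈ E → x ∈ ({a, b, c, d} : Finset V) → y ∈ ({a, b, c, d} : Finset V) := by
    intro x y h hx
    simp only [mem_insert, mem_singleton] at hx ⊢
    rcases hx with rfl | rfl | rfl | rfl
    · have := key ab ac ad (ne bc) (ne bd) (ne cd) h; tauto
    · have := key (sw ab) bc bd (ne ac) (ne ad) (ne cd) h; tauto
    · have := key (sw ac) (sw bc) cd (ne ab) (ne ad) (ne bd) h; tauto
    · have := key (sw ad) (sw bd) (sw cd) (ne ab) (ne ac) (ne bc) h; tauto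
  refine (card_le_card (t := {a, b, c, d}) fun v hv => ?_).trans card_le_four
  have := hc a (mem_supp.2 ⟨_, ab, Sym2.mem_mk_left _ _⟩) v hv
    (fun z => decide (z ∈ ({a, b, c, d} : Finset V)))
    (cut_eq_empty.2 fun x y h => decide_eq_decide.2 ⟨cl x y h, cl y x (sw h)⟩)
  exact (decide_eq_decide.1 this).1 (mem_insert_self _ _)

private theorem c3b_tri {E : Finset (Sym2 V)} (hE : Cubic E)
    {F : Finset (Finset (Sym2 V))} (hF : FCDC E F)
    {T : Finset (Finset (Sym2 V))} (hT : T ⊆ F) (h2 : ∀ C ∈ T, F2 F C)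
    {C : Finset (Sym2 V)} (hC : C ∈ T) {u u' : V} (he : s(u, u') ∈ singles F C) :
    (∀ v ∈ s(u, u'), v ∈ supp (bigs F C)) ∨
    (∃ x ∈ unc E (T.biUnion (singles F)), u' ≠ x ∧ s(u, x) ∈ C) ∨
    ∃ x x', s(x, x') ∈ T.biUnion (singles F) ∧ s(u, u') ≠ s(x, x') ∧ s(u, x) ∈ C ∧
      s(u', x') ∈ C := by
  obtain ⟨RE, mt, -⟩ := cnt3a hE hF hT h2
  have CF := hT hC
  have cC := hF.1 C CF
  have CE := hF.subset CF
  have eC : s(u, u') ∈ C := (mem_filter.1 he).1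
  have eR : s(u, u') ∈ T.biUnion (singles F) := mem_biUnion.2 ⟨C, hC, he⟩
  obtain ⟨x, n1, n2, n3, xC⟩ := c3b_next hE cC CE eC
  obtain ⟨x', m1, m2, -, xC'⟩ := c3b_next hE cC CE (Sym2.eq_swap ▸ eC : s(u', u) ∈ C)
  obtain ⟨A, AF, eA, uA, uA'⟩ := h2 C hC u u' he
  have cA := hF.1 A AF
  have AE := hF.subset AF
  have xA := circ_avoid hE cA AE (CE eC) (CE xC) n1 uA eA
  have xA' := circ_avoid hE cA AE (Sym2.eq_swap ▸ CE eC : s(u', u) ∈ E) (CE xC') m1 uA'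
    (by rwa [Sym2.eq_swap])
  have AC : A ≠ C := fun h => eA (h ▸ eC)
  have two : ∀ {g}, g ∈ C → g ∈ A → ∀ B ∈ F, g ∈ B → B = C ∨ B = A := fun g1 g2 B BF g3 => by
    obtain ⟨A', -, -, -, k⟩ := hF.other CF g1
    rcases k A AF g2 with h | h
    · exact (AC h).elim
    · rw [h]; exact k B BF g3
  by_cases big : 3 ≤ (A ∩ C).card
  · have bg : ∀ {g}, g ∈ C → g ∈ A → g ∈ bigs F C := fun g1 g2 =>
      mem_filter.2 ⟨g1, fun B BF nB g3 => by rwa [(two g1 g2 B BF g3).resolve_left nB]⟩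
    refine Or.inl fun v hv => ?_
    rcases Sym2.mem_iff.1 hv with rfl | rfl
    · exact mem_supp.2 ⟨_, bg xC xA, Sym2.mem_mk_left _ _⟩
    · exact mem_supp.2 ⟨_, bg xC' xA', Sym2.mem_mk_left _ _⟩
  by_cases hx : x ∈ unc E (T.biUnion (singles F))
  · exact Or.inr (Or.inl ⟨x, hx, n1, xC⟩)
  have xe : x ∉ s(u, u') := fun h => (Sym2.mem_iff.1 h).elim n2.symm n1.symm
  have d : s(u, x) ≠ s(u', x') := fun h => (Sym2.eq_iff.1 h).elim (fun k => n3 k.1) fun k => m1 k.1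
  have only : ∀ g ∈ A ∩ C, g = s(u, x) ∨ g = s(u', x') := by
    have : ({s(u, x), s(u', x')} : Finset (Sym2 V)) = A ∩ C :=
      eq_of_subset_of_card_le (insert_subset (mem_inter.2 ⟨xA, xC⟩)
        (singleton_subset_iff.2 (mem_inter.2 ⟨xA', xC'⟩))) (by rw [card_pair d]; omega)
    intro g hg
    rw [← this] at hg
    simpa using hg
  obtain ⟨e', e'R, xe'⟩ : ∃ e' ∈ T.biUnion (singles F), x ∈ e' := by
    by_contra k
    exact hx (mem_filter.2 ⟨mem_supp.2 ⟨_, CE xC, Sym2.mem_mk_right _ _⟩,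
      fun e h1 h3 => k ⟨e, h1, h3⟩⟩)
  obtain ⟨q, rfl⟩ := Sym2.mem_iff_exists.1 xe'
  have ee : s(u, u') ≠ s(x, q) := fun h => xe (h ▸ xe')
  have qe : q ∉ s(u, u') := fun h => ee (mt _ eR _ e'R q h (Sym2.mem_mk_right _ _))
  have qu : q ≠ u := fun h => qe (h ▸ Sym2.mem_mk_left _ _)
  have qu' : q ≠ u' := fun h => qe (h ▸ Sym2.mem_mk_right _ _)
  obtain ⟨C', hC', s'⟩ := mem_biUnion.1 e'R
  obtain ⟨G, GF, eG, xG, qG⟩ := h2 C' hC' x q s'
  have cG := hF.1 G GF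
  have GE := hF.subset GF
  have xu : s(x, u) ∈ E := Sym2.eq_swap ▸ CE xC
  have uG := circ_avoid hE cG GE (RE e'R) xu qu xG eG
  have fin : ∀ H ∈ F, H ≠ G → s(x, u) ∈ H → ∃ p, x ≠ q ∧ s(q, p) ∈ H ∧ s(q, p) ∈ G := by
    intro H HF HG uH
    have cH := hF.1 H HF
    have HE := hF.subset HF
    obtain ⟨r, r1, -, -, rH⟩ := c3b_next hE cH HE uH
    have qH : s(x, q) ∈ H := by
      by_contra k
      have qr : q ≠ r := fun h => k (h ▸ rH)
      have rG := circ_avoid hE cG GE (RE e'R) (HE rH) qr xG eG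
      exact HG ((loc hE hF xu (HE rH) r1).unique ⟨HF, uH, rH⟩ ⟨GF, uG, rG⟩)
    have qH' : s(q, x) ∈ H := Sym2.eq_swap ▸ qH
    obtain ⟨p, p1, -, p3, pH⟩ := c3b_next hE cH HE qH'
    exact ⟨p, p3.symm, pH, circ_avoid hE cG GE (HE qH') (HE pH) p1 qG (by rwa [Sym2.eq_swap])⟩
  obtain ⟨p, xq, pm⟩ : ∃ p, x ≠ q ∧ s(q, p) ∈ A ∩ C := by
    rcases two xC xA G GF (Sym2.eq_swap ▸ uG) with rfl | rfl
    · obtain ⟨p, a, b, c⟩ := fin A AF AC (Sym2.eq_swap ▸ xA)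
      exact ⟨p, a, mem_inter.2 ⟨b, c⟩⟩
    · obtain ⟨p, a, b, c⟩ := fin C CF AC.symm (Sym2.eq_swap ▸ xC)
      exact ⟨p, a, mem_inter.2 ⟨c, b⟩⟩
  obtain rfl : q = x' := by
    rcases only _ pm with h | h <;> rcases Sym2.eq_iff.1 h with k | k
    exacts [(qu k.1).elim, (xq k.1.symm).elim, (qu' k.1).elim, k.1]
  exact Or.inr (Or.inr ⟨x, q, e'R, ee, xC, xC'⟩)

theorem cnt3b {E : Finset (Sym2 V)} (hE : Cubic E) (hc : Conn E) (hn : 6 < (supp E).card)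
    {F : Finset (Finset (Sym2 V))} (hF : FCDC E F)
    {T : Finset (Finset (Sym2 V))} (hT : T ⊆ F) (h2 : ∀ C ∈ T, F2 F C) :
    ∑ C ∈ T, (singles F C).card ≤ ∑ C ∈ T, (bigs F C).card +
      3 * (unc E (T.biUnion (singles F))).card + (sa E (T.biUnion (singles F))).card := by
  classical
  obtain ⟨RE, mt, -⟩ := cnt3a hE hF hT h2
  have tri := fun C hC u u' he => c3b_tri hE hF hT h2 (C := C) hC (u := u) (u' := u') he
  have inR : ∀ C ∈ T, ∀ e ∈ singles F C, e ∈ T.biUnion (singles F) := fun C hC e he =>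
    mem_biUnion.2 ⟨C, hC, he⟩
  generalize T.biUnion (singles F) = R at *
  let Pa : Finset (Sym2 V) → Sym2 V → Prop := fun C e => ∀ v ∈ e, v ∈ supp (bigs F C)
  let I := T.sigma fun C => (singles F C).filter fun e => ¬ Pa C e
  let rb : (Σ _ : Finset (Sym2 V), Sym2 V) → (Σ _ : V, Sym2 V) → Prop := fun z y =>
    ∃ u u', z.2 = s(u, u') ∧ u' ≠ y.1 ∧ y.2 = s(u, y.1) ∧ y.2 ∈ z.1
  let rc : (Σ _ : Finset (Sym2 V), Sym2 V) → Sym2 V × Sym2 V → Prop := fun z y =>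
    y.1 = z.2 ∧ ∃ u u' x x', y.1 = s(u, u') ∧ y.2 = s(x, x') ∧ s(u, x) ∈ z.1 ∧ s(u', x') ∈ z.1
  let J := (unc E R).sigma fun x => E.filter fun e => x ∈ e
  have mI : ∀ z ∈ I, z.1 ∈ T ∧ z.2 ∈ singles F z.1 ∧ z.2 ∈ z.1 ∧ ¬ Pa z.1 z.2 := fun z hz =>
    ⟨(mem_sigma.1 hz).1, (mem_filter.1 (mem_sigma.1 hz).2).1,
      (mem_filter.1 (mem_filter.1 (mem_sigma.1 hz).2).1).1, (mem_filter.1 (mem_sigma.1 hz).2).2⟩
  have ha : ∀ C ∈ T, ((singles F C).filter (Pa C)).card ≤ (bigs F C).card := by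
    intro C hC
    have sub : ∀ e ∈ (singles F C).filter (Pa C), e ∈ R := fun e he =>
      inR C hC e (mem_filter.1 he).1
    have a1 := c3b_eq (X := (singles F C).filter (Pa C)) (fun e he => hE.1 e (RE (sub e he)))
      fun e he e' he' => mt e (sub e he) e' (sub e' he')
    have a2 := c3b_le (bigs F C)
    have a3 : (supp ((singles F C).filter (Pa C))).card ≤ (supp (bigs F C)).card :=
      card_le_card fun v hv => by
        obtain ⟨e, he, ve⟩ := mem_supp.1 hv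
        exact (mem_filter.1 he).2 v ve
    omega
  have hJ : J.card ≤ 3 * (unc E R).card := by
    rw [card_sigma, mul_comm, ← smul_eq_mul]
    refine sum_le_card_nsmul _ _ _ fun x _ => ?_
    rcases hE.2 x with h | h
    · exact (le_of_eq h).trans (by omega)
    · exact le_of_eq h
  have hb : (I.filter fun z => ∃ y ∈ J, rb z y).card ≤ J.card := by
    refine card_le_card_of_forall_subsingleton rb (fun z hz => (mem_filter.1 hz).2) ?_
    rintro ⟨x, f⟩ - ⟨C, e⟩ ⟨k1, u, u', rfl, n1, ef, f1⟩ ⟨B, e2⟩ ⟨k2, v, v', rfl, n2, ev, f2⟩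
    obtain rfl : f = s(u, x) := ef
    obtain ⟨c1, c2, c3, -⟩ := mI _ (mem_filter.1 k1).1
    obtain ⟨b1, b2, b3, -⟩ := mI _ (mem_filter.1 k2).1
    obtain rfl : u = v := Sym2.congr_left.1 ev
    have e := mt _ (inR _ c1 _ c2) _ (inR _ b1 _ b2) u (Sym2.mem_mk_left _ _)
      (Sym2.mem_mk_left _ _)
    obtain rfl : u' = v' := Sym2.congr_right.1 e
    have CE := hF.subset (hT c1)
    obtain rfl : C = B := (loc hE hF (CE c3) (CE f1) n1).unique ⟨hT c1, c3, f1⟩ ⟨hT b1, b3, f2⟩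
    rfl
  have hc' : (I.filter fun z => ¬ ∃ y ∈ J, rb z y).card ≤ (sa E R).card := by
    refine card_le_card_of_forall_subsingleton rc ?_ ?_
    · rintro ⟨C, e⟩ hz
      obtain ⟨c1, c2, c3, c4⟩ := mI _ (mem_filter.1 hz).1
      have CE := hF.subset (hT c1)
      induction e using Sym2.ind with | _ u u' =>
      rcases tri C c1 u u' c2 with h | ⟨x, x1, x2, x3⟩ | ⟨x, x', x1, x2, x3, x4⟩
      · exact (c4 h).elim
      · exact ((mem_filter.1 hz).2 ⟨⟨x, s(u, x)⟩, mem_sigma.2 ⟨x1,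
          mem_filter.2 ⟨CE x3, Sym2.mem_mk_right _ _⟩⟩, u, u', rfl, x2, rfl, x3⟩).elim
      · exact ⟨(s(u, u'), s(x, x')), mem_filter.2 ⟨mem_product.2 ⟨inR _ c1 _ c2, x1⟩, x2,
          u, u', x, x', rfl, rfl, CE x3, CE x4⟩, rfl, u, u', x, x', rfl, rfl, x3, x4⟩
    · rintro ⟨e, e'⟩ hy ⟨C, e1⟩ ⟨k1, rfl, u, u', x, x', rfl, rfl, f1, f1'⟩
        ⟨B, e2⟩ ⟨k2, rfl, v, v', y, y', ev, ey, f2, f2'⟩
      obtain ⟨c1, c2, c3, -⟩ := mI _ (mem_filter.1 k1).1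
      obtain ⟨b1, b2, b3, -⟩ := mI _ (mem_filter.1 k2).1
      obtain ⟨p, ne, -⟩ := mem_filter.1 hy
      obtain ⟨p1, p2⟩ := mem_product.1 p
      have CE := hF.subset (hT c1)
      have BE := hF.subset (hT b1)
      have n1 : u' ≠ x := fun h =>
        ne (mt _ p1 _ p2 u' (Sym2.mem_mk_right _ _) (h ▸ Sym2.mem_mk_left _ _))
      have same : s(u, x) ∈ B → C = B := fun h =>
        (loc hE hF (CE c3) (CE f1) n1).unique ⟨hT c1, c3, f1⟩ ⟨hT b1, b3, h⟩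
      have k4 : s(u, x') ∈ B → s(u', x) ∈ B → C = B := fun h h' => by
        have := c3b_k4 hE hc (CE c3) (CE f1) (BE h) (BE h') (CE f1') (RE p2)
        omega
      obtain rfl : C = B := by
        rcases Sym2.eq_iff.1 ev with ⟨rfl, rfl⟩ | ⟨rfl, rfl⟩ <;>
          rcases Sym2.eq_iff.1 ey with ⟨rfl, rfl⟩ | ⟨rfl, rfl⟩
        exacts [same f2, k4 f2 f2', k4 f2' f2, same f2']
      rfl
  have s1 : ∑ C ∈ T, (singles F C).card =
      ∑ C ∈ T, ((singles F C).filter (Pa C)).card + I.card := by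
    rw [card_sigma, ← sum_add_distrib]
    exact sum_congr rfl fun C _ => (card_filter_add_card_filter_not _).symm
  have s2 := sum_le_sum ha
  have s3 := card_filter_add_card_filter_not (s := I) fun z => ∃ y ∈ J, rb z y
  omega

end Pool.Agent.CDC36
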