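import Pool.Agent.Lib.MP_32fd1f_co.Cnt3a

set_option autoImplicit false

namespace Pool.Agent.CDC36

open Finset

variable {V : Type} [Fintype V] [DecidableEq V]

private theorem c3c_next {E : Finset (Sym2 V)} (hE : Cubic E) {A : Finset (Sym2 V)} (hA : Circ A)
    (hAE : A ⊆ E) {u a : V} (h : s(u, a) ∈ A) : ∃ b, a ≠ b ∧ u ≠ b ∧ u ≠ a ∧ s(u, b) ∈ A := by
  obtain ⟨b, c, h1, h2, h3, h4, h5, h6, h7, h8, -⟩ := nbr3 hE (hAE h)
  rcases circ_two hE hA hAE (hAE h) h7 h8 h1 h2 h3 h with ⟨k, -⟩ | ⟨k, -⟩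
  exacts [⟨b, h1, h5, h4, k⟩, ⟨c, h2, h6, h4, k⟩]

private theorem c3c_supp (X : Finset (Sym2 V)) : supp X = X.biUnion Sym2.toFinset := by
  ext v
  simp [mem_supp]

private theorem c3c_le (X : Finset (Sym2 V)) : (supp X).card ≤ 2 * X.card := by
  rw [c3c_supp, mul_comm]
  refine card_biUnion_le_card_mul _ _ _ fun e _ => ?_
  rw [Sym2.card_toFinset]
  split_ifs <;> omega

private theorem c3c_eq {X : Finset (Sym2 V)} (h : NoLoop X) (m : Matching X) :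
    (supp X).card = 2 * X.card := by
  rw [c3c_supp, card_biUnion, mul_comm, ← smul_eq_mul, ← sum_const]
  · exact sum_congr rfl fun e he => Sym2.card_toFinset_of_not_isDiag e (h e he)
  · intro e he e' he' ne
    exact disjoint_left.2 fun v a b =>
      ne (m e he e' he' v (Sym2.mem_toFinset.1 a) (Sym2.mem_toFinset.1 b))

private theorem c3c_k4 {E : Finset (Sym2 V)} (hE : Cubic E) (hc : Conn E) {a b c d : V}
    (ab : s(a, b) ∈ E) (ac : s(a, c) ∈ E) (ad : s(a, d) ∈ E) (bc : s(b, c) ∈ E)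
    (bd : s(b, d) ∈ E) (cd : s(c, d) ∈ E) : (supp E).card ≤ 4 := by
  have ne : ∀ {x y : V}, s(x, y) ∈ E → x ≠ y := fun h e => hE.1 _ h (Sym2.mk_isDiag_iff.2 e)
  have sw : ∀ {x y : V}, s(x, y) ∈ E → s(y, x) ∈ E := fun h => Sym2.eq_swap ▸ h
  have key : ∀ {x p q r y : V}, s(x, p) ∈ E → s(x, q) ∈ E → s(x, r) ∈ E → p ≠ q → p ≠ r → q ≠ r →
      s(x, y) ∈ E → y = p ∨ y = q ∨ y = r := fun h1 h2 h3 n1 n2 n3 h => by
    simpa only [Sym2.congr_right] using nbr_sat hE h1 h2 h3 n1 n2 n3 _ h (Sym2.mem_mk_left _ _)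
  have cl : ∀ x y, s(x, y) ∈ E → x ∈ ({a, b, c, d} : Finset V) → y ∈ ({a, b, c, d} : Finset V) := by
    intro x y h hx
    simp only [mem_insert, mem_singleton] at hx ⊢
    rcases hx with rfl | rfl | rfl | rfl
    · have := key ab ac ad (ne bc) (ne bd) (ne cd) h; tauto
    · have := key (sw ab) bc bd (ne ac) (ne ad) (ne cd) h; tauto
    · have := key (sw ac) (sw bc) cd (ne ab) (ne ad) (ne bd) h; tauto
    · have := key (sw ad) (sw bd) (sw cd) (ne ab) (ne ac) (ne bc) h; tauto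
  refine (card_le_card (t := {a, b, c, d}) fun v hv => ?_).trans card_le_four
  have := hc a (mem_supp.2 ⟨_, ab, Sym2.mem_mk_left _ _⟩) v hv
    (fun z => decide (z ∈ ({a, b, c, d} : Finset V)))
    (cut_eq_empty.2 fun x y h => decide_eq_decide.2 ⟨cl x y h, cl y x (sw h)⟩)
  exact (decide_eq_decide.1 this).1 (mem_insert_self _ _)

private theorem c3c_tri {E : Finset (Sym2 V)} (hE : Cubic E)
    {F : Finset (Finset (Sym2 V))} (hF : FCDC E F)
    {T : Finset (Finset (Sym2 V))} (hT : T ⊆ F) (h2 : ∀ C ∈ T, F2 F C)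
    {C : Finset (Sym2 V)} (hC : C ∈ T) {u u' : V} (he : s(u, u') ∈ singles F C) :
    (∀ v ∈ s(u, u'), v ∈ supp (bigs F C)) ∨
    (∃ x ∈ unc E (T.biUnion (singles F)), u' ≠ x ∧ s(u, x) ∈ C) ∨
    ∃ x x', s(x, x') ∈ T.biUnion (singles F) ∧ s(u, u') ≠ s(x, x') ∧ s(u, x) ∈ C ∧
      s(u', x') ∈ C := by
  obtain ⟨RE, mt, -⟩ := cnt3a hE hF hT h2
  have CF := hT hC
  have cC := hF.1 C CF
  have CE := hF.subset CF
  have eC : s(u, u') ∈ C := (mem_filter.1 he).1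
  have eR : s(u, u') ∈ T.biUnion (singles F) := mem_biUnion.2 ⟨C, hC, he⟩
  obtain ⟨x, n1, n2, n3, xC⟩ := c3c_next hE cC CE eC
  obtain ⟨x', m1, m2, -, xC'⟩ := c3c_next hE cC CE (Sym2.eq_swap ▸ eC : s(u', u) ∈ C)
  obtain ⟨A, AF, eA, uA, uA'⟩ := h2 C hC u u' he
  have cA := hF.1 A AF
  have AE := hF.subset AF
  have xA := circ_avoid hE cA AE (CE eC) (CE xC) n1 uA eA
  have xA' := circ_avoid hE cA AE (Sym2.eq_swap ▸ CE eC : s(u', u) ∈ E) (CE xC') m1 uA'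
    (by rwa [Sym2.eq_swap])
  have AC : A ≠ C := fun h => eA (h ▸ eC)
  have two : ∀ {g}, g ∈ C → g ∈ A → ∀ B ∈ F, g ∈ B → B = C ∨ B = A := fun g1 g2 B BF g3 => by
    obtain ⟨A', -, -, -, k⟩ := hF.other CF g1
    rcases k A AF g2 with h | h
    · exact (AC h).elim
    · rw [h]; exact k B BF g3
  by_cases big : 3 ≤ (A ∩ C).card
  · have bg : ∀ {g}, g ∈ C → g ∈ A → g ∈ bigs F C := fun g1 g2 =>
      mem_filter.2 ⟨g1, fun B BF nB g3 => by rwa [(two g1 g2 B BF g3).resolve_left nB]⟩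
    refine Or.inl fun v hv => ?_
    rcases Sym2.mem_iff.1 hv with rfl | rfl
    · exact mem_supp.2 ⟨_, bg xC xA, Sym2.mem_mk_left _ _⟩
    · exact mem_supp.2 ⟨_, bg xC' xA', Sym2.mem_mk_left _ _⟩
  by_cases hx : x ∈ unc E (T.biUnion (singles F))
  · exact Or.inr (Or.inl ⟨x, hx, n1, xC⟩)
  have xe : x ∉ s(u, u') := fun h => (Sym2.mem_iff.1 h).elim n2.symm n1.symm
  have d : s(u, x) ≠ s(u', x') := fun h => (Sym2.eq_iff.1 h).elim (fun k => n3 k.1) fun k => m1 k.1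
  have only : ∀ g ∈ A ∩ C, g = s(u, x) ∨ g = s(u', x') := by
    have : ({s(u, x), s(u', x')} : Finset (Sym2 V)) = A ∩ C :=
      eq_of_subset_of_card_le (insert_subset (mem_inter.2 ⟨xA, xC⟩)
        (singleton_subset_iff.2 (mem_inter.2 ⟨xA', xC'⟩))) (by rw [card_pair d]; omega)
    intro g hg
    rw [← this] at hg
    simpa using hg
  obtain ⟨e', e'R, xe'⟩ : ∃ e' ∈ T.biUnion (singles F), x ∈ e' := by
    by_contra k
    exact hx (mem_filter.2 ⟨mem_supp.2 ⟨_, CE xC, Sym2.mem_mk_right _ _⟩,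
      fun e h1 h3 => k ⟨e, h1, h3⟩⟩)
  obtain ⟨q, rfl⟩ := Sym2.mem_iff_exists.1 xe'
  have ee : s(u, u') ≠ s(x, q) := fun h => xe (h ▸ xe')
  have qe : q ∉ s(u, u') := fun h => ee (mt _ eR _ e'R q h (Sym2.mem_mk_right _ _))
  have qu : q ≠ u := fun h => qe (h ▸ Sym2.mem_mk_left _ _)
  have qu' : q ≠ u' := fun h => qe (h ▸ Sym2.mem_mk_right _ _)
  obtain ⟨C', hC', s'⟩ := mem_biUnion.1 e'R
  obtain ⟨G, GF, eG, xG, qG⟩ := h2 C' hC' x q s'
  have cG := hF.1 G GF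
  have GE := hF.subset GF
  have xu : s(x, u) ∈ E := Sym2.eq_swap ▸ CE xC
  have uG := circ_avoid hE cG GE (RE e'R) xu qu xG eG
  have fin : ∀ H ∈ F, H ≠ G → s(x, u) ∈ H → ∃ p, x ≠ q ∧ s(q, p) ∈ H ∧ s(q, p) ∈ G := by
    intro H HF HG uH
    have cH := hF.1 H HF
    have HE := hF.subset HF
    obtain ⟨r, r1, -, -, rH⟩ := c3c_next hE cH HE uH
    have qH : s(x, q) ∈ H := by
      by_contra k
      have qr : q ≠ r := fun h => k (h ▸ rH)
      have rG := circ_avoid hE cG GE (RE e'R) (HE rH) qr xG eG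
      exact HG ((loc hE hF xu (HE rH) r1).unique ⟨HF, uH, rH⟩ ⟨GF, uG, rG⟩)
    have qH' : s(q, x) ∈ H := Sym2.eq_swap ▸ qH
    obtain ⟨p, p1, -, p3, pH⟩ := c3c_next hE cH HE qH'
    exact ⟨p, p3.symm, pH, circ_avoid hE cG GE (HE qH') (HE pH) p1 qG (by rwa [Sym2.eq_swap])⟩
  obtain ⟨p, xq, pm⟩ : ∃ p, x ≠ q ∧ s(q, p) ∈ A ∩ C := by
    rcases two xC xA G GF (Sym2.eq_swap ▸ uG) with rfl | rfl
    · obtain ⟨p, a, b, c⟩ := fin A AF AC (Sym2.eq_swap ▸ xA)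
      exact ⟨p, a, mem_inter.2 ⟨b, c⟩⟩
    · obtain ⟨p, a, b, c⟩ := fin C CF AC.symm (Sym2.eq_swap ▸ xC)
      exact ⟨p, a, mem_inter.2 ⟨c, b⟩⟩
  obtain rfl : q = x' := by
    rcases only _ pm with h | h <;> rcases Sym2.eq_iff.1 h with k | k
    exacts [(qu k.1).elim, (xq k.1.symm).elim, (qu' k.1).elim, k.1]
  exact Or.inr (Or.inr ⟨x, q, e'R, ee, xC, xC'⟩)

theorem cnt3c {E : Finset (Sym2 V)} (hE : Cubic E) (hc : Conn E) (hn : 6 < (supp E).card)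
    {F : Finset (Finset (Sym2 V))} (hF : FCDC E F)
    {T : Finset (Finset (Sym2 V))} (hT : T ⊆ F) (h2 : ∀ C ∈ T, F2 F C) :
    2 * ∑ C ∈ T, (singles F C).card ≤ 2 * ∑ C ∈ T, (bigs F C).card +
      3 * (unc E (T.biUnion (singles F))).card + 2 * (sa E (T.biUnion (singles F))).card := by
  classical
  obtain ⟨RE, mt, -⟩ := cnt3a hE hF hT h2
  have tri := fun C hC u u' he => c3c_tri hE hF hT h2 (C := C) hC (u := u) (u' := u') he
  have inR : ∀ C ∈ T, ∀ e ∈ singles F C, e ∈ T.biUnion (singles F) := fun C hC e he =>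
    mem_biUnion.2 ⟨C, hC, he⟩
  generalize T.biUnion (singles F) = R at *
  let Pa : Finset (Sym2 V) → Sym2 V → Prop := fun C e => ∀ v ∈ e, v ∈ supp (bigs F C)
  let I := T.sigma fun C => (singles F C).filter fun e => ¬ Pa C e
  let rb : (Σ _ : Finset (Sym2 V), Sym2 V) → (Σ _ : V, Sym2 V) → Prop := fun z y =>
    ∃ u u', z.2 = s(u, u') ∧ u' ≠ y.1 ∧ y.2 = s(u, y.1) ∧ y.2 ∈ z.1
  let rc : (Σ _ : Finset (Sym2 V), Sym2 V) → Sym2 V × Sym2 V → Prop := fun z y =>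
    y.1 = z.2 ∧ ∃ u u' x x', y.1 = s(u, u') ∧ y.2 = s(x, x') ∧ s(u, x) ∈ z.1 ∧ s(u', x') ∈ z.1
  let J := (unc E R).sigma fun x => E.filter fun e => x ∈ e
  have mI : ∀ z ∈ I, z.1 ∈ T ∧ z.2 ∈ singles F z.1 ∧ z.2 ∈ z.1 ∧ ¬ Pa z.1 z.2 := fun z hz =>
    ⟨(mem_sigma.1 hz).1, (mem_filter.1 (mem_sigma.1 hz).2).1,
      (mem_filter.1 (mem_filter.1 (mem_sigma.1 hz).2).1).1, (mem_filter.1 (mem_sigma.1 hz).2).2⟩
  have ha : ∀ C ∈ T, ((singles F C).filter (Pa C)).card ≤ (bigs F C).card := by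
    intro C hC
    have sub : ∀ e ∈ (singles F C).filter (Pa C), e ∈ R := fun e he =>
      inR C hC e (mem_filter.1 he).1
    have a1 := c3c_eq (X := (singles F C).filter (Pa C)) (fun e he => hE.1 e (RE (sub e he)))
      fun e he e' he' => mt e (sub e he) e' (sub e' he')
    have a2 := c3c_le (bigs F C)
    have a3 : (supp ((singles F C).filter (Pa C))).card ≤ (supp (bigs F C)).card :=
      card_le_card fun v hv => by
        obtain ⟨e, he, ve⟩ := mem_supp.1 hv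
        exact (mem_filter.1 he).2 v ve
    omega
  have hJ : J.card ≤ 3 * (unc E R).card := by
    rw [card_sigma, mul_comm, ← smul_eq_mul]
    refine sum_le_card_nsmul _ _ _ fun x _ => ?_
    rcases hE.2 x with h | h
    · exact (le_of_eq h).trans (by omega)
    · exact le_of_eq h
  have hb : (I.filter fun z => ¬ ∃ y ∈ sa E R, rc z y).card * 2 ≤ J.card * 1 := by
    refine card_mul_le_card_mul rb ?_ ?_
    · rintro ⟨C, e⟩ hz
      obtain ⟨c1, c2, c3, c4⟩ := mI _ (mem_filter.1 hz).1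
      have nc := (mem_filter.1 hz).2
      have CE := hF.subset (hT c1)
      induction e using Sym2.ind with | _ u u' =>
      have c2' : s(u', u) ∈ singles F C := Sym2.eq_swap ▸ c2
      have uu : u ≠ u' := fun h => hE.1 _ (CE c3) (Sym2.mk_isDiag_iff.2 h)
      rcases tri C c1 u u' c2 with h | ⟨x, x1, x2, x3⟩ | ⟨x, x', x1, x2, x3, x4⟩
      · exact (c4 h).elim
      · rcases tri C c1 u' u c2' with h | ⟨y, y1, y2, y3⟩ | ⟨y, y', y1, y2, y3, y4⟩
        · exact (c4 fun v hv => h v (Sym2.eq_swap ▸ hv)).elim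
        · refine one_lt_card.2 ⟨⟨x, s(u, x)⟩, ?_, ⟨y, s(u', y)⟩, ?_, ?_⟩
          · exact (mem_bipartiteAbove _).2 ⟨mem_sigma.2 ⟨x1,
              mem_filter.2 ⟨CE x3, Sym2.mem_mk_right _ _⟩⟩, u, u', rfl, x2, rfl, x3⟩
          · exact (mem_bipartiteAbove _).2 ⟨mem_sigma.2 ⟨y1,
              mem_filter.2 ⟨CE y3, Sym2.mem_mk_right _ _⟩⟩, u', u, Sym2.eq_swap, y2, rfl, y3⟩
          · intro h
            obtain ⟨rfl, h'⟩ := Sigma.mk.inj h
            exact uu (Sym2.congr_left.1 (eq_of_heq h'))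
        · exact (nc ⟨(s(u, u'), s(y, y')), mem_filter.2 ⟨mem_product.2 ⟨inR _ c1 _ c2, y1⟩,
            fun h => y2 (Sym2.eq_swap.trans h), u', u, y, y', Sym2.eq_swap, rfl, CE y3, CE y4⟩,
            rfl, u', u, y, y', Sym2.eq_swap, rfl, y3, y4⟩).elim
      · exact (nc ⟨(s(u, u'), s(x, x')), mem_filter.2 ⟨mem_product.2 ⟨inR _ c1 _ c2, x1⟩, x2,
          u, u', x, x', rfl, rfl, CE x3, CE x4⟩, rfl, u, u', x, x', rfl, rfl, x3, x4⟩).elim
    rintro ⟨x, f⟩ -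
    refine card_le_one.2 ?_
    rintro ⟨C, e⟩ hz ⟨B, e2⟩ hz'
    obtain ⟨k1, u, u', rfl, n1, ef, f1⟩ := (mem_bipartiteBelow _).1 hz
    obtain ⟨k2, v, v', rfl, n2, ev, f2⟩ := (mem_bipartiteBelow _).1 hz'
    obtain rfl : f = s(u, x) := ef
    obtain ⟨c1, c2, c3, -⟩ := mI _ (mem_filter.1 k1).1
    obtain ⟨b1, b2, b3, -⟩ := mI _ (mem_filter.1 k2).1
    obtain rfl : u = v := Sym2.congr_left.1 ev
    have e := mt _ (inR _ c1 _ c2) _ (inR _ b1 _ b2) u (Sym2.mem_mk_left _ _)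
      (Sym2.mem_mk_left _ _)
    obtain rfl : u' = v' := Sym2.congr_right.1 e
    have CE := hF.subset (hT c1)
    obtain rfl : C = B := (loc hE hF (CE c3) (CE f1) n1).unique ⟨hT c1, c3, f1⟩ ⟨hT b1, b3, f2⟩
    rfl
  have hc' : (I.filter fun z => ∃ y ∈ sa E R, rc z y).card ≤ (sa E R).card := by
    refine card_le_card_of_forall_subsingleton rc ?_ ?_
    · exact fun z hz => (mem_filter.1 hz).2
    · rintro ⟨e, e'⟩ hy ⟨C, e1⟩ ⟨k1, rfl, u, u', x, x', rfl, rfl, f1, f1'⟩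
        ⟨B, e2⟩ ⟨k2, rfl, v, v', y, y', ev, ey, f2, f2'⟩
      obtain ⟨c1, c2, c3, -⟩ := mI _ (mem_filter.1 k1).1
      obtain ⟨b1, b2, b3, -⟩ := mI _ (mem_filter.1 k2).1
      obtain ⟨p, ne, -⟩ := mem_filter.1 hy
      obtain ⟨p1, p2⟩ := mem_product.1 p
      have CE := hF.subset (hT c1)
      have BE := hF.subset (hT b1)
      have n1 : u' ≠ x := fun h =>
        ne (mt _ p1 _ p2 u' (Sym2.mem_mk_right _ _) (h ▸ Sym2.mem_mk_left _ _))
      have same : s(u, x) ∈ B → C = B := fun h =>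
        (loc hE hF (CE c3) (CE f1) n1).unique ⟨hT c1, c3, f1⟩ ⟨hT b1, b3, h⟩
      have k4 : s(u, x') ∈ B → s(u', x) ∈ B → C = B := fun h h' => by
        have := c3c_k4 hE hc (CE c3) (CE f1) (BE h) (BE h') (CE f1') (RE p2)
        omega
      obtain rfl : C = B := by
        rcases Sym2.eq_iff.1 ev with ⟨rfl, rfl⟩ | ⟨rfl, rfl⟩ <;>
          rcases Sym2.eq_iff.1 ey with ⟨rfl, rfl⟩ | ⟨rfl, rfl⟩
        exacts [same f2, k4 f2 f2', k4 f2' f2, same f2']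
      rfl
  have s1 : ∑ C ∈ T, (singles F C).card =
      ∑ C ∈ T, ((singles F C).filter (Pa C)).card + I.card := by
    rw [card_sigma, ← sum_add_distrib]
    exact sum_congr rfl fun C _ => (card_filter_add_card_filter_not _).symm
  have s2 := sum_le_sum ha
  have s3 := card_filter_add_card_filter_not (s := I) fun z => ∃ y ∈ sa E R, rc z y
  omega

end Pool.Agent.CDC36
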