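import Pool.Agent.Lib.MP_32fd1f_co.Basic

set_option autoImplicit false

namespace Pool.Agent.CDC36

open Finset

variable {V : Type} [Fintype V] [DecidableEq V]

theorem enumL_idx {C : Finset (Sym2 V)} {v : ℕ → V} (hv : Enum C v) {a b : ℕ}
    (ha : a < C.card) (hb : b ≤ C.card) (h : v a = v b) : a = b ∨ (a = 0 ∧ b = C.card) := by
  rcases lt_or_eq_of_le hb with h1 | h1
  · exact Or.inl (hv.2.1 a b ha h1 h)
  · have h2 := hv.1 0
    rw [zero_add] at h2
    rw [h1, h2] at h
    exact Or.inr ⟨hv.2.1 a 0 ha (by omega) h, h1⟩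

theorem enumL_single {y z : V} (h : y ≠ z) : Ends ({s(y, z)} : Finset (Sym2 V)) y z := by
  intro v
  unfold deg
  rw [filter_singleton]
  by_cases h1 : v = y
  · subst h1; simp [Xor', h]
  · by_cases h2 : v = z
    · subst h2; simp [Xor', h1]
    · simp [Xor', h1, h2]

theorem enumL_par {p r : ℕ} {A B C : Prop} (h1 : Odd p ↔ Xor' A B) (h2 : Odd r ↔ Xor' B C) :
    Odd (p + r) ↔ Xor' A C := by
  rw [Nat.odd_add, ← Nat.not_odd_iff_even, h1, h2]
  by_cases a : A <;> by_cases b : B <;> by_cases c : C <;> simp [Xor', a, b, c]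

theorem enum_inj {C : Finset (Sym2 V)} {v : ℕ → V} (hv : Enum C v) (h3 : 3 ≤ C.card) {i j : ℕ}
    (hi : i < C.card) (hj : j < C.card) (h : s(v i, v (i + 1)) = s(v j, v (j + 1))) : i = j := by
  rcases Sym2.eq_iff.1 h with ⟨h1, -⟩ | ⟨h1, h2⟩
  · exact hv.2.1 i j hi hj h1
  · have h4 := enumL_idx hv hi (Nat.succ_le_of_lt hj) h1
    have h5 := enumL_idx hv hj (Nat.succ_le_of_lt hi) h2.symm
    omega

theorem enum_arc {C : Finset (Sym2 V)} {v : ℕ → V} (hv : Enum C v) (h3 : 3 ≤ C.card) {p l : ℕ}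
    (hpl : p ≤ l) (hl : l < C.card) :
    Ends ((Finset.Ico p l).image (fun i => s(v i, v (i + 1)))) (v p) (v l) := by
  induction l, hpl using Nat.le_induction with
  | base => intro z; simp [deg, Xor']
  | succ l hpl ih =>
    have hl' : l < C.card := by omega
    have hd : Disjoint ((Finset.Ico p l).image (fun i => s(v i, v (i + 1))))
        {s(v l, v (l + 1))} := by
      rw [disjoint_singleton_right, mem_image]
      rintro ⟨i, hi, e⟩
      have h1 := (mem_Ico.1 hi).2
      have h2 := enum_inj hv h3 (by omega) hl' e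
      omega
    have hne : v l ≠ v (l + 1) := fun e => by
      have := hv.2.1 l (l + 1) hl' hl e
      omega
    have he : (Finset.Ico p (l + 1)).image (fun i => s(v i, v (i + 1))) =
        (Finset.Ico p l).image (fun i => s(v i, v (i + 1))) ∪ {s(v l, v (l + 1))} := by
      rw [Nat.Ico_succ_right_eq_insert_Ico hpl, image_insert, insert_eq, union_comm]
    intro z
    rw [he, deg_union hd]
    exact enumL_par (ih hl' z) (enumL_single hne z)

end Pool.Agent.CDC36
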