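import Pool.Agent.Lib.MP_32fd1f_co.Path
import Pool.Agent.Lib.MP_32fd1f_co.EnumL

set_option autoImplicit false

namespace Pool.Agent.CDC36

open Finset

variable {V : Type} [Fintype V] [DecidableEq V]

theorem cross_par {x y c p p' : ℕ} {A B Q : Prop} (h1 : Even (x + c + y)) (h2 : Even (y + p + p'))
    (h4 : Odd c ↔ Xor' A B) (h5 : Odd p ↔ Xor' B Q) (h6 : Odd p' ↔ Xor' Q A) : Even x := by
  rw [Nat.odd_iff] at h4 h5 h6
  rw [Nat.even_iff] at h1 h2 ⊢
  have e : ∀ U W : Prop, Xor' U W ↔ (U ∧ ¬W) ∨ (W ∧ ¬U) := fun _ _ => Iff.rfl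
  rw [e] at h4 h5 h6
  by_cases c1 : A <;> by_cases c2 : B <;> by_cases c3 : Q <;>
    simp only [c1, c2, c3, not_true, not_false_iff, and_true, and_false, or_self,
      or_true, true_or, iff_true, iff_false] at h4 h5 h6 <;> omega

theorem cross {E : Finset (Sym2 V)} {F : Finset (Finset (Sym2 V))} (hF : FCDC E F)
    {C : Finset (Sym2 V)} (hC : C ∈ F) (h3 : 3 ≤ C.card) {v : ℕ → V} (hv : Enum C v)
    (a : ℕ → Finset (Sym2 V)) (ha : ∀ p, a p ∈ F ∧ a p ≠ C ∧ s(v p, v (p + 1)) ∈ a p)
    {i j k m : ℕ} (hij : i < j) (hjk : j < k) (hkm : k < m) (hm : m < C.card)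
    (hik : (a i ∩ a k).Nonempty) (hjm : (a j ∩ a m).Nonempty)
    (n1 : a i ≠ a j) (n2 : a i ≠ a m) (n3 : a k ≠ a j) (n4 : a k ≠ a m) : Hd F C := by
  classical
  have hin : ∀ p, p < C.card → s(v p, v (p + 1)) ∈ C := fun p hp => (hv.2.2 _).2 ⟨p, hp, rfl⟩
  have face : ∀ p, p < C.card → ∀ A ∈ F, s(v p, v (p + 1)) ∈ A → A = C ∨ A = a p := by
    intro p hp A hA he
    obtain ⟨A0, _, _, _, h⟩ := hF.other hC (hin p hp)
    have h1 : a p = A0 := (h _ (ha p).1 (ha p).2.2).resolve_left (ha p).2.1
    rw [h1]
    exact h A hA he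
  have hi : i < C.card := by omega
  have hk : k < C.card := by omega
  have hne : s(v i, v (i + 1)) ≠ s(v k, v (k + 1)) := fun h => by
    have := enum_inj hv h3 hi hk h
    omega
  have hX : ∃ X : Finset (Sym2 V), (∀ e ∈ X, ∀ A ∈ F, e ∈ A → A = C ∨ A = a i ∨ A = a k) ∧
      (∀ A ∈ F, Even (X ∩ A).card) ∧ s(v k, v (k + 1)) ∈ X ∧
      ∀ e ∈ X, e ∈ C → e = s(v i, v (i + 1)) ∨ e = s(v k, v (k + 1)) := by
    by_cases hik' : a i = a k
    · refine ⟨{s(v i, v (i + 1)), s(v k, v (k + 1))}, ?_, ?_, by simp, ?_⟩
      · intro e he A hA heA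
        rcases mem_insert.1 he with h | h
        · rw [h] at heA
          exact (face i hi A hA heA).imp id Or.inl
        · rw [mem_singleton.1 h] at heA
          exact (face k hk A hA heA).imp id Or.inr
      · intro A hA
        by_cases h : A = C ∨ A = a i
        · have h1 : s(v i, v (i + 1)) ∈ A := by
            rcases h with h | h
            · rw [h]; exact hin i hi
            · rw [h]; exact (ha i).2.2
          have h2 : s(v k, v (k + 1)) ∈ A := by
            rcases h with h | h
            · rw [h]; exact hin k hk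
            · rw [h, hik']; exact (ha k).2.2
          rw [inter_eq_left.2 (insert_subset h1 (singleton_subset_iff.2 h2)), card_pair hne]
          exact even_two
        · have h1 : s(v i, v (i + 1)) ∉ A := fun h1 => h (face i hi A hA h1)
          have h2 : s(v k, v (k + 1)) ∉ A := fun h2 => h (by rw [hik']; exact face k hk A hA h2)
          rw [insert_inter_of_notMem h1, singleton_inter_of_notMem h2]
          simp
      · intro e he _
        exact (mem_insert.1 he).imp id mem_singleton.1
    · obtain ⟨f, hf⟩ := hik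
      obtain ⟨f1, f2⟩ := mem_inter.1 hf
      have ff : ∀ A ∈ F, f ∈ A → A = a i ∨ A = a k := by
        intro A hA he
        obtain ⟨A0, _, _, _, h⟩ := hF.other (ha i).1 f1
        have h1 : a k = A0 := (h _ (ha k).1 f2).resolve_left (Ne.symm hik')
        rw [h1]
        exact h A hA he
      have fC : f ∉ C := fun h => by
        rcases ff C hC h with h | h
        · exact (ha i).2.1 h.symm
        · exact (ha k).2.1 h.symm
      have g1 : s(v i, v (i + 1)) ≠ f := fun h => fC (h ▸ hin i hi)
      have g2 : s(v k, v (k + 1)) ≠ f := fun h => fC (h ▸ hin k hk)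
      refine ⟨{s(v i, v (i + 1)), s(v k, v (k + 1)), f}, ?_, ?_, by simp, ?_⟩
      · intro e he A hA heA
        rcases mem_insert.1 he with h | h
        · rw [h] at heA
          exact (face i hi A hA heA).imp id Or.inl
        · rcases mem_insert.1 h with h | h
          · rw [h] at heA
            exact (face k hk A hA heA).imp id Or.inr
          · rw [mem_singleton.1 h] at heA
            exact Or.inr (ff A hA heA)
      · intro A hA
        by_cases c0 : A = C
        · rw [c0, insert_inter_of_mem (hin i hi), insert_inter_of_mem (hin k hk),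
            singleton_inter_of_notMem fC, insert_empty_eq, card_pair hne]
          exact even_two
        by_cases c1 : A = a i
        · have h2 : s(v k, v (k + 1)) ∉ a i := fun h => by
            rcases face k hk _ (ha i).1 h with h | h
            · exact (ha i).2.1 h
            · exact hik' h
          rw [c1, insert_inter_of_mem (ha i).2.2, insert_inter_of_notMem h2,
            singleton_inter_of_mem f1, card_pair g1]
          exact even_two
        by_cases c2 : A = a k
        · have h2 : s(v i, v (i + 1)) ∉ a k := fun h => by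
            rcases face i hi _ (ha k).1 h with h | h
            · exact (ha k).2.1 h
            · exact hik' h.symm
          rw [c2, insert_inter_of_notMem h2, insert_inter_of_mem (ha k).2.2,
            singleton_inter_of_mem f2, card_pair g2]
          exact even_two
        · have h1 : s(v i, v (i + 1)) ∉ A := fun h => (face i hi A hA h).elim c0 c1
          have h2 : s(v k, v (k + 1)) ∉ A := fun h => (face k hk A hA h).elim c0 c2
          have h4 : f ∉ A := fun h => (ff A hA h).elim c1 c2
          rw [insert_inter_of_notMem h1, insert_inter_of_notMem h2, singleton_inter_of_notMem h4]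
          simp
      · intro e he heC
        rcases mem_insert.1 he with h | h
        · exact Or.inl h
        · rcases mem_insert.1 h with h | h
          · exact Or.inr h
          · rw [mem_singleton.1 h] at heC
            exact absurd heC fC
  obtain ⟨X, X1, X2, X3, X4⟩ := hX
  obtain ⟨g, hg⟩ := hjm
  obtain ⟨g1, g2⟩ := mem_inter.1 hg
  have hq : g.out.1 ∈ g := Sym2.out_fst_mem g
  have cj := hF.1 _ (ha j).1
  have cm := hF.1 _ (ha m).1
  obtain ⟨P, hP, eP⟩ := path cm.2.1 (cm.2.2.2 (v m)
    (mem_supp.2 ⟨_, (ha m).2.2, Sym2.mem_mk_left _ _⟩) g.out.1 (mem_supp.2 ⟨g, g2, hq⟩))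
  obtain ⟨P', hP', eP'⟩ := path cj.2.1 (cj.2.2.2 g.out.1 (mem_supp.2 ⟨g, g1, hq⟩) (v (j + 1))
    (mem_supp.2 ⟨_, (ha j).2.2, Sym2.mem_mk_right _ _⟩))
  have eC := enum_arc hv h3 (p := j + 1) (l := m) (by omega) hm
  set PC := (Finset.Ico (j + 1) m).image (fun i => s(v i, v (i + 1))) with hPC
  have PCs : PC ⊆ C := by
    intro e he
    obtain ⟨p, hp, rfl⟩ := mem_image.1 he
    exact hin p (lt_trans (mem_Ico.1 hp).2 hm)
  have Xj : ∀ e ∈ X, e ∉ a j := fun e he h => by
    rcases X1 e he _ (ha j).1 h with h | h | h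
    · exact (ha j).2.1 h
    · exact n1 h.symm
    · exact n3 h.symm
  have Xm : ∀ e ∈ X, e ∉ a m := fun e he h => by
    rcases X1 e he _ (ha m).1 h with h | h | h
    · exact (ha m).2.1 h
    · exact n2 h.symm
    · exact n4 h.symm
  refine ⟨{a i, a k}, {a j, a m}, card_le_two, card_le_two, ?_, ?_, ?_, ?_, X,
    symmDiff PC (symmDiff P P'), ?_, X2, ?_, ?_, ?_⟩
  · intro h
    rcases mem_insert.1 h with h | h
    · exact (ha i).2.1 h.symm
    · exact (ha k).2.1 (mem_singleton.1 h).symm
  · intro h
    rcases mem_insert.1 h with h | h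
    · exact (ha j).2.1 h.symm
    · exact (ha m).2.1 (mem_singleton.1 h).symm
  · refine disjoint_left.2 fun A h1 h2 => ?_
    simp only [mem_insert, mem_singleton] at h1 h2
    rcases h1 with h1 | h1 <;> rcases h2 with h2 | h2
    · exact n1 (h1.symm.trans h2)
    · exact n2 (h1.symm.trans h2)
    · exact n3 (h1.symm.trans h2)
    · exact n4 (h1.symm.trans h2)
  · exact insert_subset (ha j).1 (singleton_subset_iff.2 (ha m).1)
  · intro e he A hA heA
    refine (X1 e he A hA heA).imp id fun h => ?_
    simp only [mem_insert, mem_singleton]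
    exact h
  · intro z
    have h1 := even_deg_symmDiff PC (symmDiff P P') z
    have h2 := even_deg_symmDiff P P' z
    have h4 := eC z
    have h5 := eP z
    have h6 := eP' z
    exact cross_par h1 h2 h4 h5 h6
  · intro e he
    rcases mem_symmDiff.1 he with h | h
    · exact Or.inl (PCs h.1)
    · rcases mem_symmDiff.1 h.1 with h | h
      · exact Or.inr ⟨a m, by simp, hP h.1⟩
      · exact Or.inr ⟨a j, by simp, hP' h.1⟩
  · have key : X ∩ symmDiff PC (symmDiff P P') = {s(v k, v (k + 1))} := by
      ext e
      rw [mem_inter, mem_singleton]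
      constructor
      · rintro ⟨h1, h2⟩
        have a1 : e ∉ P := fun h => Xm e h1 (hP h)
        have a2 : e ∉ P' := fun h => Xj e h1 (hP' h)
        have a3 : e ∈ PC := by
          rcases mem_symmDiff.1 h2 with h | h
          · exact h.1
          · rcases mem_symmDiff.1 h.1 with h | h
            · exact absurd h.1 a1
            · exact absurd h.1 a2
        refine (X4 e h1 (PCs a3)).resolve_left fun h => ?_
        obtain ⟨p, hp, hpe⟩ := mem_image.1 a3
        have hp' := mem_Ico.1 hp
        have := enum_inj hv h3 (lt_trans hp'.2 hm) hi (hpe.trans h)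
        omega
      · rintro rfl
        refine ⟨X3, mem_symmDiff.2 (Or.inl ⟨mem_image.2 ⟨k, mem_Ico.2 ⟨hjk, hkm⟩, rfl⟩, ?_⟩)⟩
        intro h
        rcases mem_symmDiff.1 h with h | h
        · exact Xm _ X3 (hP h.1)
        · exact Xj _ X3 (hP' h.1)
    rw [key, card_singleton]
    exact odd_one

end Pool.Agent.CDC36
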