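import Pool.Agent.Lib.MP_32fd1f_co.Defs

set_option autoImplicit false

namespace Pool.Agent.CDC36

open Finset

variable {V : Type} [Fintype V] [DecidableEq V]

/-- a dual cycle `X` through `C` and the faces `R`, a cycle `Z` inside `C` and the faces `B`,
crossing an odd number of times -/
def HdW (F : Finset (Finset (Sym2 V))) (C : Finset (Sym2 V)) (R B : Finset (Finset (Sym2 V))) :
    Prop :=
  ∃ X Z : Finset (Sym2 V), (∀ e ∈ X, ∀ A ∈ F, e ∈ A → A = C ∨ A ∈ R) ∧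
    (∀ A ∈ F, Even (X ∩ A).card) ∧ IsEven Z ∧ (∀ e ∈ Z, e ∈ C ∨ ∃ A ∈ B, e ∈ A) ∧
    Odd (X ∩ Z).card

/-- the face `C` carries a handle, in both directions -/
def Hd2 (F : Finset (Finset (Sym2 V))) (C : Finset (Sym2 V)) : Prop :=
  ∃ R B : Finset (Finset (Sym2 V)), R.card ≤ 2 ∧ B.card ≤ 2 ∧ C ∉ R ∧ C ∉ B ∧ Disjoint R B ∧
    R ⊆ F ∧ B ⊆ F ∧ HdW F C R B ∧ HdW F C B R

end Pool.Agent.CDC36
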