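import Pool.Agent.Lib.MP_32fd1f_co.Defs

set_option autoImplicit false
set_option linter.unusedSectionVars false

/-! Half-edges of a finite set of edges. -/

namespace Pool.Agent.CDC36.Dartx

open Finset

variable {V : Type} [Fintype V] [DecidableEq V]

abbrev Hf (E : Finset (Sym2 V)) : Type := {p : V × V // s(p.1, p.2) ∈ E}

abbrev Vx (E : Finset (Sym2 V)) : Type := {v : V // v ∈ supp E}

variable {E : Finset (Sym2 V)}

def ed (h : Hf E) : Sym2 V := s(h.1.1, h.1.2)

def vx (h : Hf E) : Vx E :=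
  ⟨h.1.1, mem_filter.2 ⟨mem_univ _, _, h.2, Sym2.mem_mk_left _ _⟩⟩

def op (h : Hf E) : Hf E := ⟨(h.1.2, h.1.1), by rw [Sym2.eq_swap]; exact h.2⟩

theorem op_op (h : Hf E) : op (op h) = h := rfl

theorem ed_op (h : Hf E) : ed (op h) = ed h := Sym2.eq_swap

theorem op_ne (hE : NoLoop E) (h : Hf E) : op h ≠ h := fun e =>
  hE _ h.2 (Sym2.mk_isDiag_iff.2 (congrArg (fun k : Hf E => k.1.2) e))

theorem image_ed (v : Vx E) :
    (univ.filter fun h : Hf E => vx h = v).image ed = E.filter (fun e => v.1 ∈ e) := by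
  ext e
  simp only [mem_image, mem_filter, mem_univ, true_and]
  constructor
  · rintro ⟨h, rfl, rfl⟩
    exact ⟨h.2, Sym2.mem_mk_left _ _⟩
  · rintro ⟨h1, h2⟩
    obtain ⟨w, rfl⟩ := Sym2.mem_iff_exists.1 h2
    exact ⟨⟨(v.1, w), h1⟩, rfl, rfl⟩

theorem ed_inj (v : Vx E) : Set.InjOn ed ((univ.filter fun h : Hf E => vx h = v : Finset _) :
    Set (Hf E)) := by
  intro a ha b hb e
  have h1 : a.1.1 = b.1.1 := congrArg Subtype.val
    (((mem_filter.1 (mem_coe.1 ha)).2).trans ((mem_filter.1 (mem_coe.1 hb)).2).symm)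
  have h2 : s(a.1.1, a.1.2) = s(b.1.1, b.1.2) := e
  rw [h1] at h2
  exact Subtype.ext (Prod.ext h1 (Sym2.congr_right.1 h2))

theorem sum_ed {M : Type} [AddCommMonoid M] (φ : Sym2 V → M) (v : Vx E) :
    ∑ e ∈ E.filter (fun e => v.1 ∈ e), φ e = ∑ h : Hf E with vx h = v, φ (ed h) := by
  rw [← image_ed, sum_image (ed_inj v)]

theorem filter_empty {v : V} (hv : v ∉ supp E) : E.filter (fun e => v ∈ e) = ∅ :=
  filter_eq_empty_iff.2 fun e he k => hv (mem_filter.2 ⟨mem_univ _, e, he, k⟩)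

/-- a symmetric function on half-edges comes from a function on edges -/
theorem descend {M : Type} (z : M) (g : Hf E → M) (hg : ∀ h, g (op h) = g h) :
    ∃ f : Sym2 V → M, ∀ h, f (ed h) = g h := by
  refine ⟨Sym2.lift ⟨fun a b => if h : s(a, b) ∈ E then g ⟨(a, b), h⟩ else z, fun a b => ?_⟩,
    fun h => ?_⟩
  · by_cases h : s(a, b) ∈ E
    · have h' : s(b, a) ∈ E := by rw [Sym2.eq_swap]; exact h
      simp only [dif_pos h, dif_pos h']
      exact (hg ⟨(a, b), h⟩).symm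
    · have h' : s(b, a) ∉ E := by rw [Sym2.eq_swap]; exact h
      simp only [dif_neg h, dif_neg h']
  · simp only [ed, Sym2.lift_mk, dif_pos h.2]

theorem exists_ed {e : Sym2 V} (he : e ∈ E) : ∃ h : Hf E, ed h = e := by
  induction e using Sym2.ind with
  | _ a b => exact ⟨⟨(a, b), he⟩, rfl⟩

/-- coordinates -/
def co : (Fin 3 → ZMod 2) ≃+ ZMod 2 × ZMod 2 × ZMod 2 where
  toFun x := (x 0, x 1, x 2)
  invFun g := ![g.1, g.2.1, g.2.2]
  left_inv x := by
    funext i
    fin_cases i <;> rfl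
  right_inv _ := rfl
  map_add' _ _ := rfl

end Pool.Agent.CDC36.Dartx
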