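import Pool.Agent.Lib.MP_32fd1f_co.Path

set_option autoImplicit false

namespace Pool.Agent.CDC36

open Finset

variable {V : Type} [Fintype V] [DecidableEq V]

/-- the components of `X`, as a function of a vertex -/
private theorem dec_comp (X : Finset (Sym2 V)) :
    ∃ c : V → Finset (Sym2 V), (∀ a, c a ⊆ X) ∧
      (∀ a v, Link X a v → Link (c a) a v ∧ deg (c a) v = deg X v) ∧
      (∀ a v, v ∈ supp (c a) → Link X a v) ∧
      (∀ a v e, Link X a v → e ∈ X → v ∈ e → e ∈ c a) ∧
      (∀ a b, Link X a b → c a = c b) := by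
  choose c hc1 hc2 hc3 using fun a => comp X a
  have h3 : ∀ a v, v ∈ supp (c a) → Link X a v := by
    intro a v hv
    by_contra hn
    exact (mem_supp_iff_deg.1 hv) (hc3 a v hn)
  have h4 : ∀ a v e, Link X a v → e ∈ X → v ∈ e → e ∈ c a := by
    intro a v e hl he hv
    have hsub : (c a).filter (fun e => v ∈ e) ⊆ X.filter (fun e => v ∈ e) :=
      Finset.filter_subset_filter _ (hc1 a)
    have hd : deg (c a) v = deg X v := (hc2 a v hl).2
    have heq := Finset.eq_of_subset_of_card_le hsub (le_of_eq hd.symm)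
    have hm : e ∈ X.filter (fun e => v ∈ e) := Finset.mem_filter.2 ⟨he, hv⟩
    rw [← heq] at hm
    exact (Finset.mem_filter.1 hm).1
  have h5 : ∀ a b, Link X a b → c a ⊆ c b := by
    intro a b hl e he
    induction e using Sym2.ind with
    | h p q =>
      have hp : p ∈ supp (c a) := mem_supp.2 ⟨_, he, Sym2.mem_mk_left p q⟩
      exact h4 b p _ (hl.symm.trans (h3 a p hp)) (hc1 a he) (Sym2.mem_mk_left p q)
  exact ⟨c, hc1, hc2, h3, h4, fun a b hl => Finset.Subset.antisymm (h5 a b hl) (h5 b a hl.symm)⟩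

/-- a family of nonempty edge sets with disjoint supports, closed under `X`-edges, has at most
`|T| + 1` members if `X ∪ T` links their vertices -/
private theorem dec_bound {X T : Finset (Sym2 V)} (F : Finset (Finset (Sym2 V)))
    (hne : ∀ C ∈ F, ∃ v, v ∈ supp C)
    (hdis : ∀ C ∈ F, ∀ D ∈ F, ∀ v, v ∈ supp C → v ∈ supp D → C = D)
    (hcl : ∀ C ∈ F, ∀ p q, s(p, q) ∈ X → p ∈ supp C → q ∈ supp C)
    (hT : ∀ C ∈ F, ∀ D ∈ F, ∀ a ∈ supp C, ∀ b ∈ supp D, Link (X ∪ T) a b) :
    F.card ≤ T.card + 1 := by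
  classical
  rcases F.eq_empty_or_nonempty with h0 | ⟨C0, hC0⟩
  · simp [h0]
  obtain ⟨a0, ha0⟩ := hne C0 hC0
  let k : Finset (Finset (Sym2 V)) → V → Bool := fun S v => decide (∃ C ∈ S, v ∈ supp C)
  have hk : ∀ S v, k S v = true ↔ ∃ C ∈ S, v ∈ supp C := by
    intro S v
    simp [k]
  have hX : ∀ S ⊆ F, ∀ p q, s(p, q) ∈ X → k S p = k S q := by
    intro S hS p q hpq
    have hqp : s(q, p) ∈ X := by rwa [Sym2.eq_swap]
    rw [Bool.eq_iff_iff, hk, hk]
    constructor
    · rintro ⟨C, hC, hp⟩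
      exact ⟨C, hC, hcl C (hS hC) p q hpq hp⟩
    · rintro ⟨C, hC, hq⟩
      exact ⟨C, hC, hcl C (hS hC) q p hqp hq⟩
  have h00 : ∀ S ⊆ F.erase C0, k S a0 = false := by
    intro S hS
    rw [← Bool.not_eq_true, hk]
    rintro ⟨C, hC, hv⟩
    have hm := Finset.mem_erase.1 (hS hC)
    exact hm.1 (hdis C hm.2 C0 hC0 a0 hv ha0)
  have hsub : ∀ S ⊆ F.erase C0, ∀ S' ⊆ F.erase C0, cut T (k S) = cut T (k S') → S ⊆ S' := by
    intro S hS S' hS' heq C hC
    have hSF : S ⊆ F := hS.trans (Finset.erase_subset _ _)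
    have hSF' : S' ⊆ F := hS'.trans (Finset.erase_subset _ _)
    have hcut : cut (X ∪ T) (fun v => xor (k S v) (k S' v)) = ∅ := by
      rw [cut_eq_empty]
      intro p q hpq
      rcases Finset.mem_union.1 hpq with h | h
      · simp only [hX S hSF p q h, hX S' hSF' p q h]
      · have h1 : (s(p, q) ∈ cut T (k S)) ↔ (s(p, q) ∈ cut T (k S')) := by rw [heq]
        rw [mk_mem_cut, mk_mem_cut] at h1
        simp only [h, true_and] at h1
        revert h1
        cases k S p <;> cases k S q <;> cases k S' p <;> cases k S' q <;> simp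
    obtain ⟨v, hv⟩ := hne C (hSF hC)
    have hl := hT C0 hC0 C (hSF hC) a0 ha0 v hv _ hcut
    have hv1 : k S v = true := (hk S v).2 ⟨C, hC, hv⟩
    simp only [h00 S hS, h00 S' hS', hv1] at hl
    have hv2 : k S' v = true := by
      revert hl
      cases k S' v <;> simp
    obtain ⟨D, hD, hvD⟩ := (hk S' v).1 hv2
    rw [hdis C (hSF hC) D (hSF' hD) v hv hvD]
    exact hD
  have hle : (F.erase C0).powerset.card ≤ T.powerset.card := by
    refine Finset.card_le_card_of_injOn (fun S => cut T (k S)) ?_ ?_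
    · intro S _
      simp only [Finset.coe_powerset, Set.mem_preimage, Set.mem_powerset_iff, Finset.coe_subset]
      exact Finset.filter_subset _ _
    · intro S hS S' hS' heq
      have h1 : S ⊆ F.erase C0 := Finset.mem_powerset.1 (Finset.mem_coe.1 hS)
      have h2 : S' ⊆ F.erase C0 := Finset.mem_powerset.1 (Finset.mem_coe.1 hS')
      exact Finset.Subset.antisymm (hsub S h1 S' h2 heq) (hsub S' h2 S h1 heq.symm)
  rw [Finset.card_powerset, Finset.card_powerset, Finset.card_erase_of_mem hC0] at hle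
  have h2 := (Nat.pow_le_pow_iff_right (by norm_num : 1 < 2)).1 hle
  omega

theorem dec {E : Finset (Sym2 V)} (hE : Cubic E) {X : Finset (Sym2 V)} (hX : X ⊆ E)
    (he : IsEven X) (T : Finset (Sym2 V)) (hT : ∀ a ∈ supp X, ∀ b ∈ supp X, Link (X ∪ T) a b) :
    ∃ M : Multiset (Finset (Sym2 V)), (∀ C ∈ M, Circ C) ∧
      (∀ e, M.countP (fun C => e ∈ C) = if e ∈ X then 1 else 0) ∧ M.card ≤ T.card + 1 := by
  obtain ⟨c, h1, h2, h3, h4, h5⟩ := dec_comp X
  have hsupp : ∀ a v, v ∈ supp (c a) → v ∈ supp X := by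
    intro a v hv
    obtain ⟨e, he1, he2⟩ := mem_supp.1 hv
    exact mem_supp.2 ⟨e, h1 a he1, he2⟩
  have hself : ∀ a ∈ supp X, a ∈ supp (c a) := by
    intro a ha
    rw [mem_supp_iff_deg] at ha ⊢
    rwa [(h2 a a (Link.refl X a)).2]
  refine ⟨((supp X).image c).val, ?_, ?_, ?_⟩
  · intro C hC
    have hC' : C ∈ (supp X).image c := hC
    obtain ⟨a, ha, rfl⟩ := Finset.mem_image.1 hC'
    refine ⟨?_, ?_, ?_, ?_⟩
    · obtain ⟨e, he1, _⟩ := mem_supp.1 (hself a ha)
      exact ⟨e, he1⟩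
    · intro e he1
      exact hE.1 e (hX (h1 a he1))
    · intro v
      by_cases hv : v ∈ supp (c a)
      · have hd := (h2 a v (h3 a v hv)).2
        have hm := deg_mono hX v
        have hE3 := hE.2 v
        obtain ⟨r, hr⟩ := he v
        omega
      · left
        by_contra hn
        exact hv (mem_supp_iff_deg.2 hn)
    · intro u hu v hv
      exact (h2 a u (h3 a u hu)).1.symm.trans (h2 a v (h3 a v hv)).1
  · intro e
    rw [Multiset.countP_eq_card_filter, ← Finset.filter_val, Finset.card_val]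
    split_ifs with heX
    · induction e using Sym2.ind with
      | h p q =>
        have hp : p ∈ supp X := mem_supp.2 ⟨_, heX, Sym2.mem_mk_left p q⟩
        rw [Finset.card_eq_one]
        refine ⟨c p, ?_⟩
        rw [Finset.eq_singleton_iff_unique_mem]
        constructor
        · exact Finset.mem_filter.2 ⟨Finset.mem_image.2 ⟨p, hp, rfl⟩,
            h4 p p _ (Link.refl X p) heX (Sym2.mem_mk_left p q)⟩
        · intro C hC
          obtain ⟨hC1, hC2⟩ := Finset.mem_filter.1 hC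
          obtain ⟨a, _, rfl⟩ := Finset.mem_image.1 hC1
          exact h5 a p (h3 a p (mem_supp.2 ⟨_, hC2, Sym2.mem_mk_left p q⟩))
    · rw [Finset.card_eq_zero, Finset.filter_eq_empty_iff]
      intro C hC heC
      obtain ⟨a, _, rfl⟩ := Finset.mem_image.1 hC
      exact heX (h1 a heC)
  · rw [Finset.card_val]
    refine dec_bound (X := X) _ ?_ ?_ ?_ ?_
    · intro C hC
      obtain ⟨a, ha, rfl⟩ := Finset.mem_image.1 hC
      exact ⟨a, hself a ha⟩
    · intro C hC D hD v hv hv'
      obtain ⟨a, _, rfl⟩ := Finset.mem_image.1 hC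
      obtain ⟨b, _, rfl⟩ := Finset.mem_image.1 hD
      exact h5 a b ((h3 a v hv).trans (h3 b v hv').symm)
    · intro C hC p q hpq hp
      obtain ⟨a, _, rfl⟩ := Finset.mem_image.1 hC
      exact mem_supp.2 ⟨_, h4 a p _ (h3 a p hp) hpq (Sym2.mem_mk_left p q), Sym2.mem_mk_right p q⟩
    · intro C hC D hD u hu v hv
      obtain ⟨a, _, rfl⟩ := Finset.mem_image.1 hC
      obtain ⟨b, _, rfl⟩ := Finset.mem_image.1 hD
      exact hT u (hsupp a u hu) v (hsupp b v hv)

end Pool.Agent.CDC36
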