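import Mathlib

set_option autoImplicit false

/-! Definitions for small cycle double covers of cubic graphs.  A graph is a finite set of edges. -/

namespace Pool.Agent.CDC36

open Finset

variable {V : Type} [Fintype V] [DecidableEq V]

/-- number of edges of `E` at `v` -/
def deg (E : Finset (Sym2 V)) (v : V) : ℕ := (E.filter (fun e => v ∈ e)).card

def NoLoop (E : Finset (Sym2 V)) : Prop := ∀ e ∈ E, ¬ e.IsDiag

/-- every vertex has degree `0` (unused) or `3` -/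
def Cubic (E : Finset (Sym2 V)) : Prop := NoLoop E ∧ ∀ v, deg E v = 0 ∨ deg E v = 3

/-- the vertices touched by `E` -/
def supp (E : Finset (Sym2 V)) : Finset V := univ.filter (fun v => ∃ e ∈ E, v ∈ e)

/-- the edges of `E` whose ends get different values of `κ` -/
def cut (E : Finset (Sym2 V)) (κ : V → Bool) : Finset (Sym2 V) :=
  E.filter (fun e => ¬ (e.map κ).IsDiag)

/-- `k`-edge-connected -/
def EC (k : ℕ) (E : Finset (Sym2 V)) : Prop :=
  ∀ κ : V → Bool, (∃ a ∈ supp E, κ a = true) → (∃ b ∈ supp E, κ b = false) → k ≤ (cut E κ).card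

/-- `a` and `b` are in one component of `X` -/
def Link (X : Finset (Sym2 V)) (a b : V) : Prop := ∀ κ : V → Bool, cut X κ = ∅ → κ a = κ b

def Conn (X : Finset (Sym2 V)) : Prop := ∀ a ∈ supp X, ∀ b ∈ supp X, Link X a b

def IsEven (X : Finset (Sym2 V)) : Prop := ∀ v, Even (deg X v)

/-- the odd-degree vertices of `P` are exactly `a` and `b` (none if `a = b`) -/
def Ends (P : Finset (Sym2 V)) (a b : V) : Prop := ∀ z, Odd (deg P z) ↔ Xor' (z = a) (z = b)

/-- edge set of a cycle -/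
def Circ (X : Finset (Sym2 V)) : Prop :=
  X.Nonempty ∧ NoLoop X ∧ (∀ v, deg X v = 0 ∨ deg X v = 2) ∧ Conn X

/-- cycle double cover, as a multiset -/
def MCDC (E : Finset (Sym2 V)) (M : Multiset (Finset (Sym2 V))) : Prop :=
  (∀ C ∈ M, Circ C) ∧ ∀ e, M.countP (fun C => e ∈ C) = if e ∈ E then 2 else 0

/-- cycle double cover, as a finite set of faces -/
def FCDC (E : Finset (Sym2 V)) (F : Finset (Finset (Sym2 V))) : Prop :=
  (∀ C ∈ F, Circ C) ∧ ∀ e, (F.filter (fun C => e ∈ C)).card = if e ∈ E then 2 else 0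

/-- periodic enumeration of the vertices of a cycle -/
def Enum (C : Finset (Sym2 V)) (v : ℕ → V) : Prop :=
  (∀ i, v (i + C.card) = v i) ∧ (∀ i j, i < C.card → j < C.card → v i = v j → i = j) ∧
    ∀ e, e ∈ C ↔ ∃ i, i < C.card ∧ e = s(v i, v (i + 1))

/-- the face `C` carries a handle: a dual cycle `X` through `C` and the faces `R`, and a cycle `Z`
inside `C` and the faces `B`, crossing an odd number of times -/
def Hd (F : Finset (Finset (Sym2 V))) (C : Finset (Sym2 V)) : Prop :=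
  ∃ R B : Finset (Finset (Sym2 V)), R.card ≤ 2 ∧ B.card ≤ 2 ∧ C ∉ R ∧ C ∉ B ∧ Disjoint R B ∧
    B ⊆ F ∧ ∃ X Z : Finset (Sym2 V), (∀ e ∈ X, ∀ A ∈ F, e ∈ A → A = C ∨ A ∈ R) ∧
      (∀ A ∈ F, Even (X ∩ A).card) ∧ IsEven Z ∧ (∀ e ∈ Z, e ∈ C ∨ ∃ A ∈ B, e ∈ A) ∧
      Odd (X ∩ Z).card

/-- the other faces sharing an edge with `C` -/
def nbrs (F : Finset (Finset (Sym2 V))) (C : Finset (Sym2 V)) : Finset (Finset (Sym2 V)) :=
  F.filter (fun A => A ≠ C ∧ (A ∩ C).Nonempty)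

/-- edges of `C` whose other face meets `C` in that edge only -/
def singles (F : Finset (Finset (Sym2 V))) (C : Finset (Sym2 V)) : Finset (Sym2 V) :=
  C.filter (fun e => ∀ A ∈ F, A ≠ C → e ∈ A → (A ∩ C).card = 1)

/-- edges of `C` whose other face meets `C` in at least three edges -/
def bigs (F : Finset (Finset (Sym2 V))) (C : Finset (Sym2 V)) : Finset (Sym2 V) :=
  C.filter (fun e => ∀ A ∈ F, A ≠ C → e ∈ A → 3 ≤ (A ∩ C).card)

def F1 (F : Finset (Finset (Sym2 V))) (C : Finset (Sym2 V)) : Prop :=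
  C.card + 2 ≤ 2 * (nbrs F C).card

def F2 (F : Finset (Finset (Sym2 V))) (C : Finset (Sym2 V)) : Prop :=
  ∀ u u', s(u, u') ∈ singles F C → ∃ A ∈ F, s(u, u') ∉ A ∧ u ∈ supp A ∧ u' ∈ supp A

def Matching (R : Finset (Sym2 V)) : Prop := ∀ e ∈ R, ∀ e' ∈ R, ∀ v, v ∈ e → v ∈ e' → e = e'

/-- ordered pairs of edges of `R` that are opposite sides of a square of `E` -/
def sa (E R : Finset (Sym2 V)) : Finset (Sym2 V × Sym2 V) :=
  (R ×ˢ R).filter (fun p => p.1 ≠ p.2 ∧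
    ∃ u u' x x', p.1 = s(u, u') ∧ p.2 = s(x, x') ∧ s(u, x) ∈ E ∧ s(u', x') ∈ E)

/-- vertices of `E` on no edge of `R` -/
def unc (E R : Finset (Sym2 V)) : Finset V := (supp E).filter (fun v => ∀ e ∈ R, v ∉ e)

/-- ladder with four rungs `w w'`, `x x'`, `u u'`, `y y'` -/
def Lad (E : Finset (Sym2 V)) (w w' x x' u u' y y' : V) : Prop :=
  [w, w', x, x', u, u', y, y'].Nodup ∧ s(w, w') ∈ E ∧ s(x, x') ∈ E ∧ s(u, u') ∈ E ∧ s(y, y') ∈ E ∧
    s(w, x) ∈ E ∧ s(x, u) ∈ E ∧ s(u, y) ∈ E ∧ s(w', x') ∈ E ∧ s(x', u') ∈ E ∧ s(u', y') ∈ E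

/-- `L` contains every vertex of every four-rung ladder -/
def LadIn (E : Finset (Sym2 V)) (L : Finset V) : Prop :=
  ∀ w w' x x' u u' y y', Lad E w w' x x' u u' y y' → ∀ v ∈ [w, w', x, x', u, u', y, y'], v ∈ L

/-- a ladder with the four outer neighbours `z z' t t'` of `w w' y y'` -/
def LadX (E : Finset (Sym2 V)) (w w' x x' u u' y y' z z' t t' : V) : Prop :=
  Lad E w w' x x' u u' y y' ∧ s(w, z) ∈ E ∧ s(w', z') ∈ E ∧ s(y, t) ∈ E ∧ s(y', t') ∈ E ∧
    ∀ v ∈ [w, w', x, x', u, u', y, y'], z ≠ v ∧ z' ≠ v ∧ t ≠ v ∧ t' ≠ v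

/-- a cut with at most three edges through the middle of the ladder -/
def Sep (E : Finset (Sym2 V)) (w w' x x' u u' y y' : V) : Prop :=
  ∃ κ : V → Bool, κ w = false ∧ κ w' = false ∧ κ x = false ∧ κ x' = false ∧
    κ u = true ∧ κ u' = true ∧ κ y = true ∧ κ y' = true ∧ (cut E κ).card ≤ 3

/-- remove the two inner rungs -/
def red1 (E : Finset (Sym2 V)) (w w' x x' u u' y y' : V) : Finset (Sym2 V) :=
  E.filter (fun e => x ∉ e ∧ x' ∉ e ∧ u ∉ e ∧ u' ∉ e) ∪ {s(w, y), s(w', y')}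

/-- replace the ladder by the single edge `w y` -/
def red2 (E : Finset (Sym2 V)) (w w' x x' u u' y y' z' t' : V) : Finset (Sym2 V) :=
  E.filter (fun e => w' ∉ e ∧ x ∉ e ∧ x' ∉ e ∧ u ∉ e ∧ u' ∉ e ∧ y' ∉ e) ∪
    {s(w, z'), s(w, y), s(y, t')}

end Pool.Agent.CDC36
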