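import Pool.Agent.Lib.MP_32fd1f_co.Defs

set_option autoImplicit false

namespace Pool.Agent.CDC36

open Finset

variable {V : Type} [Fintype V] [DecidableEq V]

theorem ds {α : Type} [DecidableEq α] (a : ℕ → α) (l : ℕ) (hl : 2 ≤ l)
    (h1 : ∀ i, i + 1 < l → a i ≠ a (i + 1)) (h2 : a 0 ≠ a (l - 1))
    (h3 : ∀ i j k m, i < j → j < k → k < m → m < l → a i = a k → a j = a m → a i = a j) :
    l + 2 ≤ 2 * ((Finset.range l).image a).card := by
  classical
  obtain ⟨b, hb⟩ : ∃ b : ℕ → α, ∀ k, b k = if k < l then a k else a 0 := ⟨_, fun _ => rfl⟩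
  have hlt : ∀ k, k < l → b k = a k := fun k hk => by rw [hb, if_pos hk]
  have hl' : b l = a 0 := by rw [hb, if_neg (lt_irrefl l)]
  have hb1 : ∀ i, i + 1 ≤ l → b i ≠ b (i + 1) := by
    intro i hi
    rcases Nat.lt_or_eq_of_le hi with h | h
    · rw [hlt i (by omega), hlt _ h]; exact h1 i h
    · rw [hlt i (by omega), h, hl']
      have : i = l - 1 := by omega
      rw [this]; exact h2.symm
  have hb3 : ∀ i j k m, i < j → j < k → k < m → m ≤ l → b i = b k → b j = b m → b i = b j := by
    intro i j k m hij hjk hkm hm e1 e2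
    rw [hlt i (by omega), hlt k (by omega)] at e1
    rw [hlt j (by omega)] at e2
    rw [hlt i (by omega), hlt j (by omega)]
    rcases Nat.lt_or_eq_of_le hm with h | h
    · rw [hlt m h] at e2
      exact h3 i j k m hij hjk hkm h e1 e2
    · rw [h, hl'] at e2
      rcases Nat.eq_zero_or_pos i with h0 | h0
      · rw [h0]; exact e2.symm
      · have := h3 0 i j k h0 hij hjk (by omega) e2.symm e1
        rw [← this]; exact e2.symm
  set Fi := (range (l + 1)).filter (fun k => ∀ j, j < k → b j ≠ b k) with hFi
  set No := (range (l + 1)).filter (fun k => ¬ ∀ j, j < k → b j ≠ b k) with hNo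
  have hsum : Fi.card + No.card = l + 1 := by
    rw [hFi, hNo, card_filter_add_card_filter_not, card_range]
  have hF : Fi.card ≤ ((range l).image a).card := by
    refine card_le_card_of_injOn b (fun k _ => ?_) (fun x hx y hy e => ?_)
    · rw [mem_coe, hb]
      split_ifs with h
      · exact mem_image_of_mem a (mem_range.mpr h)
      · exact mem_image_of_mem a (mem_range.mpr (by omega))
    · have hx' := (mem_filter.mp (mem_coe.mp hx)).2
      have hy' := (mem_filter.mp (mem_coe.mp hy)).2
      rcases lt_trichotomy x y with h | h | h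
      · exact absurd e (hy' x h)
      · exact h
      · exact absurd e.symm (hx' y h)
  have hprev : ∀ k ∈ No, ∃ i, i < k ∧ b i = b k ∧ ∀ j, i < j → j < k → b j ≠ b k := by
    intro k hk
    have hk' := (mem_filter.mp hk).2
    push Not at hk'
    obtain ⟨j0, hj0, e0⟩ := hk'
    have hne : ((range k).filter (fun j => b j = b k)).Nonempty :=
      ⟨j0, mem_filter.mpr ⟨mem_range.mpr hj0, e0⟩⟩
    obtain ⟨i, hi, hmax⟩ := exists_max_image _ id hne
    refine ⟨i, mem_range.mp (mem_filter.mp hi).1, (mem_filter.mp hi).2, fun j hij hjk e => ?_⟩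
    have := hmax j (mem_filter.mpr ⟨mem_range.mpr hjk, e⟩)
    simp only [id] at this
    omega
  choose! pr hpr using hprev
  have hN : No.card ≤ (Fi.erase 0).card := by
    refine card_le_card_of_injOn (fun k => pr k + 1) (fun k hk => ?_) (fun x hx y hy e => ?_)
    · have hk0 := mem_coe.mp hk
      obtain ⟨p1, p2, p3⟩ := hpr k hk0
      have hkl : k < l + 1 := mem_range.mp (mem_filter.mp hk0).1
      have hne := hb1 (pr k) (by omega)
      have hlt2 : pr k + 1 < k := by
        rcases Nat.lt_or_eq_of_le (Nat.succ_le_of_lt p1) with h | h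
        · exact h
        · exact absurd (p2.trans (congrArg b h.symm)) hne
      show pr k + 1 ∈ ((Fi.erase 0 : Finset ℕ) : Set ℕ)
      rw [mem_coe, mem_erase]
      refine ⟨by omega, mem_filter.mpr ⟨mem_range.mpr (by omega), fun j hj e => ?_⟩⟩
      rcases Nat.lt_or_eq_of_le (Nat.le_of_lt_succ hj) with h | h
      · have := hb3 j (pr k) (pr k + 1) k h (Nat.lt_succ_self _) hlt2 (by omega) e p2
        exact hne (this.symm.trans e)
      · rw [h] at e; exact hne e
    · obtain ⟨p1, p2, p3⟩ := hpr x (mem_coe.mp hx)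
      obtain ⟨q1, q2, q3⟩ := hpr y (mem_coe.mp hy)
      have e' : pr x = pr y := by simpa using e
      rcases lt_trichotomy x y with h | h | h
      · exact absurd (p2.symm.trans (e' ▸ q2)) (q3 x (by omega) h)
      · exact h
      · exact absurd (q2.symm.trans (e' ▸ p2)) (p3 y (by omega) h)
  have h0 : 0 ∈ Fi := mem_filter.mpr ⟨mem_range.mpr (by omega), fun j hj => absurd hj (by omega)⟩
  have := card_erase_add_one h0
  omega

end Pool.Agent.CDC36
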