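import Pool.Agent.Lib.MP_32fd1f_co.Dec

set_option autoImplicit false

namespace Pool.Agent.CDC36

open Finset

variable {V : Type} [Fintype V] [DecidableEq V]

theorem elim_erase {A : Finset (Sym2 V)} (hA : Circ A) {a b : V} (h : s(a, b) ∈ A) :
    Link (A.erase s(a, b)) a b := by
  intro κ hκ
  by_contra hne
  have hev := evencut hA.2.1 hA.isEven κ
  have h1 : cut A κ = {s(a, b)} := by
    ext e
    rw [mem_singleton]
    constructor
    · intro he
      by_contra h2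
      have h3 : e ∈ cut (A.erase s(a, b)) κ := by
        unfold cut at he ⊢
        rw [mem_filter] at he ⊢
        exact ⟨mem_erase.2 ⟨h2, he.1⟩, he.2⟩
      rw [hκ] at h3
      exact notMem_empty _ h3
    · rintro rfl
      exact mk_mem_cut.2 ⟨h, hne⟩
  rw [h1, card_singleton] at hev
  exact absurd hev (by decide)

theorem elim_link {G H : Finset (Sym2 V)} (h : ∀ a b, s(a, b) ∈ G → Link H a b) {a b : V}
    (hl : Link G a b) : Link H a b :=
  fun κ hκ => hl κ (cut_eq_empty.2 fun p q hpq => h p q hpq κ hκ)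

theorem elim_even {𝒜 : Finset (Finset (Sym2 V))}
    (hd : ∀ A ∈ 𝒜, ∀ B ∈ 𝒜, A ≠ B → Disjoint A B) (he : ∀ A ∈ 𝒜, IsEven A) :
    IsEven (𝒜.biUnion id) := by
  intro v
  unfold deg
  rw [filter_biUnion, card_biUnion]
  · exact even_sum _ fun A hA => he A hA v
  · intro A hA B hB hAB
    exact disjoint_filter_filter (hd A hA B hB hAB)

theorem elim_ind {𝒜 : Finset (Finset (Sym2 V))}
    (hd : ∀ A ∈ 𝒜, ∀ B ∈ 𝒜, A ≠ B → Disjoint A B) (e : Sym2 V) :
    (𝒜.filter fun A => e ∈ A).card = if e ∈ 𝒜.biUnion id then 1 else 0 := by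
  split_ifs with h
  · obtain ⟨A, hA, heA⟩ := mem_biUnion.1 h
    rw [card_eq_one]
    refine ⟨A, eq_singleton_iff_unique_mem.2 ⟨mem_filter.2 ⟨hA, heA⟩, fun B hB => ?_⟩⟩
    by_contra hne
    exact disjoint_left.1 (hd B (mem_filter.1 hB).1 A hA hne) (mem_filter.1 hB).2 heA
  · rw [card_eq_zero, filter_eq_empty_iff]
    intro A hA heA
    exact h (mem_biUnion.2 ⟨A, hA, heA⟩)

/-- one colour class -/
theorem elim_one {E : Finset (Sym2 V)} (hE : Cubic E) {C : Finset (Sym2 V)} (hC : Circ C)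
    (hCE : C ⊆ E) {𝒜 : Finset (Finset (Sym2 V))} (hc : ∀ A ∈ 𝒜, Circ A) (hs : ∀ A ∈ 𝒜, A ⊆ E)
    (hn : ∀ A ∈ 𝒜, (A ∩ C).Nonempty) (hd : ∀ A ∈ 𝒜, ∀ B ∈ 𝒜, A ≠ B → Disjoint A B) :
    ∃ M : Multiset (Finset (Sym2 V)), (∀ D ∈ M, Circ D) ∧
      (∀ e, M.countP (fun D => e ∈ D) = if e ∈ symmDiff (𝒜.biUnion id) C then 1 else 0) ∧
      M.card + 𝒜.card ≤ (𝒜.biUnion id ∩ C).card + 1 := by
  obtain ⟨e0, he0⟩ := hC.1
  haveI : Nonempty (Sym2 V) := ⟨e0⟩
  choose! ε hε using hn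
  have hεA : ∀ A ∈ 𝒜, ε A ∈ A := fun A hA => (mem_inter.1 (hε A hA)).1
  have hεC : ∀ A ∈ 𝒜, ε A ∈ C := fun A hA => (mem_inter.1 (hε A hA)).2
  have huniq : ∀ A ∈ 𝒜, ∀ B ∈ 𝒜, ∀ e, e ∈ A → e ∈ B → A = B := by
    intro A hA B hB e h1 h2
    by_contra hne
    exact disjoint_left.1 (hd A hA B hB hne) h1 h2
  set X := 𝒜.biUnion id with hX
  have hmX : ∀ e, e ∈ X ↔ ∃ A ∈ 𝒜, e ∈ A := fun e => by rw [hX, mem_biUnion]; rfl
  set Y := symmDiff X C with hY
  set T := (X ∩ C) \ 𝒜.image ε with hT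
  have hsub : 𝒜.image ε ⊆ X ∩ C := by
    intro e he
    obtain ⟨A, hA, rfl⟩ := mem_image.1 he
    exact mem_inter.2 ⟨(hmX _).2 ⟨A, hA, hεA A hA⟩, hεC A hA⟩
  have hinj : (𝒜.image ε).card = 𝒜.card := by
    apply card_image_of_injOn
    intro A hA B hB hAB
    exact huniq A hA B hB (ε A) (hεA A hA) (hAB ▸ hεA B hB)
  have hTc : T.card + 𝒜.card = (X ∩ C).card := by
    rw [← hinj, hT, card_sdiff_add_card_eq_card hsub]
  have hXe : IsEven X := elim_even hd fun A hA => (hc A hA).isEven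
  have hYe : IsEven Y := by
    intro v
    have h1 := even_deg_symmDiff X C v
    have h2 := hXe v
    have h3 := hC.isEven v
    rw [← hY] at h1
    rw [Nat.even_iff] at h1 h2 h3 ⊢
    omega
  have hYs : Y ⊆ X ∪ C := by
    intro e he
    rw [hY, mem_symmDiff] at he
    rw [mem_union]
    tauto
  have hYE : Y ⊆ E := by
    intro e he
    rcases mem_union.1 (hYs he) with h | h
    · obtain ⟨A, hA, heA⟩ := (hmX e).1 h
      exact hs A hA heA
    · exact hCE h
  have hin : ∀ e ∈ X ∪ C, e ∉ 𝒜.image ε → e ∈ Y ∪ T := by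
    intro e he hne
    rw [mem_union] at he
    rw [mem_union, hY, hT, mem_symmDiff, mem_sdiff, mem_inter]
    tauto
  have hedge : ∀ a b, s(a, b) ∈ X ∪ C → Link (Y ∪ T) a b := by
    intro a b hab
    by_cases h : s(a, b) ∈ 𝒜.image ε
    · obtain ⟨A, hA, hAe⟩ := mem_image.1 h
      refine Link.mono ?_ (elim_erase (hc A hA) (hAe ▸ hεA A hA))
      intro e he
      rw [mem_erase] at he
      refine hin e (mem_union_left _ ((hmX e).2 ⟨A, hA, he.2⟩)) fun h2 => ?_
      obtain ⟨B, hB, hBe⟩ := mem_image.1 h2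
      have hAB : A = B := huniq A hA B hB e he.2 (hBe ▸ hεA B hB)
      subst hAB
      exact he.1 (hBe.symm.trans hAe)
    · exact Link.edge (hin _ hab h)
  have htoC : ∀ v ∈ supp Y, ∃ p ∈ supp C, Link (X ∪ C) v p := by
    intro v hv
    obtain ⟨e, he, hve⟩ := mem_supp.1 hv
    rcases mem_union.1 (hYs he) with h | h
    · obtain ⟨A, hA, heA⟩ := (hmX e).1 h
      have hp : (ε A).out.1 ∈ ε A := Sym2.out_fst_mem _
      refine ⟨(ε A).out.1, mem_supp.2 ⟨_, hεC A hA, hp⟩, Link.mono ?_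
        ((hc A hA).2.2.2 v (mem_supp.2 ⟨e, heA, hve⟩) _ (mem_supp.2 ⟨_, hεA A hA, hp⟩))⟩
      intro f hf
      exact mem_union_left _ ((hmX f).2 ⟨A, hA, hf⟩)
    · exact ⟨v, mem_supp.2 ⟨e, h, hve⟩, Link.refl _ _⟩
  have hlink : ∀ a ∈ supp Y, ∀ b ∈ supp Y, Link (Y ∪ T) a b := by
    intro a ha b hb
    obtain ⟨p, hp, hap⟩ := htoC a ha
    obtain ⟨q, hq, hbq⟩ := htoC b hb
    exact elim_link hedge
      ((hap.trans (Link.mono subset_union_right (hC.2.2.2 p hp q hq))).trans hbq.symm)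
  obtain ⟨M, h1, h2, h3⟩ := dec hE hYE hYe T hlink
  exact ⟨M, h1, h2, by omega⟩

theorem elim {E : Finset (Sym2 V)} (hE : Cubic E) {F : Finset (Finset (Sym2 V))} (hF : FCDC E F)
    {C : Finset (Sym2 V)} (hC : C ∈ F) (χ : Finset (Sym2 V) → Fin 3)
    (hχ : ∀ A ∈ nbrs F C, ∀ B ∈ nbrs F C, A ≠ B → (A ∩ B).Nonempty → χ A ≠ χ B) :
    ∃ M, MCDC E M ∧ M.card + 2 * (nbrs F C).card ≤ F.card + C.card + 2 := by
  set N := nbrs F C with hN
  have hmN : ∀ A, A ∈ N ↔ A ∈ F ∧ A ≠ C ∧ (A ∩ C).Nonempty := fun A => by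
    rw [hN, nbrs, mem_filter]
  let 𝒩 : Fin 3 → Finset (Finset (Sym2 V)) := fun j => N.filter fun A => χ A = j
  have hd : ∀ j, ∀ A ∈ 𝒩 j, ∀ B ∈ 𝒩 j, A ≠ B → Disjoint A B := by
    intro j A hA B hB hAB
    rw [mem_filter] at hA hB
    rw [disjoint_iff_inter_eq_empty]
    by_contra hne
    exact hχ A hA.1 B hB.1 hAB (nonempty_iff_ne_empty.2 hne) (hA.2.trans hB.2.symm)
  have hone := fun j => elim_one hE (hF.1 C hC) (hF.subset hC) (𝒜 := 𝒩 j)
    (fun A hA => hF.1 A ((hmN A).1 (mem_filter.1 hA).1).1)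
    (fun A hA => hF.subset ((hmN A).1 (mem_filter.1 hA).1).1)
    (fun A hA => ((hmN A).1 (mem_filter.1 hA).1).2.2) (hd j)
  choose M hM1 hM2 hM3 using hone
  have hCN : C ∉ N := fun h => ((hmN C).1 h).2.1 rfl
  have hsub : insert C N ⊆ F := insert_subset hC fun A hA => ((hmN A).1 hA).1
  have hsumN : N.card = (𝒩 0).card + (𝒩 1).card + (𝒩 2).card := by
    rw [card_eq_sum_card_fiberwise (f := χ) (t := univ) (fun _ _ => mem_coe.2 (mem_univ _)),
      Fin.sum_univ_three]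
  have hcnt : ∀ e, (N.filter fun A => e ∈ A).card =
      (if e ∈ (𝒩 0).biUnion id then 1 else 0) + (if e ∈ (𝒩 1).biUnion id then 1 else 0) +
        (if e ∈ (𝒩 2).biUnion id then 1 else 0) := by
    intro e
    rw [card_eq_sum_card_fiberwise (f := χ) (t := univ) (fun _ _ => mem_coe.2 (mem_univ _)),
      Fin.sum_univ_three, ← elim_ind (hd 0), ← elim_ind (hd 1), ← elim_ind (hd 2)]
    simp only [𝒩, filter_comm (fun A => e ∈ A)]
  have hNC : ∀ e ∈ C, (N.filter fun A => e ∈ A).card = 1 := by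
    intro e he
    obtain ⟨A, hA, hAC, heA, hu⟩ := hF.other hC he
    rw [card_eq_one]
    refine ⟨A, eq_singleton_iff_unique_mem.2 ⟨mem_filter.2
      ⟨(hmN A).2 ⟨hA, hAC, e, mem_inter.2 ⟨heA, he⟩⟩, heA⟩, fun B hB => ?_⟩⟩
    rw [mem_filter, hmN] at hB
    exact (hu B hB.1.1 hB.2).resolve_left hB.1.2.1
  have hsumC : ((𝒩 0).biUnion id ∩ C).card + ((𝒩 1).biUnion id ∩ C).card +
      ((𝒩 2).biUnion id ∩ C).card = C.card := by
    have h1 : ∀ X : Finset (Sym2 V), (X ∩ C).card = ∑ e ∈ C, if e ∈ X then 1 else 0 := by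
      intro X
      rw [← card_filter, filter_mem_eq_inter, inter_comm]
    rw [h1, h1, h1, ← sum_add_distrib, ← sum_add_distrib, card_eq_sum_ones]
    exact sum_congr rfl fun e he => by rw [← hcnt e, hNC e he]
  have hsplit : ∀ e, ((F \ insert C N).filter fun A => e ∈ A).card +
      ((if e ∈ C then 1 else 0) + (N.filter fun A => e ∈ A).card) = if e ∈ E then 2 else 0 := by
    intro e
    have h1 : ((insert C N).filter fun A => e ∈ A).card =
        (if e ∈ C then 1 else 0) + (N.filter fun A => e ∈ A).card := by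
      rw [filter_insert]
      split_ifs
      · rw [card_insert_of_notMem fun h => hCN (mem_filter.1 h).1, add_comm]
      · rw [zero_add]
    rw [← h1, ← hF.2 e, ← card_union_of_disjoint (disjoint_filter_filter sdiff_disjoint),
      ← filter_union, sdiff_union_of_subset hsub]
  refine ⟨(F \ insert C N).val + M 0 + M 1 + M 2, ⟨?_, ?_⟩, ?_⟩
  · intro D hD
    simp only [Multiset.mem_add] at hD
    rcases hD with ((h | h) | h) | h
    · exact hF.1 D (mem_sdiff.1 h).1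
    · exact hM1 0 D h
    · exact hM1 1 D h
    · exact hM1 2 D h
  · intro e
    have h0 : (F \ insert C N).val.countP (fun D => e ∈ D) =
        ((F \ insert C N).filter fun A => e ∈ A).card := by
      rw [Multiset.countP_eq_card_filter]
      rfl
    rw [Multiset.countP_add, Multiset.countP_add, Multiset.countP_add, h0, hM2, hM2, hM2]
    have h1 := hsplit e
    have h2 := hcnt e
    by_cases heC : e ∈ C
    · have h3 := hNC e heC
      have h4 : e ∈ E := hF.subset hC heC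
      simp only [mem_symmDiff, heC, h4, not_true, and_false, true_and, false_or, if_true] at h1 ⊢
      split_ifs at h2 ⊢ <;> omega
    · simp only [mem_symmDiff, heC, not_false_iff, and_true, false_and, or_false, if_false] at h1 ⊢
      omega
  · have h1 := card_sdiff_add_card_eq_card hsub
    rw [card_insert_of_notMem hCN] at h1
    have h2 := hM3 0
    have h3 := hM3 1
    have h4 := hM3 2
    simp only [Multiset.card_add, card_val]
    omega

end Pool.Agent.CDC36
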