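import Pool.Agent.Lib.MP_32fd1f_co.Basic

set_option autoImplicit false

namespace Pool.Agent.CDC36

open Finset

variable {V : Type} [Fintype V] [DecidableEq V]

theorem enumC_other {C : Finset (Sym2 V)} (hC : Circ C) {x y : V} (h : s(x, y) ∈ C) :
    ∃ z, z ≠ x ∧ s(y, z) ∈ C ∧ ∀ w, s(y, w) ∈ C → w = x ∨ w = z := by
  have h' : s(y, x) ∈ C := by rwa [Sym2.eq_swap]
  have hd : deg C y = 2 := by
    rcases hC.2.2.1 y with h0 | h2
    · exact absurd h0 (mem_supp_iff_deg.1 (mem_supp.2 ⟨_, h', Sym2.mem_mk_left _ _⟩))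
    · exact h2
  have hm : s(y, x) ∈ C.filter (fun e => y ∈ e) := mem_filter.2 ⟨h', Sym2.mem_mk_left _ _⟩
  have hc : ((C.filter (fun e => y ∈ e)).erase s(y, x)).card = 1 := by
    rw [card_erase_of_mem hm]
    unfold deg at hd
    omega
  obtain ⟨e, he⟩ := card_eq_one.1 hc
  have hem : e ∈ (C.filter (fun e => y ∈ e)).erase s(y, x) := by
    rw [he]; exact mem_singleton_self _
  obtain ⟨e1, e2⟩ := mem_erase.1 hem
  obtain ⟨e3, e4⟩ := mem_filter.1 e2
  obtain ⟨z, rfl⟩ := Sym2.mem_iff_exists.1 e4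
  refine ⟨z, fun k => e1 (by rw [k]), e3, fun w hw => ?_⟩
  by_cases k : w = x
  · exact Or.inl k
  · right
    have : s(y, w) ∈ (C.filter (fun e => y ∈ e)).erase s(y, x) :=
      mem_erase.2 ⟨fun k' => k (Sym2.congr_right.1 k'), mem_filter.2 ⟨hw, Sym2.mem_mk_left _ _⟩⟩
    rw [he, mem_singleton] at this
    exact Sym2.congr_right.1 this

theorem enumC_walk {C : Finset (Sym2 V)} (hC : Circ C) {a b : V} (h : s(a, b) ∈ C) :
    ∃ v : ℕ → V, v 0 = a ∧ v 1 = b ∧ (∀ n, s(v n, v (n + 1)) ∈ C) ∧ (∀ n, v (n + 2) ≠ v n) ∧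
      (∀ n w, s(v (n + 1), w) ∈ C → w = v n ∨ w = v (n + 2)) ∧
      ∃ f : V → V → V, ∀ n, v (n + 2) = f (v n) (v (n + 1)) := by
  have : ∀ x y : V, ∃ z, s(x, y) ∈ C →
      z ≠ x ∧ s(y, z) ∈ C ∧ ∀ w, s(y, w) ∈ C → w = x ∨ w = z := by
    intro x y
    by_cases k : s(x, y) ∈ C
    · obtain ⟨z, hz⟩ := enumC_other hC k
      exact ⟨z, fun _ => hz⟩
    · exact ⟨x, fun k' => absurd k' k⟩
  choose f hf using this
  let w : ℕ → V × V := fun n => Nat.rec (a, b) (fun _ p => (p.2, f p.1 p.2)) n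
  have e : ∀ n, s((w n).1, (w n).2) ∈ C := by
    intro n
    induction n with
    | zero => exact h
    | succ n ih => exact (hf _ _ ih).2.1
  exact ⟨fun n => (w n).1, rfl, rfl, e, fun n => (hf _ _ (e n)).1, fun n => (hf _ _ (e n)).2.2,
    f, fun n => rfl⟩

theorem enum {C : Finset (Sym2 V)} (hC : Circ C) {a b : V} (h : s(a, b) ∈ C) :
    3 ≤ C.card ∧ ∃ v : ℕ → V, Enum C v ∧ v 0 = a ∧ v 1 = b := by
  classical
  obtain ⟨v, v0, v1, ed, n2, nb, f, hf⟩ := enumC_walk hC h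
  have n1 : ∀ n, v n ≠ v (n + 1) := fun n k => hC.2.1 _ (ed n) (Sym2.mk_isDiag_iff.2 k)
  have ex : ∃ m, ∃ i, i < m ∧ v i = v m := by
    obtain ⟨i, j, hij, e⟩ := Finite.exists_ne_map_eq_of_infinite v
    rcases lt_or_gt_of_ne hij with k | k
    · exact ⟨j, i, k, e⟩
    · exact ⟨i, j, k, e.symm⟩
  obtain ⟨m, ⟨i₀, hi₀, e₀⟩, hmin⟩ : ∃ m, (∃ i, i < m ∧ v i = v m) ∧
      ∀ j, j < m → ¬ ∃ i, i < j ∧ v i = v j :=
    ⟨Nat.find ex, Nat.find_spec ex, fun j hj => Nat.find_min ex hj⟩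
  have inj : ∀ i j, i < m → j < m → v i = v j → i = j := by
    intro i j hi hj e
    rcases lt_trichotomy i j with k | k | k
    · exact absurd ⟨i, k, e⟩ (hmin j hj)
    · exact k
    · exact absurd ⟨j, k, e.symm⟩ (hmin i hi)
  obtain ⟨l, rfl⟩ : ∃ l, m = l + 1 := ⟨m - 1, by omega⟩
  have m0 : v (l + 1) = v 0 := by
    rcases Nat.eq_zero_or_pos i₀ with rfl | hp
    · exact e₀.symm
    · exfalso
      obtain ⟨k, rfl⟩ : ∃ k, i₀ = k + 1 := ⟨i₀ - 1, by omega⟩
      have s1 : s(v (k + 1), v l) ∈ C := by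
        rw [e₀, Sym2.eq_swap]; exact ed l
      rcases nb k _ s1 with q | q
      · have := inj l k (by omega) (by omega) q
        omega
      · by_cases c : k + 2 < l + 1
        · have := inj l (k + 2) (by omega) c q
          subst this
          exact n2 (k + 1) e₀.symm
        · have c' : l = k + 1 := by omega
          subst c'
          exact n1 _ q
  have l2 : 2 ≤ l := by
    by_contra c
    have c' : l = 0 ∨ l = 1 := by omega
    rcases c' with rfl | rfl
    · exact n1 0 m0.symm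
    · exact n2 0 m0
  have m1 : v (l + 2) = v 1 := by
    have s1 : s(v (l + 1), v 1) ∈ C := by rw [m0]; exact ed 0
    rcases nb l _ s1 with q | q
    · have := inj 1 l (by omega) (by omega) q
      omega
    · exact q.symm
  have per2 : ∀ i, v (i + (l + 1)) = v i ∧ v (i + 1 + (l + 1)) = v (i + 1) := by
    intro i
    induction i with
    | zero => exact ⟨by rw [zero_add]; exact m0, by rw [show 0 + 1 + (l + 1) = l + 2 by omega]; exact m1⟩
    | succ i ih =>
      refine ⟨ih.2, ?_⟩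
      rw [show i + 1 + 1 + (l + 1) = i + (l + 1) + 2 by omega, hf, ih.1,
        show i + (l + 1) + 1 = i + 1 + (l + 1) by omega, ih.2, ← hf]
  have per : ∀ i, v (i + (l + 1)) = v i := fun i => (per2 i).1
  have perm : ∀ t i, v (i + (l + 1) * t) = v i := by
    intro t
    induction t with
    | zero => intro i; rfl
    | succ t ih =>
      intro i
      rw [show i + (l + 1) * (t + 1) = i + (l + 1) * t + (l + 1) by ring, per, ih]
  have nb' : ∀ i w, s(v i, w) ∈ C → w = v (i + l) ∨ w = v (i + l + 2) := by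
    intro i w hw
    refine nb (i + l) w ?_
    rw [show i + l + 1 = i + (l + 1) by omega, per]
    exact hw
  have cl : ∀ x y, s(x, y) ∈ C → (∃ i, x = v i) → ∃ i, y = v i := by
    rintro x y hxy ⟨i, rfl⟩
    rcases nb' i y hxy with q | q
    · exact ⟨_, q⟩
    · exact ⟨_, q⟩
  have all : ∀ x ∈ supp C, ∃ i, x = v i := by
    intro x hx
    have ha : v 0 ∈ supp C := mem_supp.2 ⟨_, ed 0, Sym2.mem_mk_left _ _⟩
    have k := hC.2.2.2 _ ha x hx (fun z => decide (∃ i, z = v i)) (cut_eq_empty.2 fun p q hpq =>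
      decide_eq_decide.2 ⟨cl p q hpq, cl q p (by rwa [Sym2.eq_swap])⟩)
    exact (decide_eq_decide.1 k).1 ⟨0, rfl⟩
  have red : ∀ j, ∃ i, i < l + 1 ∧ s(v j, v (j + 1)) = s(v i, v (i + 1)) := by
    intro j
    refine ⟨j % (l + 1), Nat.mod_lt _ (by omega), ?_⟩
    have e1 := perm (j / (l + 1)) (j % (l + 1))
    have e2 := perm (j / (l + 1)) (j % (l + 1) + 1)
    rw [Nat.mod_add_div] at e1
    rw [Nat.add_right_comm, Nat.mod_add_div] at e2
    rw [e1, e2]
  have edges : ∀ e, e ∈ C ↔ ∃ i, i < l + 1 ∧ e = s(v i, v (i + 1)) := by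
    intro e
    refine ⟨fun he => ?_, fun ⟨i, _, k⟩ => k ▸ ed i⟩
    induction e using Sym2.ind with
    | h x y =>
      obtain ⟨i, rfl⟩ := all x (mem_supp.2 ⟨_, he, Sym2.mem_mk_left _ _⟩)
      have e1 : v i = v (i + l + 1) := by
        rw [show i + l + 1 = i + (l + 1) by omega, per]
      rcases nb' i y he with q | q
      · obtain ⟨j, hj, k⟩ := red (i + l)
        exact ⟨j, hj, by rw [← k, q, e1, Sym2.eq_swap]⟩
      · obtain ⟨j, hj, k⟩ := red (i + l + 1)
        exact ⟨j, hj, by rw [← k, q, e1]⟩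
  have sh : ∀ i j, i < l + 1 → j < l + 1 → v i = v (j + 1) → i = j + 1 ∨ (j = l ∧ i = 0) := by
    intro i j hi hj e
    by_cases c : j = l
    · subst c
      exact Or.inr ⟨rfl, inj i 0 hi (by omega) (e.trans m0)⟩
    · exact Or.inl (inj i (j + 1) hi (by omega) e)
  have card : C.card = l + 1 := by
    have e : C = (range (l + 1)).image (fun i => s(v i, v (i + 1))) := by
      ext e
      rw [edges, mem_image]
      exact ⟨fun ⟨i, hi, k⟩ => ⟨i, mem_range.2 hi, k.symm⟩,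
        fun ⟨i, hi, k⟩ => ⟨i, mem_range.1 hi, k.symm⟩⟩
    rw [e, card_image_of_injOn, card_range]
    intro i hi j hj k
    have hi' : i < l + 1 := mem_range.1 (mem_coe.1 hi)
    have hj' : j < l + 1 := mem_range.1 (mem_coe.1 hj)
    rcases Sym2.eq_iff.1 k with q | q
    · exact inj i j hi' hj' q.1
    · have k1 := sh i j hi' hj' q.1
      have k2 := sh j i hj' hi' q.2.symm
      omega
  refine ⟨by omega, v, ?_, v0, v1⟩
  unfold Enum
  rw [card]
  exact ⟨per, inj, edges⟩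

end Pool.Agent.CDC36
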