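import Pool.Agent.Lib.MP_32fd1f_co.LinA

set_option autoImplicit false

namespace Pool.Agent.CDC36

open Finset

variable {V : Type} [Fintype V] [DecidableEq V]

set_option synthInstance.maxSize 2000 in
private theorem lin_loc1 : ∀ x y a b : Fin 3 → ZMod 2, x ≠ 0 → y ≠ 0 → x + y ≠ 0 → a ⬝ᵥ x = 0 →
    b ⬝ᵥ y = 0 → (a + b) ⬝ᵥ (x + y) = 0 → b ⬝ᵥ x =
      (if a ≠ 0 then 1 else 0) + ((if b ≠ 0 then 1 else 0) + (if a + b ≠ 0 then 1 else 0)) := by
  decide +kernel

private theorem lin_loc2 : ∀ t x y s : Fin 3 → ZMod 2, x ≠ 0 → y ≠ 0 → x + y ≠ 0 →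
    Even ((if s = t + 0 ∨ s = t + 0 + x then 1 else 0) +
      ((if s = t + x ∨ s = t + x + y then 1 else 0) +
        (if s = t + 0 ∨ s = t + 0 + (x + y) then 1 else 0)) : ℕ) := by
  decide +kernel

private theorem lin_loc3 : ∀ x y z : Fin 3 → ZMod 2, x + (y + z) = 0 → z = x + y := by
  decide +kernel

private theorem lin_self : ∀ x : Fin 3 → ZMod 2, x + x = 0 := by
  decide +kernel

private theorem lin_loc4 : ∀ (p q z s : Fin 3 → ZMod 2) (ε : ZMod 2), p + q = ε • z →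
    (s = p ∨ s = p + z) → (s = q ∨ s = q + z) := by
  decide +kernel

theorem lin {E : Finset (Sym2 V)} (hE : Cubic E) (f : Sym2 V → (Fin 3 → ZMod 2))
    (hf : ∀ e ∈ E, f e ≠ 0) (hc : ∀ v, ∑ e ∈ E.filter (fun e => v ∈ e), f e = 0) :
    ∃ X : (Fin 3 → ZMod 2) → Finset (Sym2 V), (∀ s, X s ⊆ E ∧ IsEven (X s)) ∧
      ∀ e ∈ E, (univ.filter (fun s => e ∈ X s)).card = 2 := by
  classical
  have h3 : ∀ v : V, ∃ e1 e2 e3 : Sym2 V, E.filter (fun e => v ∈ e) = ∅ ∨
      (e1 ≠ e2 ∧ e1 ≠ e3 ∧ e2 ≠ e3 ∧ E.filter (fun e => v ∈ e) = {e1, e2, e3}) := by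
    intro v
    rcases hE.2 v with h | h
    · exact ⟨s(v, v), s(v, v), s(v, v), Or.inl (card_eq_zero.1 h)⟩
    · obtain ⟨a, b, c, h1⟩ := card_eq_three.1 h
      exact ⟨a, b, c, Or.inr h1⟩
  choose e1 e2 e3 h3 using h3
  have hloc : ∀ v, e1 v ≠ e2 v → e1 v ≠ e3 v → e2 v ≠ e3 v →
      E.filter (fun e => v ∈ e) = {e1 v, e2 v, e3 v} →
      e1 v ∈ E ∧ e2 v ∈ E ∧ e3 v ∈ E ∧ f (e3 v) = f (e1 v) + f (e2 v) := by
    intro v a1 a2 a3 a4
    have hm : ∀ e ∈ ({e1 v, e2 v, e3 v} : Finset (Sym2 V)), e ∈ E := fun e he => by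
      rw [← a4] at he
      exact (mem_filter.1 he).1
    have h := hc v
    rw [a4, sum_insert (by simp [a1, a2]), sum_pair a3] at h
    exact ⟨hm _ (by simp), hm _ (by simp), hm _ (by simp), lin_loc3 _ _ _ h⟩
  obtain ⟨t, ε, ht⟩ := linA hE.1 f (fun v e => if e = e2 v then f (e1 v) else 0) (by
    intro v η h1 h2
    rcases h3 v with h | ⟨a1, a2, a3, a4⟩
    · rw [h]; simp
    · obtain ⟨b1, b2, b3, b4⟩ := hloc v a1 a2 a3 a4
      rw [a4, sum_insert (by simp [a1, a2]), sum_pair a3] at h2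
      have b5 := lin_loc3 _ _ _ h2
      rw [a4, card_filter, Nat.cast_sum, sum_insert (by simp [a1, a2]), sum_pair a3,
        sum_insert (by simp [a1, a2]), sum_pair a3, if_neg a1, if_pos rfl, if_neg a3.symm,
        dotProduct_zero, dotProduct_zero, zero_add, add_zero, b5]
      have := lin_loc1 (f (e1 v)) (f (e2 v)) (η (e1 v)) (η (e2 v)) (hf _ b1) (hf _ b2)
        (b4 ▸ hf _ b3) (h1 _ b1) (h1 _ b2) (by rw [← b4, ← b5]; exact h1 _ b3)
      rw [this]
      push_cast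
      rfl)
  set g : V → Sym2 V → (Fin 3 → ZMod 2) := fun v e => if e = e2 v then f (e1 v) else 0 with hg
  have hab : ∀ a b s, s(a, b) ∈ E →
      (s = t a + g a s(a, b) ∨ s = t a + g a s(a, b) + f s(a, b)) →
      (s = t b + g b s(a, b) ∨ s = t b + g b s(a, b) + f s(a, b)) := by
    intro a b s he h
    refine lin_loc4 _ _ _ s (ε s(a, b)) ?_ h
    have h1 : t a + t b + ε s(a, b) • f s(a, b) = g a s(a, b) + g b s(a, b) := ht a b he
    have h2 := lin_self (t a + t b)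
    have h4 : t a + g a s(a, b) + (t b + g b s(a, b)) =
        (t a + t b) + (g a s(a, b) + g b s(a, b)) := by abel
    rw [h4, ← h1, ← add_assoc, h2, zero_add]
  have key : ∀ s, ∀ e ∈ E, ∀ v ∈ e, (s = t v + g v e ∨ s = t v + g v e + f e) →
      ∀ w ∈ e, (s = t w + g w e ∨ s = t w + g w e + f e) := by
    intro s e he v hv h w hw
    by_cases hvw : v = w
    · exact hvw ▸ h
    · have : e = s(v, w) := (Sym2.mem_and_mem_iff hvw).1 ⟨hv, hw⟩
      subst this
      exact hab v w s he h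
  refine ⟨fun s => E.filter (fun e => ∀ v ∈ e, s = t v + g v e ∨ s = t v + g v e + f e),
    fun s => ⟨filter_subset _ _, fun v => ?_⟩, fun e he => ?_⟩
  · have h1 : (E.filter (fun e => ∀ v ∈ e, s = t v + g v e ∨ s = t v + g v e + f e)).filter
        (fun e => v ∈ e) = (E.filter (fun e => v ∈ e)).filter
          (fun e => s = t v + g v e ∨ s = t v + g v e + f e) := by
      ext e
      simp only [mem_filter]
      exact ⟨fun h => ⟨⟨h.1.1, h.2⟩, h.1.2 v h.2⟩,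
        fun h => ⟨⟨h.1.1, key s e h.1.1 v h.1.2 h.2⟩, h.1.2⟩⟩
    unfold deg
    rw [h1]
    rcases h3 v with h | ⟨a1, a2, a3, a4⟩
    · rw [h]; simp
    · obtain ⟨b1, b2, b3, b4⟩ := hloc v a1 a2 a3 a4
      have g1 : g v (e1 v) = 0 := if_neg a1
      have g2 : g v (e2 v) = f (e1 v) := if_pos rfl
      have g3 : g v (e3 v) = 0 := if_neg a3.symm
      rw [a4, card_filter, sum_insert (by simp [a1, a2]), sum_pair a3, g1, g2, g3, b4]
      convert lin_loc2 (t v) (f (e1 v)) (f (e2 v)) s (hf _ b1) (hf _ b2) (b4 ▸ hf _ b3)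
  · obtain ⟨v, hv⟩ : ∃ v, v ∈ e := ⟨e.out.1, Sym2.out_fst_mem e⟩
    have h1 : univ.filter (fun s => e ∈ E.filter
        (fun e => ∀ v ∈ e, s = t v + g v e ∨ s = t v + g v e + f e)) =
        {t v + g v e, t v + g v e + f e} := by
      ext s
      simp only [mem_filter, mem_univ, true_and, mem_insert, mem_singleton]
      exact ⟨fun h => h.2 v hv, fun h => ⟨he, key s e he v hv h⟩⟩
    have h2 : t v + g v e ≠ t v + g v e + f e := fun h => hf e he (left_eq_add.1 h)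
    convert (congrArg card h1).trans (card_pair h2)

end Pool.Agent.CDC36
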