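import Pool.Agent.Lib.MP_32fd1f_co.Flow
import Pool.Agent.Lib.MP_32fd1f_co.Lin
import Pool.Agent.Lib.MP_32fd1f_co.Dec

set_option autoImplicit false

namespace Pool.Agent.CDC36

open Finset

variable {V : Type} [Fintype V] [DecidableEq V]

theorem exist {E : Finset (Sym2 V)} (hE : Cubic E) (h2 : EC 2 E) : ∃ M, MCDC E M := by
  obtain ⟨f, f1, f2⟩ := flow hE.1 h2
  obtain ⟨X, x1, x2⟩ := lin hE f f1 f2
  choose M m1 m2 _ using fun s => dec hE (x1 s).1 (x1 s).2 univ fun a _ b _ =>
    Link.edge (mem_union_right _ (mem_univ _))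
  refine ⟨∑ s, M s, fun C hC => ?_, fun e => ?_⟩
  · obtain ⟨s, -, h⟩ := Multiset.mem_sum.1 hC
    exact m1 s C h
  · have := map_sum (Multiset.countPAddMonoidHom fun C : Finset (Sym2 V) => e ∈ C) M univ
    simp only [Multiset.coe_countPAddMonoidHom, m2] at this
    rw [this, ← card_filter]
    split_ifs with h
    · exact x2 e h
    · exact card_eq_zero.2 (filter_eq_empty_iff.2 fun s _ k => h ((x1 s).1 k))

end Pool.Agent.CDC36
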