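import Pool.Agent.Lib.MP_32fd1f_co.Basic

set_option autoImplicit false

namespace Pool.Agent.CDC36

open Finset

variable {V : Type} [Fintype V] [DecidableEq V]

theorem repl {E E' : Finset (Sym2 V)} {F : Finset (Finset (Sym2 V))} (hF : FCDC E' F)
    (Q : Finset (Sym2 V) → Finset (Sym2 V)) (N : Multiset (Finset (Sym2 V)))
    (hQ : ∀ A ∈ F, Q A ⊆ E \ E') (hN : ∀ C ∈ N, Circ C ∧ C ⊆ E)
    (hc : ∀ A ∈ F, Circ ((A ∩ E) ∪ Q A))
    (hold : ∀ e ∈ E, e ∈ E' → ∀ C ∈ N, e ∉ C)
    (hnew : ∀ e ∈ E, e ∉ E' →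
      (F.filter (fun A => e ∈ Q A)).card + N.countP (fun C => e ∈ C) = 2) :
    ∃ M, MCDC E M ∧ M.card = F.card + N.card := by
  have hcount : ∀ e : Sym2 V,
      (F.val.map (fun A => (A ∩ E) ∪ Q A)).countP (fun C => e ∈ C) =
        (F.filter (fun A => e ∈ (A ∩ E) ∪ Q A)).card := by
    intro e
    rw [Multiset.countP_map]
    rfl
  refine ⟨F.val.map (fun A => (A ∩ E) ∪ Q A) + N, ⟨?_, ?_⟩, ?_⟩
  · intro C hC
    rcases Multiset.mem_add.1 hC with h | h
    · obtain ⟨A, hA, rfl⟩ := Multiset.mem_map.1 h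
      exact hc A hA
    · exact (hN C h).1
  · intro e
    rw [Multiset.countP_add, hcount]
    by_cases he : e ∈ E
    · rw [if_pos he]
      by_cases he' : e ∈ E'
      · have h1 : N.countP (fun C => e ∈ C) = 0 :=
          Multiset.countP_eq_zero.2 (hold e he he')
        have h2 : F.filter (fun A => e ∈ (A ∩ E) ∪ Q A) = F.filter (fun A => e ∈ A) := by
          refine filter_congr fun A hA => ?_
          rw [mem_union, mem_inter]
          refine ⟨?_, fun h => Or.inl ⟨h, he⟩⟩
          rintro (h | h)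
          · exact h.1
          · exact absurd he' (mem_sdiff.1 (hQ A hA h)).2
        rw [h1, h2, hF.2 e, if_pos he']
      · have h2 : F.filter (fun A => e ∈ (A ∩ E) ∪ Q A) = F.filter (fun A => e ∈ Q A) := by
          refine filter_congr fun A hA => ?_
          rw [mem_union, mem_inter]
          refine ⟨?_, Or.inr⟩
          rintro (h | h)
          · exact absurd (hF.subset hA h.1) he'
          · exact h
        rw [h2]
        exact hnew e he he'
    · rw [if_neg he]
      have h1 : N.countP (fun C => e ∈ C) = 0 :=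
        Multiset.countP_eq_zero.2 fun C hC h => he ((hN C hC).2 h)
      have h2 : F.filter (fun A => e ∈ (A ∩ E) ∪ Q A) = ∅ := by
        refine filter_eq_empty_iff.2 fun A hA h => ?_
        rcases mem_union.1 h with h | h
        · exact he (mem_inter.1 h).2
        · exact he (mem_sdiff.1 (hQ A hA h)).1
      rw [h1, h2, card_empty]
  · rw [Multiset.card_add, Multiset.card_map]
    rfl

end Pool.Agent.CDC36
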