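import Pool.Agent.Lib.MP_32fd1f_co.Basic

set_option autoImplicit false

namespace Pool.Agent.CDC36

open Finset

variable {V : Type} [Fintype V] [DecidableEq V]

theorem reroute {A P Q : Finset (Sym2 V)} (hA : Circ A) (hP : P ⊆ A) (hP0 : P.Nonempty)
    (hQ0 : Q.Nonempty) (hQ : NoLoop Q) (hQc : Conn Q) (hd : Disjoint (A \ P) Q)
    (he : ∀ v, Even (deg P v + deg Q v)) (h3 : ∀ v, deg (A \ P) v + deg Q v ≤ 3)
    (hv : ∀ v ∈ supp P, v ∈ supp Q ∨ v ∉ supp (A \ P)) : Circ ((A \ P) ∪ Q) := by
  refine ⟨hQ0.mono subset_union_right, fun e he' => ?_, fun v => ?_, ?_⟩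
  · rcases mem_union.1 he' with h | h
    · exact hA.2.1 e (mem_sdiff.1 h).1
    · exact hQ e h
  · have h1 := deg_union hd v
    have h2 := deg_sdiff hP v
    have h4 := h3 v
    obtain ⟨k, hk⟩ := he v
    rcases hA.2.2.1 v with h | h <;> omega
  · have key : ∀ κ : V → Bool, cut ((A \ P) ∪ Q) κ = ∅ →
        ∃ c, ∀ v ∈ supp ((A \ P) ∪ Q), κ v = c := by
      intro κ hκ
      rw [cut_eq_empty] at hκ
      obtain ⟨e0, he0⟩ := hQ0
      have hq0 : e0.out.1 ∈ supp Q := mem_supp.2 ⟨e0, he0, Sym2.out_fst_mem e0⟩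
      have hQκ : ∀ v ∈ supp Q, κ v = κ e0.out.1 := fun v hv' =>
        hQc v hv' _ hq0 κ (cut_eq_empty.2 fun a b h => hκ a b (mem_union_right _ h))
      have hPκ : ∀ v ∈ supp P, (if v ∈ supp (A \ P) then κ v else κ e0.out.1) = κ e0.out.1 := by
        intro v hv'
        split_ifs with h
        · exact hQκ v ((hv v hv').resolve_right (not_not.2 h))
        · rfl
      have hc : cut A (fun v => if v ∈ supp (A \ P) then κ v else κ e0.out.1) = ∅ := by
        refine cut_eq_empty.2 fun a b h => ?_
        by_cases hp : s(a, b) ∈ P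
        · exact (hPκ a (mem_supp.2 ⟨_, hp, Sym2.mem_mk_left _ _⟩)).trans
            (hPκ b (mem_supp.2 ⟨_, hp, Sym2.mem_mk_right _ _⟩)).symm
        · have h' : s(a, b) ∈ A \ P := mem_sdiff.2 ⟨h, hp⟩
          have ha : a ∈ supp (A \ P) := mem_supp.2 ⟨_, h', Sym2.mem_mk_left _ _⟩
          have hb : b ∈ supp (A \ P) := mem_supp.2 ⟨_, h', Sym2.mem_mk_right _ _⟩
          simp only [ha, hb, if_true]
          exact hκ a b (mem_union_left _ h')
      obtain ⟨e1, he1⟩ := hP0
      refine ⟨κ e0.out.1, fun v hv' => ?_⟩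
      obtain ⟨e, he', hve⟩ := mem_supp.1 hv'
      rcases mem_union.1 he' with h | h
      · have hs : v ∈ supp (A \ P) := mem_supp.2 ⟨e, h, hve⟩
        have h1 := hA.2.2.2 v (mem_supp.2 ⟨e, (mem_sdiff.1 h).1, hve⟩) e1.out.1
          (mem_supp.2 ⟨e1, hP he1, Sym2.out_fst_mem e1⟩) _ hc
        have h2 := h1.trans (hPκ _ (mem_supp.2 ⟨e1, he1, Sym2.out_fst_mem e1⟩))
        simpa only [hs, if_true] using h2
      · exact hQκ v (mem_supp.2 ⟨e, h, hve⟩)
    intro a ha b hb κ hκ
    obtain ⟨c, hc⟩ := key κ hκ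
    rw [hc a ha, hc b hb]

/-- edge set of a path given by its vertex list -/
def pathE : List V → Finset (Sym2 V)
  | a :: b :: l => insert s(a, b) (pathE (b :: l))
  | _ => ∅

theorem reroute_link (l : List V) :
    ∀ a : V, ∀ v ∈ supp (pathE (a :: l)), Link (pathE (a :: l)) a v := by
  induction l with
  | nil =>
    intro a v hv
    obtain ⟨e, he, -⟩ := mem_supp.1 hv
    exact absurd he (notMem_empty e)
  | cons b l ih =>
    intro a v hv
    have hab : Link (pathE (a :: b :: l)) a b := Link.edge (mem_insert_self _ _)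
    obtain ⟨e, he, hve⟩ := mem_supp.1 hv
    rcases mem_insert.1 he with rfl | h
    · rcases Sym2.mem_iff.1 hve with rfl | rfl
      · exact Link.refl _ _
      · exact hab
    · exact hab.trans (Link.mono (subset_insert _ _) (ih b v (mem_supp.2 ⟨e, h, hve⟩)))

theorem pathE_conn (l : List V) : Conn (pathE l) := by
  intro x hx y hy
  cases l with
  | nil =>
    obtain ⟨e, he, -⟩ := mem_supp.1 hx
    exact absurd he (notMem_empty e)
  | cons a l => exact (reroute_link l a x hx).symm.trans (reroute_link l a y hy)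

theorem pathE_supp (l : List V) : ∀ v ∈ supp (pathE l), v ∈ l := by
  induction l with
  | nil =>
    intro v hv
    obtain ⟨e, he, -⟩ := mem_supp.1 hv
    exact absurd he (notMem_empty e)
  | cons a l ih =>
    intro v hv
    obtain ⟨e, he, hve⟩ := mem_supp.1 hv
    cases l with
    | nil => exact absurd he (notMem_empty e)
    | cons b l =>
      rcases mem_insert.1 he with rfl | h
      · rcases Sym2.mem_iff.1 hve with rfl | rfl <;> simp
      · exact List.mem_cons_of_mem _ (ih v (mem_supp.2 ⟨e, h, hve⟩))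

theorem square_circ {a b c d : V} (h : [a, b, c, d].Nodup) :
    Circ ({s(a, b), s(b, c), s(c, d), s(d, a)} : Finset (Sym2 V)) := by
  simp only [List.nodup_cons, List.mem_cons, List.not_mem_nil, or_false, not_or,
    List.nodup_nil, and_true, not_false_eq_true] at h
  obtain ⟨⟨ab, ac, ad⟩, ⟨bc, bd⟩, cd⟩ := h
  have ba := Ne.symm ab
  have ca := Ne.symm ac
  have da := Ne.symm ad
  have cb := Ne.symm bc
  have db := Ne.symm bd
  have dc := Ne.symm cd
  refine ⟨insert_nonempty _ _, fun e he => ?_, fun v => ?_, ?_⟩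
  · simp only [mem_insert, mem_singleton] at he
    rcases he with rfl | rfl | rfl | rfl <;> simp [*]
  · by_cases h1 : v = a
    · subst h1; right
      simp [deg, filter_insert, filter_singleton, *]
    by_cases h2 : v = b
    · subst h2; right
      simp [deg, filter_insert, filter_singleton, *]
    by_cases h3 : v = c
    · subst h3; right
      simp [deg, filter_insert, filter_singleton, *]
    by_cases h4 : v = d
    · subst h4; right
      simp [deg, filter_insert, filter_singleton, *]
    left
    simp [deg, filter_insert, filter_singleton, *]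
  · have l1 : Link ({s(a, b), s(b, c), s(c, d), s(d, a)} : Finset (Sym2 V)) a b :=
      Link.edge (by simp)
    have l2 : Link ({s(a, b), s(b, c), s(c, d), s(d, a)} : Finset (Sym2 V)) b c :=
      Link.edge (by simp)
    have l3 : Link ({s(a, b), s(b, c), s(c, d), s(d, a)} : Finset (Sym2 V)) d a :=
      Link.edge (by simp)
    have key : ∀ v ∈ supp ({s(a, b), s(b, c), s(c, d), s(d, a)} : Finset (Sym2 V)),
        Link ({s(a, b), s(b, c), s(c, d), s(d, a)} : Finset (Sym2 V)) a v := by
      intro v hv
      obtain ⟨e, he, hve⟩ := mem_supp.1 hv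
      simp only [mem_insert, mem_singleton] at he
      rcases he with rfl | rfl | rfl | rfl <;> rcases Sym2.mem_iff.1 hve with rfl | rfl <;>
        first
          | exact Link.refl _ _
          | exact l1
          | exact l1.trans l2
          | exact l3.symm
    exact fun x hx y hy => (key x hx).symm.trans (key y hy)

end Pool.Agent.CDC36
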