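import Pool.Agent.Lib.MP_32fd1f_co.Ext1a
import Pool.Agent.Lib.MP_32fd1f_co.Reroute
import Pool.Agent.Lib.MP_32fd1f_co.Repl

set_option autoImplicit false

namespace Pool.Agent.CDC36

open Finset

variable {V : Type} [Fintype V] [DecidableEq V]

private theorem ext1_deg1 (a b v : V) :
    deg ({s(a, b)} : Finset (Sym2 V)) v = if v = a ∨ v = b then 1 else 0 := by
  unfold deg
  rw [Finset.filter_singleton]
  by_cases h : v = a ∨ v = b
  · rw [if_pos (Sym2.mem_iff.2 h), if_pos h, card_singleton]
  · rw [if_neg (fun h' => h (Sym2.mem_iff.1 h')), if_neg h, card_empty]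

private theorem ext1_sub1 {A : Finset (Sym2 V)} (hA : Circ A) {p q x : V} (h : s(p, q) ∈ A)
    (hx : x ∉ supp A) : Circ ((A \ {s(p, q)}) ∪ pathE [p, x, q]) := by
  have hpq : p ≠ q := fun e => hA.2.1 _ h (by simp [e])
  have hp : p ≠ x := fun e => hx (mem_supp.2 ⟨_, h, by simp [e]⟩)
  have hq : q ≠ x := fun e => hx (mem_supp.2 ⟨_, h, by simp [e]⟩)
  have hQ : pathE [p, x, q] = {s(p, x)} ∪ {s(x, q)} := by
    ext e; simp [pathE]
  have hd : ∀ v, deg (pathE [p, x, q]) v =
      (if v = p ∨ v = x then 1 else 0) + (if v = x ∨ v = q then 1 else 0) := by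
    intro v
    rw [hQ, deg_union (by simp [hp, hpq, hq.symm]), ext1_deg1, ext1_deg1]
  refine reroute hA (by simpa using h) (by simp) (by simp [pathE]) ?_ (pathE_conn _) ?_ ?_ ?_ ?_
  · intro e he
    simp only [pathE, mem_insert, notMem_empty, or_false] at he
    rcases he with rfl | rfl
    · simpa using hp
    · simpa using hq.symm
  · rw [Finset.disjoint_left]
    intro e he he'
    simp only [pathE, mem_insert, notMem_empty, or_false] at he'
    apply hx
    rcases he' with rfl | rfl
    · exact mem_supp.2 ⟨_, (mem_sdiff.1 he).1, by simp⟩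
    · exact mem_supp.2 ⟨_, (mem_sdiff.1 he).1, by simp⟩
  · intro v
    rw [hd, ext1_deg1]
    by_cases h1 : v = p
    · subst h1; simp [hp, hpq]
    by_cases h2 : v = q
    · subst h2; simp [hq, h1]
    by_cases h3 : v = x
    · subst h3; simp [h1, h2]
    · simp [h1, h2, h3]
  · intro v
    have h1 : deg (A \ {s(p, q)}) v ≤ deg A v := deg_mono sdiff_subset v
    have h2 := hA.2.2.1 v
    rw [hd]
    by_cases h3 : v = x
    · have h4 : deg A v = 0 := by
        by_contra h4
        exact hx (h3 ▸ mem_supp_iff_deg.2 h4)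
      split_ifs <;> omega
    · by_cases h4 : v = p
      · have h5 : ¬ v = q := fun e => hpq (h4.symm.trans e)
        simp only [h3, h5, or_false, if_false]
        split_ifs <;> omega
      · simp only [h3, h4, or_false, if_false, false_or]
        split_ifs <;> omega
  · intro v hv
    left
    obtain ⟨e, he, hv⟩ := mem_supp.1 hv
    rw [mem_singleton.1 he] at hv
    rcases Sym2.mem_iff.1 hv with rfl | rfl
    · exact mem_supp.2 ⟨s(v, x), by simp [pathE], by simp⟩
    · exact mem_supp.2 ⟨s(x, v), by simp [pathE], by simp⟩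

private theorem ext1_subL (q : V) (l : List V) : ∀ (p : V) (A : Finset (Sym2 V)), Circ A →
    s(p, q) ∈ A → l.Nodup → (∀ v ∈ l, v ∉ supp A) →
    Circ ((A \ {s(p, q)}) ∪ pathE (p :: (l ++ [q]))) := by
  induction l with
  | nil =>
    intro p A hA h _ _
    have : (A \ {s(p, q)}) ∪ pathE (p :: ([] ++ [q])) = A := by
      ext e
      simp only [List.nil_append, pathE, mem_union, mem_sdiff, mem_singleton, mem_insert,
        notMem_empty, or_false]
      by_cases he : e = s(p, q)
      · simp [he, h]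
      · simp [he]
    rw [this]; exact hA
  | cons x l ih =>
    intro p A hA h hl hv
    have hx : x ∉ supp A := hv x (by simp)
    have hpq : p ≠ q := fun e => hA.2.1 _ h (by simp [e])
    have hp : p ≠ x := fun e => hx (mem_supp.2 ⟨_, h, by simp [e]⟩)
    have h1 := ext1_sub1 hA h hx
    have h2 := ih x _ h1 (by simp [pathE]) (List.nodup_cons.1 hl).2 (by
      intro v hvl hs
      obtain ⟨e, he, hve⟩ := mem_supp.1 hs
      have hvA := hv v (List.mem_cons_of_mem _ hvl)
      rcases mem_union.1 he with he | he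
      · exact hvA (mem_supp.2 ⟨e, (mem_sdiff.1 he).1, hve⟩)
      · have := pathE_supp _ v (mem_supp.2 ⟨e, he, hve⟩)
        simp only [List.mem_cons, List.not_mem_nil, or_false] at this
        rcases this with rfl | rfl | rfl
        · exact hvA (mem_supp.2 ⟨_, h, by simp⟩)
        · exact (List.nodup_cons.1 hl).1 hvl
        · exact hvA (mem_supp.2 ⟨_, h, by simp⟩))
    convert h2 using 1
    ext e
    have hxq : s(x, q) ∉ A := fun hh => hx (mem_supp.2 ⟨_, hh, by simp⟩)
    have hne : s(p, x) ≠ s(x, q) := by simp [hp, hpq]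
    simp only [List.cons_append, pathE, mem_union, mem_sdiff, mem_singleton, mem_insert,
      notMem_empty, or_false]
    constructor
    · rintro (⟨h3, h4⟩ | rfl | h3)
      · exact Or.inl ⟨Or.inl ⟨h3, h4⟩, fun e' => hxq (e' ▸ h3)⟩
      · exact Or.inl ⟨Or.inr (Or.inl rfl), hne⟩
      · exact Or.inr h3
    · rintro (⟨h3 | h3 | h3, h4⟩ | h3)
      · exact Or.inl h3
      · exact Or.inr (Or.inl h3)
      · exact absurd h3 h4
      · exact Or.inr (Or.inr h3)

private theorem ext1_cnt {F : Finset (Finset (Sym2 V))} {a b c Qa Qb Qc : Finset (Sym2 V)}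
    (ha : a ∈ F) (hb : b ∈ F) (hc : c ∈ F) (hab : a ≠ b) (hac : a ≠ c) (hbc : b ≠ c)
    (e : Sym2 V) :
    (F.filter (fun A => e ∈ (if A = a then Qa else if A = b then Qb else if A = c then Qc
      else ∅))).card =
      (if e ∈ Qa then 1 else 0) + ((if e ∈ Qb then 1 else 0) + (if e ∈ Qc then 1 else 0)) := by
  rw [card_filter, ← Finset.sum_subset (s₁ := {a, b, c})]
  · rw [sum_insert (by simp [hab, hac]), sum_insert (by simp [hbc]), sum_singleton]
    simp [hab.symm, hac.symm, hbc.symm]
  · intro A hA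
    simp only [mem_insert, mem_singleton] at hA
    rcases hA with rfl | rfl | rfl <;> assumption
  · intro A _ hA
    simp only [mem_insert, mem_singleton, not_or] at hA
    simp [hA.1, hA.2.1, hA.2.2]

theorem ext1 {E : Finset (Sym2 V)} (hE : Cubic E) (h3 : EC 3 E)
    {w w' x x' u u' y y' z z' t t' : V} (hL : LadX E w w' x x' u u' y y' z z' t t')
    (hS : Sep E w w' x x' u u' y y') {F : Finset (Finset (Sym2 V))}
    (hF : FCDC (red1 E w w' x x' u u' y y') F) : ∃ M, MCDC E M ∧ M.card ≤ F.card := by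
  obtain ⟨a, ha, b, hb, c, hc, a1, a2, b1, b2, c1, c2⟩ := ext1a hE h3 hL hS hF
  obtain ⟨⟨hnd, eww, exx, euu, eyy, ewx, exu, euy, eWX, eXU, eUY⟩, ewz, eWZ, eyt, eYT, hz⟩ := hL
  simp only [List.nodup_cons, List.mem_cons, List.not_mem_nil, or_false, not_or,
    not_false_eq_true, List.nodup_nil, and_true] at hnd
  obtain ⟨⟨nwW, nwx, nwX, nwu, nwU, nwy, nwY⟩, ⟨nWx, nWX, nWu, nWU, nWy, nWY⟩, ⟨nxX, nxu,
    nxU, nxy, nxY⟩, ⟨nXu, nXU, nXy, nXY⟩, ⟨nuU, nuy, nuY⟩, ⟨nUy, nUY⟩, nyY⟩ := hnd
  have mWw : ¬ w' = w := fun h => nwW h.symm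
  have mxw : ¬ x = w := fun h => nwx h.symm
  have mXw : ¬ x' = w := fun h => nwX h.symm
  have muw : ¬ u = w := fun h => nwu h.symm
  have mUw : ¬ u' = w := fun h => nwU h.symm
  have myw : ¬ y = w := fun h => nwy h.symm
  have mYw : ¬ y' = w := fun h => nwY h.symm
  have mxW : ¬ x = w' := fun h => nWx h.symm
  have mXW : ¬ x' = w' := fun h => nWX h.symm
  have muW : ¬ u = w' := fun h => nWu h.symm
  have mUW : ¬ u' = w' := fun h => nWU h.symm
  have myW : ¬ y = w' := fun h => nWy h.symm
  have mYW : ¬ y' = w' := fun h => nWY h.symm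
  have mXx : ¬ x' = x := fun h => nxX h.symm
  have mux : ¬ u = x := fun h => nxu h.symm
  have mUx : ¬ u' = x := fun h => nxU h.symm
  have myx : ¬ y = x := fun h => nxy h.symm
  have mYx : ¬ y' = x := fun h => nxY h.symm
  have muX : ¬ u = x' := fun h => nXu h.symm
  have mUX : ¬ u' = x' := fun h => nXU h.symm
  have myX : ¬ y = x' := fun h => nXy h.symm
  have mYX : ¬ y' = x' := fun h => nXY h.symm
  have mUu : ¬ u' = u := fun h => nuU h.symm
  have myu : ¬ y = u := fun h => nuy h.symm
  have mYu : ¬ y' = u := fun h => nuY h.symm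
  have myU : ¬ y = u' := fun h => nUy h.symm
  have mYU : ¬ y' = u' := fun h => nUY h.symm
  have mYy : ¬ y' = y := fun h => nyY h.symm
  have sw : ∀ {p q : V}, s(p, q) ∈ E → s(q, p) ∈ E := fun h => by rwa [Sym2.eq_swap]
  have owy : s(w, y) ∉ E := by
    intro h
    have := nbr_sat hE eww ewx ewz nWx (hz w' (by simp)).1.symm (hz x (by simp)).1.symm _ h
      (by simp)
    have h2 := (hz y (by simp)).1.symm
    simp [mYW, myW, myx, h2, nwy, myw, nwW, nwx, (hz w (by simp)).1.symm] at this
  have oWY : s(w', y') ∉ E := by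
    intro h
    have := nbr_sat hE (sw eww) eWX eWZ nwX (hz w (by simp)).2.1.symm
      (hz x' (by simp)).2.1.symm _ h (by simp)
    have h2 := (hz y' (by simp)).2.1.symm
    simp [mYw, mYX, h2, nWY, mYW, mWw, nWX, (hz w' (by simp)).2.1.symm] at this
  have hin : ∀ e ∈ red1 E w w' x x' u u' y y', x ∉ e ∧ x' ∉ e ∧ u ∉ e ∧ u' ∉ e := by
    intro e he
    simp only [red1, mem_union, mem_filter, mem_insert, mem_singleton] at he
    rcases he with he | rfl | rfl
    · exact he.2
    · simp [mxw, nxy, mXw, nXy, muw, nuy, mUw, nUy]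
    · simp [mxW, nxY, mXW, nXY, muW, nuY, mUW, nUY]
  have hsp : ∀ A ∈ F, x ∉ supp A ∧ x' ∉ supp A ∧ u ∉ supp A ∧ u' ∉ supp A := by
    intro A hA
    refine ⟨?_, ?_, ?_, ?_⟩ <;> intro h <;> obtain ⟨e, he, hv⟩ := mem_supp.1 h <;>
      have := hin e (hF.subset hA he) <;> tauto
  have hE' : ∀ A ∈ F, ∀ e ∈ A, (e ∈ E ↔ e ≠ s(w, y) ∧ e ≠ s(w', y')) := by
    intro A hA e he
    have := hF.subset hA he
    simp only [red1, mem_union, mem_filter, mem_insert, mem_singleton] at this
    constructor
    · intro h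
      exact ⟨fun e' => owy (e' ▸ h), fun e' => oWY (e' ▸ h)⟩
    · rintro ⟨h1, h2⟩
      rcases this with h | h | h
      · exact h.1
      · exact absurd h h1
      · exact absurd h h2
  have hab : a ≠ b := fun e => a2 (e ▸ b2)
  have hac : a ≠ c := fun e => a2 (e ▸ c2)
  have hbc : b ≠ c := fun e => c1 (e ▸ b1)
  have f1 : ∀ A ∈ F, s(w, y) ∈ A → A = a ∨ A = b := by
    obtain ⟨D, -, -, -, hD⟩ := hF.other ha a1
    intro A hA h
    rcases hD b hb b1 with e | e
    · exact absurd e.symm hab
    · rw [e]; exact hD A hA h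
  have f2 : ∀ A ∈ F, s(w', y') ∈ A → A = b ∨ A = c := by
    obtain ⟨D, -, -, -, hD⟩ := hF.other hb b2
    intro A hA h
    rcases hD c hc c2 with e | e
    · exact absurd e.symm hbc
    · rw [e]; exact hD A hA h
  have out : ∀ p q : V, s(p, q) ∈ E → (p = x ∨ p = x' ∨ p = u ∨ p = u' ∨ q = x ∨ q = x' ∨ q = u ∨
      q = u') → s(p, q) ∈ E \ red1 E w w' x x' u u' y y' := by
    intro p q h hp
    refine mem_sdiff.2 ⟨h, fun h' => ?_⟩
    have := hin _ h'
    simp only [Sym2.mem_iff, not_or] at this
    rcases hp with rfl | rfl | rfl | rfl | rfl | rfl | rfl | rfl <;> simp at this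
  have q1 : pathE [w, x, u, y] ⊆ E \ red1 E w w' x x' u u' y y' := by
    intro e he
    simp only [pathE, mem_insert, notMem_empty, or_false] at he
    rcases he with rfl | rfl | rfl <;> exact out _ _ (by assumption) (by simp)
  suffices h : ∃ M, MCDC E M ∧ M.card = F.card + (0 : Multiset (Finset (Sym2 V))).card by
    obtain ⟨M, hM, hcard⟩ := h
    exact ⟨M, hM, by simp [hcard]⟩
  refine repl (E := E) hF (fun A => if A = a then pathE [w, x, x', u', u, y]
    else if A = b then pathE [w, x, u, y] ∪ pathE [w', x', u', y']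
    else if A = c then pathE [w', x', x, u, u', y'] else ∅) 0 ?_ (by simp) ?_ (by simp) ?_
  · intro A _
    have euU := sw euu
    have exX := sw exx
    split_ifs
    · intro e he
      simp only [pathE, mem_insert, notMem_empty, or_false] at he
      rcases he with rfl | rfl | rfl | rfl | rfl <;> exact out _ _ (by assumption) (by simp)
    · refine union_subset q1 fun e he => ?_
      simp only [pathE, mem_insert, notMem_empty, or_false] at he
      rcases he with rfl | rfl | rfl <;> exact out _ _ (by assumption) (by simp)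
    · intro e he
      simp only [pathE, mem_insert, notMem_empty, or_false] at he
      rcases he with rfl | rfl | rfl | rfl | rfl <;> exact out _ _ (by assumption) (by simp)
    · exact empty_subset _
  · intro A hA
    have hsA := hsp A hA
    have hcA := hF.1 A hA
    have hEA := hE' A hA
    split_ifs with h1 h2 h4
    · subst h1
      have := ext1_subL y [x, x', u', u] w A hcA a1 (by simp [nxX, nxU, nxu, nXU, nXu, mUu])
        (by simp [hsA])
      have e0 : A ∩ E = A \ {s(w, y)} := by
        ext e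
        simp only [mem_inter, mem_sdiff, mem_singleton]
        exact ⟨fun h => ⟨h.1, ((hEA e h.1).1 h.2).1⟩,
          fun h => ⟨h.1, (hEA e h.1).2 ⟨h.2, fun e' => a2 (e' ▸ h.1)⟩⟩⟩
      rw [e0]; exact this
    · subst h2
      have k1 := ext1_subL y [x, u] w A hcA b1 (by simp [nxu]) (by simp [hsA])
      have k2 := ext1_subL y' [x', u'] w' _ k1
        (mem_union_left _ (mem_sdiff.2 ⟨b2, by simp [mWw, nWy]⟩)) (by simp [nXU]) (by
          intro v hv hs
          obtain ⟨e, he, hve⟩ := mem_supp.1 hs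
          simp only [List.mem_cons, List.not_mem_nil, or_false] at hv
          rcases mem_union.1 he with he | he
          · have := mem_supp.2 ⟨e, (mem_sdiff.1 he).1, hve⟩
            rcases hv with rfl | rfl <;> tauto
          · have := pathE_supp _ v (mem_supp.2 ⟨e, he, hve⟩)
            rcases hv with rfl | rfl <;>
              simp [mXw, mXx, nXu, nXy, mUw, mUx, mUu, nUy] at this)
      convert k2 using 1
      ext e
      simp only [List.cons_append, List.nil_append, mem_union, mem_inter, mem_sdiff,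
        mem_singleton]
      constructor
      · rintro (h | h | h)
        · exact Or.inl ⟨Or.inl ⟨h.1, ((hEA e h.1).1 h.2).1⟩, ((hEA e h.1).1 h.2).2⟩
        · exact Or.inl ⟨Or.inr h, fun e' => oWY (e' ▸ (mem_sdiff.1 (q1 h)).1)⟩
        · exact Or.inr h
      · rintro (⟨h | h, h'⟩ | h)
        · exact Or.inl ⟨h.1, (hEA e h.1).2 ⟨h.2, h'⟩⟩
        · exact Or.inr (Or.inl h)
        · exact Or.inr (Or.inr h)
    · subst h4
      have := ext1_subL y' [x', x, u, u'] w' A hcA c2 (by simp [mXx, nXu, nXU, nxu, nxU, nuU])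
        (by simp [hsA])
      have e0 : A ∩ E = A \ {s(w', y')} := by
        ext e
        simp only [mem_inter, mem_sdiff, mem_singleton]
        exact ⟨fun h => ⟨h.1, ((hEA e h.1).1 h.2).2⟩,
          fun h => ⟨h.1, (hEA e h.1).2 ⟨fun e' => c1 (e' ▸ h.1), h.2⟩⟩⟩
      rw [e0]; exact this
    · have : A ∩ E ∪ ∅ = A := by
        rw [union_empty, inter_eq_left]
        intro e he
        refine (hEA e he).2 ⟨fun e' => ?_, fun e' => ?_⟩
        · rcases f1 A hA (e' ▸ he) with h | h <;> contradiction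
        · rcases f2 A hA (e' ▸ he) with h | h <;> contradiction
      rw [this]; exact hcA
  · intro e he he'
    rw [ext1_cnt ha hb hc hab hac hbc e]
    have h8 : e = s(w, x) ∨ e = s(x, u) ∨ e = s(x, x') ∨ e = s(w', x') ∨ e = s(x', u') ∨
        e = s(u, y) ∨ e = s(u, u') ∨ e = s(u', y') := by
      by_cases k1 : x ∈ e
      · have := nbr_sat hE (sw ewx) exu exx nwu nwX muX e he k1
        rw [Sym2.eq_swap (a := x) (b := w)] at this
        tauto
      by_cases k2 : x' ∈ e
      · have := nbr_sat hE (sw eWX) eXU (sw exx) nWU nWx mUx e he k2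
        rw [Sym2.eq_swap (a := x') (b := w'), Sym2.eq_swap (a := x') (b := x)] at this
        tauto
      by_cases k3 : u ∈ e
      · have := nbr_sat hE (sw exu) euy euu nxy nxU myU e he k3
        rw [Sym2.eq_swap (a := u) (b := x)] at this
        tauto
      by_cases k4 : u' ∈ e
      · have := nbr_sat hE (sw eXU) eUY (sw euu) nXY nXu mYu e he k4
        rw [Sym2.eq_swap (a := u') (b := x'), Sym2.eq_swap (a := u') (b := u)] at this
        tauto
      · exact absurd (mem_union_left _ (mem_filter.2 ⟨he, k1, k2, k3, k4⟩)) he'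
    rcases h8 with rfl | rfl | rfl | rfl | rfl | rfl | rfl | rfl <;>
      simp [pathE, nwW, nwx, nwX, nwu, nwU, nwy, nwY, nWx, nWX, nWu, nWU, nWy, nWY, nxX, nxu, nxU,
        nxy, nxY, nXu, nXU, nXy, nXY, nuU, nuy, nuY, nUy, nUY, nyY,
        mWw, mxw, mXw, muw, mUw, myw, mYw, mxW, mXW, muW, mUW, myW, mYW, mXx, mux, mUx,
        myx, mYx, muX, mUX, myX, mYX, mUu, myu, mYu, myU, mYU, mYy]

end Pool.Agent.CDC36
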