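import Pool.Agent.Lib.MP_32fd1f_co.Basic

set_option autoImplicit false

namespace Pool.Agent.CDC36

open Finset

variable {V : Type} [Fintype V] [DecidableEq V]

theorem loc_tri {E : Finset (Sym2 V)} (hE : Cubic E) {A : Finset (Sym2 V)} (hA : Circ A)
    (hAE : A ⊆ E) {u a b c : V} (ha : s(u, a) ∈ E) (hb : s(u, b) ∈ E) (hc : s(u, c) ∈ E)
    (hab : a ≠ b) (hac : a ≠ c) (hbc : b ≠ c) :
    (s(u, a) ∉ A ∧ s(u, b) ∉ A ∧ s(u, c) ∉ A) ∨ (s(u, a) ∈ A ∧ s(u, b) ∈ A ∧ s(u, c) ∉ A) ∨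
      (s(u, a) ∈ A ∧ s(u, b) ∉ A ∧ s(u, c) ∈ A) ∨ (s(u, a) ∉ A ∧ s(u, b) ∈ A ∧ s(u, c) ∈ A) := by
  have hs := nbr_sat hE ha hb hc hab hac hbc
  have e : A.filter (fun e => u ∈ e) =
      ({s(u, a), s(u, b), s(u, c)} : Finset (Sym2 V)).filter (fun e => e ∈ A) := by
    ext e
    simp only [mem_filter, mem_insert, mem_singleton]
    constructor
    · rintro ⟨h1, h2⟩
      exact ⟨hs e (hAE h1) h2, h1⟩
    · rintro ⟨rfl | rfl | rfl, h1⟩ <;> exact ⟨h1, Sym2.mem_mk_left _ _⟩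
  have h2 := hA.2.2.1 u
  unfold deg at h2
  rw [e, card_filter, sum_insert (by
      simp only [mem_insert, mem_singleton, Sym2.congr_right, hab, hac, or_self, not_false_eq_true]),
    sum_insert (by simp only [mem_singleton, Sym2.congr_right, hbc, not_false_eq_true]),
    sum_singleton] at h2
  by_cases h3 : s(u, a) ∈ A <;> by_cases h4 : s(u, b) ∈ A <;> by_cases h5 : s(u, c) ∈ A <;>
    simp [h3, h4, h5] at h2 ⊢

theorem loc_third {E : Finset (Sym2 V)} (hE : Cubic E) {u a b : V} (ha : s(u, a) ∈ E)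
    (hb : s(u, b) ∈ E) (hab : a ≠ b) : ∃ c, s(u, c) ∈ E ∧ a ≠ c ∧ b ≠ c := by
  obtain ⟨b', c', h1, h2, h3, -, -, -, h4, h5, h6⟩ := nbr3 hE ha
  rcases h6 _ hb (Sym2.mem_mk_left _ _) with h | h | h
  · exact absurd (Sym2.congr_right.1 h).symm hab
  · obtain rfl := Sym2.congr_right.1 h
    exact ⟨c', h5, h2, h3⟩
  · obtain rfl := Sym2.congr_right.1 h
    exact ⟨b', h4, h1, h3.symm⟩

omit [Fintype V] in
theorem loc_count (x y z : Sym2 V) (M : Multiset (Finset (Sym2 V)))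
    (h : ∀ A ∈ M, (x ∉ A ∧ y ∉ A ∧ z ∉ A) ∨ (x ∈ A ∧ y ∈ A ∧ z ∉ A) ∨
      (x ∈ A ∧ y ∉ A ∧ z ∈ A) ∨ (x ∉ A ∧ y ∈ A ∧ z ∈ A)) :
    2 * M.countP (fun A => x ∈ A ∧ y ∈ A) + M.countP (fun A => z ∈ A) =
      M.countP (fun A => x ∈ A) + M.countP (fun A => y ∈ A) := by
  induction M using Multiset.induction_on with
  | empty => simp
  | cons A M ih =>
    have h1 := ih fun B hB => h B (Multiset.mem_cons_of_mem hB)
    simp only [Multiset.countP_cons]
    rcases h A (Multiset.mem_cons_self _ _) with ⟨a, b, c⟩ | ⟨a, b, c⟩ | ⟨a, b, c⟩ | ⟨a, b, c⟩ <;>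
      simp only [a, b, c, and_self, and_true, and_false, if_true, if_false] <;> omega

theorem loc_sub {E : Finset (Sym2 V)} {M : Multiset (Finset (Sym2 V))} (hM : MCDC E M)
    {A : Finset (Sym2 V)} (hA : A ∈ M) : A ⊆ E := by
  intro e he
  by_contra hn
  have h := hM.2 e
  rw [if_neg hn, Multiset.countP_eq_zero] at h
  exact h A hA he

theorem loc_m {E : Finset (Sym2 V)} (hE : Cubic E) {M : Multiset (Finset (Sym2 V))}
    (hM : MCDC E M) {u a b : V} (ha : s(u, a) ∈ E) (hb : s(u, b) ∈ E) (hab : a ≠ b) :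
    M.countP (fun A => s(u, a) ∈ A ∧ s(u, b) ∈ A) = 1 := by
  obtain ⟨c, hc, hac, hbc⟩ := loc_third hE ha hb hab
  have h := loc_count s(u, a) s(u, b) s(u, c) M fun A hA =>
    loc_tri hE (hM.1 A hA) (loc_sub hM hA) ha hb hc hab hac hbc
  rw [hM.2, hM.2, hM.2, if_pos ha, if_pos hb, if_pos hc] at h
  omega

/-- a cycle inside a cubic graph through one edge at `u` uses exactly one of the two others -/
theorem circ_two {E : Finset (Sym2 V)} (hE : Cubic E) {A : Finset (Sym2 V)} (hA : Circ A)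
    (hAE : A ⊆ E) {u a b c : V} (ha : s(u, a) ∈ E) (hb : s(u, b) ∈ E) (hc : s(u, c) ∈ E)
    (hab : a ≠ b) (hac : a ≠ c) (hbc : b ≠ c) (h : s(u, a) ∈ A) :
    Xor' (s(u, b) ∈ A) (s(u, c) ∈ A) := by
  have := loc_tri hE hA hAE ha hb hc hab hac hbc
  unfold Xor'
  tauto

/-- a cycle through `u` that avoids `u a` uses both other edges -/
theorem circ_avoid {E : Finset (Sym2 V)} (hE : Cubic E) {A : Finset (Sym2 V)} (hA : Circ A)
    (hAE : A ⊆ E) {u a b : V} (ha : s(u, a) ∈ E) (hb : s(u, b) ∈ E) (hab : a ≠ b)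
    (hu : u ∈ supp A) (h : s(u, a) ∉ A) : s(u, b) ∈ A := by
  obtain ⟨c, hc, hac, hbc⟩ := loc_third hE ha hb hab
  obtain ⟨e, he, hue⟩ := mem_supp.1 hu
  have h1 := loc_tri hE hA hAE ha hb hc hab hac hbc
  rcases nbr_sat hE ha hb hc hab hac hbc e (hAE he) hue with rfl | rfl | rfl <;> tauto

theorem loc {E : Finset (Sym2 V)} (hE : Cubic E) {F : Finset (Finset (Sym2 V))} (hF : FCDC E F)
    {u a b : V} (ha : s(u, a) ∈ E) (hb : s(u, b) ∈ E) (hab : a ≠ b) :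
    ∃! A, A ∈ F ∧ s(u, a) ∈ A ∧ s(u, b) ∈ A := by
  have h := loc_m hE hF.mcdc ha hb hab
  rw [Multiset.countP_eq_card_filter] at h
  obtain ⟨A, hA⟩ := card_eq_one.1
    (show (F.filter (fun A => s(u, a) ∈ A ∧ s(u, b) ∈ A)).card = 1 from h)
  refine ⟨A, mem_filter.1 (hA ▸ mem_singleton_self A), fun B hB => ?_⟩
  exact mem_singleton.1 (hA ▸ mem_filter.2 hB)

theorem nodup {E : Finset (Sym2 V)} (hE : Cubic E) {M : Multiset (Finset (Sym2 V))}
    (hM : MCDC E M) : ∃ F : Finset (Finset (Sym2 V)), F.val = M ∧ FCDC E F := by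
  have key : ∀ (C : Finset (Sym2 V)) (u a b : V), s(u, a) ∈ E → s(u, b) ∈ E → a ≠ b →
      s(u, a) ∈ C → s(u, b) ∈ C → M.count C ≤ 1 := by
    intro C u a b ha hb hab h1 h2
    have h := loc_m hE hM ha hb hab
    rw [Multiset.countP_eq_card_filter] at h
    rw [← h, ← Multiset.count_filter_of_pos (p := fun A => s(u, a) ∈ A ∧ s(u, b) ∈ A) ⟨h1, h2⟩]
    exact Multiset.count_le_card _ _
  have hn : M.Nodup := by
    rw [Multiset.nodup_iff_count_le_one]
    intro C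
    by_cases hC : C ∈ M
    · obtain ⟨e, he⟩ := (hM.1 C hC).1
      induction e using Sym2.ind with
      | h u a =>
        have ha := loc_sub hM hC he
        obtain ⟨b, c, h1, h2, h3, -, -, -, h4, h5, -⟩ := nbr3 hE ha
        rcases circ_two hE (hM.1 C hC) (loc_sub hM hC) ha h4 h5 h1 h2 h3 he with h | h
        · exact key C u a b ha h4 h1 he h.1
        · exact key C u a c ha h5 h2 he h.1
    · rw [Multiset.count_eq_zero_of_notMem hC]
      exact Nat.zero_le _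
  refine ⟨⟨M, hn⟩, rfl, hM.1, fun e => ?_⟩
  rw [← hM.2 e, Multiset.countP_eq_card_filter]
  rfl

end Pool.Agent.CDC36
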