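import Pool.Agent.Lib.MP_32fd1f_co.Red1a
import Pool.Agent.Lib.MP_32fd1f_co.Loc

set_option autoImplicit false

namespace Pool.Agent.CDC36

open Finset

variable {V : Type} [Fintype V] [DecidableEq V]

theorem ext1a_face {E : Finset (Sym2 V)} {F : Finset (Finset (Sym2 V))} (hF : FCDC E F)
    {e : Sym2 V} (he : e ∈ E) : ∃ A ∈ F, e ∈ A := by
  have h := hF.2 e
  rw [if_pos he] at h
  obtain ⟨A, hA⟩ : (F.filter (fun C => e ∈ C)).Nonempty := Finset.card_pos.1 (by omega)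
  exact ⟨A, (Finset.mem_filter.1 hA).1, (Finset.mem_filter.1 hA).2⟩

theorem ext1a_three {E : Finset (Sym2 V)} {F : Finset (Finset (Sym2 V))} (hF : FCDC E F)
    {p q g : Sym2 V} (hp : p ∈ E) (hq : q ∈ E) (hg : g ∈ E)
    (hpar : ∀ A ∈ F, (p ∈ A ↔ ¬ (q ∈ A ↔ g ∈ A))) :
    ∃ a ∈ F, ∃ b ∈ F, ∃ c ∈ F, p ∈ a ∧ q ∉ a ∧ p ∈ b ∧ q ∈ b ∧ p ∉ c ∧ q ∈ c := by
  have fin : ∀ a ∈ F, ∀ b ∈ F, p ∈ a → q ∉ a → p ∈ b → q ∈ b →
      (∀ B ∈ F, p ∈ B → B = a ∨ B = b) →
      ∃ a ∈ F, ∃ b ∈ F, ∃ c ∈ F, p ∈ a ∧ q ∉ a ∧ p ∈ b ∧ q ∈ b ∧ p ∉ c ∧ q ∈ c := by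
    intro a ha b hb pa qa pb qb hall
    obtain ⟨c, hc, hcb, qc, -⟩ := hF.other hb qb
    refine ⟨a, ha, b, hb, c, hc, pa, qa, pb, qb, fun pc => ?_, qc⟩
    rcases hall c hc pc with h | h
    · exact qa (h ▸ qc)
    · exact hcb h
  obtain ⟨C, hC, pC⟩ := ext1a_face hF hp
  obtain ⟨D, hD, hDC, pD, hall⟩ := hF.other hC pC
  by_cases qC : q ∈ C <;> by_cases qD : q ∈ D
  · exfalso
    obtain ⟨D', hD', hne, qD', hq'⟩ := hF.other hC qC
    have e : D = D' := (hq' D hD qD).resolve_left hDC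
    subst e
    obtain ⟨G, hG, gG⟩ := ext1a_face hF hg
    have h1 := hpar G hG
    have h2 := hpar C hC
    have h3 := hpar D hD
    have : G = C ∨ G = D := by
      by_cases pG : p ∈ G
      · exact hall G hG pG
      · exact hq' G hG (by tauto)
    rcases this with rfl | rfl <;> tauto
  · exact fin D hD C hC pD qD pC qC fun B hB h => (hall B hB h).symm
  · exact fin C hC D hD pC qC pD qD hall
  · exfalso
    have h2 := hpar C hC
    have h3 := hpar D hD
    have gC : g ∈ C := by tauto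
    have gD : g ∈ D := by tauto
    obtain ⟨D', hD', hne, gD', hg'⟩ := hF.other hC gC
    have e : D = D' := (hg' D hD gD).resolve_left hDC
    subst e
    obtain ⟨G, hG, qG⟩ := ext1a_face hF hq
    have h1 := hpar G hG
    have : G = C ∨ G = D := by
      by_cases pG : p ∈ G
      · exact hall G hG pG
      · exact hg' G hG (by tauto)
    rcases this with rfl | rfl <;> tauto

theorem ext1a_par {A : Finset (Sym2 V)} {p q g : Sym2 V} (hpq : p ≠ q) (hpg : p ≠ g) (hqg : q ≠ g)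
    (h : Even (({p, q, g} : Finset (Sym2 V)).filter (fun e => e ∈ A)).card) :
    p ∈ A ↔ ¬ (q ∈ A ↔ g ∈ A) := by
  rw [Finset.card_filter, Finset.sum_insert (by simp [hpq, hpg]), Finset.sum_pair hqg] at h
  by_cases h1 : p ∈ A <;> by_cases h2 : q ∈ A <;> by_cases h3 : g ∈ A <;>
    simp [h1, h2, h3] at h ⊢ <;> exact absurd h (by decide)

theorem ext1a {E : Finset (Sym2 V)} (hE : Cubic E) (h3 : EC 3 E)
    {w w' x x' u u' y y' z z' t t' : V} (hL : LadX E w w' x x' u u' y y' z z' t t')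
    (hS : Sep E w w' x x' u u' y y') {F : Finset (Finset (Sym2 V))}
    (hF : FCDC (red1 E w w' x x' u u' y y') F) :
    ∃ a ∈ F, ∃ b ∈ F, ∃ c ∈ F, s(w, y) ∈ a ∧ s(w', y') ∉ a ∧ s(w, y) ∈ b ∧ s(w', y') ∈ b ∧
      s(w, y) ∉ c ∧ s(w', y') ∈ c := by
  obtain ⟨⟨nd, eww, exx, euu, eyy, ewx, exu, euy, ewx', exu', euy'⟩, ewz, ewz', -, -, hout⟩ := hL
  obtain ⟨κ, kw, kw', kx, kx', ku, ku', ky, ky', hcard⟩ := hS
  have hzw' := (hout w' (by simp)).1
  have hzx := (hout x (by simp)).1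
  have hzy := (hout y (by simp)).1
  have hzw := (hout w (by simp)).2.1
  have hzx' := (hout x' (by simp)).2.1
  have hzy' := (hout y' (by simp)).2.1
  simp only [List.nodup_cons, List.mem_cons, List.not_mem_nil, or_false, not_or, List.nodup_nil,
    and_true, not_false_eq_true] at nd
  obtain ⟨⟨n1, n2, n3, n4, n5, n6, n7⟩, ⟨n8, n9, n10, n11, n12, n13⟩, ⟨n14, n15, n16, n17, n18⟩,
    ⟨n19, n20, n21, n22⟩, ⟨n23, n24, n25⟩, ⟨n26, n27⟩, n28⟩ := nd
  have h3' : 3 ≤ (cut E κ).card :=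
    h3 κ ⟨u, mem_supp.2 ⟨_, euu, by simp⟩, ku⟩ ⟨w, mem_supp.2 ⟨_, eww, by simp⟩, kw⟩
  have c1 : s(x, u) ∈ cut E κ := mk_mem_cut.2 ⟨exu, by simp [kx, ku]⟩
  have c2 : s(x', u') ∈ cut E κ := mk_mem_cut.2 ⟨exu', by simp [kx', ku']⟩
  have c12 : s(x, u) ≠ s(x', u') := by simp [n14, n16]
  have hc1 : (((cut E κ).erase s(x, u)).erase s(x', u')).card = 1 := by
    rw [Finset.card_erase_of_mem (Finset.mem_erase.2 ⟨c12.symm, c2⟩), Finset.card_erase_of_mem c1]
    omega
  obtain ⟨g, hg⟩ := Finset.card_eq_one.1 hc1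
  have hgm : g ∈ ((cut E κ).erase s(x, u)).erase s(x', u') := by rw [hg]; simp
  obtain ⟨g2, hgm'⟩ := Finset.mem_erase.1 hgm
  obtain ⟨g1, gc⟩ := Finset.mem_erase.1 hgm'
  have gE : g ∈ E := (Finset.mem_filter.1 gc).1
  have hall : ∀ e ∈ cut E κ, e = s(x, u) ∨ e = s(x', u') ∨ e = g := by
    intro e he
    by_cases h1 : e = s(x, u)
    · exact Or.inl h1
    · by_cases h2 : e = s(x', u')
      · exact Or.inr (Or.inl h2)
      · have : e ∈ ((cut E κ).erase s(x, u)).erase s(x', u') :=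
          Finset.mem_erase.2 ⟨h2, Finset.mem_erase.2 ⟨h1, he⟩⟩
        rw [hg] at this
        exact Or.inr (Or.inr (Finset.mem_singleton.1 this))
  have gno : ∀ a b, κ a = κ b → g ≠ s(a, b) := fun a b h e => (mk_mem_cut.1 (e ▸ gc)).2 h
  have sw : ∀ a b, s(a, b) ∈ E → s(b, a) ∈ E := fun a b h => by rwa [Sym2.eq_swap]
  have gx : x ∉ g := by
    intro h
    rcases nbr_sat hE (sw _ _ ewx) exx exu n3 n4 n19 g gE h with e | e | e
    · exact gno _ _ (by rw [kx, kw]) e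
    · exact gno _ _ (by rw [kx, kx']) e
    · exact g1 e
  have gx' : x' ∉ g := by
    intro h
    rcases nbr_sat hE (sw _ _ ewx') (sw _ _ exx) exu' n8 n11 n16 g gE h with e | e | e
    · exact gno _ _ (by rw [kx', kw']) e
    · exact gno _ _ (by rw [kx, kx']) e
    · exact g2 e
  have gu : u ∉ g := by
    intro h
    rcases nbr_sat hE (sw _ _ exu) euu euy n16 n17 n26 g gE h with e | e | e
    · exact g1 (e.trans Sym2.eq_swap)
    · exact gno _ _ (by rw [ku, ku']) e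
    · exact gno _ _ (by rw [ku, ky]) e
  have gu' : u' ∉ g := by
    intro h
    rcases nbr_sat hE (sw _ _ exu') (sw _ _ euu) euy' n19 n22 n25 g gE h with e | e | e
    · exact g2 (e.trans Sym2.eq_swap)
    · exact gno _ _ (by rw [ku, ku']) e
    · exact gno _ _ (by rw [ku', ky']) e
  have gE' : g ∈ red1 E w w' x x' u u' y y' :=
    Finset.mem_union_left _ (Finset.mem_filter.2 ⟨gE, gx, gx', gu, gu'⟩)
  have pE' : s(w, y) ∈ red1 E w w' x x' u u' y y' := Finset.mem_union_right _ (by simp)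
  have qE' : s(w', y') ∈ red1 E w w' x x' u u' y y' := Finset.mem_union_right _ (by simp)
  have hpq : s(w, y) ≠ s(w', y') := by simp [n1, n7]
  have hpg : s(w, y) ≠ g := by
    intro e
    rcases nbr_sat hE eww ewx ewz n8 hzw'.symm hzx.symm _ (e ▸ gE : s(w, y) ∈ E) (by simp)
      with h | h | h
    · exact n12 (Sym2.congr_right.1 h).symm
    · exact n17 (Sym2.congr_right.1 h).symm
    · exact hzy (Sym2.congr_right.1 h).symm
  have hqg : s(w', y') ≠ g := by
    intro e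
    rcases nbr_sat hE (sw _ _ eww) ewx' ewz' n3 hzw.symm hzx'.symm _ (e ▸ gE : s(w', y') ∈ E)
      (by simp) with h | h | h
    · exact n7 (Sym2.congr_right.1 h).symm
    · exact n22 (Sym2.congr_right.1 h).symm
    · exact hzy' (Sym2.congr_right.1 h).symm
  refine ext1a_three hF pE' qE' gE' fun A hA => ext1a_par hpq hpg hqg ?_
  have hev := evencut (hF.1 A hA).2.1 (hF.1 A hA).isEven κ
  have hsub := hF.subset hA
  have : ({s(w, y), s(w', y'), g} : Finset (Sym2 V)).filter (fun e => e ∈ A) = cut A κ := by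
    ext e
    constructor
    · intro he
      obtain ⟨h1, h2⟩ := Finset.mem_filter.1 he
      simp only [Finset.mem_insert, Finset.mem_singleton] at h1
      rcases h1 with rfl | rfl | rfl
      · exact mk_mem_cut.2 ⟨h2, by simp [kw, ky]⟩
      · exact mk_mem_cut.2 ⟨h2, by simp [kw', ky']⟩
      · exact Finset.mem_filter.2 ⟨h2, (Finset.mem_filter.1 gc).2⟩
    · intro he
      obtain ⟨h1, h2⟩ := Finset.mem_filter.1 he
      refine Finset.mem_filter.2 ⟨?_, h1⟩
      simp only [Finset.mem_insert, Finset.mem_singleton]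
      rcases Finset.mem_union.1 (hsub h1) with h | h
      · obtain ⟨hE1, hx, hx', -, -⟩ := Finset.mem_filter.1 h
        rcases hall e (Finset.mem_filter.2 ⟨hE1, h2⟩) with rfl | rfl | rfl
        · exact absurd (by simp) hx
        · exact absurd (by simp) hx'
        · exact Or.inr (Or.inr rfl)
      · simp only [Finset.mem_insert, Finset.mem_singleton] at h
        tauto
  rwa [this]

end Pool.Agent.CDC36
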