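import Pool.Agent.Lib.MP_32fd1f_co.Red2a
import Pool.Agent.Lib.MP_32fd1f_co.Loc
import Pool.Agent.Lib.MP_32fd1f_co.Reroute
import Pool.Agent.Lib.MP_32fd1f_co.Repl

set_option autoImplicit false
set_option linter.unusedSimpArgs false

namespace Pool.Agent.CDC36

open Finset

variable {V : Type} [Fintype V] [DecidableEq V]

/-- path from `p` through `m` to `q` -/
def ext2s_pth (p : V) : List V → V → Finset (Sym2 V)
  | [], q => {s(p, q)}
  | r :: m, q => insert s(p, r) (ext2s_pth r m q)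

omit [Fintype V] in
theorem ext2s_mem {m : List V} {q : V} : ∀ {p : V} {e : Sym2 V}, e ∈ ext2s_pth p m q →
    (∀ v ∈ e, v = p ∨ v ∈ m ∨ v = q) ∧ ∃ v ∈ p :: m, v ∈ e := by
  induction m with
  | nil =>
    intro p e h
    obtain rfl := mem_singleton.1 h
    exact ⟨fun v hv => by simpa using hv, p, by simp, by simp⟩
  | cons r m ih =>
    intro p e h
    rcases mem_insert.1 h with rfl | h
    · refine ⟨fun v hv => ?_, p, by simp, by simp⟩
      rcases Sym2.mem_iff.1 hv with h | h <;> simp [h]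
    · obtain ⟨h1, v, h2, h3⟩ := ih h
      refine ⟨fun v hv => ?_, v, List.mem_cons_of_mem _ h2, h3⟩
      rcases h1 v hv with h | h | h <;> simp [h]

omit [Fintype V] in
theorem ext2s_deg {m : List V} {q : V} : ∀ {p : V}, (p :: q :: m).Nodup → ∀ v,
    deg (ext2s_pth p m q) v = if v ∈ m then 2 else if v = p ∨ v = q then 1 else 0 := by
  induction m with
  | nil =>
    intro p _ v
    simp only [deg, ext2s_pth, filter_singleton, Sym2.mem_iff, List.not_mem_nil, if_false]
    split_ifs <;> simp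
  | cons r m ih =>
    intro p h v
    simp only [List.nodup_cons, List.mem_cons, not_or] at h
    obtain ⟨⟨h1, h2, h3⟩, ⟨h4, h5⟩, h6, h7⟩ := h
    have h8 := ih (p := r) (by simp [h5, h6, h7, Ne.symm h4]) v
    have h9 : s(p, r) ∉ ext2s_pth r m q := fun k => by
      rcases (ext2s_mem k).1 p (by simp) with h | h | h <;> contradiction
    unfold deg at h8 ⊢
    rw [ext2s_pth, filter_insert]
    by_cases e : v ∈ s(p, r)
    · rw [if_pos e, card_insert_of_notMem (fun k => h9 (mem_filter.1 k).1), h8]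
      rcases Sym2.mem_iff.1 e with rfl | rfl
      · simp [h1, h2, h3]
      · simp [h6]
    · rw [if_neg e, h8]
      simp only [Sym2.mem_iff, not_or] at e
      simp [e.1, e.2]

omit [Fintype V] in
theorem ext2s_noLoop {m : List V} {q : V} : ∀ {p : V}, (p :: q :: m).Nodup →
    NoLoop (ext2s_pth p m q) := by
  induction m with
  | nil =>
    intro p h e he
    obtain rfl := mem_singleton.1 he
    simpa using h
  | cons r m ih =>
    intro p h e he
    simp only [List.nodup_cons, List.mem_cons, not_or] at h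
    obtain ⟨⟨h1, h2, h3⟩, ⟨h4, h5⟩, h6, h7⟩ := h
    rcases mem_insert.1 he with rfl | he
    · simpa using h2
    · exact ih (p := r) (by simp [h5, h6, h7, Ne.symm h4]) e he

theorem ext2s_link {m : List V} {q : V} : ∀ {p : V}, ∀ v ∈ supp (ext2s_pth p m q),
    Link (ext2s_pth p m q) p v := by
  induction m with
  | nil =>
    intro p v hv
    obtain ⟨e, he, hv⟩ := mem_supp.1 hv
    obtain rfl := mem_singleton.1 he
    rcases Sym2.mem_iff.1 hv with rfl | rfl
    · exact Link.refl _ _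
    · exact Link.edge he
  | cons r m ih =>
    intro p v hv
    obtain ⟨e, he, hv⟩ := mem_supp.1 hv
    have h0 : Link (ext2s_pth p (r :: m) q) p r := Link.edge (mem_insert_self _ _)
    rcases mem_insert.1 he with rfl | he
    · rcases Sym2.mem_iff.1 hv with rfl | rfl
      · exact Link.refl _ _
      · exact h0
    · exact h0.trans (Link.mono (subset_insert _ _) (ih v (mem_supp.2 ⟨e, he, hv⟩)))

/-- replace a path of a cycle by a path with new inner vertices -/
theorem ext2s_rer {A : Finset (Sym2 V)} (hA : Circ A) {p q r : V} {m1 m2 : List V}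
    (h1 : (p :: q :: m1).Nodup) (h2 : (p :: q :: r :: m2).Nodup) (hP : ext2s_pth p m1 q ⊆ A)
    (hn : ∀ v ∈ r :: m2, v ∉ supp A) :
    Circ ((A \ ext2s_pth p m1 q) ∪ ext2s_pth p (r :: m2) q) := by
  have d1 := ext2s_deg h1
  have d2 := ext2s_deg h2
  have d3 := deg_sdiff hP
  have d4 := hA.2.2.1
  have d5 : ∀ v ∈ r :: m2, deg A v = 0 := fun v hv => by
    by_contra k
    exact hn v hv (mem_supp_iff_deg.2 k)
  have n1 : ∀ v, v = p ∨ v = q → v ∉ m1 ∧ v ∉ r :: m2 := by
    rw [List.nodup_cons, List.nodup_cons] at h1 h2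
    rintro v (rfl | rfl)
    · exact ⟨fun k => h1.1 (List.mem_cons_of_mem _ k), fun k => h2.1 (List.mem_cons_of_mem _ k)⟩
    · exact ⟨h1.2.1, h2.2.1⟩
  refine reroute hA hP ?_ ⟨_, mem_insert_self _ _⟩ (ext2s_noLoop h2)
    (fun a ha b hb => (ext2s_link a ha).symm.trans (ext2s_link b hb)) ?_ ?_ ?_ ?_
  · cases m1
    · exact ⟨_, mem_singleton_self _⟩
    · exact ⟨_, mem_insert_self _ _⟩
  · rw [disjoint_left]
    intro e he hq
    have he' := (mem_sdiff.1 he).1
    rcases mem_insert.1 hq with rfl | hq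
    · exact hn r (by simp) (mem_supp.2 ⟨_, he', by simp⟩)
    · obtain ⟨v, hv, hv'⟩ := (ext2s_mem hq).2
      exact hn v hv (mem_supp.2 ⟨_, he', hv'⟩)
  · intro v
    rw [d1, d2]
    by_cases e : v = p ∨ v = q
    · rw [if_neg (n1 v e).1, if_neg (n1 v e).2, if_pos e]; decide
    · rw [if_neg e]; split_ifs <;> decide
  · intro v
    have a1 := d1 v
    have a2 := d2 v
    have a3 := d3 v
    have a4 := d4 v
    by_cases e : v = p ∨ v = q
    · rw [if_neg (n1 v e).2, if_pos e] at a2; omega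
    · rw [if_neg e] at a2
      by_cases k : v ∈ r :: m2
      · have := d5 v k
        rw [if_pos k] at a2; omega
      · rw [if_neg k] at a2; omega
  · intro v hv
    have a0 := mem_supp_iff_deg.1 hv
    have a1 := d1 v
    have a2 := d2 v
    have a3 := d3 v
    have a4 := d4 v
    by_cases e : v = p ∨ v = q
    · rw [if_neg (n1 v e).2, if_pos e] at a2
      exact Or.inl (mem_supp_iff_deg.2 (by omega))
    · refine Or.inr fun k => ?_
      have := mem_supp_iff_deg.1 k
      rw [if_neg e] at a1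
      split_ifs at a1 <;> omega

omit [Fintype V] in
theorem ext2s_cnt {F : Finset (Finset (Sym2 V))} {a c b d Qa Qc Qb Qd : Finset (Sym2 V)}
    (ha : a ∈ F) (hc : c ∈ F) (hb : b ∈ F) (hd : d ∈ F) (ac : a ≠ c) (ab : a ≠ b) (ad : a ≠ d)
    (cb : c ≠ b) (cd : c ≠ d) (e : Sym2 V) (h : ¬ (e ∈ Qb ∧ e ∈ Qd)) :
    (F.filter fun A => e ∈ (if A = a then Qa else if A = c then Qc else
      (if A = b then Qb else ∅) ∪ if A = d then Qd else ∅)).card =
      (if e ∈ Qa then 1 else 0) + (if e ∈ Qc then 1 else 0) + (if e ∈ Qb then 1 else 0) +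
        if e ∈ Qd then 1 else 0 := by
  have k : ∀ (x : Finset (Sym2 V)) (n : ℕ), x ∈ F → n = ∑ A ∈ F, if A = x then n else 0 :=
    fun x n hx => by simp [hx]
  rw [card_filter, k a (if e ∈ Qa then 1 else 0) ha, k c (if e ∈ Qc then 1 else 0) hc,
    k b (if e ∈ Qb then 1 else 0) hb, k d (if e ∈ Qd then 1 else 0) hd, ← sum_add_distrib,
    ← sum_add_distrib, ← sum_add_distrib]
  refine sum_congr rfl fun A _ => ?_
  by_cases e1 : A = a
  · subst e1; simp [ac, ab, ad]
  by_cases e2 : A = c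
  · subst e2; simp [e1, cb, cd]
  by_cases e3 : A = b <;> by_cases e4 : A = d
  · rw [if_neg e1, if_neg e1, if_neg e2, if_neg e2, if_pos e3, if_pos e3, if_pos e4, if_pos e4]
    by_cases k1 : e ∈ Qb <;> by_cases k2 : e ∈ Qd <;> simp_all
  · subst e3; simp [e1, e2, e4]
  · subst e4; simp [e1, e2, e3]
  · simp [e1, e2, e3, e4]

theorem ext2s {E : Finset (Sym2 V)} (hE : Cubic E) {w w' x x' u u' y y' z z' t t' : V}
    (hL : LadX E w w' x x' u u' y y' z z' t t') (hz : z ≠ z') (ht : t ≠ t')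
    {F : Finset (Finset (Sym2 V))} (hF : FCDC (red2 E w w' x x' u u' y y' z' t') F)
    {a : Finset (Sym2 V)} (ha : a ∈ F) (h1 : s(w, z) ∈ a) (h2 : s(w, y) ∈ a) (h3 : s(y, t) ∈ a) :
    ∃ M, MCDC E M ∧ M.card ≤ F.card + 2 := by
  obtain ⟨hE', hs, -⟩ := red2a hE hL hz ht
  obtain ⟨hD, hN⟩ := red2_diff hE hL hz ht
  generalize red2 E w w' x x' u u' y y' z' t' = E' at hF hE' hs hD hN
  obtain ⟨⟨hnd, -⟩, -, -, -, -, ho⟩ := hL
  simp only [List.mem_cons, List.not_mem_nil, or_false, forall_eq_or_imp, forall_eq] at ho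
  obtain ⟨⟨o1, o2, o3, o4⟩, ⟨-, o5, -, o6⟩, ⟨-, o7, -, o8⟩, ⟨-, o9, -, o10⟩, ⟨-, o11, -, o12⟩,
    ⟨-, o13, -, o14⟩, ⟨o15, o16, o17, o18⟩, -, o19, -, o20⟩ := ho
  simp only [List.nodup_cons, List.mem_cons, List.not_mem_nil, or_false, not_or] at hnd
  obtain ⟨⟨n1, n2, n3, n4, n5, n6, n7⟩, ⟨n8, n9, n10, n11, n12, n13⟩, ⟨n14, n15, n16, n17, n18⟩,
    ⟨n19, n20, n21, n22⟩, ⟨n23, n24, n25⟩, ⟨n26, n27⟩, n28, -⟩ := hnd
  have m1 := Ne.symm n1
  have m2 := Ne.symm n2
  have m3 := Ne.symm n3
  have m4 := Ne.symm n4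
  have m5 := Ne.symm n5
  have m6 := Ne.symm n6
  have m7 := Ne.symm n7
  have m8 := Ne.symm n8
  have m9 := Ne.symm n9
  have m10 := Ne.symm n10
  have m11 := Ne.symm n11
  have m12 := Ne.symm n12
  have m13 := Ne.symm n13
  have m14 := Ne.symm n14
  have m15 := Ne.symm n15
  have m16 := Ne.symm n16
  have m17 := Ne.symm n17
  have m18 := Ne.symm n18
  have m19 := Ne.symm n19
  have m20 := Ne.symm n20
  have m21 := Ne.symm n21
  have m22 := Ne.symm n22
  have m23 := Ne.symm n23
  have m24 := Ne.symm n24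
  have m25 := Ne.symm n25
  have m26 := Ne.symm n26
  have m27 := Ne.symm n27
  have m28 := Ne.symm n28
  have l2 := Ne.symm o2
  have l4 := Ne.symm o4
  have l5 := Ne.symm o5
  have l6 := Ne.symm o6
  have l7 := Ne.symm o7
  have l8 := Ne.symm o8
  have l9 := Ne.symm o9
  have l10 := Ne.symm o10
  have l11 := Ne.symm o11
  have l12 := Ne.symm o12
  have l13 := Ne.symm o13
  have l14 := Ne.symm o14
  have l16 := Ne.symm o16
  have l18 := Ne.symm o18
  have l19 := Ne.symm o19
  have l20 := Ne.symm o20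
  have sub : ∀ A ∈ F, A ⊆ E' := fun A hA => hF.subset hA
  have new : ∀ e, e = s(w, z') ∨ e = s(w, y) ∨ e = s(y, t') → e ∈ E' ∧ e ∉ E := fun e he =>
    mem_sdiff.1 (by rw [hN]; simpa using he)
  have e1 := (new _ (Or.inl rfl)).1
  have e2 := (new _ (Or.inr (Or.inl rfl))).1
  have e3 := (new _ (Or.inr (Or.inr rfl))).1
  have e4 := sub a ha h1
  have e5 := sub a ha h3
  have e2' : s(y, w) ∈ E' := by rwa [Sym2.eq_swap]
  have out : ∀ A ∈ F, ∀ v ∈ [w', x, x', u, u', y'], v ∉ supp A := by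
    intro A hA v hv k
    obtain ⟨e, he, hv'⟩ := mem_supp.1 k
    have := mem_supp.2 ⟨e, sub A hA he, hv'⟩
    rw [hs] at this
    exact (mem_sdiff.1 this).2 (by simpa using hv)
  have cap : ∀ A ∈ F, ∀ e, e ∈ A ∩ E ↔ e ∈ A ∧ e ≠ s(w, z') ∧ e ≠ s(w, y) ∧ e ≠ s(y, t') := by
    intro A hA e
    rw [mem_inter]
    refine and_congr_right fun he => ⟨fun k => ⟨fun j => (new e (Or.inl j)).2 k,
      fun j => (new e (Or.inr (Or.inl j))).2 k, fun j => (new e (Or.inr (Or.inr j))).2 k⟩,
      fun k => ?_⟩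
    by_contra j
    have : e ∈ E' \ E := mem_sdiff.2 ⟨sub A hA he, j⟩
    rw [hN] at this
    simp [k.1, k.2.1, k.2.2] at this
  have a1 : s(w, z') ∉ a := by
    rcases circ_two hE' (hF.1 a ha) (sub a ha) e4 e2 e1 o15 hz (Ne.symm o16) h1 with k | k
    · exact k.2
    · exact absurd h2 k.2
  have a2 : s(y, t') ∉ a := by
    rcases circ_two hE' (hF.1 a ha) (sub a ha) e5 e2' e3 o3 ht (Ne.symm o4) h3 with k | k
    · exact k.2
    · exact absurd (by rwa [Sym2.eq_swap]) k.2
  obtain ⟨c, hc, ca, c2, cu⟩ := hF.other ha h2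
  have c1 : s(w, z') ∈ c := by
    rcases circ_two hE' (hF.1 c hc) (sub c hc) e2 e4 e1 (Ne.symm o15) (Ne.symm o16) hz c2 with k | k
    · exact absurd ((loc hE' hF e4 e2 o15).unique ⟨hc, k.1, c2⟩ ⟨ha, h1, h2⟩) ca
    · exact k.1
  have c3 : s(y, t') ∈ c := by
    have c2' : s(y, w) ∈ c := by rwa [Sym2.eq_swap]
    rcases circ_two hE' (hF.1 c hc) (sub c hc) e2' e5 e3 (Ne.symm o3) (Ne.symm o4) ht c2' with k | k
    · exact absurd ((loc hE' hF e5 e2' o3).unique ⟨hc, k.1, c2'⟩
        ⟨ha, h3, by rwa [Sym2.eq_swap]⟩) ca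
    · exact k.1
  obtain ⟨b, hb, bc, b1, bu⟩ := hF.other hc c1
  obtain ⟨d, hd, dc, d3, du⟩ := hF.other hc c3
  have ab : a ≠ b := fun k => a1 (k ▸ b1)
  have ad : a ≠ d := fun k => a2 (k ▸ d3)
  have sq : Circ ({s(w, w'), s(w', x'), s(x', x), s(x, w)} : Finset (Sym2 V)) :=
    square_circ (by simp [n1, n2, n3, n8, n9, m14])
  have sqE : ({s(w, w'), s(w', x'), s(x', x), s(x, w)} : Finset (Sym2 V)) ⊆ E \ E' := by
    rw [hD]; simp [insert_subset_iff]
  have qa : ext2s_pth w [x, u, u', y'] y ⊆ E \ E' := by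
    rw [hD]; simp [ext2s_pth, insert_subset_iff]
  have qc1 : ext2s_pth y [y'] t' ⊆ E \ E' := by
    rw [hD]; simp [ext2s_pth, insert_subset_iff]
  have qc2 : ext2s_pth z' [w', x', u', u] y ⊆ E \ E' := by
    rw [hD]; simp [ext2s_pth, insert_subset_iff]
  have qb : ext2s_pth w [w'] z' ⊆ E \ E' := by
    rw [hD]; simp [ext2s_pth, insert_subset_iff]
  have qd : ext2s_pth y [u, x, x', u', y'] t' ⊆ E \ E' := by
    rw [hD]; simp [ext2s_pth, insert_subset_iff]
  have out2 : ∀ {A P : Finset (Sym2 V)} {p q : V} {m : List V} {v : V}, v ∉ supp A → v ≠ p →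
      v ∉ m → v ≠ q → v ∉ supp ((A \ P) ∪ ext2s_pth p m q) := by
    intro A P p q m v k1 k2 k3 k4 k
    obtain ⟨e, he, hv⟩ := mem_supp.1 k
    rcases mem_union.1 he with he | he
    · exact k1 (mem_supp.2 ⟨e, (mem_sdiff.1 he).1, hv⟩)
    · rcases (ext2s_mem he).1 v hv with j | j | j <;> contradiction
  refine Exists.imp (fun M hM => ⟨hM.1, by rw [hM.2, Multiset.card_singleton]; omega⟩)
    (repl (E := E) hF
    (fun A => if A = a then ext2s_pth w [x, u, u', y'] y else
      if A = c then ext2s_pth y [y'] t' ∪ ext2s_pth z' [w', x', u', u] y else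
      (if A = b then ext2s_pth w [w'] z' else ∅) ∪
        if A = d then ext2s_pth y [u, x, x', u', y'] t' else ∅)
    {({s(w, w'), s(w', x'), s(x', x), s(x, w)} : Finset (Sym2 V))} ?_ ?_ ?_ ?_ ?_)
  · intro A _
    split_ifs <;> simp only [union_subset_iff, empty_subset, qa, qb, qc1, qc2, qd, and_self]
  · intro C hC
    obtain rfl := Multiset.mem_singleton.1 hC
    exact ⟨sq, sqE.trans sdiff_subset⟩
  · intro A hA
    have hA' := hF.1 A hA
    have oA := out A hA
    simp only [List.mem_cons, List.not_mem_nil, or_false, forall_eq_or_imp, forall_eq] at oA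
    obtain ⟨p1, p2, p3, p4, p5, p6⟩ := oA
    have cA := cap A hA
    by_cases k1 : A = a
    · subst k1
      rw [if_pos rfl]
      have := ext2s_rer hA' (p := w) (q := y) (r := x) (m1 := []) (m2 := [u, u', y'])
        (by simp [n6]) (by simp [n2, n4, n5, n6, n7, m17, m24, m26, n28, n15, n16, n18, n23, n25, n27])
        (by simpa [ext2s_pth] using h2) (by simp [p2, p4, p5, p6])
      convert this using 2
      ext e
      rw [cA, mem_sdiff, ext2s_pth, mem_singleton]
      exact and_congr_right fun he => ⟨fun k => k.2.1,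
        fun k => ⟨fun j => a1 (j ▸ he), k, fun j => a2 (j ▸ he)⟩⟩
    rw [if_neg k1]
    by_cases k2 : A = c
    · subst k2
      rw [if_pos rfl]
      have s1 := ext2s_rer hA' (p := y) (q := t') (r := y') (m1 := []) (m2 := [])
        (by simp [Ne.symm o18]) (by simp [n28, Ne.symm o18, o20])
        (by simpa [ext2s_pth] using c3) (by simp [p6])
      have s2 := ext2s_rer s1 (p := z') (q := y) (r := w') (m1 := [w]) (m2 := [x', u', u])
        (by simp [o2, o16, Ne.symm n6])
        (by simp [o16, o5, o9, o13, o11, m12, m21, m26, m24, n9, n11, n10, n20, n19, m23])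
        (by
          have c1' : s(z', w) ∈ A := by rwa [Sym2.eq_swap]
          simp [ext2s_pth, insert_subset_iff, c1', c2, o16, n6, m6, o2, o4, l4, l2, l16])
        (by
          simp only [List.mem_cons, List.not_mem_nil, or_false, forall_eq_or_imp, forall_eq]
          exact ⟨out2 p1 n12 (by simp [n13]) (Ne.symm o6), out2 p3 n21 (by simp [n22]) (Ne.symm o10),
            out2 p5 n26 (by simp [n27]) (Ne.symm o14), out2 p4 n24 (by simp [n25]) (Ne.symm o12)⟩)
      rw [← union_assoc]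
      convert s2 using 2
      ext e
      have q := fun k : e ∈ ext2s_pth y [y'] t' => (mem_sdiff.1 (qc1 k)).2
      rw [mem_union, cA, mem_sdiff, mem_union, mem_sdiff]
      have r1 : e ∈ ext2s_pth z' [w] y ↔ e = s(w, z') ∨ e = s(w, y) := by
        rw [ext2s_pth, ext2s_pth, mem_insert, mem_singleton, Sym2.eq_swap]
      have r2 : e ∈ ext2s_pth y [] t' ↔ e = s(y, t') := mem_singleton
      have r3 : e = s(w, z') → e ∈ E' := fun k => k ▸ e1
      have r4 : e = s(w, y) → e ∈ E' := fun k => k ▸ e2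
      rw [r1, r2]
      constructor
      · rintro (⟨k, k1, k2, k3⟩ | k)
        · exact ⟨Or.inl ⟨k, k3⟩, fun j => j.elim k1 k2⟩
        · exact ⟨Or.inr k, fun j => q k (j.elim r3 r4)⟩
      · rintro ⟨⟨k, k3⟩ | k, j⟩
        · exact Or.inl ⟨k, fun i => j (Or.inl i), fun i => j (Or.inr i), k3⟩
        · exact Or.inr k
    rw [if_neg k2]
    have w0 : s(w, y) ∉ A := fun k => (cu A hA k).elim k1 k2
    have w1 : A ≠ b → s(w, z') ∉ A := fun j k => (bu A hA k).elim k2 j
    have w2 : A ≠ d → s(y, t') ∉ A := fun j k => (du A hA k).elim k2 j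
    have sb : A = b → Circ ((A \ ext2s_pth w [] z') ∪ ext2s_pth w [w'] z') := fun k =>
      ext2s_rer hA' (by simp [Ne.symm o2]) (by simp [n1, Ne.symm o2, o5])
        (by simpa [ext2s_pth] using k ▸ b1) (by simp [p1])
    have r1 : ∀ e, e ∈ ext2s_pth w [] z' ↔ e = s(w, z') := fun _ => mem_singleton
    have r2 : ∀ e, e ∈ ext2s_pth y [] t' ↔ e = s(y, t') := fun _ => mem_singleton
    have nd : (y :: t' :: u :: [x, x', u', y']).Nodup := by
      simp [l18, m24, m17, m21, m26, n28, o12, o8, o10, o14, o20, m15, m19, n23, n25, n14, n16, n18,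
        n20, n22, n27]
    by_cases k3 : A = b <;> by_cases k4 : A = d
    · rw [if_pos k3, if_pos k4]
      have s2 := ext2s_rer (sb k3) (p := y) (q := t') (r := u) (m1 := []) (m2 := [x, x', u', y'])
        (by simp [Ne.symm o18]) nd
        (by
          have : s(y, t') ∈ A := k4 ▸ d3
          simp [ext2s_pth, this, Ne.symm n6, Ne.symm o16, o4])
        (by
          simp only [List.mem_cons, List.not_mem_nil, or_false, forall_eq_or_imp, forall_eq]
          exact ⟨out2 p4 (Ne.symm n4) (by simp [Ne.symm n10]) (Ne.symm o11),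
            out2 p2 (Ne.symm n2) (by simp [Ne.symm n8]) (Ne.symm o7),
            out2 p3 (Ne.symm n3) (by simp [Ne.symm n9]) (Ne.symm o9),
            out2 p5 (Ne.symm n5) (by simp [Ne.symm n11]) (Ne.symm o13),
            out2 p6 (Ne.symm n7) (by simp [Ne.symm n13]) (Ne.symm o19)⟩)
      rw [← union_assoc]
      convert s2 using 2
      ext e
      have q := fun k : e ∈ ext2s_pth w [w'] z' => (mem_sdiff.1 (qb k)).2
      have r3 : e = s(y, t') → e ∈ E' := fun k => k ▸ e3
      have r4 : e ∈ A → e ≠ s(w, y) := fun k j => w0 (j ▸ k)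
      rw [mem_union, cA, mem_sdiff, mem_union, mem_sdiff, r1, r2]
      constructor
      · rintro (⟨k, k1, -, k3⟩ | k)
        · exact ⟨Or.inl ⟨k, k1⟩, k3⟩
        · exact ⟨Or.inr k, fun j => q k (r3 j)⟩
      · rintro ⟨⟨k, k1⟩ | k, j⟩
        · exact Or.inl ⟨k, k1, r4 k, j⟩
        · exact Or.inr k
    · rw [if_pos k3, if_neg k4, union_empty]
      convert sb k3 using 2
      ext e
      rw [cA, mem_sdiff, r1]
      exact and_congr_right fun he => ⟨fun k => k.1,
        fun k => ⟨k, fun j => w0 (j ▸ he), fun j => w2 k4 (j ▸ he)⟩⟩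
    · rw [if_neg k3, if_pos k4, empty_union]
      have := ext2s_rer hA' (p := y) (q := t') (r := u) (m1 := []) (m2 := [x, x', u', y'])
        (by simp [Ne.symm o18]) nd (by simpa [ext2s_pth] using k4 ▸ d3)
        (by simp [p2, p3, p4, p5, p6])
      convert this using 2
      ext e
      rw [cA, mem_sdiff, r2]
      exact and_congr_right fun he => ⟨fun k => k.2.2,
        fun k => ⟨fun j => w1 k3 (j ▸ he), fun j => w0 (j ▸ he), k⟩⟩
    · rw [if_neg k3, if_neg k4, union_empty, union_empty]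
      convert hA' using 1
      ext e
      rw [cA]
      exact ⟨fun k => k.1, fun he => ⟨he, fun j => w1 k3 (j ▸ he), fun j => w0 (j ▸ he),
        fun j => w2 k4 (j ▸ he)⟩⟩
  · intro e _ he C hC k
    obtain rfl := Multiset.mem_singleton.1 hC
    exact (mem_sdiff.1 (sqE k)).2 he
  · intro e he he'
    have hm : e ∈ E \ E' := mem_sdiff.2 ⟨he, he'⟩
    rw [hD] at hm
    rw [ext2s_cnt ha hc hb hd (Ne.symm ca) ab ad (Ne.symm bc) (Ne.symm dc) e ?_,
      ← Multiset.cons_zero, Multiset.countP_cons, Multiset.countP_zero]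
    all_goals
      simp only [mem_insert, mem_singleton] at hm
      rcases hm with rfl | rfl | rfl | rfl | rfl | rfl | rfl | rfl | rfl | rfl | rfl | rfl <;>
        simp only [
          ext2s_pth, mem_insert, mem_singleton, mem_union, Sym2.eq_iff, n1, n2, n3, n4, n5, n6,
          n7, n8, n9, n10, n11, n12, n13, n14, n15, n16, n17, n18, n19, n20, n21, n22, n23,
          n24, n25, n26, n27, n28, m1, m2, m3, m4, m5, m6, m7, m8, m9, m10, m11, m12, m13, m14,
          m15, m16, m17, m18, m19, m20, m21, m22, m23, m24, m25, m26, m27, m28, o2, o4, o5, o6,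
          o7, o8, o9, o10, o11, o12, o13, o14, o16, o18, o19, o20, l2, l4, l5, l6, l7, l8, l9,
          l10, l11, l12, l13, l14, l16, l18, l19, l20, and_false, false_and, or_false,
          false_or, and_true, true_and, or_true, true_or, if_true, if_false, and_self, or_self,
          not_false_eq_true]

end Pool.Agent.CDC36
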