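import Pool.Agent.Lib.MP_32fd1f_co.Red2a
import Pool.Agent.Lib.MP_32fd1f_co.Loc
import Pool.Agent.Lib.MP_32fd1f_co.Reroute
import Pool.Agent.Lib.MP_32fd1f_co.Repl

set_option autoImplicit false

namespace Pool.Agent.CDC36

open Finset

variable {V : Type} [Fintype V] [DecidableEq V]

theorem ext2t_ins {X : Finset (Sym2 V)} {e : Sym2 V} (h : e ∉ X) (v : V) :
    deg (insert e X) v = deg X v + if v ∈ e then 1 else 0 := by
  unfold deg
  rw [filter_insert]
  split_ifs with k
  · exact card_insert_of_notMem fun q => h (mem_filter.1 q).1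
  · rfl

theorem ext2t_deg (b : V) (l : List V) : ∀ a : V, (a :: (l ++ [b])).Nodup → ∀ v,
    deg (pathE (a :: (l ++ [b]))) v =
      (if v = a then 1 else 0) + (if v = b then 1 else 0) + if v ∈ l then 2 else 0 := by
  induction l with
  | nil =>
    intro a h v
    have ab : a ≠ b := by simpa using h
    change deg (insert s(a, b) ∅) v = _
    rw [ext2t_ins (notMem_empty _)]
    by_cases p : v = a <;> by_cases q : v = b <;> simp_all [deg]
  | cons c l ih =>
    intro a h v
    have h1 := List.nodup_cons.1 h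
    have h2 := List.nodup_cons.1 h1.2
    change deg (insert s(a, c) (pathE (c :: (l ++ [b])))) v = _
    have nm : s(a, c) ∉ pathE (c :: (l ++ [b])) := fun q =>
      h1.1 (pathE_supp _ a (mem_supp.2 ⟨_, q, Sym2.mem_mk_left _ _⟩))
    rw [ext2t_ins nm, ih c h1.2]
    have ac : a ≠ c := fun q => h1.1 (by simp [q])
    have cl : c ∉ l := fun q => h2.1 (by simp [q])
    by_cases q : v = c
    · subst q
      simp [ac.symm, cl]
      omega
    · by_cases p : v = a <;> simp [p, q, ac]
      omega

theorem ext2t_loop (l : List V) : ∀ a : V, (a :: l).Nodup → NoLoop (pathE (a :: l)) := by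
  induction l with
  | nil => intro a _ e he; exact absurd he (notMem_empty _)
  | cons c l ih =>
    intro a h e he
    have h1 := List.nodup_cons.1 h
    rcases mem_insert.1 he with rfl | he
    · rw [Sym2.mk_isDiag_iff]
      exact fun q => h1.1 (by simp [q])
    · exact ih c h1.2 e he

theorem ext2t_in (b : V) (l : List V) : ∀ a c : V, ∀ e ∈ pathE (a :: (c :: l ++ [b])),
    ∃ v ∈ c :: l, v ∈ e := by
  induction l with
  | nil =>
    intro a c e he
    refine ⟨c, by simp, ?_⟩
    simp only [List.cons_append, List.nil_append, pathE, mem_insert, notMem_empty, or_false] at he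
    rcases he with rfl | rfl <;> simp
  | cons d l ih =>
    intro a c e he
    rcases mem_insert.1 he with rfl | he
    · exact ⟨c, by simp, by simp⟩
    · obtain ⟨v, v1, v2⟩ := ih c d e he
      exact ⟨v, List.mem_cons_of_mem _ v1, v2⟩

theorem ext2t_ne (a b : V) (l : List V) : (pathE (a :: (l ++ [b]))).Nonempty := by
  cases l <;> exact insert_nonempty _ _

theorem ext2t_rr {A : Finset (Sym2 V)} (hA : Circ A) (a b c : V) (p q : List V)
    (hp : (a :: (p ++ [b])).Nodup) (hq : (a :: (c :: q ++ [b])).Nodup)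
    (hP : pathE (a :: (p ++ [b])) ⊆ A) (h : ∀ v ∈ c :: q, v ∉ supp A ∨ v ∈ p) :
    Circ ((A \ pathE (a :: (p ++ [b]))) ∪ pathE (a :: (c :: q ++ [b]))) := by
  have d1 := ext2t_deg b p a hp
  have d2 := ext2t_deg b (c :: q) a hq
  have d3 := deg_sdiff hP
  have d4 := hA.2.2.1
  have d5 : ∀ v ∈ c :: q, deg (A \ pathE (a :: (p ++ [b]))) v = 0 := fun v hv => by
    have := d1 v
    have := d3 v
    have := d4 v
    rcases h v hv with k | k
    · rw [mem_supp_iff_deg] at k
      omega
    · rw [if_pos k] at *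
      omega
  have n1 := List.nodup_cons.1 hq
  have n2 := List.nodup_append.1 n1.2
  refine reroute hA hP (ext2t_ne _ _ _) (ext2t_ne _ _ _) (ext2t_loop _ _ hq) (pathE_conn _)
    (disjoint_left.2 fun e he k => ?_) (fun v => ?_) (fun v => ?_) fun v hv => ?_
  · obtain ⟨v, v1, v2⟩ := ext2t_in b q a c e k
    exact mem_supp_iff_deg.1 (mem_supp.2 ⟨e, he, v2⟩) (d5 v v1)
  · rw [d1, d2, Nat.even_iff]
    split_ifs <;> rfl
  · have := d1 v
    have := d3 v
    have := d4 v
    rw [d2]
    by_cases k : v ∈ c :: q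
    · rw [d5 v k, if_pos k, if_neg fun r : v = a => n1.1 (r ▸ List.mem_append_left _ k),
        if_neg (n2.2.2 v k b (by simp))]
      omega
    · rw [if_neg k]
      omega
  · rw [mem_supp_iff_deg] at hv
    rw [mem_supp_iff_deg, mem_supp_iff_deg]
    have := d1 v
    have := d2 v
    have := d3 v
    have := d4 v
    split_ifs at * <;> omega

theorem ext2t_cnt {F : Finset (Finset (Sym2 V))} {a c b d : Finset (Sym2 V)} (ha : a ∈ F)
    (hc : c ∈ F) (hb : b ∈ F) (hd : d ∈ F) (ac : a ≠ c) (ab : a ≠ b) (ad : a ≠ d) (cb : c ≠ b)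
    (cd : c ≠ d) (Qa Qc Qb Qd : Finset (Sym2 V)) (e : Sym2 V) (h : e ∈ Qb → e ∉ Qd) :
    (F.filter fun A => e ∈ (if A = a then Qa else ∅) ∪ (if A = c then Qc else ∅) ∪
      (if A = b then Qb else ∅) ∪ (if A = d then Qd else ∅)).card =
    (if e ∈ Qa then 1 else 0) + (if e ∈ Qc then 1 else 0) + (if e ∈ Qb then 1 else 0) +
      if e ∈ Qd then 1 else 0 := by
  rw [card_filter, ← (sum_ite_eq' F a fun _ => if e ∈ Qa then 1 else 0).trans (if_pos ha),
    ← (sum_ite_eq' F c fun _ => if e ∈ Qc then 1 else 0).trans (if_pos hc),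
    ← (sum_ite_eq' F b fun _ => if e ∈ Qb then 1 else 0).trans (if_pos hb),
    ← (sum_ite_eq' F d fun _ => if e ∈ Qd then 1 else 0).trans (if_pos hd),
    ← sum_add_distrib, ← sum_add_distrib, ← sum_add_distrib]
  refine sum_congr rfl fun A _ => ?_
  by_cases p : A = a
  · simp [p, ac, ab, ad]
  by_cases q : A = c
  · simp [q, ac.symm, cb, cd]
  by_cases r : A = b <;> by_cases s : A = d
  · rw [if_neg p, if_neg q, if_pos r, if_pos s, if_neg p, if_neg q, if_pos r, if_pos s]
    by_cases k : e ∈ Qb
    · simp [k, h k]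
    · simp [k]
  · rw [if_neg p, if_neg q, if_pos r, if_neg s, if_neg p, if_neg q, if_pos r, if_neg s]
    simp
  · rw [if_neg p, if_neg q, if_neg r, if_pos s, if_neg p, if_neg q, if_neg r, if_pos s]
    simp
  · simp [p, q, r, s]

theorem ext2t_two {E : Finset (Sym2 V)} {F : Finset (Finset (Sym2 V))} (hF : FCDC E F)
    {a c : Finset (Sym2 V)} (ha : a ∈ F) (hc : c ∈ F) (ac : a ≠ c) {e : Sym2 V} (h1 : e ∈ a)
    (h2 : e ∈ c) : ∀ B ∈ F, e ∈ B → B = a ∨ B = c := by
  obtain ⟨A, -, -, -, k⟩ := hF.other ha h1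
  rwa [← (k c hc h2).resolve_left ac.symm] at k

theorem ext2t {E : Finset (Sym2 V)} (hE : Cubic E) {w w' x x' u u' y y' z z' t t' : V}
    (hL : LadX E w w' x x' u u' y y' z z' t t') (hz : z ≠ z') (ht : t ≠ t')
    {F : Finset (Finset (Sym2 V))} (hF : FCDC (red2 E w w' x x' u u' y y' z' t') F)
    {a : Finset (Sym2 V)} (ha : a ∈ F) (h1 : s(w, z) ∈ a) (h2 : s(w, y) ∈ a) (h3 : s(y, t') ∈ a) :
    ∃ M, MCDC E M ∧ M.card ≤ F.card + 2 := by
  obtain ⟨hC, hs, -⟩ := red2a hE hL hz ht
  obtain ⟨D1, D2⟩ := red2_diff hE hL hz ht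
  obtain ⟨⟨hn, -⟩, -, -, f3, -, ho⟩ := hL
  have hr := List.nodup_reverse.2 hn
  have ho' : ∀ v ∈ [w, w', x, x', u, u', y, y'], v ≠ z ∧ v ≠ z' ∧ v ≠ t ∧ v ≠ t' := fun v hv =>
    ⟨(ho v hv).1.symm, (ho v hv).2.1.symm, (ho v hv).2.2.1.symm, (ho v hv).2.2.2.symm⟩
  simp only [List.reverse_cons, List.reverse_nil, List.nil_append, List.cons_append,
    List.nodup_cons, List.mem_cons, List.not_mem_nil, or_false, not_or, List.nodup_nil, and_true,
    not_false_eq_true, forall_eq_or_imp, forall_eq, ne_eq] at hn hr ho ho'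
  have m5 : s(y, t) ∈ red2 E w w' x x' u u' y y' z' t' :=
    mem_union_left _ (mem_filter.2 ⟨f3, by simp [hn, hr, ho, ho']⟩)
  generalize red2 E w w' x x' u u' y y' z' t' = E' at *
  have m1 : s(w, z') ∈ E' := (mem_sdiff.1 (by rw [D2]; simp : _ ∈ E' \ E)).1
  have m2 : s(w, y) ∈ E' := hF.subset ha h2
  have m3 : s(y, t') ∈ E' := hF.subset ha h3
  have m4 : s(w, z) ∈ E' := hF.subset ha h1
  obtain ⟨c, ⟨hc, c1, c2⟩, -⟩ := loc hC hF m1 m2 (by simp [ho])
  obtain ⟨b, ⟨hb, b1, b2⟩, -⟩ := loc hC hF m4 m1 hz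
  obtain ⟨d, ⟨hd, d1, d2⟩, -⟩ := loc hC hF m5 m3 ht
  have a0 : s(w, z') ∉ a := fun k => by
    have := circ_two hC (hF.1 a ha) (hF.subset ha) m4 m2 m1 (by simp [ho]) hz (by simp [ho']) h1
    simp [Xor', Xor, h2, k] at this
  have b0 : s(w, y) ∉ b := fun k => by
    have := circ_two hC (hF.1 b hb) (hF.subset hb) m4 m2 m1 (by simp [ho]) hz (by simp [ho']) b1
    simp [Xor', Xor, b2, k] at this
  have d0 : s(w, y) ∉ d := fun k => by
    rw [Sym2.eq_swap] at k m2
    have := circ_two hC (hF.1 d hd) (hF.subset hd) m5 m2 m3 (by simp [ho]) ht (by simp [ho']) d1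
    simp [Xor', Xor, d2, k] at this
  have ac : a ≠ c := fun k => a0 (k ▸ c1)
  have ab : a ≠ b := fun k => a0 (k ▸ b2)
  have ad : a ≠ d := fun k => d0 (k ▸ h2)
  have cb : c ≠ b := fun k => b0 (k ▸ c2)
  have cd : c ≠ d := fun k => d0 (k ▸ c2)
  have o1 := ext2t_two hF hc hb cb c1 b2
  have o2 := ext2t_two hF ha hc ac h2 c2
  have o3 := ext2t_two hF ha hd ad h3 d2
  have key : ∀ A ∈ F, ∀ e, e ∈ A ∩ E ↔ e ∈ A ∧ e ≠ s(w, z') ∧ e ≠ s(w, y) ∧ e ≠ s(y, t') := by
    intro A hA e
    have k := Finset.ext_iff.1 D2 e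
    simp only [mem_sdiff, mem_insert, mem_singleton] at k
    have : e ∈ A → e ∈ E' := fun q => hF.subset hA q
    rw [mem_inter]
    clear hn hr ho ho'
    tauto
  have fr : ∀ A ∈ F, ∀ v, v = w' ∨ v = x ∨ v = x' ∨ v = u ∨ v = u' ∨ v = y' → v ∉ supp A := by
    intro A hA v hv k
    obtain ⟨e, e1, e2⟩ := mem_supp.1 k
    have : v ∈ supp E' := mem_supp.2 ⟨e, hF.subset hA e1, e2⟩
    rw [hs] at this
    exact (mem_sdiff.1 this).2 (by simpa using hv)
  have q1 : pathE [w, x, u, y, y', t'] ⊆ E \ E' := by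
    rw [D1]; simp [pathE, insert_subset_iff]
  have q2 : pathE [z', w', x', u', y', y] ⊆ E \ E' := by
    rw [D1]; simp [pathE, insert_subset_iff]
  have q3 : pathE [w, w', z'] ⊆ E \ E' := by
    rw [D1]; simp [pathE, insert_subset_iff]
  have q4 : pathE [y, u, u', y', t'] ⊆ E \ E' := by
    rw [D1]; simp [pathE, insert_subset_iff]
  have q5 : ({s(w, w'), s(w', x'), s(x', x), s(x, w)} : Finset (Sym2 V)) ⊆ E \ E' := by
    rw [D1]; simp [insert_subset_iff]
  have q6 : ({s(x, x'), s(x', u'), s(u', u), s(u, x)} : Finset (Sym2 V)) ⊆ E \ E' := by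
    rw [D1]; simp [insert_subset_iff]
  have r3 := ext2t_rr (hF.1 b hb) w z' w' [] [] (by simp [ho']) (by simp [hn, ho'])
    (by simpa [pathE] using b2) fun v hv => Or.inl (fr b hb v (by simp at hv; clear hn hr ho ho'; tauto))
  refine (repl (E := E) hF (fun A =>
    (if A = a then pathE [w, x, u, y, y', t'] else ∅) ∪
      (if A = c then pathE [z', w', x', u', y', y] else ∅) ∪
      (if A = b then pathE [w, w', z'] else ∅) ∪ (if A = d then pathE [y, u, u', y', t'] else ∅))
    {{s(w, w'), s(w', x'), s(x', x), s(x, w)}, {s(x, x'), s(x', u'), s(u', u), s(u, x)}}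
    (fun A _ => ?_) (fun C k => ?_) (fun A hA => ?_) (fun e _ k C l m => ?_)
    fun e k l => ?_).imp fun M k => ⟨k.1, k.2.le⟩
  · refine union_subset (union_subset (union_subset ?_ ?_) ?_) ?_ <;> split_ifs <;>
      first | assumption | exact empty_subset _
  · rcases Multiset.mem_cons.1 k with rfl | k
    · exact ⟨square_circ (by simp [hn, hr]), q5.trans sdiff_subset⟩
    · rw [Multiset.mem_singleton.1 k]
      exact ⟨square_circ (by simp [hn, hr]), q6.trans sdiff_subset⟩
  · by_cases p : A = a
    · subst p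
      have := ext2t_rr (hF.1 A hA) w t' x [y] [u, y, y'] (by simp [hn, ho']) (by simp [hn, hr, ho'])
        (by simp [pathE, insert_subset_iff, h2, h3]) fun v hv => by
          have := fr A hA v
          simp at hv ⊢
          clear hn hr ho ho'
          tauto
      convert this using 2
      · ext e
        rw [key A hA]
        simp only [List.cons_append, List.nil_append, pathE, mem_sdiff, mem_insert, notMem_empty]
        have : e = s(w, z') → e ∉ A := fun k => k ▸ a0
        clear hn hr ho ho'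
        tauto
      · simp [ac, ab, ad]
    by_cases q : A = c
    · subst q
      rw [Sym2.eq_swap] at c1
      have := ext2t_rr (hF.1 A hA) z' y w' [w] [x', u', y'] (by simp [hn, ho]) (by simp [hn, hr, ho])
        (by simp [pathE, insert_subset_iff, c1, c2]) fun v hv => by
          have := fr A hA v
          simp at hv ⊢
          clear hn hr ho ho'
          tauto
      convert this using 2
      · ext e
        rw [key A hA]
        simp only [List.cons_append, List.nil_append, pathE, mem_sdiff, mem_insert, notMem_empty,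
          Sym2.eq_swap (a := z')]
        have : e = s(y, t') → e ∉ A := fun k l => (o3 A hA (k ▸ l)).elim p cd
        clear hn hr ho ho'
        tauto
      · simp [p, cb, cd]
    have n2 : ∀ e, e = s(w, y) → e ∉ A := fun e k l => (o2 A hA (k ▸ l)).elim p q
    by_cases r : A = b <;> by_cases s : A = d
    · subst r
      have := ext2t_rr r3 y t' u [] [u', y'] (by simp [ho']) (by simp [hn, hr, ho'])
        (by simp [pathE, s ▸ d2, hn, hr, ho, ho']) fun v hv => Or.inl fun k => by
          obtain ⟨e, e1, e2⟩ := mem_supp.1 k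
          rcases mem_union.1 e1 with e1 | e1
          · exact fr A hA v (by simp at hv; clear hn hr ho ho'; tauto) (mem_supp.2 ⟨e, (mem_sdiff.1 e1).1, e2⟩)
          · have := pathE_supp _ v (mem_supp.2 ⟨e, e1, e2⟩)
            simp at hv this
            rcases hv with rfl | rfl | rfl <;> simp [hn, hr, ho, ho'] at this
      convert this using 1
      ext e
      rw [if_neg p, if_neg q, if_pos rfl, if_pos s, mem_union, key A hA]
      have := n2 e
      have : e ∈ pathE [w, w', z'] → e ≠ s(y, t') := fun k l => (mem_sdiff.1 (q3 k)).2 (l ▸ m3)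
      simp only [List.cons_append, List.nil_append, mem_union, mem_sdiff, notMem_empty,
        show pathE [y, t'] = {s(y, t')} from rfl, show pathE [w, z'] = {s(w, z')} from rfl,
        mem_singleton]
      clear hn hr ho ho'
      tauto
    · subst r
      convert r3 using 2
      · ext e
        rw [key A hA]
        simp only [List.cons_append, List.nil_append, pathE, mem_sdiff, mem_insert, notMem_empty]
        have := n2 e
        have : e = s(y, t') → e ∉ A := fun k l => (o3 A hA (k ▸ l)).elim p s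
        clear hn hr ho ho'
        tauto
      · simp [p, q, s]
    · subst s
      have := ext2t_rr (hF.1 A hA) y t' u [] [u', y'] (by simp [ho']) (by simp [hn, hr, ho'])
        (by simpa [pathE] using d2) fun v hv => Or.inl (fr A hA v (by simp at hv; clear hn hr ho ho'; tauto))
      convert this using 2
      · ext e
        rw [key A hA]
        simp only [List.cons_append, List.nil_append, pathE, mem_sdiff, mem_insert, notMem_empty]
        have := n2 e
        have : e = s(w, z') → e ∉ A := fun k l => (o1 A hA (k ▸ l)).elim q r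
        clear hn hr ho ho'
        tauto
      · simp [p, q, r]
    · convert hF.1 A hA using 1
      ext e
      rw [if_neg p, if_neg q, if_neg r, if_neg s, mem_union, key A hA]
      have := n2 e
      have : e = s(w, z') → e ∉ A := fun k l => (o1 A hA (k ▸ l)).elim q r
      have : e = s(y, t') → e ∉ A := fun k l => (o3 A hA (k ▸ l)).elim p s
      simp only [mem_union, notMem_empty]
      clear hn hr ho ho'
      tauto
  · rcases Multiset.mem_cons.1 l with rfl | l
    · exact (mem_sdiff.1 (q5 m)).2 k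
    · rw [Multiset.mem_singleton.1 l] at m
      exact (mem_sdiff.1 (q6 m)).2 k
  · have m : e ∈ E \ E' := mem_sdiff.2 ⟨k, l⟩
    rw [D1] at m
    rw [ext2t_cnt ha hc hb hd ac ab ad cb cd _ _ _ _ e fun g h => by
      simp only [pathE, mem_insert, notMem_empty, or_false] at g
      rcases g with rfl | rfl <;> simp [pathE, hn, hr, ho, ho'] at h]
    simp only [mem_insert, mem_singleton] at m
    rw [Multiset.insert_eq_cons, Multiset.countP_cons, ← Multiset.cons_zero, Multiset.countP_cons,
      Multiset.countP_zero]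
    rcases m with rfl | rfl | rfl | rfl | rfl | rfl | rfl | rfl | rfl | rfl | rfl | rfl <;>
      simp only [pathE, mem_insert, mem_singleton, notMem_empty, Sym2.eq_iff, hn, hr, ho, ho',
        true_and, and_true, false_and, and_false, or_false, false_or, true_or, or_true, if_true,
        if_false, and_self, or_self]

end Pool.Agent.CDC36
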