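import Pool.Agent.Lib.MP_32fd1f_co.Dart
import Pool.Agent.Lib.MP_32fd1f_co.CDCFlow

set_option autoImplicit false

namespace Pool.Agent.CDC36

open Finset

variable {V : Type} [Fintype V] [DecidableEq V]

open Dartx in
theorem flow {E : Finset (Sym2 V)} (hE : NoLoop E) (h2 : EC 2 E) :
    ∃ f : Sym2 V → (Fin 3 → ZMod 2), (∀ e ∈ E, f e ≠ 0) ∧
      ∀ v, ∑ e ∈ E.filter (fun e => v ∈ e), f e = 0 := by
  classical
  obtain ⟨g, g1, g2, g3⟩ := Lib.MP_32fd1f_co.CDCFlow.flow8 (vx (E := E)) op op_op (op_ne hE)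
    fun S hS hn => by
      obtain ⟨a, ha⟩ := hS
      obtain ⟨b, hb⟩ : ∃ b, b ∉ S := by
        by_contra k
        exact hn (eq_univ_of_forall fun b => by_contra fun k' => k ⟨b, k'⟩)
      let κ : V → Bool := fun v => decide (∃ h : v ∈ supp E, (⟨v, h⟩ : Vx E) ∈ S)
      have hκ : ∀ v : Vx E, κ v.1 = true ↔ v ∈ S := fun v => by
        simp only [κ, decide_eq_true_eq]
        exact ⟨fun k => k.2, fun k => ⟨v.2, k⟩⟩
      refine (h2 κ ⟨a.1, a.2, (hκ a).2 ha⟩ ⟨b.1, b.2, ?_⟩).trans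
        (le_trans (card_le_card fun e he => ?_) (card_image_le (f := ed)))
      · exact Bool.eq_false_iff.2 fun k => hb ((hκ b).1 k)
      · obtain ⟨h, rfl⟩ := exists_ed (mem_filter.1 he).1
        have k : κ (vx h).1 ≠ κ (vx (op h)).1 := fun k =>
          (mem_filter.1 he).2 (Sym2.mk_isDiag_iff.2 k)
        by_cases c : vx h ∈ S
        · refine mem_image.2 ⟨h, mem_filter.2 ⟨mem_univ _, c, fun c' => k ?_⟩, rfl⟩
          rw [(hκ _).2 c, (hκ _).2 c']
        · refine mem_image.2 ⟨op h, mem_filter.2 ⟨mem_univ _, ?_, c⟩, ed_op h⟩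
          by_contra c'
          refine k ?_
          rw [Bool.eq_false_iff.2 fun t => c ((hκ _).1 t),
            Bool.eq_false_iff.2 fun t => c' ((hκ _).1 t)]
  obtain ⟨f, hf⟩ := descend 0 g g2
  refine ⟨fun e => co.symm (f e), fun e he k => ?_, fun v => ?_⟩
  · obtain ⟨h, rfl⟩ := exists_ed he
    exact g1 h (by rw [← hf]; exact (AddEquiv.map_eq_zero_iff co.symm).1 k)
  · by_cases hv : v ∈ supp E
    · rw [← map_sum, sum_ed f ⟨v, hv⟩]
      simp only [hf]
      rw [g3, map_zero]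
    · rw [filter_empty hv, sum_empty]

end Pool.Agent.CDC36
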