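import Pool.Agent.Lib.MP_32fd1f_co.Path
import Pool.Agent.Lib.MP_32fd1f_co.Loc

set_option autoImplicit false

namespace Pool.Agent.CDC36

open Finset

variable {V : Type} [Fintype V] [DecidableEq V]

/-- indicator of an edge set -/
def genusInd (A : Finset (Sym2 V)) (e : Sym2 V) : ZMod 2 := if e ∈ A then 1 else 0

theorem genus_pair (W A : Finset (Sym2 V)) :
    ∑ e ∈ W, genusInd A e = ((W ∩ A).card : ZMod 2) := by
  unfold genusInd
  rw [sum_boole, filter_mem_eq_inter]

theorem genus_star (A : Finset (Sym2 V)) (u : V) :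
    ((univ.filter fun e : Sym2 V => u ∈ e) ∩ A).card = deg A u := by
  unfold deg
  congr 1
  ext e
  simp [and_comm]

theorem genus_faces {E : Finset (Sym2 V)} (hE : Cubic E) (hc : Conn E)
    {F : Finset (Finset (Sym2 V))} (hF : FCDC E F) (a : Finset (Sym2 V) → ZMod 2)
    (h : ∀ e, ∑ A ∈ F, a A * genusInd A e = 0) {A0 : Finset (Sym2 V)} (h0 : A0 ∈ F)
    (ha0 : a A0 = 0) : ∀ A ∈ F, a A = 0 := by
  classical
  have h1 : ∀ A ∈ F, ∀ B ∈ F, ∀ e, e ∈ A → e ∈ B → a A = a B := by
    intro A hA B hB e heA heB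
    obtain ⟨D, hD, hne, heD, hall⟩ := hF.other hA heA
    rcases hall B hB heB with rfl | rfl
    · rfl
    · have h2 := h e
      rw [← sum_subset (s₁ := {A, B}) (by
          intro x hx
          rcases mem_insert.1 hx with rfl | hx
          · exact hA
          · rw [mem_singleton.1 hx]; exact hB) (by
          intro x hx hx'
          have : e ∉ x := fun hex => hx' (by
            rcases hall x hx hex with rfl | rfl <;> simp)
          simp [genusInd, this]), sum_pair hne.symm] at h2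
      simp only [genusInd, heA, heB, if_true, mul_one] at h2
      have h3 : ∀ x y : ZMod 2, x + y = 0 → x = y := by decide
      exact h3 _ _ h2
  have h2 : ∀ A ∈ F, ∀ B ∈ F, ∀ u, u ∈ supp A → u ∈ supp B → a A = a B := by
    intro A hA B hB u huA huB
    obtain ⟨e, heA, hue⟩ := mem_supp.1 huA
    obtain ⟨e', heB, hue'⟩ := mem_supp.1 huB
    obtain ⟨x, rfl⟩ := Sym2.mem_iff_exists.1 hue
    obtain ⟨y, rfl⟩ := Sym2.mem_iff_exists.1 hue'
    by_cases hxy : x = y
    · subst hxy
      exact h1 A hA B hB _ heA heB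
    · obtain ⟨D, ⟨hD, hx, hy⟩, -⟩ := loc hE hF (hF.subset hA heA) (hF.subset hB heB) hxy
      exact (h1 A hA D hD _ heA hx).trans (h1 D hD B hB _ hy heB)
  let κ : V → Bool := fun v => decide (∃ A ∈ F, v ∈ supp A ∧ a A ≠ 0)
  have h3 : ∀ D ∈ F, ∀ v ∈ supp D, κ v = decide (a D ≠ 0) := by
    intro D hD v hv
    simp only [κ, decide_eq_decide]
    constructor
    · rintro ⟨A, hA, hvA, hne⟩
      rwa [← h2 A hA D hD v hvA hv]
    · exact fun hne => ⟨D, hD, hv, hne⟩
  have hcut : cut E κ = ∅ := by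
    rw [cut_eq_empty]
    intro x y hxy
    have h4 := hF.2 s(x, y)
    rw [if_pos hxy] at h4
    obtain ⟨D, hD⟩ : (F.filter (fun C => s(x, y) ∈ C)).Nonempty := card_pos.1 (by omega)
    obtain ⟨hD, he⟩ := mem_filter.1 hD
    rw [h3 D hD x (mem_supp.2 ⟨_, he, by simp⟩), h3 D hD y (mem_supp.2 ⟨_, he, by simp⟩)]
  have h5 : ∀ A ∈ F, ∃ u, u ∈ supp A ∧ u ∈ supp E := by
    intro A hA
    obtain ⟨e, he⟩ := (hF.1 A hA).1
    induction e using Sym2.ind with
    | _ x y =>
      exact ⟨x, mem_supp.2 ⟨_, he, by simp⟩, mem_supp.2 ⟨_, hF.subset hA he, by simp⟩⟩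
  intro A hA
  obtain ⟨u, hu, huE⟩ := h5 A hA
  obtain ⟨u0, hu0, hu0E⟩ := h5 A0 h0
  have h6 := hc u huE u0 hu0E κ hcut
  rw [h3 A hA u hu, h3 A0 h0 u0 hu0] at h6
  simpa [ha0] using h6

theorem genus {E : Finset (Sym2 V)} (hE : Cubic E) (hc : Conn E) {F : Finset (Finset (Sym2 V))}
    (hF : FCDC E F) (K : Finset (Finset (Sym2 V))) (X Z : Finset (Sym2 V) → Finset (Sym2 V))
    (hZ : ∀ C ∈ K, Z C ⊆ E ∧ IsEven (Z C)) (hX : ∀ D ∈ K, ∀ A ∈ F, Even (X D ∩ A).card)
    (hXZ : ∀ C ∈ K, ∀ D ∈ K, Odd (X D ∩ Z C).card ↔ C = D) :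
    2 * F.card + 2 * K.card ≤ (supp E).card + 4 := by
  classical
  rcases E.eq_empty_or_nonempty with rfl | ⟨e0, he0⟩
  · have hF0 : F = ∅ := by
      rw [eq_empty_iff_forall_notMem]
      intro A hA
      obtain ⟨e, he⟩ := (hF.1 A hA).1
      simpa using hF.subset hA he
    have hK0 : K = ∅ := by
      rw [eq_empty_iff_forall_notMem]
      intro C hC
      have h1 := (hXZ C hC C hC).2 rfl
      rw [subset_empty.1 (hZ C hC).1] at h1
      simp at h1
    simp [hF0, hK0]
  obtain ⟨A0, h0⟩ : ∃ A0, A0 ∈ F := by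
    have h4 := hF.2 e0
    rw [if_pos he0] at h4
    obtain ⟨D, hD⟩ : (F.filter (fun C => e0 ∈ C)).Nonempty := card_pos.1 (by omega)
    exact ⟨D, (mem_filter.1 hD).1⟩
  obtain ⟨v0, hv0⟩ : ∃ v0, v0 ∈ supp E := by
    induction e0 using Sym2.ind with
    | _ x y => exact ⟨x, mem_supp.2 ⟨_, he0, by simp⟩⟩
  have hP : ∀ v, ∃ P : Finset (Sym2 V), P ⊆ E ∧ (v ∈ supp E → Ends P v0 v) := by
    intro v
    by_cases hv : v ∈ supp E
    · obtain ⟨P, h1, h2⟩ := path hE.1 (hc v0 hv0 v hv)
      exact ⟨P, h1, fun _ => h2⟩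
    · exact ⟨∅, empty_subset _, fun h => absurd h hv⟩
  choose P hPE hPe using hP
  let W : ↥(F.erase A0) ⊕ ↥K ⊕ ↥((supp E).erase v0) → Finset (Sym2 V) :=
    Sum.elim (fun A => A.1) (Sum.elim (fun C => Z C.1) fun v => P v.1)
  have hWE : ∀ i, W i ⊆ E := by
    rintro (A | C | v)
    · exact hF.subset (mem_of_mem_erase A.2)
    · exact (hZ C.1 C.2).1
    · exact hPE _
  have hli : LinearIndependent (ZMod 2) (fun i (e : ↥E) => genusInd (W i) e.1) := by
    rw [Fintype.linearIndependent_iff]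
    intro g hg
    have hrel : ∀ e, ∑ i, g i * genusInd (W i) e = 0 := by
      intro e
      by_cases he : e ∈ E
      · have := congrFun hg ⟨e, he⟩
        simpa [Finset.sum_apply] using this
      · refine sum_eq_zero fun i _ => ?_
        have : e ∉ W i := fun h => he (hWE i h)
        simp [genusInd, this]
    have hpair : ∀ T : Finset (Sym2 V), ∑ i, g i * ((T ∩ W i).card : ZMod 2) = 0 := by
      intro T
      have : ∑ e ∈ T, ∑ i, g i * genusInd (W i) e = 0 := sum_eq_zero fun e _ => hrel e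
      rw [sum_comm] at this
      simpa only [← mul_sum, genus_pair] using this
    have hp : ∀ v, g (.inr (.inr v)) = 0 := by
      intro v
      have h1 := hpair (univ.filter fun e : Sym2 V => v.1 ∈ e)
      simp only [genus_star] at h1
      rw [sum_eq_single (Sum.inr (Sum.inr v))] at h1
      · have h2 : Odd (deg (P v.1) v.1) :=
          (hPe v.1 (mem_of_mem_erase v.2) v.1).2 (Or.inr ⟨rfl, ne_of_mem_erase v.2⟩)
        have h3 : ((deg (W (.inr (.inr v))) v.1 : ℕ) : ZMod 2) = 1 :=
          (ZMod.natCast_eq_one_iff_odd).2 h2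
        rwa [h3, mul_one] at h1
      · intro i _ hi
        have h2 : Even (deg (W i) v.1) := by
          rcases i with A | C | w
          · exact (hF.1 A.1 (mem_of_mem_erase A.2)).isEven _
          · exact (hZ C.1 C.2).2 _
          · rw [← Nat.not_odd_iff_even]
            intro ho
            have h3 := (hPe w.1 (mem_of_mem_erase w.2) v.1).1 ho
            rcases h3 with ⟨h3, -⟩ | ⟨h3, -⟩
            · exact ne_of_mem_erase v.2 h3
            · exact hi (by rw [Subtype.ext h3])
        rw [(ZMod.natCast_eq_zero_iff_even).2 h2, mul_zero]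
      · simp
    have hz : ∀ D, g (.inr (.inl D)) = 0 := by
      intro D
      have h1 := hpair (X D.1)
      rw [sum_eq_single (Sum.inr (Sum.inl D))] at h1
      · have h3 : (((X D.1 ∩ W (.inr (.inl D))).card : ℕ) : ZMod 2) = 1 :=
          (ZMod.natCast_eq_one_iff_odd).2 ((hXZ D.1 D.2 D.1 D.2).2 rfl)
        rwa [h3, mul_one] at h1
      · intro i _ hi
        rcases i with A | C | w
        · have h2 : Even (X D.1 ∩ W (.inl A)).card := hX D.1 D.2 A.1 (mem_of_mem_erase A.2)
          rw [(ZMod.natCast_eq_zero_iff_even).2 h2, mul_zero]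
        · have h2 : Even (X D.1 ∩ W (.inr (.inl C))).card := by
            rw [← Nat.not_odd_iff_even]
            intro ho
            exact hi (by rw [Subtype.ext ((hXZ C.1 C.2 D.1 D.2).1 ho)])
          rw [(ZMod.natCast_eq_zero_iff_even).2 h2, mul_zero]
        · rw [hp, zero_mul]
      · simp
    let a : Finset (Sym2 V) → ZMod 2 := fun A =>
      if h : A ∈ F.erase A0 then g (.inl ⟨A, h⟩) else 0
    have ha0 : a A0 = 0 := by simp [a]
    have ha : ∀ A ∈ F, a A = 0 := by
      refine genus_faces hE hc hF a (fun e => ?_) h0 ha0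
      have h1 := hrel e
      rw [Fintype.sum_sum_type, Fintype.sum_sum_type] at h1
      simp only [hp, hz, zero_mul, sum_const_zero, add_zero] at h1
      rw [← add_sum_erase F _ h0, ha0, zero_mul, zero_add, ← sum_coe_sort (F.erase A0), ← h1]
      refine sum_congr rfl fun A _ => ?_
      have : a A.1 = g (.inl A) := dif_pos A.2
      rw [this]
      rfl
    rintro (A | C | v)
    · have : a A.1 = g (.inl A) := dif_pos A.2
      rw [← this]
      exact ha _ (mem_of_mem_erase A.2)
    · exact hz C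
    · exact hp v
  have hcard := hli.fintype_card_le_finrank
  rw [Module.finrank_fintype_fun_eq_card] at hcard
  simp only [Fintype.card_sum, Fintype.card_coe] at hcard
  have e1 := card_erase_add_one h0
  have e2 := card_erase_add_one hv0
  have e3 := cubic_card hE
  omega

end Pool.Agent.CDC36
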