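import Pool.Agent.Lib.MP_32fd1f_co.Genus

set_option autoImplicit false

namespace Pool.Agent.CDC36

open Finset

variable {V : Type} [Fintype V] [DecidableEq V]

theorem genus2 {E : Finset (Sym2 V)} (hE : Cubic E) (hc : Conn E) {F : Finset (Finset (Sym2 V))}
    (hF : FCDC E F) (K : Finset (Finset (Sym2 V))) (X Z : Finset (Sym2 V) → Finset (Sym2 V))
    (π : Finset (Sym2 V) → ℕ)
    (hZ : ∀ C ∈ K, Z C ⊆ E ∧ IsEven (Z C)) (hX : ∀ D ∈ K, ∀ A ∈ F, Even (X D ∩ A).card)
    (h1 : ∀ C ∈ K, Odd (X C ∩ Z C).card)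
    (h2 : ∀ C ∈ K, ∀ D ∈ K, C ≠ D → π C ≤ π D → Even (X D ∩ Z C).card) :
    2 * F.card + 2 * K.card ≤ (supp E).card + 4 := by
  classical
  have hodd := h1
  have hev := h2
  clear h1 h2
  rcases E.eq_empty_or_nonempty with rfl | ⟨e0, he0⟩
  · have hF0 : F = ∅ := by
      rw [eq_empty_iff_forall_notMem]
      intro A hA
      obtain ⟨e, he⟩ := (hF.1 A hA).1
      simpa using hF.subset hA he
    have hK0 : K = ∅ := by
      rw [eq_empty_iff_forall_notMem]
      intro C hC
      have h1 := hodd C hC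
      rw [subset_empty.1 (hZ C hC).1] at h1
      simp at h1
    simp [hF0, hK0]
  obtain ⟨A0, h0⟩ : ∃ A0, A0 ∈ F := by
    have h4 := hF.2 e0
    rw [if_pos he0] at h4
    obtain ⟨D, hD⟩ : (F.filter (fun C => e0 ∈ C)).Nonempty := card_pos.1 (by omega)
    exact ⟨D, (mem_filter.1 hD).1⟩
  obtain ⟨v0, hv0⟩ : ∃ v0, v0 ∈ supp E := by
    induction e0 using Sym2.ind with
    | _ x y => exact ⟨x, mem_supp.2 ⟨_, he0, by simp⟩⟩
  have hP : ∀ v, ∃ P : Finset (Sym2 V), P ⊆ E ∧ (v ∈ supp E → Ends P v0 v) := by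
    intro v
    by_cases hv : v ∈ supp E
    · obtain ⟨P, h1, h2⟩ := path hE.1 (hc v0 hv0 v hv)
      exact ⟨P, h1, fun _ => h2⟩
    · exact ⟨∅, empty_subset _, fun h => absurd h hv⟩
  choose P hPE hPe using hP
  let W : ↥(F.erase A0) ⊕ ↥K ⊕ ↥((supp E).erase v0) → Finset (Sym2 V) :=
    Sum.elim (fun A => A.1) (Sum.elim (fun C => Z C.1) fun v => P v.1)
  have hWE : ∀ i, W i ⊆ E := by
    rintro (A | C | v)
    · exact hF.subset (mem_of_mem_erase A.2)
    · exact (hZ C.1 C.2).1
    · exact hPE _
  have hli : LinearIndependent (ZMod 2) (fun i (e : ↥E) => genusInd (W i) e.1) := by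
    rw [Fintype.linearIndependent_iff]
    intro g hg
    have hrel : ∀ e, ∑ i, g i * genusInd (W i) e = 0 := by
      intro e
      by_cases he : e ∈ E
      · have := congrFun hg ⟨e, he⟩
        simpa [Finset.sum_apply] using this
      · refine sum_eq_zero fun i _ => ?_
        have : e ∉ W i := fun h => he (hWE i h)
        simp [genusInd, this]
    have hpair : ∀ T : Finset (Sym2 V), ∑ i, g i * ((T ∩ W i).card : ZMod 2) = 0 := by
      intro T
      have : ∑ e ∈ T, ∑ i, g i * genusInd (W i) e = 0 := sum_eq_zero fun e _ => hrel e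
      rw [sum_comm] at this
      simpa only [← mul_sum, genus_pair] using this
    have hp : ∀ v, g (.inr (.inr v)) = 0 := by
      intro v
      have h1 := hpair (univ.filter fun e : Sym2 V => v.1 ∈ e)
      simp only [genus_star] at h1
      rw [sum_eq_single (Sum.inr (Sum.inr v))] at h1
      · have h2 : Odd (deg (P v.1) v.1) :=
          (hPe v.1 (mem_of_mem_erase v.2) v.1).2 (Or.inr ⟨rfl, ne_of_mem_erase v.2⟩)
        have h3 : ((deg (W (.inr (.inr v))) v.1 : ℕ) : ZMod 2) = 1 :=
          (ZMod.natCast_eq_one_iff_odd).2 h2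
        rwa [h3, mul_one] at h1
      · intro i _ hi
        have h2 : Even (deg (W i) v.1) := by
          rcases i with A | C | w
          · exact (hF.1 A.1 (mem_of_mem_erase A.2)).isEven _
          · exact (hZ C.1 C.2).2 _
          · rw [← Nat.not_odd_iff_even]
            intro ho
            have h3 := (hPe w.1 (mem_of_mem_erase w.2) v.1).1 ho
            rcases h3 with ⟨h3, -⟩ | ⟨h3, -⟩
            · exact ne_of_mem_erase v.2 h3
            · exact hi (by rw [Subtype.ext h3])
        rw [(ZMod.natCast_eq_zero_iff_even).2 h2, mul_zero]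
      · simp
    have hz : ∀ D, g (.inr (.inl D)) = 0 := by
      by_contra hne
      obtain ⟨D0, hD0⟩ := not_forall.1 hne
      obtain ⟨D, hD, hmax⟩ := exists_max_image
        (univ.filter fun C : ↥K => g (.inr (.inl C)) ≠ 0) (fun C => π C.1)
        ⟨D0, mem_filter.2 ⟨mem_univ _, hD0⟩⟩
      apply (mem_filter.1 hD).2
      have h1 := hpair (X D.1)
      rw [sum_eq_single (Sum.inr (Sum.inl D))] at h1
      · have h3 : (((X D.1 ∩ W (.inr (.inl D))).card : ℕ) : ZMod 2) = 1 :=
          (ZMod.natCast_eq_one_iff_odd).2 (hodd D.1 D.2)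
        rwa [h3, mul_one] at h1
      · intro i _ hi
        rcases i with A | C | w
        · have h2 : Even (X D.1 ∩ W (.inl A)).card := hX D.1 D.2 A.1 (mem_of_mem_erase A.2)
          rw [(ZMod.natCast_eq_zero_iff_even).2 h2, mul_zero]
        · by_cases hC : g (.inr (.inl C)) = 0
          · rw [hC, zero_mul]
          · have h2 : Even (X D.1 ∩ W (.inr (.inl C))).card :=
              hev C.1 C.2 D.1 D.2 (fun k => hi (by rw [Subtype.ext k]))
                (hmax C (mem_filter.2 ⟨mem_univ _, hC⟩))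
            rw [(ZMod.natCast_eq_zero_iff_even).2 h2, mul_zero]
        · rw [hp, zero_mul]
      · simp
    let a : Finset (Sym2 V) → ZMod 2 := fun A =>
      if h : A ∈ F.erase A0 then g (.inl ⟨A, h⟩) else 0
    have ha0 : a A0 = 0 := by simp [a]
    have ha : ∀ A ∈ F, a A = 0 := by
      refine genus_faces hE hc hF a (fun e => ?_) h0 ha0
      have h1 := hrel e
      rw [Fintype.sum_sum_type, Fintype.sum_sum_type] at h1
      simp only [hp, hz, zero_mul, sum_const_zero, add_zero] at h1
      rw [← add_sum_erase F _ h0, ha0, zero_mul, zero_add, ← sum_coe_sort (F.erase A0), ← h1]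
      refine sum_congr rfl fun A _ => ?_
      have : a A.1 = g (.inl A) := dif_pos A.2
      rw [this]
      rfl
    rintro (A | C | v)
    · have : a A.1 = g (.inl A) := dif_pos A.2
      rw [← this]
      exact ha _ (mem_of_mem_erase A.2)
    · exact hz C
    · exact hp v
  have hcard := hli.fintype_card_le_finrank
  rw [Module.finrank_fintype_fun_eq_card] at hcard
  simp only [Fintype.card_sum, Fintype.card_coe] at hcard
  have e1 := card_erase_add_one h0
  have e2 := card_erase_add_one hv0
  have e3 := cubic_card hE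
  omega

end Pool.Agent.CDC36
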