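import Pool.Agent.Lib.MP_32fd1f_co.Defs

set_option autoImplicit false

namespace Pool.Agent.CDC36

open Finset

variable {V : Type} [Fintype V] [DecidableEq V]

private theorem select_good {α : Type} [Fintype α] [DecidableEq α] (S : Finset α) (hS : S.card ≤ 5)
    (p : α → Fin 3) : (univ : Finset (α → Fin 3)).card ≤
      243 * (univ.filter (fun χ : α → Fin 3 => ∀ x ∈ S, χ x = p x)).card := by
  have h1 : univ.filter (fun χ : α → Fin 3 => ∀ x ∈ S, χ x = p x) =
      Fintype.piFinset (fun x => if x ∈ S then {p x} else univ) := by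
    ext χ
    simp only [mem_filter, mem_univ, true_and, Fintype.mem_piFinset]
    refine ⟨fun h x => ?_, fun h x hx => ?_⟩
    · split_ifs with hx
      · exact mem_singleton.2 (h x hx)
      · exact mem_univ _
    · have := h x
      rw [if_pos hx] at this
      exact mem_singleton.1 this
  have h2 : ∏ x : α, (if x ∈ S then 3 else 1 : ℕ) = 3 ^ S.card := by
    rw [prod_ite_mem, univ_inter, prod_const]
  have h3 : (univ : Finset (α → Fin 3)).card = ∏ x : α, ((if x ∈ S then 3 else 1 : ℕ) *
      (if x ∈ S then ({p x} : Finset (Fin 3)) else univ).card) := by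
    rw [card_univ, Fintype.card_pi]
    refine prod_congr rfl fun x _ => ?_
    split_ifs <;> simp
  rw [h1, Fintype.card_piFinset, h3, prod_mul_distrib, h2]
  exact Nat.mul_le_mul_right _ (le_trans (Nat.pow_le_pow_right (by norm_num) hS) (by norm_num))

theorem select {α : Type} [Fintype α] [DecidableEq α] (H : Finset α) (R B : α → Finset α)
    (h : ∀ C ∈ H, (R C).card ≤ 2 ∧ (B C).card ≤ 2 ∧ C ∉ R C ∧ C ∉ B C ∧ Disjoint (R C) (B C)) :
    ∃ K ⊆ H, H.card ≤ 243 * K.card ∧
      ∀ C ∈ K, ∀ D ∈ K, C ≠ D → Disjoint (insert D (R D)) (insert C (B C)) := by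
  let p : α → α → Fin 3 := fun C x => if x = C then 0 else if x ∈ R C then 1 else 2
  let P : (α → Fin 3) → α → Prop := fun χ C => ∀ x ∈ insert C (R C ∪ B C), χ x = p C x
  have h1 : ∑ _χ : α → Fin 3, H.card ≤ ∑ χ : α → Fin 3, 243 * (H.filter (P χ)).card := by
    have e : ∑ χ : α → Fin 3, (H.filter (P χ)).card =
        ∑ C ∈ H, (univ.filter (fun χ : α → Fin 3 => P χ C)).card := by
      simp only [card_filter]
      exact sum_comm
    rw [← mul_sum, e, mul_sum, sum_const, smul_eq_mul, mul_comm, ← smul_eq_mul, ← sum_const]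
    refine sum_le_sum fun C hC => select_good _ ?_ (p C)
    obtain ⟨a1, a2, -⟩ := h C hC
    have a3 := card_insert_le C (R C ∪ B C)
    have a4 := card_union_le (R C) (B C)
    omega
  obtain ⟨χ, -, h2⟩ := exists_le_of_sum_le univ_nonempty h1
  have hP : ∀ C ∈ H.filter (P χ), χ C = 0 ∧ (∀ x ∈ R C, χ x = 1) ∧ ∀ x ∈ B C, χ x = 2 := by
    intro C hC
    obtain ⟨hH, hp⟩ := mem_filter.1 hC
    obtain ⟨-, -, a3, a4, a5⟩ := h C hH
    refine ⟨(hp C (mem_insert_self _ _)).trans (if_pos rfl), fun x hx => ?_, fun x hx => ?_⟩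
    · have b : x ≠ C := fun e => a3 (e ▸ hx)
      exact (hp x (mem_insert_of_mem (mem_union_left _ hx))).trans ((if_neg b).trans (if_pos hx))
    · have b : x ≠ C := fun e => a4 (e ▸ hx)
      have b2 : x ∉ R C := fun e => disjoint_left.1 a5 e hx
      exact (hp x (mem_insert_of_mem (mem_union_right _ hx))).trans ((if_neg b).trans (if_neg b2))
  refine ⟨H.filter (P χ), filter_subset _ _, h2, fun C hC D hD hCD => ?_⟩
  obtain ⟨c0, -, c2⟩ := hP C hC
  obtain ⟨d0, d1, -⟩ := hP D hD
  refine disjoint_left.2 fun x h1 h2 => ?_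
  rcases mem_insert.1 h1 with a | a <;> rcases mem_insert.1 h2 with b | b
  · exact hCD (b.symm.trans a)
  · have := c2 x b
    rw [a, d0] at this
    exact absurd this (by decide)
  · have := d1 x a
    rw [b, c0] at this
    exact absurd this (by decide)
  · have := c2 x b
    rw [d1 x a] at this
    exact absurd this (by decide)

end Pool.Agent.CDC36
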