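import Pool.Agent.Lib.MP_32fd1f_co.Genus
import Pool.Agent.Lib.MP_32fd1f_co.Select

set_option autoImplicit false

namespace Pool.Agent.CDC36

open Finset

variable {V : Type} [Fintype V] [DecidableEq V]

theorem hg {E : Finset (Sym2 V)} (hE : Cubic E) (hc : Conn E) {F : Finset (Finset (Sym2 V))}
    (hF : FCDC E F) (H : Finset (Finset (Sym2 V))) (hH : H ⊆ F) (hd : ∀ C ∈ H, Hd F C) :
    486 * F.card + 2 * H.card ≤ 243 * ((supp E).card + 4) := by
  choose! R B h1 h2 h3 h4 h5 h6 X Z k1 k2 k3 k4 k5 using hd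
  obtain ⟨K, hK, hc1, hc2⟩ := select H R B fun C hC =>
    ⟨h1 C hC, h2 C hC, h3 C hC, h4 C hC, h5 C hC⟩
  have face : ∀ C ∈ K, ∀ e ∈ Z C, ∃ A ∈ F, A ∈ insert C (B C) ∧ e ∈ A := by
    intro C hC e he
    rcases k4 C (hK hC) e he with h | ⟨A, hA, h⟩
    · exact ⟨C, hH (hK hC), mem_insert_self _ _, h⟩
    · exact ⟨A, h6 C (hK hC) hA, mem_insert_of_mem hA, h⟩
  have hg := genus hE hc hF K X Z
    (fun C hC => ⟨fun e he => by
      obtain ⟨A, hA, -, h⟩ := face C hC e he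
      exact hF.subset hA h, k3 C (hK hC)⟩)
    (fun D hD => k2 D (hK hD))
    (fun C hC D hD => ⟨fun ho => by
      by_contra hne
      obtain ⟨e, he⟩ := card_pos.1 ho.pos
      obtain ⟨A, hA, a1, a2⟩ := face C hC e (mem_inter.1 he).2
      exact disjoint_left.1 (hc2 C hC D hD hne)
        (mem_insert.2 (k1 D (hK hD) e (mem_inter.1 he).1 A hA a2)) a1,
      fun e => e ▸ k5 C (hK hC)⟩)
  omega

end Pool.Agent.CDC36
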