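import Pool.Agent.Lib.MP_32fd1f_co.Defs

set_option autoImplicit false

namespace Pool.Agent.CDC36

open Finset

variable {V : Type} [Fintype V] [DecidableEq V]

private theorem select2_int (x : ℤ) (n : ℕ) :
    30 * ∑ j ∈ range n, (j : ℤ) ^ 2 * (x - j) ^ 2 =
      5 * x ^ 2 * (n - 1) * n * (2 * n - 1) - 15 * x * n ^ 2 * (n - 1) ^ 2 +
        (n - 1) * n * (2 * n - 1) * (3 * n ^ 2 - 3 * n - 1) := by
  induction n with
  | zero => simp
  | succ n ih => rw [sum_range_succ, mul_add, ih]; push_cast; ring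

private theorem select2_sum (M : ℕ) :
    30 * ∑ j : Fin (M + 1), (j : ℕ) ^ 2 * (M - j) ^ 2 + M = M ^ 5 := by
  rw [Fin.sum_univ_eq_sum_range (fun j => j ^ 2 * (M - j) ^ 2) (M + 1)]
  have h1 := select2_int M (M + 1)
  have h2 : ((∑ j ∈ range (M + 1), j ^ 2 * (M - j) ^ 2 : ℕ) : ℤ) =
      ∑ j ∈ range (M + 1), (j : ℤ) ^ 2 * ((M : ℤ) - j) ^ 2 := by
    push_cast
    refine sum_congr rfl fun j hj => ?_
    rw [Nat.cast_sub (Nat.lt_succ_iff.1 (mem_range.1 hj))]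
  have h3 : ((30 * ∑ j ∈ range (M + 1), j ^ 2 * (M - j) ^ 2 + M : ℕ) : ℤ) = ((M ^ 5 : ℕ) : ℤ) := by
    rw [Nat.cast_add, Nat.cast_mul, h2]
    push_cast at h1 ⊢
    rw [h1]; ring
  exact_mod_cast h3

private theorem select2_pow {j m b : ℕ} (hj : j ≤ m) (hb : b ≤ 2) : j ^ 2 * m ^ b ≤ j ^ b * m ^ 2 := by
  interval_cases b
  · simpa using Nat.pow_le_pow_left hj 2
  · have := Nat.mul_le_mul_left (j * m) hj
    nlinarith
  · exact le_rfl

private theorem select2_one {α : Type} [Fintype α] [DecidableEq α] (M : ℕ) (C : α) (R B : Finset α)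
    (hR : R.card ≤ 2) (hB : B.card ≤ 2) (h1 : C ∉ R) (h2 : C ∉ B) (h3 : Disjoint R B) :
    (∑ j : Fin (M + 1), (j : ℕ) ^ 2 * (M - j) ^ 2) * (M + 1) ^ Fintype.card α ≤
      (M + 1) ^ 5 * (univ.filter (fun π : α → Fin (M + 1) =>
        (∀ A ∈ B, π A < π C) ∧ ∀ A ∈ R, π C < π A)).card := by
  rw [card_eq_sum_card_fiberwise (f := fun π : α → Fin (M + 1) => π C) (t := univ)
    (fun _ _ => mem_coe.2 (mem_univ _)), sum_mul, mul_sum]
  refine sum_le_sum fun j _ => ?_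
  let t : α → Finset (Fin (M + 1)) := fun x =>
    if x = C then {j} else if x ∈ B then Iio j else if x ∈ R then Ioi j else univ
  have tC : t C = {j} := if_pos rfl
  have tB : ∀ x ∈ B, t x = Iio j := fun x hx =>
    (if_neg fun e : x = C => h2 (e ▸ hx)).trans (if_pos hx)
  have tR : ∀ x ∈ R, t x = Ioi j := fun x hx =>
    (if_neg fun e : x = C => h1 (e ▸ hx)).trans
      ((if_neg fun e => disjoint_left.1 h3 hx e).trans (if_pos hx))
  have tO : ∀ x ∈ (insert C (R ∪ B))ᶜ, t x = univ := fun x hx => by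
    simp only [mem_compl, mem_insert, mem_union, not_or] at hx
    exact (if_neg hx.1).trans ((if_neg hx.2.2).trans (if_neg hx.2.1))
  have a1 : Fintype.piFinset t ⊆ (univ.filter (fun π : α → Fin (M + 1) =>
      (∀ A ∈ B, π A < π C) ∧ ∀ A ∈ R, π C < π A)).filter (fun π => π C = j) := by
    intro π hπ
    rw [Fintype.mem_piFinset] at hπ
    have e : π C = j := mem_singleton.1 (tC ▸ hπ C)
    simp only [mem_filter, mem_univ, true_and]
    exact ⟨⟨fun A hA => e ▸ mem_Iio.1 (tB A hA ▸ hπ A), fun A hA => e ▸ mem_Ioi.1 (tR A hA ▸ hπ A)⟩, e⟩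
  have hn : C ∉ R ∪ B := fun h => (mem_union.1 h).elim h1 h2
  have a2 : (Fintype.piFinset t).card =
      (M - j) ^ R.card * (j : ℕ) ^ B.card * (M + 1) ^ ((insert C (R ∪ B))ᶜ).card := by
    rw [Fintype.card_piFinset, ← prod_mul_prod_compl (insert C (R ∪ B)), prod_insert hn,
      prod_union h3, tC, card_singleton, one_mul,
      prod_congr rfl (fun x hx => congrArg card (tR x hx)),
      prod_congr rfl (fun x hx => congrArg card (tB x hx)),
      prod_congr rfl (fun x hx => congrArg card (tO x hx))]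
    simp
  have a3 : Fintype.card α = B.card + R.card + 1 + ((insert C (R ∪ B))ᶜ).card := by
    have := card_add_card_compl (insert C (R ∪ B))
    rw [card_insert_of_notMem hn, card_union_of_disjoint h3] at this
    omega
  have b1 := select2_pow (j := j) (m := M + 1) j.2.le hB
  have b2 := select2_pow (j := M - j) (m := M + 1) (by omega) hR
  refine le_trans ?_ (Nat.mul_le_mul_left _ (card_le_card a1))
  rw [a2, a3]
  calc _ = ((j : ℕ) ^ 2 * (M + 1) ^ B.card) * ((M - j) ^ 2 * (M + 1) ^ R.card) *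
        ((M + 1) * (M + 1) ^ ((insert C (R ∪ B))ᶜ).card) := by ring
    _ ≤ ((j : ℕ) ^ B.card * (M + 1) ^ 2) * ((M - j) ^ R.card * (M + 1) ^ 2) *
        ((M + 1) * (M + 1) ^ ((insert C (R ∪ B))ᶜ).card) :=
      Nat.mul_le_mul_right _ (Nat.mul_le_mul b1 b2)
    _ = _ := by ring

private theorem select2_two {α : Type} [Fintype α] [DecidableEq α] (M : ℕ) (C : α) (R B : Finset α)
    (hR : R.card ≤ 2) (hB : B.card ≤ 2) (h1 : C ∉ R) (h2 : C ∉ B) (h3 : Disjoint R B) :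
    2 * (∑ j : Fin (M + 1), (j : ℕ) ^ 2 * (M - j) ^ 2) * (M + 1) ^ Fintype.card α ≤
      (M + 1) ^ 5 * (univ.filter (fun π : α → Fin (M + 1) =>
        ((∀ A ∈ B, π A < π C) ∧ ∀ A ∈ R, π C < π A) ∨
        ((∀ A ∈ R, π A < π C) ∧ ∀ A ∈ B, π C < π A))).card := by
  by_cases h : (R ∪ B).Nonempty
  · rw [filter_or, card_union_of_disjoint, mul_add, mul_assoc, two_mul]
    · exact add_le_add (select2_one M C R B hR hB h1 h2 h3)
        (select2_one M C B R hB hR h2 h1 h3.symm)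
    · obtain ⟨x, hx⟩ := h
      refine disjoint_filter.2 fun π _ p q => ?_
      rcases mem_union.1 hx with hx | hx
      · exact lt_asymm (p.2 x hx) (q.1 x hx)
      · exact lt_asymm (p.1 x hx) (q.2 x hx)
  · rw [not_nonempty_iff_eq_empty, union_eq_empty] at h
    obtain ⟨rfl, rfl⟩ := h
    have e := select2_sum M
    have e2 : M ^ 5 ≤ (M + 1) ^ 5 := Nat.pow_le_pow_left (Nat.le_succ M) 5
    rw [filter_true_of_mem (by simp), card_univ, Fintype.card_fun, Fintype.card_fin]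
    exact Nat.mul_le_mul_right _ (by omega)

private theorem select2_num {n k T M : ℕ} (hM : M = 32 * n) (h1 : 30 * T + M = M ^ 5)
    (h2 : 2 * T * n ≤ (M + 1) ^ 5 * k) : n ≤ 15 * k := by
  by_contra hc
  have a0 : 15 * k + 1 ≤ n := by omega
  have a1 : 1 ≤ M := by omega
  have a2 : (M + 1) ^ 5 * (15 * k + 1) ≤ (M + 1) ^ 5 * n := Nat.mul_le_mul_left _ a0
  have p1 : M ≤ M ^ 4 := by simpa using Nat.pow_le_pow_right a1 (show 1 ≤ 4 by norm_num)
  have p0 : 1 ≤ M ^ 4 := a1.trans p1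
  have p2 : M ^ 2 ≤ M ^ 4 := Nat.pow_le_pow_right a1 (by norm_num)
  have p3 : M ^ 3 ≤ M ^ 4 := Nat.pow_le_pow_right a1 (by norm_num)
  have e : (M + 1) ^ 5 = M ^ 5 + 5 * M ^ 4 + 10 * M ^ 3 + 10 * M ^ 2 + 5 * M + 1 := by ring
  have a3 : (M + 1) ^ 5 ≤ 30 * T + 32 * M ^ 4 := by omega
  have a4 : (M + 1) ^ 5 * n ≤ (30 * T + 32 * M ^ 4) * n := Nat.mul_le_mul_right _ a3
  have a5 : 32 * M ^ 4 * n = M ^ 5 := by rw [pow_succ M 4]; nth_rewrite 3 [hM]; ring
  have a6 : M ^ 5 < (M + 1) ^ 5 := by omega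
  nlinarith

theorem select2 {α : Type} [Fintype α] [DecidableEq α] (H : Finset α) (R B : α → Finset α)
    (h : ∀ C ∈ H, (R C).card ≤ 2 ∧ (B C).card ≤ 2 ∧ C ∉ R C ∧ C ∉ B C ∧ Disjoint (R C) (B C)) :
    ∃ (π : α → ℕ), ∃ K ⊆ H, H.card ≤ 15 * K.card ∧
      ∀ C ∈ K, ((∀ A ∈ B C, π A < π C) ∧ ∀ A ∈ R C, π C < π A) ∨
        ((∀ A ∈ R C, π A < π C) ∧ ∀ A ∈ B C, π C < π A) := by
  obtain ⟨M, hM⟩ : ∃ M, M = 32 * H.card := ⟨_, rfl⟩
  let P : (α → Fin (M + 1)) → α → Prop := fun π C =>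
    ((∀ A ∈ B C, π A < π C) ∧ ∀ A ∈ R C, π C < π A) ∨
      ((∀ A ∈ R C, π A < π C) ∧ ∀ A ∈ B C, π C < π A)
  have h1 : ∑ _π : α → Fin (M + 1), 2 * (∑ j : Fin (M + 1), (j : ℕ) ^ 2 * (M - j) ^ 2) * H.card ≤
      ∑ π : α → Fin (M + 1), (M + 1) ^ 5 * (H.filter (P π)).card := by
    have e : ∑ π : α → Fin (M + 1), (H.filter (P π)).card =
        ∑ C ∈ H, (univ.filter (fun π : α → Fin (M + 1) => P π C)).card := by
      simp only [card_filter]
      exact sum_comm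
    rw [sum_const, card_univ, Fintype.card_fun, Fintype.card_fin, smul_eq_mul, ← mul_sum, e,
      mul_sum H]
    calc _ = ∑ _C ∈ H, 2 * (∑ j : Fin (M + 1), (j : ℕ) ^ 2 * (M - j) ^ 2) *
          (M + 1) ^ Fintype.card α := by rw [sum_const, smul_eq_mul]; ring
      _ ≤ _ := sum_le_sum fun C hC => by
          obtain ⟨a1, a2, a3, a4, a5⟩ := h C hC
          exact select2_two M C (R C) (B C) a1 a2 a3 a4 a5
  obtain ⟨π, -, h2⟩ := exists_le_of_sum_le univ_nonempty h1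
  exact ⟨fun x => (π x : ℕ), H.filter (P π), filter_subset _ _,
    select2_num hM (select2_sum M) h2, fun C hC => (mem_filter.1 hC).2⟩

end Pool.Agent.CDC36
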