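import Pool.Agent.Lib.MP_32fd1f_co.Genus2
import Pool.Agent.Lib.MP_32fd1f_co.Select2
import Pool.Agent.Lib.MP_32fd1f_co.Defs2

set_option autoImplicit false

namespace Pool.Agent.CDC36

open Finset

variable {V : Type} [Fintype V] [DecidableEq V]

theorem hg2_one {F : Finset (Finset (Sym2 V))} {C : Finset (Sym2 V)}
    {R B : Finset (Finset (Sym2 V))} (π : Finset (Sym2 V) → ℕ) (hC : C ∈ F) (hB : B ⊆ F)
    (hw : HdW F C R B) (lo : ∀ A ∈ B, π A < π C) (hi : ∀ A ∈ R, π C < π A) :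
    ∃ X Z : Finset (Sym2 V), (∀ e ∈ X, ∀ A ∈ F, e ∈ A → A = C ∨ π C < π A) ∧
      (∀ A ∈ F, Even (X ∩ A).card) ∧ IsEven Z ∧
      (∀ e ∈ Z, ∃ A ∈ F, e ∈ A ∧ (A = C ∨ π A < π C)) ∧ Odd (X ∩ Z).card := by
  obtain ⟨X, Z, k1, k2, k3, k4, k5⟩ := hw
  refine ⟨X, Z, fun e he A hA h => (k1 e he A hA h).imp_right (hi A), k2, k3, fun e he => ?_, k5⟩
  rcases k4 e he with h | ⟨A, hA, h⟩
  · exact ⟨C, hC, h, Or.inl rfl⟩
  · exact ⟨A, hB hA, h, Or.inr (lo A hA)⟩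

theorem hg2 {E : Finset (Sym2 V)} (hE : Cubic E) (hc : Conn E) {F : Finset (Finset (Sym2 V))}
    (hF : FCDC E F) (H : Finset (Finset (Sym2 V))) (hH : H ⊆ F) (hd : ∀ C ∈ H, Hd2 F C) :
    30 * F.card + 2 * H.card ≤ 15 * ((supp E).card + 4) := by
  choose! R B h1 h2 h3 h4 h5 h6 h7 w1 w2 using hd
  obtain ⟨π, K, hK, hc1, hc2⟩ := select2 H R B fun C hC =>
    ⟨h1 C hC, h2 C hC, h3 C hC, h4 C hC, h5 C hC⟩
  have key : ∀ C ∈ K, ∃ X Z : Finset (Sym2 V),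
      (∀ e ∈ X, ∀ A ∈ F, e ∈ A → A = C ∨ π C < π A) ∧
      (∀ A ∈ F, Even (X ∩ A).card) ∧ IsEven Z ∧
      (∀ e ∈ Z, ∃ A ∈ F, e ∈ A ∧ (A = C ∨ π A < π C)) ∧ Odd (X ∩ Z).card := by
    intro C hC
    rcases hc2 C hC with ⟨a, b⟩ | ⟨a, b⟩
    · exact hg2_one π (hH (hK hC)) (h7 C (hK hC)) (w1 C (hK hC)) a b
    · exact hg2_one π (hH (hK hC)) (h6 C (hK hC)) (w2 C (hK hC)) a b
  choose! X Z k1 k2 k3 k4 k5 using key
  have hg := genus2 hE hc hF K X Z π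
    (fun C hC => ⟨fun e he => by
      obtain ⟨A, hA, h, -⟩ := k4 C hC e he
      exact hF.subset hA h, k3 C hC⟩)
    k2 k5
    (fun C hC D hD hne hle => by
      rw [← Nat.not_odd_iff_even]
      intro ho
      obtain ⟨e, he⟩ := card_pos.1 ho.pos
      obtain ⟨A, hA, a2, a1⟩ := k4 C hC e (mem_inter.1 he).2
      have a3 := k1 D hD e (mem_inter.1 he).1 A hA a2
      rcases a1 with a1 | a1 <;> rcases a3 with a3 | a3
      · exact hne (a1.symm.trans a3)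
      · rw [a1] at a3; omega
      · rw [a3] at a1; omega
      · omega)
  omega

end Pool.Agent.CDC36
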