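import Pool.Agent.Lib.MP_32fd1f_co.Basic

set_option autoImplicit false

namespace Pool.Agent.CDC36

open Finset

variable {V : Type} [Fintype V] [DecidableEq V]

theorem ladA_nb {E : Finset (Sym2 V)} (hE : Cubic E) {u a b c : V} (ha : s(u, a) ∈ E)
    (hb : s(u, b) ∈ E) (hc : s(u, c) ∈ E) (hab : a ≠ b) (hac : a ≠ c) (hbc : b ≠ c) :
    ∀ d, s(u, d) ∈ E → d = a ∨ d = b ∨ d = c := by
  intro d hd
  rcases nbr_sat hE ha hb hc hab hac hbc _ hd (Sym2.mem_mk_left u d) with h | h | h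
  · exact Or.inl (Sym2.congr_right.1 h)
  · exact Or.inr (Or.inl (Sym2.congr_right.1 h))
  · exact Or.inr (Or.inr (Sym2.congr_right.1 h))

theorem ladA_third {E : Finset (Sym2 V)} (hE : Cubic E) {u a b : V} (ha : s(u, a) ∈ E)
    (hb : s(u, b) ∈ E) (hab : a ≠ b) : ∃ c, s(u, c) ∈ E ∧ a ≠ c ∧ b ≠ c := by
  obtain ⟨p, q, hap, haq, hpq, -, -, -, hp, hq, -⟩ := nbr3 hE ha
  by_cases h : b = p
  · exact ⟨q, hq, haq, h ▸ hpq⟩
  · exact ⟨p, hp, hap, h⟩

theorem ladA_swap {E : Finset (Sym2 V)} {a b : V} (h : s(a, b) ∈ E) : s(b, a) ∈ E := by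
  rw [Sym2.eq_swap]; exact h

theorem ladA_cut {E : Finset (Sym2 V)} {κ : V → Bool} (c : Bool) {e : Sym2 V} (he : e ∈ cut E κ) :
    ∃ a b, e = s(a, b) ∧ s(a, b) ∈ E ∧ κ a = c ∧ κ b ≠ c := by
  induction e using Sym2.ind with
  | h a b =>
    obtain ⟨h1, h2⟩ := mk_mem_cut.1 he
    by_cases ha : κ a = c
    · exact ⟨a, b, rfl, h1, ha, fun hb => h2 (ha.trans hb.symm)⟩
    · refine ⟨b, a, Sym2.eq_swap, ladA_swap h1, ?_, ha⟩
      revert h2 ha
      cases κ a <;> cases κ b <;> cases c <;> simp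

theorem ladA_ne {E : Finset (Sym2 V)} {w w' x x' u u' y y' : V}
    (hL : Lad E w w' x x' u u' y y') :
    (w ≠ w' ∧ w ≠ x ∧ w ≠ x' ∧ w ≠ u ∧ w ≠ u' ∧ w ≠ y ∧ w ≠ y') ∧
    (w' ≠ x ∧ w' ≠ x' ∧ w' ≠ u ∧ w' ≠ u' ∧ w' ≠ y ∧ w' ≠ y') ∧
    (x ≠ x' ∧ x ≠ u ∧ x ≠ u' ∧ x ≠ y ∧ x ≠ y') ∧ (x' ≠ u ∧ x' ≠ u' ∧ x' ≠ y ∧ x' ≠ y') ∧
    (u ≠ u' ∧ u ≠ y ∧ u ≠ y') ∧ (u' ≠ y ∧ u' ≠ y') ∧ y ≠ y' := by
  have h := hL.1
  simp only [List.nodup_cons, List.mem_cons, List.not_mem_nil, or_false, not_or,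
    List.nodup_nil, not_false_eq_true, and_true] at h
  exact h

theorem ladA_nodup {w w' x x' u u' y y' : V}
    (h : (w ≠ w' ∧ w ≠ x ∧ w ≠ x' ∧ w ≠ u ∧ w ≠ u' ∧ w ≠ y ∧ w ≠ y') ∧
    (w' ≠ x ∧ w' ≠ x' ∧ w' ≠ u ∧ w' ≠ u' ∧ w' ≠ y ∧ w' ≠ y') ∧
    (x ≠ x' ∧ x ≠ u ∧ x ≠ u' ∧ x ≠ y ∧ x ≠ y') ∧ (x' ≠ u ∧ x' ≠ u' ∧ x' ≠ y ∧ x' ≠ y') ∧
    (u ≠ u' ∧ u ≠ y ∧ u ≠ y') ∧ (u' ≠ y ∧ u' ≠ y') ∧ y ≠ y') :
    [w, w', x, x', u, u', y, y'].Nodup := by
  simp only [List.nodup_cons, List.mem_cons, List.not_mem_nil, or_false, not_or,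
    List.nodup_nil, not_false_eq_true, and_true]
  exact h

theorem ladA_flip {E : Finset (Sym2 V)} {w w' x x' u u' y y' : V}
    (hL : Lad E w w' x x' u u' y y') : Lad E w' w x' x u' u y' y := by
  obtain ⟨⟨a1, a2, a3, a4, a5, a6, a7⟩, ⟨b1, b2, b3, b4, b5, b6⟩, ⟨c1, c2, c3, c4, c5⟩,
    ⟨d1, d2, d3, d4⟩, ⟨e1, e2, e3⟩, ⟨f1, f2⟩, g1⟩ := ladA_ne hL
  obtain ⟨-, r1, r2, r3, r4, s1, s2, s3, t1, t2, t3⟩ := hL
  exact ⟨ladA_nodup ⟨⟨a1.symm, b2, b1, b4, b3, b6, b5⟩, ⟨a3, a2, a5, a4, a7, a6⟩,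
    ⟨c1.symm, d2, d1, d4, d3⟩, ⟨c3, c2, c5, c4⟩, ⟨e1.symm, f2, f1⟩, ⟨e3, e2⟩, g1.symm⟩,
    ladA_swap r1, ladA_swap r2, ladA_swap r3, ladA_swap r4, t1, t2, t3, s1, s2, s3⟩

theorem ladA_rev {E : Finset (Sym2 V)} {w w' x x' u u' y y' : V}
    (hL : Lad E w w' x x' u u' y y') : Lad E y y' u u' x x' w w' := by
  obtain ⟨⟨a1, a2, a3, a4, a5, a6, a7⟩, ⟨b1, b2, b3, b4, b5, b6⟩, ⟨c1, c2, c3, c4, c5⟩,
    ⟨d1, d2, d3, d4⟩, ⟨e1, e2, e3⟩, ⟨f1, f2⟩, g1⟩ := ladA_ne hL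
  obtain ⟨-, r1, r2, r3, r4, s1, s2, s3, t1, t2, t3⟩ := hL
  exact ⟨ladA_nodup ⟨⟨g1, e2.symm, f1.symm, c4.symm, d3.symm, a6.symm, b5.symm⟩,
    ⟨e3.symm, f2.symm, c5.symm, d4.symm, a7.symm, b6.symm⟩,
    ⟨e1, c2.symm, d1.symm, a4.symm, b3.symm⟩, ⟨c3.symm, d2.symm, a5.symm, b4.symm⟩,
    ⟨c1, a2.symm, b1.symm⟩, ⟨a3.symm, b2.symm⟩, a1⟩,
    r4, r3, r2, r1, ladA_swap s3, ladA_swap s2, ladA_swap s1, ladA_swap t3, ladA_swap t2,
    ladA_swap t1⟩

/-- the inner vertices are saturated -/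
theorem ladA_inner {E : Finset (Sym2 V)} (hE : Cubic E) {w w' x x' u u' y y' : V}
    (hL : Lad E w w' x x' u u' y y') :
    (∀ d, s(x, d) ∈ E → d = x' ∨ d = w ∨ d = u) ∧ (∀ d, s(x', d) ∈ E → d = x ∨ d = w' ∨ d = u') ∧
    (∀ d, s(u, d) ∈ E → d = u' ∨ d = x ∨ d = y) ∧
    (∀ d, s(u', d) ∈ E → d = u ∨ d = x' ∨ d = y') := by
  obtain ⟨⟨a1, a2, a3, a4, a5, a6, a7⟩, ⟨b1, b2, b3, b4, b5, b6⟩, ⟨c1, c2, c3, c4, c5⟩,
    ⟨d1, d2, d3, d4⟩, ⟨e1, e2, e3⟩, ⟨f1, f2⟩, g1⟩ := ladA_ne hL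
  obtain ⟨-, r1, r2, r3, r4, s1, s2, s3, t1, t2, t3⟩ := hL
  exact ⟨ladA_nb hE r2 (ladA_swap s1) s2 a3.symm d1 a4,
    ladA_nb hE (ladA_swap r2) (ladA_swap t1) t2 b1.symm c3 b4,
    ladA_nb hE r3 (ladA_swap s2) s3 c3.symm f1 c4,
    ladA_nb hE (ladA_swap r3) (ladA_swap t2) t3 d1.symm e3 d4⟩

theorem ladA_out {E : Finset (Sym2 V)} (hE : Cubic E) (h3 : EC 3 E) (hn : 8 < (supp E).card)
    {w w' x x' u u' y y' z : V} (hL : Lad E w w' x x' u u' y y') (hz : s(w, z) ∈ E)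
    (h1 : w' ≠ z) (h2 : x ≠ z) : ∀ v ∈ [w, w', x, x', u, u', y, y'], z ≠ v := by
  obtain ⟨⟨a1, a2, a3, a4, a5, a6, a7⟩, ⟨b1, b2, b3, b4, b5, b6⟩, ⟨c1, c2, c3, c4, c5⟩,
    ⟨d1, d2, d3, d4⟩, ⟨e1, e2, e3⟩, ⟨f1, f2⟩, g1⟩ := ladA_ne hL
  obtain ⟨Nx, Nx', Nu, Nu'⟩ := ladA_inner hE hL
  obtain ⟨-, r1, r2, r3, r4, s1, s2, s3, t1, t2, t3⟩ := hL
  have Nw := ladA_nb hE r1 s1 hz b1 h1 h2
  obtain ⟨z', hz', p1, p2⟩ := ladA_third hE (ladA_swap r1) t1 a3
  have Nw' := ladA_nb hE (ladA_swap r1) t1 hz' a3 p1 p2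
  obtain ⟨t, ht, q1, q2⟩ := ladA_third hE r4 (ladA_swap s3) e3.symm
  have Ny := ladA_nb hE r4 (ladA_swap s3) ht e3.symm q1 q2
  obtain ⟨t', ht', o1, o2⟩ := ladA_third hE (ladA_swap r4) (ladA_swap t3) f1.symm
  have Ny' := ladA_nb hE (ladA_swap r4) (ladA_swap t3) ht' f1.symm o1 o2
  have hcut : 3 ≤ (cut E (fun v => decide (v = w ∨ v = w' ∨ v = x ∨ v = x' ∨ v = u ∨ v = u' ∨
      v = y ∨ v = y'))).card := by
    refine h3 _ ⟨w, mem_supp.2 ⟨_, r1, Sym2.mem_mk_left _ _⟩, by simp⟩ ?_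
    have hc : ([w, w', x, x', u, u', y, y'].toFinset).card < (supp E).card :=
      lt_of_le_of_lt (List.toFinset_card_le _) hn
    obtain ⟨b, hb, hb'⟩ := Finset.exists_mem_notMem_of_card_lt_card hc
    refine ⟨b, hb, ?_⟩
    rw [List.mem_toFinset] at hb'
    simp only [List.mem_cons, List.not_mem_nil, or_false] at hb'
    exact decide_eq_false hb'
  have key : (z = y ∨ z = y') → False := by
    intro hzy
    have hsub : cut E (fun v => decide (v = w ∨ v = w' ∨ v = x ∨ v = x' ∨ v = u ∨ v = u' ∨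
        v = y ∨ v = y')) ⊆ {s(w', z'), if z = y then s(y', t') else s(y, t)} := by
      intro e he
      obtain ⟨a, b, rfl, hab, ha, hb⟩ := ladA_cut true he
      have ha' := of_decide_eq_true ha
      have hb' : ¬ (b = w ∨ b = w' ∨ b = x ∨ b = x' ∨ b = u ∨ b = u' ∨ b = y ∨ b = y') :=
        fun h => hb (decide_eq_true h)
      simp only [not_or] at hb'
      obtain ⟨n1, n2, n3, n4, n5, n6, n7, n8⟩ := hb'
      rw [Finset.mem_insert, Finset.mem_singleton]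
      rcases ha' with h | h | h | h | h | h | h | h <;> rw [h] at hab ⊢
      · rcases Nw b hab with k | k | k
        · exact absurd k n2
        · exact absurd k n3
        · rcases hzy with j | j
          · exact absurd (k.trans j) n7
          · exact absurd (k.trans j) n8
      · rcases Nw' b hab with k | k | k
        · exact absurd k n1
        · exact absurd k n4
        · exact Or.inl (by rw [k])
      · rcases Nx b hab with k | k | k
        · exact absurd k n4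
        · exact absurd k n1
        · exact absurd k n5
      · rcases Nx' b hab with k | k | k
        · exact absurd k n3
        · exact absurd k n2
        · exact absurd k n6
      · rcases Nu b hab with k | k | k
        · exact absurd k n6
        · exact absurd k n3
        · exact absurd k n7
      · rcases Nu' b hab with k | k | k
        · exact absurd k n5
        · exact absurd k n4
        · exact absurd k n8
      · rcases Ny b hab with k | k | k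
        · exact absurd k n8
        · exact absurd k n5
        · by_cases j : z = y
          · rcases Ny w (ladA_swap (j ▸ hz)) with l | l | l
            · exact absurd l a7
            · exact absurd l a4
            · exact absurd (k.trans l.symm) n1
          · exact Or.inr (by rw [if_neg j, k])
      · rcases Ny' b hab with k | k | k
        · exact absurd k n7
        · exact absurd k n6
        · by_cases j : z = y
          · exact Or.inr (by rw [if_pos j, k])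
          · rcases Ny' w (ladA_swap ((hzy.resolve_left j) ▸ hz)) with l | l | l
            · exact absurd l a6
            · exact absurd l a5
            · exact absurd (k.trans l.symm) n1
    have := (Finset.card_le_card hsub).trans Finset.card_le_two
    omega
  intro v hv h
  simp only [List.mem_cons, List.not_mem_nil, or_false] at hv
  rw [← h] at hv
  rcases hv with k | k | k | k | k | k | k | k
  · exact hE.1 _ hz (Sym2.mk_isDiag_iff.2 k.symm)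
  · exact h1 k.symm
  · exact h2 k.symm
  · rcases Nx' w (ladA_swap (k ▸ hz)) with l | l | l
    · exact a2 l
    · exact a1 l
    · exact a5 l
  · rcases Nu w (ladA_swap (k ▸ hz)) with l | l | l
    · exact a5 l
    · exact a2 l
    · exact a6 l
  · rcases Nu' w (ladA_swap (k ▸ hz)) with l | l | l
    · exact a4 l
    · exact a3 l
    · exact a7 l
  · exact key (Or.inl k)
  · exact key (Or.inr k)

/-- a common outer neighbour of `w` and `w'` gives a cut with at most three edges -/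
theorem ladA_sep {E : Finset (Sym2 V)} (hE : Cubic E) {w w' x x' u u' y y' z : V} (c : Bool)
    (hL : Lad E w w' x x' u u' y y') (hz : s(w, z) ∈ E) (hz' : s(w', z) ∈ E)
    (ho : ∀ v ∈ [w, w', x, x', u, u', y, y'], z ≠ v) :
    ∃ κ : V → Bool, κ w = c ∧ κ w' = c ∧ κ x = c ∧ κ x' = c ∧
      κ u = !c ∧ κ u' = !c ∧ κ y = !c ∧ κ y' = !c ∧ (cut E κ).card ≤ 3 := by
  obtain ⟨⟨a1, a2, a3, a4, a5, a6, a7⟩, ⟨b1, b2, b3, b4, b5, b6⟩, ⟨c1, c2, c3, c4, c5⟩,
    ⟨d1, d2, d3, d4⟩, ⟨e1, e2, e3⟩, ⟨f1, f2⟩, g1⟩ := ladA_ne hL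
  obtain ⟨Nx, Nx', Nu, Nu'⟩ := ladA_inner hE hL
  obtain ⟨-, r1, r2, r3, r4, s1, s2, s3, t1, t2, t3⟩ := hL
  have z1 : z ≠ w := ho w (by simp)
  have z2 : z ≠ w' := ho w' (by simp)
  have z3 : z ≠ x := ho x (by simp)
  have z4 : z ≠ x' := ho x' (by simp)
  have z5 : z ≠ u := ho u (by simp)
  have z6 : z ≠ u' := ho u' (by simp)
  have z7 : z ≠ y := ho y (by simp)
  have z8 : z ≠ y' := ho y' (by simp)
  have Nw := ladA_nb hE r1 s1 hz b1 z2.symm z3.symm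
  have Nw' := ladA_nb hE (ladA_swap r1) t1 hz' a3 z1.symm z4.symm
  obtain ⟨r, hr, p1, p2⟩ := ladA_third hE (ladA_swap hz) (ladA_swap hz') a1
  have Nz := ladA_nb hE (ladA_swap hz) (ladA_swap hz') hr a1 p1 p2
  refine ⟨fun v => if v = w ∨ v = w' ∨ v = x ∨ v = x' ∨ v = z then c else !c, if_pos (by simp),
    if_pos (by simp), if_pos (by simp), if_pos (by simp), if_neg ?_, if_neg ?_, if_neg ?_,
    if_neg ?_, ?_⟩
  · simp only [not_or]
    exact ⟨a4.symm, b3.symm, c2.symm, d1.symm, z5.symm⟩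
  · simp only [not_or]
    exact ⟨a5.symm, b4.symm, c3.symm, d2.symm, z6.symm⟩
  · simp only [not_or]
    exact ⟨a6.symm, b5.symm, c4.symm, d3.symm, z7.symm⟩
  · simp only [not_or]
    exact ⟨a7.symm, b6.symm, c5.symm, d4.symm, z8.symm⟩
  · refine le_trans (Finset.card_le_card (t := {s(x, u), s(x', u'), s(z, r)}) ?_)
      Finset.card_le_three
    intro e he
    obtain ⟨a, b, rfl, hab, ha, hb⟩ := ladA_cut c he
    have ha' : a = w ∨ a = w' ∨ a = x ∨ a = x' ∨ a = z := by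
      by_contra h
      rw [if_neg h] at ha
      revert ha
      cases c <;> simp
    have hb' : ¬ (b = w ∨ b = w' ∨ b = x ∨ b = x' ∨ b = z) := fun h => hb (if_pos h)
    simp only [not_or] at hb'
    obtain ⟨n1, n2, n3, n4, n5⟩ := hb'
    rw [Finset.mem_insert, Finset.mem_insert, Finset.mem_singleton]
    rcases ha' with h | h | h | h | h <;> rw [h] at hab ⊢
    · rcases Nw b hab with k | k | k
      · exact absurd k n2
      · exact absurd k n3
      · exact absurd k n5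
    · rcases Nw' b hab with k | k | k
      · exact absurd k n1
      · exact absurd k n4
      · exact absurd k n5
    · rcases Nx b hab with k | k | k
      · exact absurd k n4
      · exact absurd k n1
      · exact Or.inl (by rw [k])
    · rcases Nx' b hab with k | k | k
      · exact absurd k n3
      · exact absurd k n2
      · exact Or.inr (Or.inl (by rw [k]))
    · rcases Nz b hab with k | k | k
      · exact absurd k n1
      · exact absurd k n2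
      · exact Or.inr (Or.inr (by rw [k]))

theorem lad {E : Finset (Sym2 V)} (hE : Cubic E) (h3 : EC 3 E) (hn : 8 < (supp E).card)
    {w w' x x' u u' y y' : V} (hL : Lad E w w' x x' u u' y y') :
    ∃ z z' t t', LadX E w w' x x' u u' y y' z z' t t' := by
  have one : ∀ {w w' x x' u u' y y' : V}, Lad E w w' x x' u u' y y' →
      ∃ z, s(w, z) ∈ E ∧ ∀ v ∈ [w, w', x, x', u, u', y, y'], z ≠ v := by
    intro w w' x x' u u' y y' hL
    obtain ⟨z, hz, p1, p2⟩ := ladA_third hE hL.2.1 hL.2.2.2.2.2.1 (ladA_ne hL).2.1.1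
    exact ⟨z, hz, ladA_out hE h3 hn hL hz p1 p2⟩
  obtain ⟨z, hz, oz⟩ := one hL
  obtain ⟨z', hz', oz'⟩ := one (ladA_flip hL)
  obtain ⟨t, ht, ot⟩ := one (ladA_rev hL)
  obtain ⟨t', ht', ot'⟩ := one (ladA_flip (ladA_rev hL))
  refine ⟨z, z', t, t', hL, hz, hz', ht, ht', fun v hv => ⟨oz v hv, oz' v ?_, ot v ?_, ot' v ?_⟩⟩
  all_goals
    simp only [List.mem_cons, List.not_mem_nil, or_false] at hv ⊢
    tauto

theorem zne {E : Finset (Sym2 V)} (hE : Cubic E) {w w' x x' u u' y y' z z' t t' : V}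
    (hL : LadX E w w' x x' u u' y y' z z' t t') (hS : ¬ Sep E w w' x x' u u' y y') :
    z ≠ z' ∧ t ≠ t' := by
  obtain ⟨hL, hz, hz', ht, ht', ho⟩ := hL
  constructor
  · intro h
    exact hS (ladA_sep hE false hL hz (h ▸ hz') fun v hv => (ho v hv).1)
  · intro h
    obtain ⟨κ, k1, k2, k3, k4, k5, k6, k7, k8, k9⟩ := ladA_sep hE true (ladA_rev hL) ht (h ▸ ht')
      (fun v hv => (ho v (by
        simp only [List.mem_cons, List.not_mem_nil, or_false] at hv ⊢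
        tauto)).2.2.1)
    exact hS ⟨κ, k7, k8, k5, k6, k3, k4, k1, k2, k9⟩

end Pool.Agent.CDC36
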