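import Pool.Agent.Lib.MP_32fd1f_co.Basic

set_option autoImplicit false

namespace Pool.Agent.CDC36

open Finset

variable {V : Type} [Fintype V] [DecidableEq V]

theorem linA_sum {W : Type} [AddCommMonoid W] {a b : V} (h : a ≠ b) (t : V → W) :
    (∑ v, if v ∈ s(a, b) then t v else 0) = t a + t b := by
  rw [← Finset.sum_filter]
  have : univ.filter (fun v => v ∈ s(a, b)) = {a, b} := by
    ext v; simp
  rw [this, Finset.sum_pair h]

theorem linA_repr (φ : (Sym2 V → Fin 3 → ZMod 2) →ₗ[ZMod 2] ZMod 2)
    (x : Sym2 V → Fin 3 → ZMod 2) :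
    φ x = ∑ e, (fun i => φ (Pi.single e (Pi.single i 1))) ⬝ᵥ x e := by
  have hx : x = ∑ e, ∑ i, x e i • (Pi.single e (Pi.single i 1) : Sym2 V → Fin 3 → ZMod 2) := by
    funext e i
    simp only [Finset.sum_apply, Pi.smul_apply, smul_eq_mul]
    rw [Finset.sum_eq_single e]
    · rw [Finset.sum_eq_single i]
      · simp
      · intro j _ hj
        simp [Ne.symm hj]
      · simp
    · intro e' _ he'
      simp [Ne.symm he']
    · simp
  conv_lhs => rw [hx]
  simp only [map_sum, map_smul, smul_eq_mul, dotProduct, mul_comm]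

theorem linA {E : Finset (Sym2 V)} (hE : NoLoop E) (f : Sym2 V → (Fin 3 → ZMod 2))
    (g : V → Sym2 V → (Fin 3 → ZMod 2))
    (hg : ∀ v, ∀ η : Sym2 V → (Fin 3 → ZMod 2), (∀ e ∈ E, η e ⬝ᵥ f e = 0) →
      ∑ e ∈ E.filter (fun e => v ∈ e), η e = 0 →
      ∑ e ∈ E.filter (fun e => v ∈ e), η e ⬝ᵥ g v e =
        (((E.filter (fun e => v ∈ e)).filter (fun e => η e ≠ 0)).card : ZMod 2)) :
    ∃ (t : V → (Fin 3 → ZMod 2)) (ε : Sym2 V → ZMod 2), ∀ a b, s(a, b) ∈ E →
      t a + t b + ε s(a, b) • f s(a, b) = g a s(a, b) + g b s(a, b) := by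
  let L : ((V → Fin 3 → ZMod 2) × (Sym2 V → ZMod 2)) →ₗ[ZMod 2] (Sym2 V → Fin 3 → ZMod 2) :=
    { toFun := fun p e => if e ∈ E then (∑ v, if v ∈ e then p.1 v else 0) + p.2 e • f e else 0
      map_add' := by
        intro p q
        funext e
        by_cases he : e ∈ E
        · simp only [he, if_true, Prod.fst_add, Prod.snd_add, Pi.add_apply, add_smul]
          have : (∑ v, if v ∈ e then p.1 v + q.1 v else 0) =
              (∑ v, if v ∈ e then p.1 v else 0) + ∑ v, if v ∈ e then q.1 v else 0 := by
            rw [← Finset.sum_add_distrib]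
            refine Finset.sum_congr rfl fun v _ => ?_
            split_ifs <;> simp
          rw [this]; abel
        · simp [he]
      map_smul' := by
        intro c p
        funext e
        by_cases he : e ∈ E
        · simp only [he, if_true, Prod.smul_fst, Prod.smul_snd, Pi.smul_apply, RingHom.id_apply,
            smul_add, Finset.smul_sum, smul_eq_mul, mul_smul]
          congr 1
          refine Finset.sum_congr rfl fun v _ => ?_
          split_ifs <;> simp
        · simp [he] }
  have hL : ∀ p e, L p e =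
      if e ∈ E then (∑ v, if v ∈ e then p.1 v else 0) + p.2 e • f e else 0 := fun _ _ => rfl
  let r : Sym2 V → Fin 3 → ZMod 2 := fun e => if e ∈ E then ∑ v, if v ∈ e then g v e else 0 else 0
  have hr : r ∈ LinearMap.range L := by
    by_contra hn
    obtain ⟨φ, hφ, hbot⟩ := Submodule.exists_dual_map_eq_bot_of_notMem hn inferInstance
    have h0 : ∀ p, φ (L p) = 0 := fun p => by
      have : φ (L p) ∈ (LinearMap.range L).map φ := Submodule.mem_map_of_mem ⟨p, rfl⟩
      rw [hbot] at this
      exact (Submodule.mem_bot _).1 this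
    obtain ⟨η, hη⟩ : ∃ η : Sym2 V → Fin 3 → ZMod 2, ∀ x, φ x = ∑ e, η e ⬝ᵥ x e :=
      ⟨_, linA_repr φ⟩
    have h1 : ∀ e ∈ E, η e ⬝ᵥ f e = 0 := by
      intro e he
      have := h0 (0, Pi.single e 1)
      rw [hη, Finset.sum_eq_single e] at this
      · simpa [hL, he] using this
      · intro e' _ he'
        simp [hL, he']
      · simp
    have h2 : ∀ v, ∑ e ∈ E.filter (fun e => v ∈ e), η e = 0 := by
      intro v
      funext i
      have := h0 (Pi.single v (Pi.single i 1), 0)
      rw [hη] at this
      have e1 : ∀ e, η e ⬝ᵥ L (Pi.single v (Pi.single i 1), 0) e =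
          if e ∈ E.filter (fun e => v ∈ e) then η e i else 0 := by
        intro e
        rw [hL]
        by_cases he : e ∈ E
        · simp only [he, if_true, Pi.zero_apply, zero_smul, add_zero, Finset.mem_filter, true_and]
          rw [Finset.sum_eq_single v]
          · by_cases hv : v ∈ e
            · simp [hv]
            · simp [hv]
          · intro u _ hu
            simp [hu]
          · simp
        · simp [he]
      simp only [e1] at this
      rw [← Finset.sum_filter, Finset.filter_mem_eq_inter, Finset.univ_inter] at this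
      rw [Finset.sum_apply]
      exact this
    apply hφ
    rw [hη]
    have e2 : ∀ e, η e ⬝ᵥ r e = ∑ v, if e ∈ E ∧ v ∈ e then η e ⬝ᵥ g v e else 0 := by
      intro e
      by_cases he : e ∈ E
      · simp only [r, he, if_true, true_and, dotProduct_sum]
        refine Finset.sum_congr rfl fun v _ => ?_
        split_ifs <;> simp
      · simp [r, he]
    simp only [e2]
    rw [Finset.sum_comm]
    have e3 : ∀ v, (∑ e, if e ∈ E ∧ v ∈ e then η e ⬝ᵥ g v e else 0) =
        ∑ e ∈ E.filter (fun e => η e ≠ 0), if v ∈ e then (1 : ZMod 2) else 0 := by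
      intro v
      have : univ.filter (fun e => e ∈ E ∧ v ∈ e) = E.filter (fun e => v ∈ e) := by
        ext e; simp
      rw [← Finset.sum_filter, this, hg v η h1 (h2 v), ← Finset.sum_filter, Finset.filter_comm]
      simp
    simp only [e3]
    rw [Finset.sum_comm]
    refine Finset.sum_eq_zero fun e he => ?_
    have hd := hE e (Finset.mem_filter.1 he).1
    induction e using Sym2.ind with
    | _ a b =>
      rw [linA_sum (by simpa using hd) (fun _ => (1 : ZMod 2))]
      decide
  obtain ⟨p, hp⟩ := hr
  refine ⟨p.1, p.2, fun a b hab => ?_⟩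
  have hne : a ≠ b := by simpa using hE _ hab
  have := congrFun hp s(a, b)
  rw [hL] at this
  simp only [r, hab, if_true] at this
  rw [linA_sum hne, linA_sum hne (fun v => g v s(a, b))] at this
  exact this

end Pool.Agent.CDC36
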