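import Pool.Agent.Lib.MP_32fd1f_co.Defs

set_option autoImplicit false

namespace Pool.Agent.CDC36

open Finset

variable {V : Type} [Fintype V] [DecidableEq V]

private theorem op_adj (S : Finset ℕ) (r : ℕ → ℕ → Prop) (j : ℕ)
    (h : ∀ m ∈ S, r j m → ¬ ∃ t ∈ S, (j < t ∧ t < m) ∨ (m < t ∧ t < j)) :
    ∃ p q : ℕ, ∀ m ∈ S, m ≠ j → r j m → m = p ∨ m = q := by
  have h1 : ∃ p : ℕ, ∀ m ∈ S, m < j → r j m → m = p := by
    by_cases h0 : ∃ p ∈ S, p < j ∧ r j p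
    · obtain ⟨p, hp, hpj, hr⟩ := h0
      refine ⟨p, fun m hm hmj hr' => ?_⟩
      rcases lt_trichotomy m p with h2 | h2 | h2
      · exact absurd ⟨p, hp, Or.inr ⟨h2, hpj⟩⟩ (h m hm hr')
      · exact h2
      · exact absurd ⟨m, hm, Or.inr ⟨h2, hmj⟩⟩ (h p hp hr)
    · exact ⟨0, fun m hm hmj hr' => absurd ⟨m, hm, hmj, hr'⟩ h0⟩
  have h2 : ∃ q : ℕ, ∀ m ∈ S, j < m → r j m → m = q := by
    by_cases h0 : ∃ p ∈ S, j < p ∧ r j p
    · obtain ⟨p, hp, hpj, hr⟩ := h0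
      refine ⟨p, fun m hm hmj hr' => ?_⟩
      rcases lt_trichotomy m p with h2 | h2 | h2
      · exact absurd ⟨m, hm, Or.inl ⟨hmj, h2⟩⟩ (h p hp hr)
      · exact h2
      · exact absurd ⟨p, hp, Or.inl ⟨hpj, h2⟩⟩ (h m hm hr')
    · exact ⟨0, fun m hm hmj hr' => absurd ⟨m, hm, hmj, hr'⟩ h0⟩
  obtain ⟨p, hp⟩ := h1
  obtain ⟨q, hq⟩ := h2
  refine ⟨p, q, fun m hm hmj hr => ?_⟩
  rcases lt_or_gt_of_ne hmj with h3 | h3
  · exact Or.inl (hp m hm h3 hr)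
  · exact Or.inr (hq m hm h3 hr)

private theorem op_key (S : Finset ℕ) (r : ℕ → ℕ → Prop) (hs : ∀ i j, r i j → r j i)
    (hx : ∀ i ∈ S, ∀ j ∈ S, ∀ k ∈ S, ∀ m ∈ S, i < j → j < k → k < m → r i k → r j m → False)
    (d : ℕ) : ∀ i ∈ S, ∀ k ∈ S, ∀ j ∈ S, k - i = d → r i k → i < j → j < k →
      ∃ j ∈ S, ∃ p q : ℕ, ∀ m ∈ S, m ≠ j → r j m → m = p ∨ m = q := by
  induction d using Nat.strong_induction_on with
  | _ d ih =>
  intro i hi k hk j hj hd hr hij hjk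
  by_cases h : ∀ m ∈ S, r j m → ¬ ∃ t ∈ S, (j < t ∧ t < m) ∨ (m < t ∧ t < j)
  · exact ⟨j, hj, op_adj S r j h⟩
  · push Not at h
    obtain ⟨m, hm, hr', t, ht, h⟩ := h
    rcases h with ⟨h1, h2⟩ | ⟨h1, h2⟩
    · have h3 : m ≤ k := by
        by_contra hn
        exact hx i hi j hj k hk m hm hij hjk (by omega) hr hr'
      exact ih (m - j) (by omega) j hj m hm t ht rfl hr' h1 h2
    · have h3 : i ≤ m := by
        by_contra hn
        exact hx m hm i hi j hj k hk (by omega) hij hjk (hs _ _ hr') hr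
      exact ih (j - m) (by omega) m hm j hj t ht rfl (hs _ _ hr') h1 h2

private theorem op_low (S : Finset ℕ) (r : ℕ → ℕ → Prop) (hs : ∀ i j, r i j → r j i)
    (hx : ∀ i ∈ S, ∀ j ∈ S, ∀ k ∈ S, ∀ m ∈ S, i < j → j < k → k < m → r i k → r j m → False)
    (hS : S.Nonempty) :
    ∃ j ∈ S, ∃ p q : ℕ, ∀ m ∈ S, m ≠ j → r j m → m = p ∨ m = q := by
  obtain ⟨j, hj⟩ := hS
  by_cases h : ∀ m ∈ S, r j m → ¬ ∃ t ∈ S, (j < t ∧ t < m) ∨ (m < t ∧ t < j)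
  · exact ⟨j, hj, op_adj S r j h⟩
  · push Not at h
    obtain ⟨m, hm, hr', t, ht, h⟩ := h
    rcases h with ⟨h1, h2⟩ | ⟨h1, h2⟩
    · exact op_key S r hs hx _ j hj m hm t ht rfl hr' h1 h2
    · exact op_key S r hs hx _ m hm j hj t ht rfl (hs _ _ hr') h1 h2

private theorem op_col (a b : Fin 3) : ∃ c : Fin 3, c ≠ a ∧ c ≠ b := by
  revert a b
  decide

theorem op (S : Finset ℕ) (r : ℕ → ℕ → Prop) (hs : ∀ i j, r i j → r j i)
    (hx : ∀ i ∈ S, ∀ j ∈ S, ∀ k ∈ S, ∀ m ∈ S, i < j → j < k → k < m → r i k → r j m → False) :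
    ∃ χ : ℕ → Fin 3, ∀ i ∈ S, ∀ j ∈ S, i ≠ j → r i j → χ i ≠ χ j := by
  induction S using Finset.strongInduction with
  | _ S ih =>
  rcases S.eq_empty_or_nonempty with rfl | hS
  · exact ⟨fun _ => 0, fun i hi => absurd hi (Finset.notMem_empty i)⟩
  obtain ⟨j, hj, p, q, hpq⟩ := op_low S r hs hx hS
  obtain ⟨χ, hχ⟩ := ih (S.erase j) (Finset.erase_ssubset hj) (fun a ha b hb c hc d hd =>
    hx a (Finset.mem_of_mem_erase ha) b (Finset.mem_of_mem_erase hb) c (Finset.mem_of_mem_erase hc)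
      d (Finset.mem_of_mem_erase hd))
  obtain ⟨c, hc1, hc2⟩ := op_col (χ p) (χ q)
  have key : ∀ m ∈ S, m ≠ j → r j m → c ≠ χ m := by
    intro m hm hmj hr
    rcases hpq m hm hmj hr with rfl | rfl
    · exact hc1
    · exact hc2
  refine ⟨fun i => if i = j then c else χ i, fun a ha b hb hab hr => ?_⟩
  by_cases h1 : a = j
  · subst h1
    simp only [if_true, if_neg (Ne.symm hab)]
    exact key b hb (Ne.symm hab) hr
  · by_cases h2 : b = j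
    · subst h2
      simp only [if_true, if_neg h1]
      exact (key a ha h1 (hs _ _ hr)).symm
    · simp only [if_neg h1, if_neg h2]
      exact hχ a (Finset.mem_erase.2 ⟨h1, ha⟩) b (Finset.mem_erase.2 ⟨h2, hb⟩) hab hr

end Pool.Agent.CDC36
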