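import Pool.Agent.Lib.MP_32fd1f_co.Loc
import Pool.Agent.Lib.MP_32fd1f_co.EnumC
import Pool.Agent.Lib.MP_32fd1f_co.EnumL
import Pool.Agent.Lib.MP_32fd1f_co.Cross
import Pool.Agent.Lib.MP_32fd1f_co.Ds
import Pool.Agent.Lib.MP_32fd1f_co.Op

set_option autoImplicit false

namespace Pool.Agent.CDC36

open Finset

variable {V : Type} [Fintype V] [DecidableEq V]

theorem treeA_per {C : Finset (Sym2 V)} {v : ℕ → V} (hv : Enum C v) (k i : ℕ) :
    v (i + C.card * k) = v i := by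
  induction k with
  | zero => simp
  | succ k ih => rw [Nat.mul_succ, ← Nat.add_assoc, hv.1, ih]

theorem treeA_mod {C : Finset (Sym2 V)} {v : ℕ → V} (hv : Enum C v) (p : ℕ) :
    v (p % C.card) = v p := by
  conv_rhs => rw [← Nat.mod_add_div p C.card]
  exact (treeA_per hv _ _).symm

theorem treeA_mem {C : Finset (Sym2 V)} {v : ℕ → V} (hv : Enum C v) (h3 : 3 ≤ C.card) (p : ℕ) :
    s(v p, v (p + 1)) ∈ C := by
  refine (hv.2.2 _).2 ⟨p % C.card, Nat.mod_lt _ (by omega), ?_⟩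
  have h1 : v (p % C.card + 1) = v (p + 1) := by
    have : p + 1 = p % C.card + 1 + C.card * (p / C.card) := by
      have := Nat.mod_add_div p C.card
      omega
    rw [this, treeA_per hv]
  rw [treeA_mod hv, h1]

theorem treeA_ne {C : Finset (Sym2 V)} {v : ℕ → V} (hv : Enum C v) (h3 : 3 ≤ C.card) (p : ℕ) :
    v p ≠ v (p + 2) := by
  intro h
  rw [← treeA_mod hv p, ← treeA_mod hv (p + 2)] at h
  have h1 := hv.2.1 _ _ (Nat.mod_lt _ (by omega)) (Nat.mod_lt _ (by omega)) h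
  have h2 : C.card ∣ p + 2 - p := (Nat.modEq_iff_dvd' (by omega)).1 h1
  have h4 : p + 2 - p = 2 := by omega
  rw [h4] at h2
  have := Nat.le_of_dvd (by norm_num) h2
  omega

/-- the sequence of faces around `C` -/
theorem treeA_seq {E : Finset (Sym2 V)} (hE : Cubic E) {F : Finset (Finset (Sym2 V))}
    (hF : FCDC E F) {C : Finset (Sym2 V)} (hC : C ∈ F) (hn : ¬ Hd F C) :
    ∃ a : ℕ → Finset (Sym2 V), 3 ≤ C.card ∧ nbrs F C = (Finset.range C.card).image a ∧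
      (∀ p, (a p).Nonempty) ∧ (∀ i, a i ≠ a (i + 1)) ∧ a 0 ≠ a (C.card - 1) ∧
      ∀ i j k m, i < j → j < k → k < m → m < C.card → (a i ∩ a k).Nonempty →
        (a j ∩ a m).Nonempty → a i ≠ a j → a i ≠ a m → a k ≠ a j → a k ≠ a m → False := by
  obtain ⟨e, he⟩ := (hF.1 C hC).1
  induction e using Sym2.ind with
  | h x y =>
  obtain ⟨h3, v, hv, -, -⟩ := enum (hF.1 C hC) he
  have hmem := treeA_mem hv h3
  choose a ha1 ha2 ha3 ha4 using fun p => hF.other hC (hmem p)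
  have key : ∀ i A, A ∈ F → s(v i, v (i + 1)) ∈ A → s(v (i + 1), v (i + 1 + 1)) ∈ A → A = C := by
    intro i A hA h1 h2
    have e1 : s(v (i + 1), v i) ∈ C := by rw [Sym2.eq_swap]; exact hmem i
    have e1' : s(v (i + 1), v i) ∈ A := by rw [Sym2.eq_swap]; exact h1
    exact (loc hE hF (hF.subset hC e1) (hF.subset hC (hmem (i + 1))) (treeA_ne hv h3 i)).unique
      ⟨hA, e1', h2⟩ ⟨hC, e1, hmem (i + 1)⟩
  refine ⟨a, h3, ?_, fun p => ⟨_, ha3 p⟩, ?_, ?_, ?_⟩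
  · ext A
    simp only [nbrs, mem_filter, mem_image, mem_range]
    constructor
    · rintro ⟨hA, hAC, e, he⟩
      obtain ⟨heA, heC⟩ := mem_inter.1 he
      obtain ⟨i, hi, rfl⟩ := (hv.2.2 e).1 heC
      rcases ha4 i A hA heA with h | h
      · exact absurd h hAC
      · exact ⟨i, hi, h.symm⟩
    · rintro ⟨i, -, rfl⟩
      exact ⟨ha1 i, ha2 i, _, mem_inter.2 ⟨ha3 i, hmem i⟩⟩
  · intro i h
    exact ha2 i (key i (a i) (ha1 i) (ha3 i) (h ▸ ha3 (i + 1)))
  · intro h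
    refine ha2 0 (key (C.card - 1) (a 0) (ha1 0) (h ▸ ha3 (C.card - 1)) ?_)
    have e1 : C.card - 1 + 1 = 0 + C.card := by omega
    have e2 : 0 + C.card + 1 = 0 + 1 + C.card := by omega
    rw [e1, e2, hv.1, hv.1]
    exact ha3 0
  · intro i j k m hij hjk hkm hm hik hjm n1 n2 n3 n4
    exact hn (cross hF hC h3 hv a (fun p => ⟨ha1 p, ha2 p, ha3 p⟩) hij hjk hkm hm hik hjm
      n1 n2 n3 n4)

theorem tree1 {E : Finset (Sym2 V)} (hE : Cubic E) {F : Finset (Finset (Sym2 V))} (hF : FCDC E F)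
    {C : Finset (Sym2 V)} (hC : C ∈ F) (hn : ¬ Hd F C) : F1 F C := by
  obtain ⟨a, h3, hN, hne, h1, h2, hx⟩ := treeA_seq hE hF hC hn
  unfold F1
  rw [hN]
  refine ds a C.card (by omega) (fun i _ => h1 i) h2 ?_
  intro i j k m hij hjk hkm hm hik hjm
  by_contra hij'
  refine hx i j k m hij hjk hkm hm ?_ ?_ hij' ?_ ?_ ?_
  · rw [← hik, inter_self]; exact hne i
  · rw [← hjm, inter_self]; exact hne j
  · rw [← hjm]; exact hij'
  · rw [← hik]; exact hij'
  · rw [← hik, ← hjm]; exact hij'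

theorem tree3 {E : Finset (Sym2 V)} (hE : Cubic E) {F : Finset (Finset (Sym2 V))} (hF : FCDC E F)
    {C : Finset (Sym2 V)} (hC : C ∈ F) (hn : ¬ Hd F C) :
    ∃ χ : Finset (Sym2 V) → Fin 3,
      ∀ A ∈ nbrs F C, ∀ B ∈ nbrs F C, A ≠ B → (A ∩ B).Nonempty → χ A ≠ χ B := by
  classical
  obtain ⟨a, h3, hN, hne, h1, h2, hx⟩ := treeA_seq hE hF hC hn
  obtain ⟨χ, hχ⟩ := op ((Finset.range C.card).filter (fun i => ∀ j < i, a j ≠ a i))
    (fun i j => (a i ∩ a j).Nonempty) (fun i j h => by rw [inter_comm]; exact h) (by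
      intro i hi j hj k hk m hm hij hjk hkm hik hjm
      obtain ⟨hm1, hm2⟩ := mem_filter.1 hm
      exact hx i j k m hij hjk hkm (mem_range.1 hm1) hik hjm ((mem_filter.1 hj).2 i hij)
        (hm2 i (by omega)) ((mem_filter.1 hk).2 j hjk).symm (hm2 k hkm))
  have first : ∀ A ∈ nbrs F C, ∃ h : ∃ i, a i = A, a (Nat.find h) = A ∧
      Nat.find h ∈ (Finset.range C.card).filter (fun i => ∀ j < i, a j ≠ a i) := by
    intro A hA
    rw [hN] at hA
    obtain ⟨i, hi, hiA⟩ := mem_image.1 hA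
    have h : ∃ i, a i = A := ⟨i, hiA⟩
    refine ⟨h, Nat.find_spec h, mem_filter.2 ⟨mem_range.2 ?_, fun j hj => ?_⟩⟩
    · exact lt_of_le_of_lt (Nat.find_min' h hiA) (mem_range.1 hi)
    · rw [Nat.find_spec h]
      exact Nat.find_min h hj
  refine ⟨fun A => if h : ∃ i, a i = A then χ (Nat.find h) else 0, ?_⟩
  intro A hA B hB hAB hI
  obtain ⟨hA1, hA2, hA3⟩ := first A hA
  obtain ⟨hB1, hB2, hB3⟩ := first B hB
  simp only [dif_pos hA1, dif_pos hB1]
  refine hχ _ hA3 _ hB3 ?_ ?_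
  · intro h
    exact hAB (by rw [← hA2, h, hB2])
  · show (a (Nat.find hA1) ∩ a (Nat.find hB1)).Nonempty
    rw [hA2, hB2]
    exact hI

end Pool.Agent.CDC36
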