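import Pool.Agent.Lib.MP_32fd1f_co.Exist
import Pool.Agent.Lib.MP_32fd1f_co.Loc
import Pool.Agent.Lib.MP_32fd1f_co.Elim
import Pool.Agent.Lib.MP_32fd1f_co.TreeA
import Pool.Agent.Lib.MP_32fd1f_co.TreeB
import Pool.Agent.Lib.MP_32fd1f_co.Hg
import Pool.Agent.Lib.MP_32fd1f_co.Cnt1
import Pool.Agent.Lib.MP_32fd1f_co.Cnt2
import Pool.Agent.Lib.MP_32fd1f_co.Cnt3b

set_option autoImplicit false

namespace Pool.Agent.CDC36

open Finset

variable {V : Type} [Fintype V] [DecidableEq V]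

theorem count {E : Finset (Sym2 V)} (hE : Cubic E) (hc : Conn E) (hn : 6 < (supp E).card)
    {F : Finset (Finset (Sym2 V))} (hF : FCDC E F) {T : Finset (Finset (Sym2 V))} (hT : T ⊆ F)
    (h : ∀ C ∈ T, F1 F C ∧ F2 F C) {L : Finset V} (hL : LadIn E L) :
    20 * T.card ≤ 9 * (supp E).card + L.card := by
  have h2 : ∀ C ∈ T, F2 F C := fun C hC => (h C hC).2
  obtain ⟨a1, a2, a3, a4⟩ := cnt3a hE hF hT h2
  have b1 := cnt3b hE hc hn hF hT h2
  have b2 := cnt2 hE hc hn a1 a2 hL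
  have b3 : ∑ C ∈ T, (6 + (bigs F C).card) ≤ ∑ C ∈ T, 3 * (singles F C).card :=
    sum_le_sum fun C hC => cnt1 hF (hT hC) (h C hC).1
  rw [sum_add_distrib, sum_const, smul_eq_mul, ← mul_sum] at b3
  omega

theorem mainA {E : Finset (Sym2 V)} (hE : Cubic E) (h2 : EC 2 E) {L : Finset V} (hL : LadIn E L) :
    ∃ M, MCDC E M ∧ 4880 * M.card ≤ 2439 * (supp E).card + L.card + 9770 := by
  classical
  have hc : Conn E := h2.conn (by norm_num)
  have hex : ∃ k, ∃ M, MCDC E M ∧ M.card = k := by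
    obtain ⟨M, hM⟩ := exist hE h2
    exact ⟨_, M, hM, rfl⟩
  obtain ⟨M, hM, hk⟩ := Nat.find_spec hex
  have hmin : ∀ M', MCDC E M' → M.card ≤ M'.card := fun M' h' =>
    hk ▸ Nat.find_min' hex ⟨M', h', rfl⟩
  obtain ⟨F, rfl, hF⟩ := nodup hE hM
  refine ⟨F.val, hM, ?_⟩
  rw [card_val] at hmin ⊢
  rcases le_or_gt (supp E).card 6 with hn | hn
  · have := hg hE hc hF ∅ (empty_subset _) (by simp)
    omega
  · have h3 := hg hE hc hF (F.filter (Hd F)) (filter_subset _ _) fun C hC => (mem_filter.1 hC).2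
    have h4 := count hE hc hn hF (filter_subset (fun C => ¬ Hd F C) F) (fun C hC => by
      obtain ⟨hC, hh⟩ := mem_filter.1 hC
      obtain ⟨χ, hχ⟩ := tree3 hE hF hC hh
      obtain ⟨M', hM', h5⟩ := elim hE hF hC χ hχ
      have h6 := hmin M' hM'
      exact ⟨tree1 hE hF hC hh, tree2 hE hF hC hh (by omega)⟩) hL
    have h7 := card_filter_add_card_filter_not (s := F) (Hd F)
    omega

end Pool.Agent.CDC36
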