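import Pool.Agent.Lib.MP_32fd1f_co.Loc
import Pool.Agent.Lib.MP_32fd1f_co.EnumC
import Pool.Agent.Lib.MP_32fd1f_co.EnumL
import Pool.Agent.Lib.MP_32fd1f_co.Cross2
import Pool.Agent.Lib.MP_32fd1f_co.Ds

set_option autoImplicit false

namespace Pool.Agent.CDC36

open Finset

variable {V : Type} [Fintype V] [DecidableEq V]

theorem treeB2_mem {C : Finset (Sym2 V)} {v : ℕ → V} (hv : Enum C v) (h3 : 3 ≤ C.card) (p : ℕ) :
    s(v p, v (p + 1)) ∈ C := by
  induction p using Nat.strong_induction_on with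
  | _ p ih =>
    by_cases hp : p < C.card
    · exact (hv.2.2 _).2 ⟨p, hp, rfl⟩
    · obtain ⟨q, rfl⟩ : ∃ q, p = q + C.card := ⟨p - C.card, by omega⟩
      have e : q + C.card + 1 = q + 1 + C.card := by omega
      rw [e, hv.1, hv.1]
      exact ih q (by omega)

theorem tree2x {E : Finset (Sym2 V)} (hE : Cubic E) {F : Finset (Finset (Sym2 V))} (hF : FCDC E F)
    {C : Finset (Sym2 V)} (hC : C ∈ F) (hn : ¬ Hd2 F C)
    (hD : 2 * (nbrs F C).card ≤ C.card + 2) : F2 F C := by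
  intro u u' hs
  obtain ⟨hsC, hs1⟩ := mem_filter.1 hs
  obtain ⟨h3, v, hv, rfl, rfl⟩ := enum (hF.1 C hC) hsC
  have hm := treeB2_mem hv h3
  choose a a1 a2 a3 a4 using fun p => hF.other hC (hm p)
  have n0 : ∀ p, p + 1 < C.card → a (p + 1) ≠ a 0 := by
    intro p hp e
    have h1 := card_le_one.1 (hs1 (a 0) (a1 0) (a2 0) (a3 0)).le _ (mem_inter.2 ⟨a3 0, hm 0⟩) _
      (mem_inter.2 ⟨e ▸ a3 (p + 1), hm (p + 1)⟩)
    have h2 := enum_inj hv h3 (by omega) hp h1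
    omega
  have n1 : ∀ p, p + 1 < C.card → a p ≠ a (p + 1) := by
    intro p hp e
    have k0 : s(v (p + 1), v p) ∈ C := Sym2.eq_swap ▸ hm p
    have k1 : s(v (p + 1), v p) ∈ a p := Sym2.eq_swap ▸ a3 p
    have k2 : v p ≠ v (p + 1 + 1) := fun e' => by
      have h2 := enum_inj hv h3 (i := p) (j := p + 1) (by omega) hp (by rw [← e', Sym2.eq_swap])
      omega
    exact a2 p ((loc hE hF (hF.subset hC k0) (hF.subset hC (hm (p + 1))) k2).unique
      ⟨a1 p, k1, e ▸ a3 (p + 1)⟩ ⟨hC, k0, hm (p + 1)⟩)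
  obtain ⟨k, hk⟩ : ∃ k, C.card = k + 2 := ⟨C.card - 2, by omega⟩
  have key : a 1 = a (k + 1) := by
    by_contra hne
    have h1 := ds (fun p => a (p + 1)) (k + 1) (by omega) (fun i hi => n1 (i + 1) (by omega)) hne
      fun i j l m hij hjl hlm hm' e1 e2 => by
        by_contra n
        exact hn (cross2 hF hC h3 hv a (fun p => ⟨a1 p, a2 p, a3 p⟩) (i := i + 1) (j := j + 1)
          (k := l + 1) (m := m + 1) (by omega) (by omega) (by omega) (by omega)
          ⟨_, mem_inter.2 ⟨a3 _, e1 ▸ a3 _⟩⟩ ⟨_, mem_inter.2 ⟨a3 _, e2 ▸ a3 _⟩⟩ n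
          (fun e => n (e.trans e2.symm)) (fun e => n (e1.trans e))
          fun e => n (e1.trans (e.trans e2.symm)))
    have hN : ∀ p, a p ∈ nbrs F C := fun p =>
      mem_filter.2 ⟨a1 p, a2 p, _, mem_inter.2 ⟨a3 p, hm p⟩⟩
    have h2 : (range (k + 1)).image (fun p => a (p + 1)) ⊆ (nbrs F C).erase (a 0) := by
      intro A hA
      obtain ⟨p, hp, rfl⟩ := mem_image.1 hA
      exact mem_erase.2 ⟨n0 p (by have := mem_range.1 hp; omega), hN _⟩
    have h4 := card_le_card h2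
    have h5 := card_erase_add_one (hN 0)
    omega
  refine ⟨a 1, a1 1, fun h => ?_, mem_supp.2 ⟨s(v (k + 1), v (k + 1 + 1)), key ▸ a3 (k + 1), ?_⟩,
    mem_supp.2 ⟨_, a3 1, Sym2.mem_mk_left _ _⟩⟩
  · rcases a4 0 (a 1) (a1 1) h with e | e
    · exact a2 1 e
    · exact n0 0 (by omega) e
  · have e : v (k + 1 + 1) = v 0 := by rw [← hv.1 0, hk, zero_add]
    rw [e]
    exact Sym2.mem_mk_right _ _

end Pool.Agent.CDC36
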