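import Pool.Agent.Lib.MP_32fd1f_co.Red1a

set_option autoImplicit false

namespace Pool.Agent.CDC36

open Finset

variable {V : Type} [Fintype V] [DecidableEq V]

theorem red1b_cases {E : Finset (Sym2 V)} (hE : Cubic E) {w w' x x' u u' y y' : V}
    (hL : Lad E w w' x x' u u' y y') {e : Sym2 V} (he : e ∈ E) :
    (x ∉ e ∧ x' ∉ e ∧ u ∉ e ∧ u' ∉ e) ∨ e = s(x, w) ∨ e = s(x, x') ∨ e = s(x, u) ∨
      e = s(x', w') ∨ e = s(x', u') ∨ e = s(u, u') ∨ e = s(u, y) ∨ e = s(u', y') := by
  obtain ⟨hn, e1, e2, e3, e4, e5, e6, e7, e8, e9, e10⟩ := hL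
  simp only [List.nodup_cons, List.mem_cons, List.not_mem_nil, not_or, or_false] at hn
  by_cases h1 : x ∈ e
  · rcases nbr_sat hE (Sym2.eq_swap ▸ e5 : s(x, w) ∈ E) e2 e6 (by tauto) (by tauto) (by grind)
      e he h1 with h | h | h <;> simp [h]
  by_cases h2 : x' ∈ e
  · rcases nbr_sat hE (Sym2.eq_swap ▸ e8 : s(x', w') ∈ E) (Sym2.eq_swap ▸ e2 : s(x', x) ∈ E) e9
      (by tauto) (by tauto) (by grind) e he h2 with h | h | h
    · simp [h]
    · rw [h] at h1; simp at h1
    · simp [h]
  by_cases h3 : u ∈ e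
  · rcases nbr_sat hE (Sym2.eq_swap ▸ e6 : s(u, x) ∈ E) e3 e7
      (by tauto) (by tauto) (by grind) e he h3 with h | h | h
    · rw [h] at h1; simp at h1
    · simp [h]
    · simp [h]
  by_cases h4 : u' ∈ e
  · rcases nbr_sat hE (Sym2.eq_swap ▸ e9 : s(u', x') ∈ E) (Sym2.eq_swap ▸ e3 : s(u', u) ∈ E) e10
      (by tauto) (by tauto) (by grind) e he h4 with h | h | h
    · rw [h] at h2; simp at h2
    · rw [h] at h3; simp at h3
    · simp [h]
  exact Or.inl ⟨h1, h2, h3, h4⟩

theorem red1b_new {E : Finset (Sym2 V)} (hE : Cubic E) {w w' x x' u u' y y' z z' t t' : V}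
    (hL : LadX E w w' x x' u u' y y' z z' t t') : s(w, y) ∉ E ∧ s(w', y') ∉ E := by
  obtain ⟨⟨hn, e1, e2, e3, e4, e5, e6, e7, e8, e9, e10⟩, f1, f2, f3, f4, hz⟩ := hL
  simp only [List.nodup_cons, List.mem_cons, List.not_mem_nil, not_or, or_false] at hn
  have z1 := hz w (by simp)
  have z2 := hz w' (by simp)
  have z3 := hz x (by simp)
  have z4 := hz x' (by simp)
  have z5 := hz y (by simp)
  have z6 := hz y' (by simp)
  constructor
  · intro h
    rcases nbr_sat hE e1 e5 f1 (by tauto) z2.1.symm z3.1.symm _ h (by simp) with g | g | g <;>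
      rw [Sym2.congr_right] at g <;> grind
  · intro h
    rcases nbr_sat hE (Sym2.eq_swap ▸ e1 : s(w', w) ∈ E) e8 f2 (by tauto) z1.2.1.symm
      z4.2.1.symm _ h (by simp) with g | g | g <;> rw [Sym2.congr_right] at g <;> grind

theorem red1b_const {E : Finset (Sym2 V)} (hE : Cubic E) {w w' x x' u u' y y' z z' t t' : V}
    (hL : LadX E w w' x x' u u' y y' z z' t t') (κ : V → Bool) (d : Bool)
    (hd : (κ y = d ∧ κ y' = d) ∨ (κ w = d ∧ κ w' = d)) :
    (cut E (fun v => if v = x ∨ v = x' ∨ v = u ∨ v = u' then d else κ v)).card ≤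
      (cut (red1 E w w' x x' u u' y y') κ).card := by
  obtain ⟨n1, n2⟩ := red1b_new hE hL
  have hn := hL.1.1
  simp only [List.nodup_cons, List.mem_cons, List.not_mem_nil, not_or, or_false] at hn
  have n3 : s(w', y') ≠ s(w, y) := by
    rw [Ne, Sym2.eq_iff]; grind
  have m1 : s(w, y) ∈ red1 E w w' x x' u u' y y' := by simp [red1]
  have m2 : s(w', y') ∈ red1 E w w' x x' u u' y y' := by simp [red1]
  refine le_trans (card_le_card ?_) (card_image_le (f := fun e =>
    if e = s(w, y) then (if κ w = d then s(u, y) else s(x, w))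
    else if e = s(w', y') then (if κ w' = d then s(u', y') else s(x', w')) else e))
  intro e he
  have heE : e ∈ E := (mem_filter.1 he).1
  rw [mem_image]
  rcases red1b_cases hE hL.1 heE with h | h | h | h | h | h | h | h | h
  · refine ⟨e, ?_, ?_⟩
    · induction e using Sym2.ind with
      | _ a b =>
        rw [mk_mem_cut] at he ⊢
        refine ⟨mem_union_left _ (mem_filter.2 ⟨heE, h⟩), ?_⟩
        have h2 := he.2
        simp only [Sym2.mem_iff, not_or] at h
        rw [if_neg (by grind), if_neg (by grind)] at h2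
        exact h2
    · have q1 : e ≠ s(w, y) := fun g => n1 (g ▸ heE)
      have q2 : e ≠ s(w', y') := fun g => n2 (g ▸ heE)
      rw [if_neg q1, if_neg q2]
  · subst h
    have h2 := (mk_mem_cut.1 he).2
    rw [if_pos (by simp), if_neg (by grind)] at h2
    exact ⟨s(w, y), mk_mem_cut.2 ⟨m1, by grind⟩, by rw [if_pos rfl, if_neg (by grind)]⟩
  · subst h
    have h2 := (mk_mem_cut.1 he).2
    simp at h2
  · subst h
    have h2 := (mk_mem_cut.1 he).2
    simp at h2
  · subst h
    have h2 := (mk_mem_cut.1 he).2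
    rw [if_pos (by simp), if_neg (by grind)] at h2
    exact ⟨s(w', y'), mk_mem_cut.2 ⟨m2, by grind⟩,
      by rw [if_neg n3, if_pos rfl, if_neg (by grind)]⟩
  · subst h
    have h2 := (mk_mem_cut.1 he).2
    simp at h2
  · subst h
    have h2 := (mk_mem_cut.1 he).2
    simp at h2
  · subst h
    have h2 := (mk_mem_cut.1 he).2
    rw [if_pos (by simp), if_neg (by grind)] at h2
    exact ⟨s(w, y), mk_mem_cut.2 ⟨m1, by grind⟩, by rw [if_pos rfl, if_pos (by grind)]⟩
  · subst h
    have h2 := (mk_mem_cut.1 he).2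
    rw [if_pos (by simp), if_neg (by grind)] at h2
    exact ⟨s(w', y'), mk_mem_cut.2 ⟨m2, by grind⟩,
      by rw [if_neg n3, if_pos rfl, if_pos (by grind)]⟩

theorem red1b {E : Finset (Sym2 V)} (hE : Cubic E) (h3 : EC 3 E)
    {w w' x x' u u' y y' z z' t t' : V} (hL : LadX E w w' x x' u u' y y' z z' t t')
    (hS : Sep E w w' x x' u u' y y') : EC 3 (red1 E w w' x x' u u' y y') := by
  intro κ ha hb
  by_contra hlt
  have hsupp := (red1a hE hL).2.1
  have hconst : ∀ d, (κ y = d ∧ κ y' = d) ∨ (κ w = d ∧ κ w' = d) → False := by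
    intro d hd
    refine hlt (le_trans (h3 _ ?_ ?_) (red1b_const hE hL κ d hd))
    · obtain ⟨a, h1, h2⟩ := ha
      rw [hsupp, mem_sdiff] at h1
      refine ⟨a, h1.1, ?_⟩
      rw [if_neg (by simpa using h1.2)]
      exact h2
    · obtain ⟨a, h1, h2⟩ := hb
      rw [hsupp, mem_sdiff] at h1
      refine ⟨a, h1.1, ?_⟩
      rw [if_neg (by simpa using h1.2)]
      exact h2
  have hy : κ y ≠ κ y' := fun h => hconst (κ y') (Or.inl ⟨h, rfl⟩)
  have hw : κ w ≠ κ w' := fun h => hconst (κ w') (Or.inr ⟨h, rfl⟩)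
  obtain ⟨κ0, k1, k2, k3, k4, k5, k6, k7, k8, kc⟩ := hS
  have hLad := hL.1
  obtain ⟨hn, e1, e2, e3, e4, e5, e6, e7, e8, e9, e10⟩ := hL.1
  simp only [List.nodup_cons, List.mem_cons, List.not_mem_nil, not_or, or_false] at hn
  have hO : ∀ a b, s(a, b) ∈ E → (x ∉ s(a, b) ∧ x' ∉ s(a, b) ∧ u ∉ s(a, b) ∧ u' ∉ s(a, b)) →
      κ a ≠ κ b → s(a, b) = s(w, w') ∨ s(a, b) = s(y, y') := by
    intro a b h1 h2 h4
    by_contra hc
    rw [not_or] at hc
    apply hlt
    rw [show (3 : ℕ) = 2 + 1 from rfl, Nat.succ_le_iff, two_lt_card_iff]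
    refine ⟨s(a, b), s(w, w'), s(y, y'),
      mk_mem_cut.2 ⟨mem_union_left _ (mem_filter.2 ⟨h1, h2⟩), h4⟩,
      mk_mem_cut.2 ⟨mem_union_left _ (mem_filter.2 ⟨e1, ?_⟩), hw⟩,
      mk_mem_cut.2 ⟨mem_union_left _ (mem_filter.2 ⟨e4, ?_⟩), hy⟩, hc.1, hc.2, ?_⟩
    · simp only [Sym2.mem_iff, not_or]; grind
    · simp only [Sym2.mem_iff, not_or]; grind
    · rw [Ne, Sym2.eq_iff]; grind
  have hg : ∃ c, ∀ a b, s(a, b) ∈ E →
      (x ∉ s(a, b) ∧ x' ∉ s(a, b) ∧ u ∉ s(a, b) ∧ u' ∉ s(a, b)) → κ0 a ≠ κ0 b →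
      κ a = c ∧ κ b = c := by
    by_cases hex : ∃ a b, s(a, b) ∈ E ∧
        (x ∉ s(a, b) ∧ x' ∉ s(a, b) ∧ u ∉ s(a, b) ∧ u' ∉ s(a, b)) ∧ κ0 a ≠ κ0 b
    · obtain ⟨a0, b0, g1, g2, g3⟩ := hex
      have g4 : κ a0 = κ b0 := by
        by_contra g5
        rcases hO a0 b0 g1 g2 g5 with g6 | g6 <;> rw [Sym2.eq_iff] at g6 <;> grind
      refine ⟨κ a0, fun a b h1 h2 h4 => ?_⟩
      have g5 : s(a, b) = s(a0, b0) := by
        by_contra g6
        have hsub : ({s(a, b), s(a0, b0), s(x, u), s(x', u')} : Finset (Sym2 V)) ⊆ cut E κ0 := by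
          intro e he
          simp only [mem_insert, mem_singleton] at he
          rcases he with rfl | rfl | rfl | rfl
          · exact mk_mem_cut.2 ⟨h1, h4⟩
          · exact mk_mem_cut.2 ⟨g1, g3⟩
          · exact mk_mem_cut.2 ⟨e6, by rw [k3, k5]; simp⟩
          · exact mk_mem_cut.2 ⟨e9, by rw [k4, k6]; simp⟩
        have hc := card_le_card hsub
        have d1 : s(a, b) ≠ s(x, u) := fun g => h2.1 (by rw [g]; simp)
        have d2 : s(a, b) ≠ s(x', u') := fun g => h2.2.1 (by rw [g]; simp)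
        have d3 : s(a0, b0) ≠ s(x, u) := fun g => g2.1 (by rw [g]; simp)
        have d4 : s(a0, b0) ≠ s(x', u') := fun g => g2.2.1 (by rw [g]; simp)
        have d5 : s(x, u) ≠ s(x', u') := by rw [Ne, Sym2.eq_iff]; grind
        rw [card_insert_of_notMem (by simp only [mem_insert, mem_singleton, not_or]; exact ⟨g6, d1, d2⟩),
          card_insert_of_notMem (by simp only [mem_insert, mem_singleton, not_or]; exact ⟨d3, d4⟩),
          card_pair d5] at hc
        omega
      rw [Sym2.eq_iff] at g5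
      grind
    · exact ⟨true, fun a b h1 h2 h4 => absurd ⟨a, b, h1, h2, h4⟩ hex⟩
  obtain ⟨c, hc⟩ := hg
  have hcut := h3 (fun v => if v = x ∨ v = x' ∨ v = u ∨ v = u' then false
    else (!κ0 v && (κ v != c))) (by
      by_cases h : κ w = c
      · refine ⟨w', mem_supp.2 ⟨_, e1, by simp⟩, ?_⟩
        rw [if_neg (by grind)]
        grind
      · refine ⟨w, mem_supp.2 ⟨_, e1, by simp⟩, ?_⟩
        rw [if_neg (by grind)]
        grind) ⟨x, mem_supp.2 ⟨_, e2, by simp⟩, by simp⟩
  have hsub : cut E (fun v => if v = x ∨ v = x' ∨ v = u ∨ v = u' then false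
      else (!κ0 v && (κ v != c))) ⊆ {s(w, w'), if κ w = c then s(x', w') else s(x, w)} := by
    intro e he
    have heE : e ∈ E := (mem_filter.1 he).1
    rw [mem_insert, mem_singleton]
    rcases red1b_cases hE hLad heE with h | h | h | h | h | h | h | h | h
    · induction e using Sym2.ind with
      | _ a b =>
        have h2 := (mk_mem_cut.1 he).2
        have h4 := h
        simp only [Sym2.mem_iff, not_or] at h4
        rw [if_neg (by grind), if_neg (by grind)] at h2
        by_cases g : κ0 a = κ0 b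
        · have g2 : κ a ≠ κ b := fun g3 => h2 (by rw [g, g3])
          rcases hO a b heE h g2 with g3 | g3
          · exact Or.inl g3
          · rw [Sym2.eq_iff] at g3
            grind
        · have g2 := hc a b heE h g
          exact absurd (by simp [g2.1, g2.2]) h2
    · subst h
      have h2 := (mk_mem_cut.1 he).2
      rw [if_pos (by simp), if_neg (by grind)] at h2
      exact Or.inr (by rw [if_neg (by grind)])
    · subst h
      have h2 := (mk_mem_cut.1 he).2
      simp at h2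
    · subst h
      have h2 := (mk_mem_cut.1 he).2
      simp at h2
    · subst h
      have h2 := (mk_mem_cut.1 he).2
      rw [if_pos (by simp), if_neg (by grind)] at h2
      have q1 : κ w' ≠ c := fun g => h2 (by simp [g])
      have q2 : κ w = c := by
        revert q1 hw
        cases κ w <;> cases κ w' <;> cases c <;> simp
      exact Or.inr (by rw [if_pos q2])
    · subst h
      have h2 := (mk_mem_cut.1 he).2
      simp at h2
    · subst h
      have h2 := (mk_mem_cut.1 he).2
      simp at h2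
    · subst h
      have h2 := (mk_mem_cut.1 he).2
      rw [if_pos (by simp), if_neg (by grind)] at h2
      exact absurd (by simp [k7]) h2
    · subst h
      have h2 := (mk_mem_cut.1 he).2
      rw [if_pos (by simp), if_neg (by grind)] at h2
      exact absurd (by simp [k8]) h2
  have h5 := le_trans (card_le_card hsub) card_le_two
  omega

end Pool.Agent.CDC36
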