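import Pool.Agent.Lib.MP_32fd1f_co.Red2a

set_option autoImplicit false

namespace Pool.Agent.CDC36

open Finset

variable {V : Type} [Fintype V] [DecidableEq V]

private theorem red2b_not (E : Finset (Sym2 V)) (κ : V → Bool) :
    cut E (fun v => !κ v) = cut E κ := by
  ext e
  induction e using Sym2.ind with
  | h a b =>
    rw [mk_mem_cut, mk_mem_cut]
    cases κ a <;> cases κ b <;> simp

private theorem red2b_key {E : Finset (Sym2 V)} (hE : Cubic E)
    {w w' x x' u u' y y' z z' t t' : V} (hL : LadX E w w' x x' u u' y y' z z' t t')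
    (hz : z ≠ z') (ht : t ≠ t') (κ k : V → Bool)
    (h0 : ∀ v, v ∉ ({w', x, x', u, u', y'} : Finset V) → k v = κ v)
    (hw : k w = κ w) (hy : k y = κ y) (hz' : k z' = κ z') (ht' : k t' = κ t')
    (h1 : k w' = κ w) (h2 : k x = κ w) (h3 : k x' = κ w)
    (h4 : k u = κ y) (h5 : k u' = κ y) (h6 : k y' = κ y) :
    ∃ ψ : Sym2 V → Sym2 V, ∀ e ∈ cut E k,
      e ∈ (cut (red2 E w w' x x' u u' y y' z' t') κ).image ψ ∨ (e = s(x', u') ∧ κ w ≠ κ y) := by
  obtain ⟨-, hs, -⟩ := red2a hE hL hz ht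
  obtain ⟨d1, d2⟩ := red2_diff hE hL hz ht
  have n1 : s(w, z') ∈ red2 E w w' x x' u u' y y' z' t' \ E := by rw [d2]; simp
  have n2 : s(w, y) ∈ red2 E w w' x x' u u' y y' z' t' \ E := by rw [d2]; simp
  have n3 : s(y, t') ∈ red2 E w w' x x' u u' y y' z' t' \ E := by rw [d2]; simp
  rw [mem_sdiff] at n1 n2 n3
  have hwy : w ≠ y := by
    have := hL.1.1
    simp only [List.nodup_cons, List.mem_cons, not_or] at this
    exact this.1.2.2.2.2.2.1
  have hzy : z' ≠ y := (hL.2.2.2.2.2 y (by simp)).2.1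
  have hzw : z' ≠ w := (hL.2.2.2.2.2 w (by simp)).2.1
  have htw : t' ≠ w := (hL.2.2.2.2.2 w (by simp)).2.2.2
  have e1 : s(w, y) ≠ s(w, z') := by
    rw [Ne, Sym2.eq_iff]
    rintro (⟨-, h⟩ | ⟨h, -⟩)
    · exact hzy h.symm
    · exact hzw h.symm
  have e2 : s(y, t') ≠ s(w, z') := by
    rw [Ne, Sym2.eq_iff]
    rintro (⟨h, -⟩ | ⟨h, -⟩)
    · exact hwy h.symm
    · exact hzy h.symm
  have e3 : s(y, t') ≠ s(w, y) := by
    rw [Ne, Sym2.eq_iff]
    rintro (⟨h, -⟩ | ⟨-, h⟩)
    · exact hwy h.symm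
    · exact htw h
  refine ⟨fun e => if e = s(w, z') then s(w', z') else if e = s(w, y) then s(x, u)
    else if e = s(y, t') then s(y', t') else e, fun e he => ?_⟩
  have heE : e ∈ E := (mem_filter.1 he).1
  by_cases hR : e ∈ red2 E w w' x x' u u' y y' z' t'
  · left
    refine mem_image.2 ⟨e, ?_, ?_⟩
    · induction e using Sym2.ind with
      | h a b =>
        have ha : a ∈ supp (red2 E w w' x x' u u' y y' z' t') := mem_supp.2 ⟨_, hR, by simp⟩
        have hb : b ∈ supp (red2 E w w' x x' u u' y y' z' t') := mem_supp.2 ⟨_, hR, by simp⟩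
        rw [hs, mem_sdiff] at ha hb
        rw [mk_mem_cut] at he ⊢
        rw [h0 a ha.2, h0 b hb.2] at he
        exact ⟨hR, he.2⟩
    · have q1 : e ≠ s(w, z') := fun h => n1.2 (h ▸ heE)
      have q2 : e ≠ s(w, y) := fun h => n2.2 (h ▸ heE)
      have q3 : e ≠ s(y, t') := fun h => n3.2 (h ▸ heE)
      simp only [if_neg q1, if_neg q2, if_neg q3]
  · have hd : e ∈ E \ red2 E w w' x x' u u' y y' z' t' := mem_sdiff.2 ⟨heE, hR⟩
    rw [d1] at hd
    simp only [mem_insert, mem_singleton] at hd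
    rcases hd with h | h | h | h | h | h | h | h | h | h | h | h <;> subst h <;>
      rw [mk_mem_cut] at he
    · exact absurd (hw.trans h1.symm) he.2
    · exact absurd (h2.trans h3.symm) he.2
    · exact absurd (h4.trans h5.symm) he.2
    · exact absurd (hy.trans h6.symm) he.2
    · exact absurd (hw.trans h2.symm) he.2
    · left
      refine mem_image.2 ⟨s(w, y), mk_mem_cut.2 ⟨n2.1, ?_⟩, ?_⟩
      · rw [← h2, ← h4]; exact he.2
      · rw [if_neg e1, if_pos rfl]
    · exact absurd (h4.trans hy.symm) he.2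
    · exact absurd (h1.trans h3.symm) he.2
    · right
      refine ⟨rfl, ?_⟩
      rw [← h3, ← h5]; exact he.2
    · exact absurd (h5.trans h6.symm) he.2
    · left
      refine mem_image.2 ⟨s(w, z'), mk_mem_cut.2 ⟨n1.1, ?_⟩, ?_⟩
      · rw [← h1, ← hz']; exact he.2
      · rw [if_pos rfl]
    · left
      refine mem_image.2 ⟨s(y, t'), mk_mem_cut.2 ⟨n3.1, ?_⟩, ?_⟩
      · rw [← h6, ← ht']; exact he.2
      · rw [if_neg e2, if_neg e3, if_pos rfl]

theorem red2b {E : Finset (Sym2 V)} (hE : Cubic E) (h3 : EC 3 E)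
    {w w' x x' u u' y y' z z' t t' : V} (hL : LadX E w w' x x' u u' y y' z z' t t')
    (hz : z ≠ z') (ht : t ≠ t') (hS : ¬ Sep E w w' x x' u u' y y') :
    EC 3 (red2 E w w' x x' u u' y y' z' t') := by
  intro κ ha hb
  by_contra hc
  have hc2 : (cut (red2 E w w' x x' u u' y y' z' t') κ).card ≤ 2 := by omega
  obtain ⟨-, hs, -⟩ := red2a hE hL hz ht
  have hN := hL.1.1
  simp only [List.nodup_cons, List.mem_cons, not_or, List.not_mem_nil, not_false_eq_true,
    and_true, List.nodup_nil] at hN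
  obtain ⟨⟨a1, a2, a3, a4, a5, -, a7⟩, ⟨-, -, b3, b4, b5, b6⟩, ⟨-, c2, c3, c4, c5⟩,
    ⟨f1, f2, f3, f4⟩, ⟨-, g2, -⟩, ⟨i1, -⟩, j1⟩ := hN
  let k : V → Bool := fun v => if v = w' ∨ v = x ∨ v = x' then κ w
    else if v = u ∨ v = u' ∨ v = y' then κ y else κ v
  have h0 : ∀ v, v ∉ ({w', x, x', u, u', y'} : Finset V) → k v = κ v := by
    intro v hv
    simp only [mem_insert, mem_singleton, not_or] at hv
    simp only [k]
    rw [if_neg (by tauto), if_neg (by tauto)]
  have hw : k w = κ w := h0 w (by simp only [mem_insert, mem_singleton, not_or]; tauto)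
  have hy : k y = κ y := h0 y (by
    simp only [mem_insert, mem_singleton, not_or]
    exact ⟨Ne.symm b5, Ne.symm c4, Ne.symm f3, Ne.symm g2, Ne.symm i1, j1⟩)
  have ho := hL.2.2.2.2.2
  have hz' : k z' = κ z' := h0 z' (by
    simp only [mem_insert, mem_singleton, not_or]
    exact ⟨(ho w' (by simp)).2.1, (ho x (by simp)).2.1, (ho x' (by simp)).2.1,
      (ho u (by simp)).2.1, (ho u' (by simp)).2.1, (ho y' (by simp)).2.1⟩)
  have ht' : k t' = κ t' := h0 t' (by
    simp only [mem_insert, mem_singleton, not_or]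
    exact ⟨(ho w' (by simp)).2.2.2, (ho x (by simp)).2.2.2, (ho x' (by simp)).2.2.2,
      (ho u (by simp)).2.2.2, (ho u' (by simp)).2.2.2, (ho y' (by simp)).2.2.2⟩)
  have h1 : k w' = κ w := if_pos (Or.inl rfl)
  have h2 : k x = κ w := if_pos (Or.inr (Or.inl rfl))
  have h3' : k x' = κ w := if_pos (Or.inr (Or.inr rfl))
  have h4 : k u = κ y := by
    simp only [k]
    rw [if_neg (not_or.2 ⟨Ne.symm b3, not_or.2 ⟨Ne.symm c2, Ne.symm f1⟩⟩), if_pos (by simp)]
  have h5 : k u' = κ y := by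
    simp only [k]
    rw [if_neg (not_or.2 ⟨Ne.symm b4, not_or.2 ⟨Ne.symm c3, Ne.symm f2⟩⟩), if_pos (by simp)]
  have h6 : k y' = κ y := by
    simp only [k]
    rw [if_neg (not_or.2 ⟨Ne.symm b6, not_or.2 ⟨Ne.symm c5, Ne.symm f4⟩⟩), if_pos (by simp)]
  obtain ⟨ψ, hψ⟩ := red2b_key hE hL hz ht κ k h0 hw hy hz' ht' h1 h2 h3' h4 h5 h6
  have him : ((cut (red2 E w w' x x' u u' y y' z' t') κ).image ψ).card ≤ 2 :=
    card_image_le.trans hc2
  by_cases hwy : κ w = κ y
  · have hsub : cut E k ⊆ (cut (red2 E w w' x x' u u' y y' z' t') κ).image ψ := fun e he =>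
      (hψ e he).resolve_right (fun h => h.2 hwy)
    obtain ⟨a, ha, ha'⟩ := ha
    obtain ⟨b, hb, hb'⟩ := hb
    rw [hs, mem_sdiff] at ha hb
    have := h3 k ⟨a, ha.1, (h0 a ha.2).trans ha'⟩ ⟨b, hb.1, (h0 b hb.2).trans hb'⟩
    have := card_le_card hsub
    omega
  · have hsub : cut E k ⊆
        insert s(x', u') ((cut (red2 E w w' x x' u u' y y' z' t') κ).image ψ) := fun e he =>
      mem_insert.2 ((hψ e he).elim Or.inr (fun h => Or.inl h.1))
    have hc3 : (cut E k).card ≤ 3 :=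
      (card_le_card hsub).trans ((card_insert_le _ _).trans (by omega))
    refine hS ?_
    cases hkw : κ w <;> cases hky : κ y
    · exact absurd (hkw.trans hky.symm) hwy
    · exact ⟨k, hw.trans hkw, h1.trans hkw, h2.trans hkw, h3'.trans hkw, h4.trans hky,
        h5.trans hky, hy.trans hky, h6.trans hky, hc3⟩
    · refine ⟨fun v => !k v, ?_, ?_, ?_, ?_, ?_, ?_, ?_, ?_, by rw [red2b_not]; exact hc3⟩
      · simp only [hw, hkw, Bool.not_true]
      · simp only [h1, hkw, Bool.not_true]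
      · simp only [h2, hkw, Bool.not_true]
      · simp only [h3', hkw, Bool.not_true]
      · simp only [h4, hky, Bool.not_false]
      · simp only [h5, hky, Bool.not_false]
      · simp only [hy, hky, Bool.not_false]
      · simp only [h6, hky, Bool.not_false]
    · exact absurd (hkw.trans hky.symm) hwy

end Pool.Agent.CDC36
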