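import Pool.Agent.Lib.MP_32fd1f_co.MainA
import Pool.Agent.Lib.MP_32fd1f_co.LadA
import Pool.Agent.Lib.MP_32fd1f_co.Red1b
import Pool.Agent.Lib.MP_32fd1f_co.Ext1
import Pool.Agent.Lib.MP_32fd1f_co.Red2b
import Pool.Agent.Lib.MP_32fd1f_co.Ext2s
import Pool.Agent.Lib.MP_32fd1f_co.Ext2t

set_option autoImplicit false

namespace Pool.Agent.CDC36

open Finset

variable {V : Type} [Fintype V] [DecidableEq V]

theorem mainB_aux (n : ℕ) : ∀ E : Finset (Sym2 V), (supp E).card = n → Cubic E → EC 3 E →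
    ∃ M, MCDC E M ∧ 4880 * M.card ≤ 2439 * (supp E).card + 9800 := by
  induction n using Nat.strong_induction_on with
  | _ n ih =>
  intro E hn hE h3
  have h2 : EC 2 E := h3.mono (by norm_num)
  by_cases hl : ∃ w w' x x' u u' y y', Lad E w w' x x' u u' y y'
  swap
  · obtain ⟨M, hM, hc⟩ := mainA hE h2 (L := ∅)
      (fun w w' x x' u u' y y' h => absurd ⟨w, w', x, x', u, u', y, y', h⟩ hl)
    exact ⟨M, hM, by rw [card_empty] at hc; omega⟩
  by_cases h8 : (supp E).card ≤ 8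
  · obtain ⟨M, hM, hc⟩ := mainA hE h2 (L := supp E) (fun w w' x x' u u' y y' h v hv => by
      obtain ⟨-, a1, a2, a3, a4, -⟩ := h
      simp only [List.mem_cons, List.not_mem_nil, or_false] at hv
      rcases hv with rfl | rfl | rfl | rfl | rfl | rfl | rfl | rfl
      · exact mem_supp.2 ⟨_, a1, Sym2.mem_mk_left _ _⟩
      · exact mem_supp.2 ⟨_, a1, Sym2.mem_mk_right _ _⟩
      · exact mem_supp.2 ⟨_, a2, Sym2.mem_mk_left _ _⟩
      · exact mem_supp.2 ⟨_, a2, Sym2.mem_mk_right _ _⟩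
      · exact mem_supp.2 ⟨_, a3, Sym2.mem_mk_left _ _⟩
      · exact mem_supp.2 ⟨_, a3, Sym2.mem_mk_right _ _⟩
      · exact mem_supp.2 ⟨_, a4, Sym2.mem_mk_left _ _⟩
      · exact mem_supp.2 ⟨_, a4, Sym2.mem_mk_right _ _⟩)
    exact ⟨M, hM, by omega⟩
  obtain ⟨w, w', x, x', u, u', y, y', hL0⟩ := hl
  obtain ⟨z, z', t, t', hL⟩ := lad hE h3 (by omega) hL0
  by_cases hS : Sep E w w' x x' u u' y y'
  · obtain ⟨c1, -, c3⟩ := red1a hE hL
    obtain ⟨M, hM, hc⟩ := ih _ (by omega) _ rfl c1 (red1b hE h3 hL hS)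
    obtain ⟨F, rfl, hF⟩ := nodup c1 hM
    obtain ⟨M', hM', hc'⟩ := ext1 hE h3 hL hS hF
    refine ⟨M', hM', ?_⟩
    have : F.val.card = F.card := rfl
    omega
  · obtain ⟨hz, ht⟩ := zne hE hL hS
    obtain ⟨c1, -, c3⟩ := red2a hE hL hz ht
    obtain ⟨M, hM, hc⟩ := ih _ (by omega) _ rfl c1 (red2b hE h3 hL hz ht hS)
    obtain ⟨F, rfl, hF⟩ := nodup c1 hM
    have hcard : F.val.card = F.card := rfl
    have hnd := hL.1.1
    have hout := hL.2.2.2.2.2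
    simp only [List.nodup_cons, List.mem_cons, List.not_mem_nil, or_false, not_or,
      forall_eq_or_imp, forall_eq] at hnd hout
    have e1 : s(w, z) ∈ red2 E w w' x x' u u' y y' z' t' := by
      refine mem_union_left _ (mem_filter.2 ⟨hL.2.1, ?_⟩)
      simp only [Sym2.mem_iff, not_or]
      refine ⟨⟨?_, ?_⟩, ⟨?_, ?_⟩, ⟨?_, ?_⟩, ⟨?_, ?_⟩, ⟨?_, ?_⟩, ?_, ?_⟩ <;>
        (rintro rfl; tauto)
    have e2 : s(w, y) ∈ red2 E w w' x x' u u' y y' z' t' := mem_union_right _ (by simp)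
    have e3 : s(y, t) ∈ red2 E w w' x x' u u' y y' z' t' := by
      refine mem_union_left _ (mem_filter.2 ⟨hL.2.2.2.1, ?_⟩)
      simp only [Sym2.mem_iff, not_or]
      refine ⟨⟨?_, ?_⟩, ⟨?_, ?_⟩, ⟨?_, ?_⟩, ⟨?_, ?_⟩, ⟨?_, ?_⟩, ?_, ?_⟩ <;>
        (rintro rfl; tauto)
    have e4 : s(y, t') ∈ red2 E w w' x x' u u' y y' z' t' := mem_union_right _ (by simp)
    obtain ⟨a, ⟨ha, a1, a2⟩, -⟩ := loc c1 hF e1 e2 (by tauto)
    have hx := circ_two c1 (hF.1 a ha) (hF.subset ha) (u := y) (a := w) (b := t) (c := t')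
      (Sym2.eq_swap ▸ e2) e3 e4 (by rintro rfl; tauto) (by rintro rfl; tauto) ht
      (Sym2.eq_swap ▸ a2)
    rcases hx with hx | hx
    · obtain ⟨M', hM', hc'⟩ := ext2s hE hL hz ht hF ha a1 a2 hx.1
      exact ⟨M', hM', by omega⟩
    · obtain ⟨M', hM', hc'⟩ := ext2t hE hL hz ht hF ha a1 a2 hx.1
      exact ⟨M', hM', by omega⟩

theorem mainB {E : Finset (Sym2 V)} (hE : Cubic E) (h3 : EC 3 E) :
    ∃ M, MCDC E M ∧ 4880 * M.card ≤ 2439 * (supp E).card + 9800 :=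
  mainB_aux _ E rfl hE h3

end Pool.Agent.CDC36
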