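import Pool.Agent.Lib.MP_32fd1f_co.Basic

set_option autoImplicit false

namespace Pool.Agent.CDC36

open Finset

variable {V : Type} [Fintype V] [DecidableEq V]


theorem path {H : Finset (Sym2 V)} (hH : NoLoop H) {a b : V} (h : Link H a b) :
    ∃ P ⊆ H, Ends P a b := by
  classical
  have key : ∀ p q, s(p, q) ∈ H → (∃ P ⊆ H, Ends P a p) → ∃ P ⊆ H, Ends P a q := by
    rintro p q hpq ⟨P, hP, hE⟩
    have hne : p ≠ q := fun e => hH _ hpq (Sym2.mk_isDiag_iff.2 e)
    refine ⟨symmDiff P {s(p, q)}, ?_, fun z => ?_⟩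
    · intro e he
      rcases mem_symmDiff.1 he with h1 | h1
      · exact hP h1.1
      · rw [mem_singleton.1 h1.1]
        exact hpq
    · have h1 := even_deg_symmDiff P {s(p, q)} z
      have h2 := hE z
      have h3 : deg ({s(p, q)} : Finset (Sym2 V)) z = if z = p ∨ z = q then 1 else 0 := by
        unfold deg
        rw [filter_singleton]
        by_cases hz : z = p ∨ z = q
        · rw [if_pos hz, if_pos (Sym2.mem_iff.2 hz), card_singleton]
        · rw [if_neg hz, if_neg (fun h => hz (Sym2.mem_iff.1 h)), card_empty]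
      rw [h3, Nat.even_iff] at h1
      rw [Nat.odd_iff] at h2 ⊢
      have h4 : ¬(z = p ∧ z = q) := fun h => hne (h.1.symm.trans h.2)
      by_cases hz : z = p ∨ z = q
      · rw [if_pos hz] at h1
        have h5 : deg (symmDiff P {s(p, q)}) z % 2 = 1 ↔ ¬(deg P z % 2 = 1) := by omega
        rw [h5, h2]
        show ¬((z = a ∧ ¬z = p) ∨ (z = p ∧ ¬z = a)) ↔ ((z = a ∧ ¬z = q) ∨ (z = q ∧ ¬z = a))
        tauto
      · rw [if_neg hz] at h1
        have h5 : deg (symmDiff P {s(p, q)}) z % 2 = 1 ↔ deg P z % 2 = 1 := by omega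
        rw [h5, h2]
        show ((z = a ∧ ¬z = p) ∨ (z = p ∧ ¬z = a)) ↔ ((z = a ∧ ¬z = q) ∨ (z = q ∧ ¬z = a))
        tauto
  have h0 : ∃ P ⊆ H, Ends P a a := ⟨∅, empty_subset _, fun z => by simp [deg, Xor']⟩
  have h1 := h (fun v => decide (∃ P ⊆ H, Ends P a v)) (cut_eq_empty.2 fun p q hpq => by
    rw [decide_eq_decide]
    exact ⟨key p q hpq, key q p (Sym2.eq_swap ▸ hpq)⟩)
  exact (decide_eq_decide.1 h1).1 h0

/-- the component of `a` -/
theorem comp (X : Finset (Sym2 V)) (a : V) :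
    ∃ X0 ⊆ X, (∀ v, Link X a v → Link X0 a v ∧ deg X0 v = deg X v) ∧
      (∀ v, ¬ Link X a v → deg X0 v = 0) := by
  classical
  have hstep : ∀ p q, s(p, q) ∈ X → Link X a p → Link X a q :=
    fun p q hpq hp => hp.trans (Link.edge hpq)
  have hall : ∀ e ∈ X, ∀ v ∈ e, Link X a v → ∀ w ∈ e, Link X a w := by
    intro e he v hv hl w hw
    obtain ⟨q, rfl⟩ := Sym2.mem_iff_exists.1 hv
    rcases Sym2.mem_iff.1 hw with rfl | rfl
    · exact hl
    · exact hstep _ _ he hl
  refine ⟨X.filter (fun e => ∀ w ∈ e, Link X a w), filter_subset _ _, fun v hv => ⟨?_, ?_⟩,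
    fun v hv => ?_⟩
  · intro κ hκ
    have h1 := hv (fun w => if Link X a w then κ w else false) (cut_eq_empty.2 fun p q hpq => by
      by_cases hp : Link X a p
      · rw [if_pos hp, if_pos (hstep p q hpq hp)]
        exact cut_eq_empty.1 hκ p q
          (mem_filter.2 ⟨hpq, hall _ hpq p (Sym2.mem_mk_left _ _) hp⟩)
      · rw [if_neg hp, if_neg fun hq => hp (hstep q p (Sym2.eq_swap ▸ hpq) hq)])
    simpa only [if_pos hv, if_pos (Link.refl X a)] using h1
  · unfold deg
    congr 1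
    ext e
    simp only [mem_filter]
    exact ⟨fun h => ⟨h.1.1, h.2⟩, fun h => ⟨⟨h.1, hall e h.1 v h.2 hv⟩, h.2⟩⟩
  · unfold deg
    rw [card_eq_zero, filter_eq_empty_iff]
    exact fun e he hve => hv ((mem_filter.1 he).2 v hve)

theorem dem {H : Finset (Sym2 V)} (hH : NoLoop H) (Y : Finset V)
    (hY : ∀ a ∈ Y, ∀ b ∈ Y, Link H a b) (d : V → ZMod 2 × ZMod 2) (hd : ∀ v, v ∉ Y → d v = 0)
    (hs : ∑ v, d v = 0) :
    ∃ ψ : Sym2 V → ZMod 2 × ZMod 2, ∀ v, ∑ e ∈ H.filter (fun e => v ∈ e), ψ e = d v := by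
  classical
  rcases Y.eq_empty_or_nonempty with rfl | ⟨y, hy⟩
  · exact ⟨fun _ => 0, fun v => by simp [hd v (notMem_empty v)]⟩
  choose! P hP hE using fun v (hv : v ∈ Y) => path hH (hY y hy v hv)
  have two : ∀ x : ZMod 2 × ZMod 2, x + x = 0 := by decide
  have hsm : ∀ (n : ℕ) (x : ZMod 2 × ZMod 2), n • x = if Odd n then x else 0 := by
    intro n x
    induction n with
    | zero => simp
    | succ n ih =>
      rw [succ_nsmul, ih]
      by_cases h : Odd n
      · rw [if_pos h, if_neg (by simpa [Nat.odd_add_one] using h), two]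
      · rw [if_neg h, if_pos (Nat.odd_add_one.2 h), zero_add]
  have hsY : ∑ v ∈ Y, d v = 0 := by
    rw [← hs]
    exact sum_subset (subset_univ _) fun v _ hv => hd v hv
  refine ⟨fun e => ∑ w ∈ Y, if e ∈ P w then d w else 0, fun v => ?_⟩
  rw [sum_comm]
  have h1 : ∀ w ∈ Y, (∑ e ∈ H.filter (fun e => v ∈ e), if e ∈ P w then d w else 0) =
      (if v = y then d w else 0) + if v = w then d w else 0 := by
    intro w hw
    rw [← sum_filter, sum_const]
    have e1 : ((H.filter (fun e => v ∈ e)).filter (fun e => e ∈ P w)).card = deg (P w) v := by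
      unfold deg
      congr 1
      ext e
      simp only [mem_filter]
      exact ⟨fun h => ⟨h.2, h.1.2⟩, fun h => ⟨⟨hP w hw h.1, h.2⟩, h.1⟩⟩
    rw [e1, hsm]
    have h2 := hE w hw v
    by_cases ha : v = y <;> by_cases hb : v = w
    · rw [if_neg (fun h => by rcases h2.1 h with h | h; exacts [h.2 hb, h.2 ha]), if_pos ha,
        if_pos hb, two]
    · rw [if_pos (h2.2 (Or.inl ⟨ha, hb⟩)), if_pos ha, if_neg hb, add_zero]
    · rw [if_pos (h2.2 (Or.inr ⟨hb, ha⟩)), if_neg ha, if_pos hb, zero_add]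
    · rw [if_neg (fun h => by rcases h2.1 h with h | h; exacts [ha h.1, hb h.1]), if_neg ha,
        if_neg hb, add_zero]
  rw [sum_congr rfl h1, sum_add_distrib, sum_ite_eq]
  have h3 : (∑ w ∈ Y, if v = y then d w else 0) = 0 := by
    by_cases ha : v = y
    · simp only [if_pos ha, hsY]
    · simp only [if_neg ha, sum_const_zero]
  rw [h3, zero_add]
  split_ifs with hv
  · rfl
  · exact (hd v hv).symm

end Pool.Agent.CDC36
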