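import Pool.Agent.Lib.MP_32fd1f_co.Basic

set_option autoImplicit false

namespace Pool.Agent.CDC36

open Finset

variable {V : Type} [Fintype V] [DecidableEq V]

theorem red1a_endv {E X : Finset (Sym2 V)} (hE : Cubic E) (ok : Sym2 V → Prop) {v a b c d : V}
    {f : Sym2 V} (hm : ∀ e, e ∈ X ↔ (e ∈ E ∧ ok e) ∨ e = s(v, c) ∨ e = f) (hf : v ∉ f)
    (ha : s(v, a) ∈ E) (hb : s(v, b) ∈ E) (hd : s(v, d) ∈ E) (oa : ok s(v, a)) (ob : ok s(v, b))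
    (od : ¬ ok s(v, d)) (hab : a ≠ b) (hac : a ≠ c) (hbc : b ≠ c) : deg X v = 3 := by
  have had : a ≠ d := fun e => od (e ▸ oa)
  have hbd : b ≠ d := fun e => od (e ▸ ob)
  have hs := nbr_sat hE ha hb hd hab had hbd
  unfold deg
  refine card_eq_three.2 ⟨s(v, a), s(v, b), s(v, c), fun e => hab (Sym2.congr_right.1 e),
    fun e => hac (Sym2.congr_right.1 e), fun e => hbc (Sym2.congr_right.1 e), ?_⟩
  ext e
  simp only [mem_filter, mem_insert, mem_singleton, hm]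
  constructor
  · rintro ⟨⟨h1, h2⟩ | h1 | h1, h3⟩
    · rcases hs e h1 h3 with k | k | k
      · exact Or.inl k
      · exact Or.inr (Or.inl k)
      · exact absurd (k ▸ h2) od
    · exact Or.inr (Or.inr h1)
    · exact absurd (h1 ▸ h3) hf
  · rintro (k | k | k)
    · exact ⟨Or.inl ⟨k ▸ ha, k ▸ oa⟩, k ▸ Sym2.mem_mk_left _ _⟩
    · exact ⟨Or.inl ⟨k ▸ hb, k ▸ ob⟩, k ▸ Sym2.mem_mk_left _ _⟩
    · exact ⟨Or.inr (Or.inl k), k ▸ Sym2.mem_mk_left _ _⟩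

theorem red1a {E : Finset (Sym2 V)} (hE : Cubic E) {w w' x x' u u' y y' z z' t t' : V}
    (hL : LadX E w w' x x' u u' y y' z z' t t') :
    Cubic (red1 E w w' x x' u u' y y') ∧
      supp (red1 E w w' x x' u u' y y') = supp E \ {x, x', u, u'} ∧
      (supp (red1 E w w' x x' u u' y y')).card + 4 = (supp E).card := by
  obtain ⟨⟨hn, ew, ex, eu, ey, ewx, exu, euy, ewx', exu', euy'⟩, ez, ez', et, et', ho⟩ := hL
  simp only [List.nodup_cons, List.mem_cons, List.not_mem_nil, or_false, not_or,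
    List.nodup_nil, not_false_eq_true, and_true] at hn
  obtain ⟨⟨n1, n2, n3, n4, n5, n6, n7⟩, ⟨n8, n9, n10, n11, n12, n13⟩, ⟨n14, n15, n16, n17, n18⟩,
    ⟨n19, n20, n21, n22⟩, ⟨n23, n24, n25⟩, ⟨n26, n27⟩, n28⟩ := hn
  have ow := ho w (by simp)
  have ow' := ho w' (by simp)
  have ox := ho x (by simp)
  have ox' := ho x' (by simp)
  have ou := ho u (by simp)
  have ou' := ho u' (by simp)
  have oy := ho y (by simp)
  have oy' := ho y' (by simp)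
  have sw : ∀ {a b : V}, s(a, b) ∈ E → s(b, a) ∈ E := fun h => Sym2.eq_swap ▸ h
  set X := red1 E w w' x x' u u' y y' with hX
  have hm : ∀ e, e ∈ X ↔ (e ∈ E ∧ (x ∉ e ∧ x' ∉ e ∧ u ∉ e ∧ u' ∉ e)) ∨ e = s(w, y) ∨
      e = s(w', y') := fun e => by
    simp only [hX, red1, mem_union, mem_filter, mem_insert, mem_singleton]
  have okk : ∀ a b : V, (x ≠ a ∧ x' ≠ a ∧ u ≠ a ∧ u' ≠ a) → (x ≠ b ∧ x' ≠ b ∧ u ≠ b ∧ u' ≠ b) →
      (x ∉ s(a, b) ∧ x' ∉ s(a, b) ∧ u ∉ s(a, b) ∧ u' ∉ s(a, b)) := fun a b h1 h2 => by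
    simp only [Sym2.mem_iff, not_or]
    exact ⟨⟨h1.1, h2.1⟩, ⟨h1.2.1, h2.2.1⟩, ⟨h1.2.2.1, h2.2.2.1⟩, h1.2.2.2, h2.2.2.2⟩
  have gw : x ≠ w ∧ x' ≠ w ∧ u ≠ w ∧ u' ≠ w := ⟨Ne.symm n2, Ne.symm n3, Ne.symm n4, Ne.symm n5⟩
  have gw' : x ≠ w' ∧ x' ≠ w' ∧ u ≠ w' ∧ u' ≠ w' :=
    ⟨Ne.symm n8, Ne.symm n9, Ne.symm n10, Ne.symm n11⟩
  have gy : x ≠ y ∧ x' ≠ y ∧ u ≠ y ∧ u' ≠ y := ⟨n17, n21, n24, n26⟩
  have gy' : x ≠ y' ∧ x' ≠ y' ∧ u ≠ y' ∧ u' ≠ y' := ⟨n18, n22, n25, n27⟩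
  have gz : x ≠ z ∧ x' ≠ z ∧ u ≠ z ∧ u' ≠ z := ⟨ox.1.symm, ox'.1.symm, ou.1.symm, ou'.1.symm⟩
  have gz' : x ≠ z' ∧ x' ≠ z' ∧ u ≠ z' ∧ u' ≠ z' :=
    ⟨ox.2.1.symm, ox'.2.1.symm, ou.2.1.symm, ou'.2.1.symm⟩
  have gt : x ≠ t ∧ x' ≠ t ∧ u ≠ t ∧ u' ≠ t :=
    ⟨ox.2.2.1.symm, ox'.2.2.1.symm, ou.2.2.1.symm, ou'.2.2.1.symm⟩
  have gt' : x ≠ t' ∧ x' ≠ t' ∧ u ≠ t' ∧ u' ≠ t' :=
    ⟨ox.2.2.2.symm, ox'.2.2.2.symm, ou.2.2.2.symm, ou'.2.2.2.symm⟩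
  have dw : deg X w = 3 :=
    red1a_endv hE (fun e => x ∉ e ∧ x' ∉ e ∧ u ∉ e ∧ u' ∉ e) hm
      (by simp only [Sym2.mem_iff, not_or]; exact ⟨n1, n7⟩) ew ez ewx (okk _ _ gw gw')
      (okk _ _ gw gz) (fun k => k.1 (Sym2.mem_mk_right _ _)) ow'.1.symm n12 oy.1
  have dw' : deg X w' = 3 :=
    red1a_endv (f := s(w, y)) (c := y') hE (fun e => x ∉ e ∧ x' ∉ e ∧ u ∉ e ∧ u' ∉ e)
      (fun e => (hm e).trans (or_congr_right or_comm))
      (by simp only [Sym2.mem_iff, not_or]; exact ⟨Ne.symm n1, n12⟩) (sw ew) ez' ewx'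
      (okk _ _ gw' gw) (okk _ _ gw' gz') (fun k => k.2.1 (Sym2.mem_mk_right _ _))
      ow.2.1.symm n7 oy'.2.1
  have dy : deg X y = 3 :=
    red1a_endv (f := s(w', y')) (c := w) hE (fun e => x ∉ e ∧ x' ∉ e ∧ u ∉ e ∧ u' ∉ e)
      (fun e => by rw [hm e, Sym2.eq_swap (a := w) (b := y)])
      (by simp only [Sym2.mem_iff, not_or]; exact ⟨Ne.symm n12, n28⟩) ey et (sw euy)
      (okk _ _ gy gy') (okk _ _ gy gt) (fun k => k.2.2.1 (Sym2.mem_mk_right _ _))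
      oy'.2.2.1.symm (Ne.symm n7) ow.2.2.1
  have dy' : deg X y' = 3 :=
    red1a_endv (f := s(w, y)) (c := w') hE (fun e => x ∉ e ∧ x' ∉ e ∧ u ∉ e ∧ u' ∉ e)
      (fun e => by
        rw [hm e, Sym2.eq_swap (a := w') (b := y')]; exact or_congr_right or_comm)
      (by simp only [Sym2.mem_iff, not_or]; exact ⟨Ne.symm n7, Ne.symm n28⟩) (sw ey) et' (sw euy')
      (okk _ _ gy' gy) (okk _ _ gy' gt') (fun k => k.2.2.2 (Sym2.mem_mk_right _ _))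
      oy.2.2.2.symm (Ne.symm n12) ow'.2.2.2
  have hok : ∀ e ∈ X, x ∉ e ∧ x' ∉ e ∧ u ∉ e ∧ u' ∉ e := fun e he => by
    rcases (hm e).1 he with k | k | k
    · exact k.2
    · exact k ▸ okk _ _ gw gy
    · exact k ▸ okk _ _ gw' gy'
  have d0 : ∀ v, (v = x ∨ v = x' ∨ v = u ∨ v = u') → deg X v = 0 := fun v hv => by
    unfold deg
    rw [card_eq_zero, filter_eq_empty_iff]
    intro e he hve
    obtain ⟨k1, k2, k3, k4⟩ := hok e he
    rcases hv with rfl | rfl | rfl | rfl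
    exacts [k1 hve, k2 hve, k3 hve, k4 hve]
  have sx := nbr_sat hE ex (sw ewx) exu (Ne.symm n3) n19 n4
  have sx' := nbr_sat hE (sw ex) (sw ewx') exu' (Ne.symm n8) n16 n11
  have su := nbr_sat hE eu (sw exu) euy (Ne.symm n16) n26 n17
  have su' := nbr_sat hE (sw eu) (sw exu') euy' (Ne.symm n19) n25 n22
  have d1 : ∀ v, ¬ (v = x ∨ v = x' ∨ v = u ∨ v = u') → ¬ (v = w ∨ v = w' ∨ v = y ∨ v = y') →
      deg X v = deg E v := fun v h1 h2 => by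
    simp only [not_or] at h1 h2
    obtain ⟨a1, a2, a3, a4⟩ := h1
    obtain ⟨b1, b2, b3, b4⟩ := h2
    unfold deg
    congr 1
    ext e
    simp only [mem_filter, hm]
    constructor
    · rintro ⟨k | k | k, h3⟩
      · exact ⟨k.1, h3⟩
      · rw [k, Sym2.mem_iff] at h3
        exact absurd h3 (not_or.2 ⟨b1, b3⟩)
      · rw [k, Sym2.mem_iff] at h3
        exact absurd h3 (not_or.2 ⟨b2, b4⟩)
    · rintro ⟨h3, h4⟩
      refine ⟨Or.inl ⟨h3, fun k => ?_, fun k => ?_, fun k => ?_, fun k => ?_⟩, h4⟩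
      · rcases sx e h3 k with q | q | q <;> rw [q, Sym2.mem_iff] at h4
        exacts [h4.elim a1 a2, h4.elim a1 b1, h4.elim a1 a3]
      · rcases sx' e h3 k with q | q | q <;> rw [q, Sym2.mem_iff] at h4
        exacts [h4.elim a2 a1, h4.elim a2 b2, h4.elim a2 a4]
      · rcases su e h3 k with q | q | q <;> rw [q, Sym2.mem_iff] at h4
        exacts [h4.elim a3 a4, h4.elim a3 a1, h4.elim a3 b3]
      · rcases su' e h3 k with q | q | q <;> rw [q, Sym2.mem_iff] at h4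
        exacts [h4.elim a4 a3, h4.elim a4 a2, h4.elim a4 b4]
  have d3 : ∀ v, (v = w ∨ v = w' ∨ v = y ∨ v = y') → deg X v = 3 ∧ v ∈ supp E := fun v hv => by
    rcases hv with rfl | rfl | rfl | rfl
    · exact ⟨dw, mem_supp.2 ⟨_, ew, Sym2.mem_mk_left _ _⟩⟩
    · exact ⟨dw', mem_supp.2 ⟨_, ew, Sym2.mem_mk_right _ _⟩⟩
    · exact ⟨dy, mem_supp.2 ⟨_, ey, Sym2.mem_mk_left _ _⟩⟩
    · exact ⟨dy', mem_supp.2 ⟨_, ey, Sym2.mem_mk_right _ _⟩⟩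
  have hs : supp X = supp E \ {x, x', u, u'} := by
    ext v
    simp only [mem_sdiff, mem_insert, mem_singleton]
    by_cases h1 : v = x ∨ v = x' ∨ v = u ∨ v = u'
    · rw [mem_supp_iff_deg, d0 v h1]
      exact ⟨fun k => absurd rfl k, fun k => absurd h1 k.2⟩
    · by_cases h2 : v = w ∨ v = w' ∨ v = y ∨ v = y'
      · rw [mem_supp_iff_deg, (d3 v h2).1]
        exact ⟨fun _ => ⟨(d3 v h2).2, h1⟩, fun _ => by norm_num⟩
      · rw [mem_supp_iff_deg, mem_supp_iff_deg, d1 v h1 h2]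
        exact ⟨fun k => ⟨k, h1⟩, fun k => k.1⟩
  refine ⟨⟨fun e he => ?_, fun v => ?_⟩, hs, ?_⟩
  · rcases (hm e).1 he with k | k | k
    · exact hE.1 e k.1
    · rw [k, Sym2.mk_isDiag_iff]; exact n6
    · rw [k, Sym2.mk_isDiag_iff]; exact n13
  · by_cases h1 : v = x ∨ v = x' ∨ v = u ∨ v = u'
    · exact Or.inl (d0 v h1)
    · by_cases h2 : v = w ∨ v = w' ∨ v = y ∨ v = y'
      · exact Or.inr (d3 v h2).1
      · rw [d1 v h1 h2]; exact hE.2 v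
  · have hsub : ({x, x', u, u'} : Finset V) ⊆ supp E := fun v hv => by
      simp only [mem_insert, mem_singleton] at hv
      rcases hv with rfl | rfl | rfl | rfl
      · exact mem_supp.2 ⟨_, ex, Sym2.mem_mk_left _ _⟩
      · exact mem_supp.2 ⟨_, ex, Sym2.mem_mk_right _ _⟩
      · exact mem_supp.2 ⟨_, eu, Sym2.mem_mk_left _ _⟩
      · exact mem_supp.2 ⟨_, eu, Sym2.mem_mk_right _ _⟩
    have hc : ({x, x', u, u'} : Finset V).card = 4 := by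
      rw [card_insert_of_notMem (by simp [n14, n15, n16]),
        card_insert_of_notMem (by simp [n19, n20]), card_pair n23]
    rw [hs, ← hc]
    exact card_sdiff_add_card_eq_card hsub

end Pool.Agent.CDC36
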