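import Pool.Agent.Lib.MP_32fd1f_co.Basic

set_option autoImplicit false

namespace Pool.Agent.CDC36

open Finset

variable {V : Type} [Fintype V] [DecidableEq V]

omit [Fintype V] in
theorem red2a_avoid {E : Finset (Sym2 V)} {w w' x x' u u' y y' z z' t t' : V}
    (hL : LadX E w w' x x' u u' y y' z z' t t') :
    ∀ e ∈ red2 E w w' x x' u u' y y' z' t',
      w' ∉ e ∧ x ∉ e ∧ x' ∉ e ∧ u ∉ e ∧ u' ∉ e ∧ y' ∉ e := by
  obtain ⟨⟨hnd, -⟩, -, -, -, -, ho⟩ := hL
  simp only [List.nodup_cons, List.mem_cons, List.not_mem_nil, or_false, not_or] at hnd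
  simp only [List.mem_cons, List.not_mem_nil, or_false, forall_eq_or_imp, forall_eq] at ho
  intro e he
  rcases mem_union.1 he with h | h
  · exact (mem_filter.1 h).2
  · simp only [mem_insert, mem_singleton] at h
    rcases h with rfl | rfl | rfl <;> simp only [Sym2.mem_iff] <;> grind

theorem red2a_diff {E : Finset (Sym2 V)} (hE : Cubic E) {w w' x x' u u' y y' z z' t t' : V}
    (hL : LadX E w w' x x' u u' y y' z z' t t') (hz : z ≠ z') (ht : t ≠ t') :
    E \ red2 E w w' x x' u u' y y' z' t' =
        {s(w, w'), s(x, x'), s(u, u'), s(y, y'), s(w, x), s(x, u), s(u, y), s(w', x'), s(x', u'),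
          s(u', y'), s(w', z'), s(y', t')} ∧
      red2 E w w' x x' u u' y y' z' t' \ E = {s(w, z'), s(w, y), s(y, t')} := by
  have hav := red2a_avoid hL
  obtain ⟨⟨hnd, e1, e2, e3, e4, e5, e6, e7, e8, e9, e10⟩, f1, f2, f3, f4, ho⟩ := hL
  simp only [List.nodup_cons, List.mem_cons, List.not_mem_nil, or_false, not_or] at hnd
  simp only [List.mem_cons, List.not_mem_nil, or_false, forall_eq_or_imp, forall_eq] at ho
  have sw : ∀ {a b : V}, s(a, b) ∈ E → s(b, a) ∈ E := fun h => by rwa [Sym2.eq_swap]
  constructor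
  · ext e
    simp only [mem_sdiff, mem_insert, mem_singleton]
    constructor
    · rintro ⟨he, hn⟩
      have h6 : w' ∈ e ∨ x ∈ e ∨ x' ∈ e ∨ u ∈ e ∨ u' ∈ e ∨ y' ∈ e := by
        by_contra hc
        simp only [not_or] at hc
        exact hn (mem_union_left _ (mem_filter.2 ⟨he, hc⟩))
      rcases h6 with h | h | h | h | h | h
      · rcases nbr_sat hE (sw e1) e8 f2 (by grind) (by grind) (by grind) e he h with
          rfl | rfl | rfl <;> simp [Sym2.eq_swap]
      · rcases nbr_sat hE e2 (sw e5) e6 (by grind) (by grind) (by grind) e he h with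
          rfl | rfl | rfl <;> simp [Sym2.eq_swap]
      · rcases nbr_sat hE (sw e2) (sw e8) e9 (by grind) (by grind) (by grind) e he h with
          rfl | rfl | rfl <;> simp [Sym2.eq_swap]
      · rcases nbr_sat hE e3 (sw e6) e7 (by grind) (by grind) (by grind) e he h with
          rfl | rfl | rfl <;> simp [Sym2.eq_swap]
      · rcases nbr_sat hE (sw e3) (sw e9) e10 (by grind) (by grind) (by grind) e he h with
          rfl | rfl | rfl <;> simp [Sym2.eq_swap]
      · rcases nbr_sat hE (sw e4) (sw e10) f4 (by grind) (by grind) (by grind) e he h with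
          rfl | rfl | rfl <;> simp [Sym2.eq_swap]
    · rintro (rfl | rfl | rfl | rfl | rfl | rfl | rfl | rfl | rfl | rfl | rfl | rfl) <;>
        exact ⟨by assumption, fun h => by simpa using hav _ h⟩
  · ext e
    simp only [mem_sdiff, mem_insert, mem_singleton]
    constructor
    · rintro ⟨he, hn⟩
      rcases mem_union.1 he with h | h
      · exact absurd (mem_filter.1 h).1 hn
      · simpa only [mem_insert, mem_singleton] using h
    · intro h
      refine ⟨mem_union_right _ (by simpa only [mem_insert, mem_singleton] using h), fun he => ?_⟩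
      have a1 := nbr_sat hE e1 e5 f1 (by grind) (by grind) (by grind) e he
      have a2 := nbr_sat hE e4 (sw e7) f3 (by grind) (by grind) (by grind) e he
      rcases h with rfl | rfl | rfl
      · have := a1 (Sym2.mem_mk_left _ _)
        simp only [Sym2.congr_right] at this
        grind
      · have := a1 (Sym2.mem_mk_left _ _)
        simp only [Sym2.congr_right] at this
        grind
      · have := a2 (Sym2.mem_mk_left _ _)
        simp only [Sym2.congr_right] at this
        grind

omit [Fintype V] in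
theorem red2a_cnt {w w' x x' u u' y y' z z' t t' : V}
    (hnd : [w, w', x, x', u, u', y, y'].Nodup)
    (ho : ∀ v ∈ [w, w', x, x', u, u', y, y'], z ≠ v ∧ z' ≠ v ∧ t ≠ v ∧ t' ≠ v) (v : V)
    (hv : v ∉ ({w', x, x', u, u', y'} : Finset V)) :
    deg ({s(w, w'), s(x, x'), s(u, u'), s(y, y'), s(w, x), s(x, u), s(u, y), s(w', x'),
      s(x', u'), s(u', y'), s(w', z'), s(y', t')} : Finset (Sym2 V)) v =
      deg ({s(w, z'), s(w, y), s(y, t')} : Finset (Sym2 V)) v := by
  simp only [List.nodup_cons, List.mem_cons, List.not_mem_nil, or_false, not_or] at hnd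
  simp only [List.mem_cons, List.not_mem_nil, or_false, forall_eq_or_imp, forall_eq] at ho
  simp only [mem_insert, mem_singleton, not_or] at hv
  obtain ⟨v1, v2, v3, v4, v5, v6⟩ := hv
  have ins : ∀ (a b : V) (S : Finset (Sym2 V)), s(a, b) ∉ S →
      deg (insert s(a, b) S) v = (if v = a ∨ v = b then 1 else 0) + deg S v := by
    intro a b S h
    unfold deg
    rw [card_filter, card_filter, sum_insert h]
    simp only [Sym2.mem_iff]
  have out : ∀ (a b : V) (S : Finset (Sym2 V)), v ≠ a → v ≠ b →
      deg (insert s(a, b) S) v = deg S v := by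
    intro a b S h1 h2
    unfold deg
    rw [filter_insert, if_neg (by rw [Sym2.mem_iff]; exact not_or.2 ⟨h1, h2⟩)]
  have one : ∀ a b : V, deg ({s(a, b)} : Finset (Sym2 V)) v = if v = a ∨ v = b then 1 else 0 := by
    intro a b
    unfold deg
    rw [card_filter, sum_singleton]
    simp only [Sym2.mem_iff]
  have n1 : s(w, w') ∉ ({s(x, x'), s(u, u'), s(y, y'), s(w, x), s(x, u), s(u, y), s(w', x'),
      s(x', u'), s(u', y'), s(w', z'), s(y', t')} : Finset (Sym2 V)) := by
    simp only [mem_insert, mem_singleton, Sym2.eq_iff]; clear ins out one; grind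
  have n2 : s(y, y') ∉ ({s(w, x), s(x, u), s(u, y), s(w', x'),
      s(x', u'), s(u', y'), s(w', z'), s(y', t')} : Finset (Sym2 V)) := by
    simp only [mem_insert, mem_singleton, Sym2.eq_iff]; clear ins out one n1; grind
  have n3 : s(w, x) ∉ ({s(x, u), s(u, y), s(w', x'),
      s(x', u'), s(u', y'), s(w', z'), s(y', t')} : Finset (Sym2 V)) := by
    simp only [mem_insert, mem_singleton, Sym2.eq_iff]; clear ins out one n1 n2; grind
  have n4 : s(u, y) ∉ ({s(w', x'),
      s(x', u'), s(u', y'), s(w', z'), s(y', t')} : Finset (Sym2 V)) := by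
    simp only [mem_insert, mem_singleton, Sym2.eq_iff]; clear ins out one n1 n2 n3; grind
  have n5 : s(w', z') ∉ ({s(y', t')} : Finset (Sym2 V)) := by
    simp only [mem_singleton, Sym2.eq_iff]; clear ins out one n1 n2 n3 n4; grind
  have n6 : s(w, z') ∉ ({s(w, y), s(y, t')} : Finset (Sym2 V)) := by
    simp only [mem_insert, mem_singleton, Sym2.eq_iff]; clear ins out one n1 n2 n3 n4 n5; grind
  have n7 : s(w, y) ∉ ({s(y, t')} : Finset (Sym2 V)) := by
    simp only [mem_singleton, Sym2.eq_iff]; clear ins out one n1 n2 n3 n4 n5 n6; grind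
  rw [ins _ _ _ n1, out _ _ _ v2 v3, out _ _ _ v4 v5, ins _ _ _ n2, ins _ _ _ n3, out _ _ _ v2 v4,
    ins _ _ _ n4, out _ _ _ v1 v3, out _ _ _ v3 v5, out _ _ _ v5 v6, ins _ _ _ n5, one,
    ins _ _ _ n6, ins _ _ _ n7, one]
  clear ins out one n1 n2 n3 n4 n5 n6 n7
  simp only [v1, v2, v4, v6, or_false, false_or]
  grind

theorem red2a_deg {E : Finset (Sym2 V)} (hE : Cubic E) {w w' x x' u u' y y' z z' t t' : V}
    (hL : LadX E w w' x x' u u' y y' z z' t t') (hz : z ≠ z') (ht : t ≠ t') (v : V)
    (hv : v ∉ ({w', x, x', u, u', y'} : Finset V)) :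
    deg (red2 E w w' x x' u u' y y' z' t') v = deg E v := by
  obtain ⟨d1, d2⟩ := red2a_diff hE hL hz ht
  have b := red2a_cnt hL.1.1 hL.2.2.2.2.2 v hv
  rw [← d1, ← d2] at b
  generalize red2 E w w' x x' u u' y y' z' t' = R at b ⊢
  have a1 := deg_sdiff (inter_subset_left (s₁ := E) (s₂ := R)) v
  have a2 := deg_sdiff (inter_subset_right (s₁ := E) (s₂ := R)) v
  rw [sdiff_inter_self_left] at a1
  rw [sdiff_inter_self_right] at a2
  omega

theorem red2a {E : Finset (Sym2 V)} (hE : Cubic E) {w w' x x' u u' y y' z z' t t' : V}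
    (hL : LadX E w w' x x' u u' y y' z z' t t') (hz : z ≠ z') (ht : t ≠ t') :
    Cubic (red2 E w w' x x' u u' y y' z' t') ∧
      supp (red2 E w w' x x' u u' y y' z' t') = supp E \ {w', x, x', u, u', y'} ∧
      (supp (red2 E w w' x x' u u' y y' z' t')).card + 6 = (supp E).card := by
  have hav := red2a_avoid hL
  have hdeg := red2a_deg hE hL hz ht
  obtain ⟨⟨hnd, e1, e2, e3, e4, -⟩, -, -, -, -, ho⟩ := hL
  simp only [List.nodup_cons, List.mem_cons, List.not_mem_nil, or_false, not_or] at hnd
  simp only [List.mem_cons, List.not_mem_nil, or_false, forall_eq_or_imp, forall_eq] at ho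
  have h0 : ∀ v ∈ ({w', x, x', u, u', y'} : Finset V),
      deg (red2 E w w' x x' u u' y y' z' t') v = 0 := by
    intro v hv
    unfold deg
    rw [card_eq_zero, filter_eq_empty_iff]
    intro e he
    have := hav e he
    simp only [mem_insert, mem_singleton] at hv
    rcases hv with rfl | rfl | rfl | rfl | rfl | rfl <;> tauto
  have hs : supp (red2 E w w' x x' u u' y y' z' t') = supp E \ {w', x, x', u, u', y'} := by
    ext v
    rw [mem_sdiff, mem_supp_iff_deg, mem_supp_iff_deg]
    by_cases hv : v ∈ ({w', x, x', u, u', y'} : Finset V)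
    · rw [h0 v hv]; simp only [hv, ne_eq, not_true_eq_false, and_false]
    · rw [hdeg v hv]; simp only [hv, not_false_eq_true, and_true]
  refine ⟨⟨fun e he => ?_, fun v => ?_⟩, hs, ?_⟩
  · rcases mem_union.1 he with h | h
    · exact hE.1 e (mem_filter.1 h).1
    · simp only [mem_insert, mem_singleton] at h
      rcases h with rfl | rfl | rfl <;> rw [Sym2.mk_isDiag_iff] <;> grind
  · by_cases hv : v ∈ ({w', x, x', u, u', y'} : Finset V)
    · exact Or.inl (h0 v hv)
    · rw [hdeg v hv]; exact hE.2 v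
  · have hsub : ({w', x, x', u, u', y'} : Finset V) ⊆ supp E := by
      intro v hv
      simp only [mem_insert, mem_singleton] at hv
      rw [mem_supp]
      rcases hv with rfl | rfl | rfl | rfl | rfl | rfl
      exacts [⟨_, e1, by simp⟩, ⟨_, e2, by simp⟩, ⟨_, e2, by simp⟩, ⟨_, e3, by simp⟩,
        ⟨_, e3, by simp⟩, ⟨_, e4, by simp⟩]
    have hc : ({w', x, x', u, u', y'} : Finset V).card = 6 := by
      repeat rw [card_insert_of_notMem (by simp only [mem_insert, mem_singleton]; grind)]
      rw [card_singleton]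
    rw [hs, ← hc]
    exact card_sdiff_add_card_eq_card hsub

/-- the edges of `E` that are not in `red2`, and the new edges -/
theorem red2_diff {E : Finset (Sym2 V)} (hE : Cubic E) {w w' x x' u u' y y' z z' t t' : V}
    (hL : LadX E w w' x x' u u' y y' z z' t t') (hz : z ≠ z') (ht : t ≠ t') :
    E \ red2 E w w' x x' u u' y y' z' t' =
        {s(w, w'), s(x, x'), s(u, u'), s(y, y'), s(w, x), s(x, u), s(u, y), s(w', x'), s(x', u'),
          s(u', y'), s(w', z'), s(y', t')} ∧
      red2 E w w' x x' u u' y y' z' t' \ E = {s(w, z'), s(w, y), s(y, t')} :=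
  red2a_diff hE hL hz ht

end Pool.Agent.CDC36
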