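import Pool.Agent.Lib.MP_32fd1f_co.EnumC
import Pool.Agent.Lib.MP_32fd1f_co.EnumL

set_option autoImplicit false

namespace Pool.Agent.CDC36

open Finset

variable {V : Type} [Fintype V] [DecidableEq V]

private theorem walk_aux (G : SimpleGraph V) (v : ℕ → V) (n : ℕ)
    (h : ∀ i, i < n → G.Adj (v i) (v (i + 1))) :
    ∃ w : G.Walk (v 0) (v n), w.edges = (List.range n).map (fun i => s(v i, v (i + 1))) ∧
      w.support = (List.range (n + 1)).map v := by
  induction n with
  | zero => exact ⟨SimpleGraph.Walk.nil, by simp, by simp⟩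
  | succ n ih =>
    obtain ⟨w, h1, h2⟩ := ih (fun i hi => h i (by omega))
    refine ⟨w.concat (h n (by omega)), ?_, ?_⟩
    · rw [SimpleGraph.Walk.edges_concat, h1, List.range_succ]
      simp
    · rw [SimpleGraph.Walk.support_concat, h2, List.range_succ (n := n + 1)]
      simp

theorem walk (G : SimpleGraph V) {C : Finset (Sym2 V)} (hC : Circ C) (hG : ∀ e ∈ C, e ∈ G.edgeSet) :
    ∃ (u : V) (c : G.Walk u u), c.IsCycle ∧ ∀ e, e ∈ c.edges ↔ e ∈ C := by
  obtain ⟨e0, he0⟩ := hC.1
  induction e0 using Sym2.ind with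
  | _ a b =>
  obtain ⟨h3, v, hv, -, -⟩ := enum hC he0
  have hper : v C.card = v 0 := by simpa using hv.1 0
  obtain ⟨w, h1, h2⟩ := walk_aux G v C.card (fun i hi => by
    have := hG _ ((hv.2.2 _).2 ⟨i, hi, rfl⟩)
    simpa using this)
  refine ⟨v 0, w.copy rfl hper, ?_, ?_⟩
  · rw [SimpleGraph.Walk.isCycle_def]
    refine ⟨?_, ?_, ?_⟩
    · rw [SimpleGraph.Walk.isTrail_def, SimpleGraph.Walk.edges_copy, h1]
      refine List.Nodup.map_on ?_ List.nodup_range
      intro i hi j hj hij
      exact enum_inj hv h3 (List.mem_range.1 hi) (List.mem_range.1 hj) hij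
    · intro hn
      have h4 := congrArg (fun p => p.edges.length) hn
      simp only [SimpleGraph.Walk.edges_copy, h1, List.length_map, List.length_range,
        SimpleGraph.Walk.edges_nil, List.length_nil] at h4
      omega
    · rw [SimpleGraph.Walk.support_copy, h2, List.range_succ_eq_map, List.map_cons, List.tail_cons,
        List.map_map]
      refine List.Nodup.map_on ?_ List.nodup_range
      intro i hi j hj hij
      rw [List.mem_range] at hi hj
      have hij' : v (i + 1) = v (j + 1) := hij
      by_cases hi' : i + 1 < C.card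
      · by_cases hj' : j + 1 < C.card
        · have := hv.2.1 _ _ hi' hj' hij'
          omega
        · have e : j + 1 = C.card := by omega
          rw [e, hper] at hij'
          have := hv.2.1 _ _ hi' (by omega) hij'
          omega
      · by_cases hj' : j + 1 < C.card
        · have e : i + 1 = C.card := by omega
          rw [e, hper] at hij'
          have := hv.2.1 _ _ (by omega) hj' hij'
          omega
        · omega
  · intro e
    rw [SimpleGraph.Walk.edges_copy, h1, hv.2.2 e, List.mem_map]
    constructor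
    · rintro ⟨i, hi, rfl⟩
      exact ⟨i, List.mem_range.1 hi, rfl⟩
    · rintro ⟨i, hi, rfl⟩
      exact ⟨i, List.mem_range.2 hi, rfl⟩

theorem out (G : SimpleGraph V) [DecidableRel G.Adj] {M : Multiset (Finset (Sym2 V))}
    (hM : MCDC G.edgeFinset M) :
    ∃ u : Fin M.card → V, ∃ c : (i : Fin M.card) → G.Walk (u i) (u i),
      (∀ i, (c i).IsCycle) ∧
      ∀ e ∈ G.edgeSet, (Finset.univ.filter (fun i : Fin M.card => e ∈ (c i).edges)).card = 2 := by
  induction M using Quotient.inductionOn with
  | _ l =>
  have hl : ∀ i : Fin l.length, l.get i ∈ (↑l : Multiset (Finset (Sym2 V))) := fun i =>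
    Multiset.mem_coe.2 (List.get_mem l i)
  have hsub : ∀ i : Fin l.length, ∀ e ∈ l.get i, e ∈ G.edgeSet := by
    intro i e he
    by_contra hn
    have h1 := hM.2 e
    rw [if_neg (by simpa using hn)] at h1
    exact (Multiset.countP_eq_zero.1 h1) _ (hl i) he
  choose u c hc1 hc2 using fun i : Fin l.length => walk G (hM.1 _ (hl i)) (hsub i)
  refine ⟨u, c, hc1, fun e he => ?_⟩
  have h1 := hM.2 e
  rw [if_pos (by simpa using he)] at h1
  rw [← h1]
  have h2 : (↑l : Multiset (Finset (Sym2 V))) = (Finset.univ : Finset (Fin l.length)).val.map l.get := by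
    rw [Fin.univ_val_map, List.ofFn_get]
  have h3 : Multiset.countP (fun C => e ∈ C) (↑l : Multiset (Finset (Sym2 V))) =
      (Finset.univ.filter (fun i : Fin l.length => e ∈ l.get i)).card := by
    conv_lhs => rw [h2]
    rw [Multiset.countP_map]
    rfl
  refine Eq.trans ?_ h3.symm
  congr 1
  exact Finset.filter_congr (fun i _ => hc2 i e)

end Pool.Agent.CDC36
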